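import Mathlib
import Pool.Agent.Helper608.Brouwer

/-! A linking (minimax) theorem in finite dimension for functions whose gradient is uniformly
continuous, by discrete gradient descent and Brouwer's theorem. -/

set_option autoImplicit false

open Set Filter Topology

namespace Pool.Agent.J4H19.Link

/-- Linking: the graph `i W` of the plane `W` in `V` and the fibre `p = 0`. The function `Φ` is at
least `β'` on the fibre and at most `β < β'` far out on `i W`. Then it has a critical point of level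
at least `β`. -/
theorem linking {V W : Type*} [NormedAddCommGroup V] [NormedSpace ℝ V] [FiniteDimensional ℝ V]
    [NormedAddCommGroup W] [NormedSpace ℝ W] [FiniteDimensional ℝ W]
    (i : W → V) (hi : Continuous i) (p : V → W) (hp : Continuous p) (hpi : ∀ w, p (i w) = w)
    (Φ : V → ℝ) (hΦ : Continuous Φ) (g : V → V) (hg : Continuous g) (β β' C : ℝ) (hβ : β < β')
    (hdesc : ∀ d > 0, ∃ h > 0, ∀ x, d ≤ ‖g x‖ → ∀ s : ℝ, 0 ≤ s → s ≤ h →
      Φ (x - s • g x) ≤ Φ x - s / 2 * ‖g x‖ ^ 2)
    (R d0 : ℝ) (hd0 : 0 < d0) (hco : ∀ x, ‖g x‖ ≤ d0 → β ≤ Φ x → ‖x‖ ≤ R)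
    (hΓ : ∀ x, p x = 0 → β' ≤ Φ x) (ρ : ℝ) (h1 : ∀ w, ρ ≤ ‖w‖ → Φ (i w) ≤ β)
    (hC : ∀ w, Φ (i w) ≤ C) :
    ∃ x, g x = 0 ∧ β ≤ Φ x := by
  by_contra hcon
  push Not at hcon
  obtain ⟨d, hd, hdg⟩ : ∃ d : ℝ, 0 < d ∧ ∀ x, β ≤ Φ x → d ≤ ‖g x‖ := by
    set Z : Set V := {x | β ≤ Φ x ∧ ‖g x‖ ≤ d0} with hZ
    have hZcl : IsClosed Z :=
      (isClosed_le continuous_const hΦ).inter (isClosed_le hg.norm continuous_const)
    have hZb : Bornology.IsBounded Z := by
      refine (Metric.isBounded_closedBall (x := (0 : V)) (r := R)).subset ?_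
      intro x hx
      rw [Metric.mem_closedBall, dist_zero_right]
      exact hco x hx.2 hx.1
    have hZc : IsCompact Z := Metric.isCompact_of_isClosed_isBounded hZcl hZb
    rcases Z.eq_empty_or_nonempty with hZe | hZne
    · refine ⟨d0, hd0, ?_⟩
      intro x h1x
      by_contra hlt
      push Not at hlt
      have : x ∈ Z := ⟨h1x, hlt.le⟩
      rw [hZe] at this
      exact this
    · obtain ⟨z, hz, hzmin⟩ := hZc.exists_isMinOn hZne hg.norm.continuousOn
      have hzpos : 0 < ‖g z‖ := by
        rw [norm_pos_iff]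
        intro h0z
        exact absurd hz.1 (not_le.mpr (hcon z h0z))
      refine ⟨min d0 ‖g z‖, lt_min hd0 hzpos, ?_⟩
      intro x h1x
      by_cases hle : ‖g x‖ ≤ d0
      · exact (min_le_right _ _).trans (hzmin (show x ∈ Z from ⟨h1x, hle⟩))
      · exact (min_le_left _ _).trans (not_le.mp hle).le
  obtain ⟨h, hh, hdesc'⟩ := hdesc d hd
  have hββ : 0 < β' - β := by linarith
  set χ : V → ℝ := fun x => max 0 (min 1 ((Φ x - β) / (β' - β))) with hχ
  have hχc : Continuous χ := by
    rw [hχ]
    exact continuous_const.max (continuous_const.min ((hΦ.sub continuous_const).div_const _))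
  have hχ0 : ∀ x, 0 ≤ χ x := fun x => le_max_left _ _
  have hχ1 : ∀ x, χ x ≤ 1 := fun x => max_le zero_le_one (min_le_left _ _)
  set D : V → V := fun x => x - (h * χ x) • g x with hD
  have hDc : Continuous D := by
    rw [hD]
    exact continuous_id.sub ((continuous_const.mul hχc).smul hg)
  have hDfix : ∀ x, Φ x ≤ β → D x = x := by
    intro x hx
    have : χ x = 0 := by
      apply max_eq_left
      exact (min_le_right _ _).trans (div_nonpos_of_nonpos_of_nonneg (by linarith) hββ.le)
    simp only [hD, this, mul_zero, zero_smul, sub_zero]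
  have hDdesc : ∀ x, β ≤ Φ x → Φ (D x) ≤ Φ x - (h * χ x) / 2 * ‖g x‖ ^ 2 := by
    intro x hx
    apply hdesc' x (hdg x hx)
    · exact mul_nonneg hh.le (hχ0 x)
    · calc h * χ x ≤ h * 1 := mul_le_mul_of_nonneg_left (hχ1 x) hh.le
        _ = h := mul_one h
  have hDmono : ∀ x, Φ (D x) ≤ Φ x := by
    intro x
    rcases le_total (Φ x) β with hx | hx
    · rw [hDfix x hx]
    · have := hDdesc x hx
      have h2 : 0 ≤ (h * χ x) / 2 * ‖g x‖ ^ 2 := by
        have := hχ0 x
        positivity
      linarith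
  have hDstrong : ∀ x, β' ≤ Φ x → Φ (D x) ≤ Φ x - h / 2 * d ^ 2 := by
    intro x h1x
    have h3 := hDdesc x (by linarith)
    have h4 : χ x = 1 := by
      have h5 : 1 ≤ (Φ x - β) / (β' - β) := by rw [le_div_iff₀ hββ, one_mul]; linarith
      show max 0 (min 1 ((Φ x - β) / (β' - β))) = 1
      rw [min_eq_left h5]
      exact max_eq_right zero_le_one
    rw [h4, mul_one] at h3
    have h5 := hdg x (by linarith)
    have h6 : d ^ 2 ≤ ‖g x‖ ^ 2 := by
      apply pow_le_pow_left₀ hd.le h5
    have h7 : h / 2 * d ^ 2 ≤ h / 2 * ‖g x‖ ^ 2 := mul_le_mul_of_nonneg_left h6 (by positivity)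
    linarith
  have hitfix : ∀ m : ℕ, ∀ x, Φ x ≤ β → D^[m] x = x := by
    intro m
    induction m with
    | zero => intro x _; rfl
    | succ m ih =>
      intro x hx
      rw [Function.iterate_succ_apply, hDfix x hx]
      exact ih x hx
  have hitmono : ∀ m : ℕ, ∀ x, Φ (D^[m] x) ≤ Φ x := by
    intro m
    induction m with
    | zero => intro x; exact le_rfl
    | succ m ih =>
      intro x
      rw [Function.iterate_succ_apply']
      exact (hDmono _).trans (ih x)
  have hitstrong : ∀ m : ℕ, ∀ x, Φ x ≤ C → β' ≤ Φ (D^[m] x) →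
      Φ (D^[m] x) ≤ C - m * (h / 2 * d ^ 2) := by
    intro m
    induction m with
    | zero => intro x hx _; simpa using hx
    | succ m ih =>
      intro x hx hβx
      rw [Function.iterate_succ_apply'] at hβx ⊢
      have h3 : β' ≤ Φ (D^[m] x) := hβx.trans (hDmono _)
      have h4 := ih x hx h3
      have h5 := hDstrong (D^[m] x) h3
      push_cast
      linarith
  obtain ⟨m, hm⟩ : ∃ m : ℕ, C - m * (h / 2 * d ^ 2) < β' := by
    obtain ⟨m, hm⟩ := exists_nat_gt ((C - β') / (h / 2 * d ^ 2))
    refine ⟨m, ?_⟩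
    rw [div_lt_iff₀ (by positivity)] at hm
    linarith
  set η : V → V := D^[m] with hη
  have hηc : Continuous η := hDc.iterate m
  have hηlt : ∀ x, Φ x ≤ C → Φ (η x) < β' := by
    intro x hx
    by_contra hge
    push Not at hge
    have := hitstrong m x hx hge
    linarith
  -- the linking map
  set k : W → W := fun w => p (η (i w)) with hk
  have hkc : Continuous k := hp.comp (hηc.comp hi)
  have hkfar : ∀ w : W, ρ ≤ ‖w‖ → k w = w := by
    intro w hw
    simp only [hk]
    rw [show η (i w) = i w from hitfix m _ (h1 w hw), hpi]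
  set f : W → W := fun w => w - k w with hf
  have hfc : Continuous f := continuous_id.sub hkc
  obtain ⟨M, hM⟩ : ∃ M : ℝ, ∀ u, ‖f u‖ ≤ M := by
    obtain ⟨M, hM⟩ := (isCompact_closedBall (0 : W) |ρ|).exists_bound_of_continuousOn
      hfc.continuousOn
    refine ⟨max M 0, ?_⟩
    intro u
    by_cases hu : ‖u‖ ≤ |ρ|
    · exact (hM u (by rw [Metric.mem_closedBall, dist_zero_right]; exact hu)).trans
        (le_max_left _ _)
    · push Not at hu
      have h3 : f u = 0 := by
        show u - k u = 0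
        rw [hkfar u ((le_abs_self ρ).trans hu.le), sub_self]
      rw [h3, norm_zero]
      exact le_max_right _ _
  obtain ⟨u, hu⟩ := Pool.Agent.Helper608.Brouwer.brouwer f hfc M hM
  have hku : k u = 0 := by
    have : u - k u = u := hu
    rwa [sub_eq_self] at this
  have h5 := hΓ _ hku
  exact absurd h5 (not_le.mpr (hηlt _ (hC u)))

end Pool.Agent.J4H19.Link
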