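import Mathlib
import Pool.Agent.J4H19.Link

/-! The functional `J` whose critical points are the rectangles with two adjacent vertices on one
graph and the two other ones on another graph. -/

set_option autoImplicit false

open Set Filter Topology

namespace Pool.Agent.J4H19.Fun

/-- The space of the variables `(m, δ, x, y)`. -/
abbrev V := ℝ × ℝ × ℝ × ℝ

/-- A primitive. -/
noncomputable def P (f : ℝ → ℝ) (t : ℝ) : ℝ := ∫ s in (0:ℝ)..t, f s

lemma P_sub {f : ℝ → ℝ} (hf : Continuous f) (s t : ℝ) : P f t - P f s = ∫ u in s..t, f u := by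
  unfold P
  exact intervalIntegral.integral_interval_sub_left (hf.intervalIntegrable _ _)
    (hf.intervalIntegrable _ _)

lemma P_err {f : ℝ → ℝ} (hf : Continuous f) (t τ η : ℝ)
    (h : ∀ s, |s - t| ≤ |τ| → |f s - f t| ≤ η) :
    |P f (t + τ) - P f t - f t * τ| ≤ η * |τ| := by
  have h1 : P f (t + τ) - P f t - f t * τ = ∫ u in t..(t+τ), (f u - f t) := by
    rw [P_sub hf, intervalIntegral.integral_sub (hf.intervalIntegrable _ _)
      (continuous_const.intervalIntegrable _ _), intervalIntegral.integral_const]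
    simp only [smul_eq_mul]
    ring
  rw [h1]
  have h2 := intervalIntegral.norm_integral_le_of_norm_le_const (a := t) (b := t + τ)
    (f := fun u => f u - f t) (C := η) (by
      intro u hu
      rw [Real.norm_eq_abs]
      apply h
      rcases le_total 0 τ with hτ | hτ
      · rw [uIoc_of_le (by linarith)] at hu
        rw [abs_of_nonneg hτ, abs_of_nonneg (by linarith [hu.1])]
        linarith [hu.2]
      · rw [uIoc_of_ge (by linarith)] at hu
        rw [abs_of_nonpos hτ, abs_of_nonpos (by linarith [hu.2])]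
        linarith [hu.1])
  rw [Real.norm_eq_abs] at h2
  calc _ ≤ η * |t + τ - t| := h2
    _ = η * |τ| := by rw [add_sub_cancel_left]

lemma P_cont {f : ℝ → ℝ} (hf : Continuous f) : Continuous (P f) := by
  unfold P
  exact intervalIntegral.continuous_primitive (fun a b => hf.intervalIntegrable a b) 0

/-- The functional. -/
noncomputable def J (φ ψ : ℝ → ℝ) (k₁ k₂ r : ℝ) (v : V) : ℝ :=
  P ψ (v.1 - v.2.1 / 2 + (v.2.2.1 - k₂ * v.2.2.2) / 2)
    - P ψ (v.1 - v.2.1 / 2 - (v.2.2.1 - k₂ * v.2.2.2) / 2)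
    - (P φ (v.1 + v.2.1 / 2 + (v.2.2.1 - k₁ * v.2.2.2) / 2)
      - P φ (v.1 + v.2.1 / 2 - (v.2.2.1 - k₁ * v.2.2.2) / 2))
    + v.2.2.2 * v.2.1 - r * (v.2.2.1 ^ 2 + v.2.2.2 ^ 2) / 2

/-- Its gradient. -/
noncomputable def g (φ ψ : ℝ → ℝ) (k₁ k₂ r : ℝ) (v : V) : V :=
  (ψ (v.1 - v.2.1 / 2 + (v.2.2.1 - k₂ * v.2.2.2) / 2)
    - ψ (v.1 - v.2.1 / 2 - (v.2.2.1 - k₂ * v.2.2.2) / 2)
    - (φ (v.1 + v.2.1 / 2 + (v.2.2.1 - k₁ * v.2.2.2) / 2)
      - φ (v.1 + v.2.1 / 2 - (v.2.2.1 - k₁ * v.2.2.2) / 2)),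
   v.2.2.2 - (ψ (v.1 - v.2.1 / 2 + (v.2.2.1 - k₂ * v.2.2.2) / 2)
    - ψ (v.1 - v.2.1 / 2 - (v.2.2.1 - k₂ * v.2.2.2) / 2)) / 2
    - (φ (v.1 + v.2.1 / 2 + (v.2.2.1 - k₁ * v.2.2.2) / 2)
      - φ (v.1 + v.2.1 / 2 - (v.2.2.1 - k₁ * v.2.2.2) / 2)) / 2,
   (ψ (v.1 - v.2.1 / 2 + (v.2.2.1 - k₂ * v.2.2.2) / 2)
    + ψ (v.1 - v.2.1 / 2 - (v.2.2.1 - k₂ * v.2.2.2) / 2)) / 2
    - (φ (v.1 + v.2.1 / 2 + (v.2.2.1 - k₁ * v.2.2.2) / 2)
      + φ (v.1 + v.2.1 / 2 - (v.2.2.1 - k₁ * v.2.2.2) / 2)) / 2 - r * v.2.2.1,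
   -(k₂ * (ψ (v.1 - v.2.1 / 2 + (v.2.2.1 - k₂ * v.2.2.2) / 2)
    + ψ (v.1 - v.2.1 / 2 - (v.2.2.1 - k₂ * v.2.2.2) / 2)) / 2)
    + k₁ * (φ (v.1 + v.2.1 / 2 + (v.2.2.1 - k₁ * v.2.2.2) / 2)
      + φ (v.1 + v.2.1 / 2 - (v.2.2.1 - k₁ * v.2.2.2) / 2)) / 2 + v.2.1 - r * v.2.2.2)

variable {φ ψ : ℝ → ℝ} {k₁ k₂ r M : ℝ}

lemma J_cont (hφ : Continuous φ) (hψ : Continuous ψ) : Continuous (J φ ψ k₁ k₂ r) := by
  have h1 := P_cont hφ
  have h2 := P_cont hψ
  unfold J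
  fun_prop

lemma g_cont (hφ : Continuous φ) (hψ : Continuous ψ) : Continuous (g φ ψ k₁ k₂ r) := by
  unfold g
  fun_prop

lemma norm4 (a b c d : ℝ) : |a| ≤ ‖((a, b, c, d) : V)‖ ∧ |b| ≤ ‖((a, b, c, d) : V)‖ ∧
    |c| ≤ ‖((a, b, c, d) : V)‖ ∧ |d| ≤ ‖((a, b, c, d) : V)‖ := by
  simp only [Prod.norm_def, Real.norm_eq_abs]
  refine ⟨le_max_left _ _, (le_max_left _ _).trans (le_max_right _ _),
    (le_max_left _ _).trans ((le_max_right _ _).trans (le_max_right _ _)),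
    (le_max_right _ _).trans ((le_max_right _ _).trans (le_max_right _ _))⟩

lemma norm4_sq (a b c d : ℝ) : ‖((a, b, c, d) : V)‖ ^ 2 ≤ a ^ 2 + b ^ 2 + c ^ 2 + d ^ 2 := by
  have h : ‖((a, b, c, d) : V)‖ = |a| ∨ ‖((a, b, c, d) : V)‖ = |b| ∨ ‖((a, b, c, d) : V)‖ = |c| ∨
      ‖((a, b, c, d) : V)‖ = |d| := by
    simp only [Prod.norm_def, Real.norm_eq_abs]
    rcases max_choice |a| (max |b| (max |c| |d|)) with h | h
    · exact Or.inl h
    · rw [h]
      rcases max_choice |b| (max |c| |d|) with h | h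
      · exact Or.inr (Or.inl h)
      · rw [h]
        rcases max_choice |c| |d| with h | h
        · exact Or.inr (Or.inr (Or.inl h))
        · exact Or.inr (Or.inr (Or.inr h))
  have ha := sq_nonneg a
  have hb := sq_nonneg b
  have hc := sq_nonneg c
  have hd := sq_nonneg d
  rcases h with h | h | h | h <;> rw [h, sq_abs] <;> linarith

/-- The four error terms. -/
lemma taylor (v : V) (s η : ℝ) (hs : 0 ≤ s) 
    (hη : 0 ≤ η)
    (herr : ∀ t τ : ℝ, |τ| ≤ s * ((2 + |k₁| + |k₂|) * ‖g φ ψ k₁ k₂ r v‖) →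
      |P φ (t + τ) - P φ t - φ t * τ| ≤ η * |τ| ∧ |P ψ (t + τ) - P ψ t - ψ t * τ| ≤ η * |τ|)
    (hr : 0 ≤ r) :
    J φ ψ k₁ k₂ r (v - s • g φ ψ k₁ k₂ r v) ≤ J φ ψ k₁ k₂ r v - s * ‖g φ ψ k₁ k₂ r v‖ ^ 2
      + 4 * (η * (s * ((2 + |k₁| + |k₂|) * ‖g φ ψ k₁ k₂ r v‖)))
      + s ^ 2 * ‖g φ ψ k₁ k₂ r v‖ ^ 2 := by
  obtain ⟨m, δ, x, y⟩ := v
  rcases hG : g φ ψ k₁ k₂ r (m, δ, x, y) with ⟨a, b, c, d⟩
  rw [hG] at herr
  have hn := norm4 a b c d
  have hn2 := norm4_sq a b c d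
  set N := ‖((a, b, c, d) : V)‖ with hN
  have hN0 : 0 ≤ N := norm_nonneg _
  have hk1 := abs_nonneg k₁
  have hk2 := abs_nonneg k₂
  simp only [g, Prod.mk.injEq] at hG
  obtain ⟨e1, e2, e3, e4⟩ := hG
  set t1 := m - δ / 2 + (x - k₂ * y) / 2 with ht1
  set t2 := m - δ / 2 - (x - k₂ * y) / 2 with ht2
  set t3 := m + δ / 2 + (x - k₁ * y) / 2 with ht3
  set t4 := m + δ / 2 - (x - k₁ * y) / 2 with ht4
  set τ1 := -s * (a - b / 2 + (c - k₂ * d) / 2) with hτ1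
  set τ2 := -s * (a - b / 2 - (c - k₂ * d) / 2) with hτ2
  set τ3 := -s * (a + b / 2 + (c - k₁ * d) / 2) with hτ3
  set τ4 := -s * (a + b / 2 - (c - k₁ * d) / 2) with hτ4
  have hJ0 : J φ ψ k₁ k₂ r (m, δ, x, y) = P ψ t1 - P ψ t2 - (P φ t3 - P φ t4) + y * δ
      - r * (x ^ 2 + y ^ 2) / 2 := rfl
  have hJ1 : J φ ψ k₁ k₂ r ((m, δ, x, y) - s • ((a, b, c, d) : V)) =
      P ψ (t1 + τ1) - P ψ (t2 + τ2) - (P φ (t3 + τ3) - P φ (t4 + τ4))
      + (y - s * d) * (δ - s * b) - r * ((x - s * c) ^ 2 + (y - s * d) ^ 2) / 2 := by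
    simp only [J, Prod.fst_sub, Prod.snd_sub, Prod.smul_fst, Prod.smul_snd, smul_eq_mul]
    have q1 : m - s * a - (δ - s * b) / 2 + (x - s * c - k₂ * (y - s * d)) / 2 = t1 + τ1 := by
      rw [ht1, hτ1]; ring
    have q2 : m - s * a - (δ - s * b) / 2 - (x - s * c - k₂ * (y - s * d)) / 2 = t2 + τ2 := by
      rw [ht2, hτ2]; ring
    have q3 : m - s * a + (δ - s * b) / 2 + (x - s * c - k₁ * (y - s * d)) / 2 = t3 + τ3 := by
      rw [ht3, hτ3]; ring
    have q4 : m - s * a + (δ - s * b) / 2 - (x - s * c - k₁ * (y - s * d)) / 2 = t4 + τ4 := by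
      rw [ht4, hτ4]; ring
    rw [q1, q2, q3, q4]
  have hbd : ∀ k : ℝ, |k| ≤ |k₁| + |k₂| → ∀ σ₁ σ₂ : ℝ, |σ₁| ≤ 1 → |σ₂| ≤ 1 →
      |-s * (a + σ₁ * b / 2 + σ₂ * (c - k * d) / 2)| ≤ s * ((2 + |k₁| + |k₂|) * N) := by
    intro k hk σ₁ σ₂ h1 h2
    rw [abs_mul, abs_neg, abs_of_nonneg hs]
    apply mul_le_mul_of_nonneg_left _ hs
    have h3 : |σ₁ * b / 2| ≤ N / 2 := by
      rw [abs_div, abs_mul, abs_of_pos (by norm_num : (0:ℝ) < 2)]
      have : |σ₁| * |b| ≤ 1 * N := mul_le_mul h1 hn.2.1 (abs_nonneg _) zero_le_one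
      linarith
    have h4 : |c - k * d| ≤ N + (|k₁| + |k₂|) * N := by
      have h5 : |k * d| ≤ (|k₁| + |k₂|) * N := by
        rw [abs_mul]
        exact mul_le_mul hk hn.2.2.2 (abs_nonneg _) (by positivity)
      exact (abs_sub _ _).trans (add_le_add hn.2.2.1 h5)
    have h6 : |σ₂ * (c - k * d) / 2| ≤ (N + (|k₁| + |k₂|) * N) / 2 := by
      rw [abs_div, abs_mul, abs_of_pos (by norm_num : (0:ℝ) < 2)]
      have : |σ₂| * |c - k * d| ≤ 1 * (N + (|k₁| + |k₂|) * N) :=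
        mul_le_mul h2 h4 (abs_nonneg _) zero_le_one
      linarith
    have h7 := abs_add_le (a + σ₁ * b / 2) (σ₂ * (c - k * d) / 2)
    have h8 := abs_add_le a (σ₁ * b / 2)
    have h9 : 0 ≤ (|k₁| + |k₂|) * N := by positivity
    have h10 : (2 + |k₁| + |k₂|) * N = 2 * N + (|k₁| + |k₂|) * N := by ring
    have h11 := hn.1
    rw [h10]
    linarith only [h3, h6, h7, h8, h9, h11]
  have b1 : |τ1| ≤ s * ((2 + |k₁| + |k₂|) * N) := by
    have := hbd k₂ (by linarith) (-1) 1 (by simp) (by simp)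
    rw [hτ1]; convert this using 3; ring
  have b2 : |τ2| ≤ s * ((2 + |k₁| + |k₂|) * N) := by
    have := hbd k₂ (by linarith) (-1) (-1) (by simp) (by simp)
    rw [hτ2]; convert this using 3; ring
  have b3 : |τ3| ≤ s * ((2 + |k₁| + |k₂|) * N) := by
    have := hbd k₁ (by linarith) 1 1 (by simp) (by simp)
    rw [hτ3]; convert this using 3; ring
  have b4 : |τ4| ≤ s * ((2 + |k₁| + |k₂|) * N) := by
    have := hbd k₁ (by linarith) 1 (-1) (by simp) (by simp)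
    rw [hτ4]; convert this using 3; ring
  have E1 := abs_le.1 ((herr t1 τ1 b1).2.trans (mul_le_mul_of_nonneg_left b1 hη))
  have E2 := abs_le.1 ((herr t2 τ2 b2).2.trans (mul_le_mul_of_nonneg_left b2 hη))
  have E3 := abs_le.1 ((herr t3 τ3 b3).1.trans (mul_le_mul_of_nonneg_left b3 hη))
  have E4 := abs_le.1 ((herr t4 τ4 b4).1.trans (mul_le_mul_of_nonneg_left b4 hη))
  have lin : ψ t1 * τ1 - ψ t2 * τ2 - (φ t3 * τ3 - φ t4 * τ4)
      - s * (y * b + δ * d - r * x * c - r * y * d) = -s * (a ^ 2 + b ^ 2 + c ^ 2 + d ^ 2) := by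
    rw [hτ1, hτ2, hτ3, hτ4]
    linear_combination (-s * a) * e1 + (-s * b) * e2 + (-s * c) * e3 + (-s * d) * e4
  have hsN : s * N ^ 2 ≤ s * (a ^ 2 + b ^ 2 + c ^ 2 + d ^ 2) := mul_le_mul_of_nonneg_left hn2 hs
  have hdb : d * b ≤ N ^ 2 := by
    calc d * b ≤ |d * b| := le_abs_self _
      _ = |d| * |b| := abs_mul _ _
      _ ≤ N * N := mul_le_mul hn.2.2.2 hn.2.1 (abs_nonneg _) hN0
      _ = N ^ 2 := by ring
  have hs2 : s ^ 2 * (d * b) ≤ s ^ 2 * N ^ 2 := mul_le_mul_of_nonneg_left hdb (sq_nonneg _)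
  have hs3 : 0 ≤ s ^ 2 * (r * (c ^ 2 + d ^ 2) / 2) := by positivity
  rw [hJ1, hJ0]
  have key : (y - s * d) * (δ - s * b) - r * ((x - s * c) ^ 2 + (y - s * d) ^ 2) / 2 =
      y * δ - r * (x ^ 2 + y ^ 2) / 2 - s * (y * b + δ * d - r * x * c - r * y * d)
      + s ^ 2 * (d * b) - s ^ 2 * (r * (c ^ 2 + d ^ 2) / 2) := by ring
  have F : P ψ (t1 + τ1) - P ψ (t2 + τ2) - (P φ (t3 + τ3) - P φ (t4 + τ4)) ≤
      P ψ t1 - P ψ t2 - (P φ t3 - P φ t4) + (ψ t1 * τ1 - ψ t2 * τ2 - (φ t3 * τ3 - φ t4 * τ4))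
      + 4 * (η * (s * ((2 + |k₁| + |k₂|) * N))) := by
    have F1 := E1.2
    have F2 := E2.1
    have F3 := E3.1
    have F4 := E4.2
    linarith only [F1, F2, F3, F4]
  linarith only [F, key, hs2, hs3, hsN, lin]

lemma desc (hφ : UniformContinuous φ) (hψ : UniformContinuous ψ) (hφM : ∀ t, |φ t| ≤ M)
    (hψM : ∀ t, |ψ t| ≤ M) (hr : 0 ≤ r) (d : ℝ) (hd : 0 < d) :
    ∃ h > 0, ∀ v, d ≤ ‖g φ ψ k₁ k₂ r v‖ → ∀ s : ℝ, 0 ≤ s → s ≤ h →
      J φ ψ k₁ k₂ r (v - s • g φ ψ k₁ k₂ r v) ≤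
        J φ ψ k₁ k₂ r v - s / 2 * ‖g φ ψ k₁ k₂ r v‖ ^ 2 := by
  have hM0 : 0 ≤ M := (abs_nonneg _).trans (hφM 0)
  set K := 2 + |k₁| + |k₂| with hK
  have hK0 : 0 < K := by positivity
  obtain ⟨κ₁, hκ₁, H₁⟩ := Metric.uniformContinuous_iff.1 hφ (d / (16 * K)) (by positivity)
  obtain ⟨κ₂, hκ₂, H₂⟩ := Metric.uniformContinuous_iff.1 hψ (d / (16 * K)) (by positivity)
  set κ := min κ₁ κ₂ / 2 with hκ
  have hκ0 : 0 < κ := by positivity
  have hκ1 : κ < κ₁ := by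
    have := min_le_left κ₁ κ₂
    have := lt_min hκ₁ hκ₂
    rw [hκ]; linarith
  have hκ2 : κ < κ₂ := by
    have := min_le_right κ₁ κ₂
    have := lt_min hκ₁ hκ₂
    rw [hκ]; linarith
  refine ⟨min (1 / 4) (κ / (32 * K ^ 2 * (M + 1))), by positivity, ?_⟩
  intro v hv s hs hsh
  set N := ‖g φ ψ k₁ k₂ r v‖ with hN
  have hN0 : 0 < N := hd.trans_le hv
  have hs1 : s ≤ 1 / 4 := hsh.trans (min_le_left _ _)
  have hs2 : s ≤ κ / (32 * K ^ 2 * (M + 1)) := hsh.trans (min_le_right _ _)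
  have hsN : s ^ 2 * N ^ 2 ≤ s * N ^ 2 / 4 := by
    have : s * (s * N ^ 2) ≤ 1 / 4 * (s * N ^ 2) :=
      mul_le_mul_of_nonneg_right hs1 (by positivity)
    nlinarith
  rcases le_or_gt (s * (K * N)) κ with hc | hc
  · have := taylor (φ := φ) (ψ := ψ) (k₁ := k₁) (k₂ := k₂) (r := r) v s (d / (16 * K)) hs
      (by positivity) (by
        intro t τ hτ
        have hτκ : |τ| ≤ κ := hτ.trans hc
        constructor
        · apply P_err hφ.continuous
          intro u hu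
          have := H₁ (a := u) (b := t) (by rw [Real.dist_eq]; linarith)
          rw [Real.dist_eq] at this
          exact this.le
        · apply P_err hψ.continuous
          intro u hu
          have := H₂ (a := u) (b := t) (by rw [Real.dist_eq]; linarith)
          rw [Real.dist_eq] at this
          exact this.le) hr
    rw [← hN, ← hK] at this
    have e : 4 * (d / (16 * K) * (s * (K * N))) = s * (d * N) / 4 := by
      field_simp
      ring
    rw [e] at this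
    have h2 : s * (d * N) ≤ s * N ^ 2 := by
      apply mul_le_mul_of_nonneg_left _ hs
      nlinarith
    linarith
  · have := taylor (φ := φ) (ψ := ψ) (k₁ := k₁) (k₂ := k₂) (r := r) v s (2 * M) hs
      (by positivity) (by
        intro t τ hτ
        constructor
        · apply P_err hφ.continuous
          intro u hu
          have h1 := abs_sub (φ u) (φ t)
          linarith [hφM u, hφM t]
        · apply P_err hψ.continuous
          intro u hu
          have h1 := abs_sub (ψ u) (ψ t)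
          linarith [hψM u, hψM t]) hr
    rw [← hN, ← hK] at this
    have h3 : 32 * K * (M + 1) ≤ N := by
      rw [le_div_iff₀ (by positivity)] at hs2
      by_contra hcon
      push Not at hcon
      have h4 : s * (K * N) ≤ s * (K * (32 * K * (M + 1))) := by
        apply mul_le_mul_of_nonneg_left _ hs
        exact mul_le_mul_of_nonneg_left hcon.le hK0.le
      have h5 : s * (K * (32 * K * (M + 1))) = s * (32 * K ^ 2 * (M + 1)) := by ring
      linarith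
    have h6 : 32 * K * M ≤ N := by
      have : 0 < 32 * K := by positivity
      nlinarith
    have h7 : s * N * (32 * K * M) ≤ s * N * N := mul_le_mul_of_nonneg_left h6 (by positivity)
    have e : 4 * (2 * M * (s * (K * N))) = s * N * (32 * K * M) / 4 := by ring
    rw [e] at this
    have e2 : s * N * N = s * N ^ 2 := by ring
    rw [e2] at h7
    linarith

/-- The functions that vanish outside `(0, 1)`, bounded by `M`. -/
structure Supp (f : ℝ → ℝ) (M : ℝ) : Prop where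
  cont : Continuous f
  left : ∀ t, t ≤ 0 → f t = 0
  right : ∀ t, 1 ≤ t → f t = 0
  bound : ∀ t, |f t| ≤ M

lemma Supp.unif {f : ℝ → ℝ} (h : Supp f M) : UniformContinuous f := by
  apply h.cont.uniformContinuous_of_tendsto_cocompact (x := 0)
  rw [Metric.tendsto_nhds]
  intro ε hε
  filter_upwards [(isCompact_Icc (a := (0:ℝ)) (b := 1)).compl_mem_cocompact] with t ht
  have h0 : f t = 0 := by
    rcases le_or_gt t 0 with h0 | h0
    · exact h.left t h0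
    · apply h.right
      by_contra hcon
      push Not at hcon
      exact ht ⟨h0.le, hcon.le⟩
  rw [h0, dist_self]
  exact hε

lemma Supp.P_left {f : ℝ → ℝ} (h : Supp f M) {t : ℝ} (ht : t ≤ 0) : P f t = 0 := by
  unfold P
  rw [intervalIntegral.integral_symm, neg_eq_zero]
  apply intervalIntegral.integral_zero_ae
  filter_upwards with s hs
  rw [uIoc_of_le ht] at hs
  exact h.left s hs.2

lemma Supp.P_right {f : ℝ → ℝ} (h : Supp f M) {s t : ℝ} (hs : 1 ≤ s) (ht : 1 ≤ t) :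
    P f t = P f s := by
  rw [← sub_eq_zero, P_sub h.cont]
  apply intervalIntegral.integral_zero_ae
  filter_upwards with u hu
  apply h.right
  rcases le_total s t with hst | hst
  · rw [uIoc_of_le hst] at hu
    linarith [hu.1]
  · rw [uIoc_of_ge hst] at hu
    linarith [hu.1]

lemma coer (k₁ k₂ : ℝ) (hM0 : 0 ≤ M) (hr : 0 < r) (β : ℝ) (hβ : 0 < β) :
    ∃ R d0 : ℝ, 0 < d0 ∧ ∀ φ ψ : ℝ → ℝ, Supp φ M → Supp ψ M →
      ∀ v, ‖g φ ψ k₁ k₂ r v‖ ≤ d0 → β ≤ J φ ψ k₁ k₂ r v → ‖v‖ ≤ R := by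
  set X := (1 + 2 * M) / r with hX
  set Y := 1 + 2 * M with hY
  set D := 1 + (|k₁| + |k₂|) * M + r * Y with hD
  set K := |k₁| + |k₂| with hK
  have hK0 : 0 ≤ K := by positivity
  have hX0 : 0 ≤ X := by positivity
  have hY0 : 0 ≤ Y := by positivity
  have hD0 : 0 < D := by positivity
  set L := D / 2 + (X + K * Y) / 2 with hL
  have hL0 : 0 ≤ L := by positivity
  refine ⟨X + Y + D + L + 1, min 1 (β / (2 * D)), by positivity, ?_⟩
  rintro φ ψ hφ hψ ⟨m, δ, x, y⟩ hg hJ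
  rcases hG : g φ ψ k₁ k₂ r (m, δ, x, y) with ⟨a, b, c, d⟩
  rw [hG] at hg
  have hg1 := hg.trans (min_le_left _ _)
  have hg2 := hg.trans (min_le_right _ _)
  have hn := norm4 a b c d
  simp only [g, Prod.mk.injEq] at hG
  obtain ⟨e1, e2, e3, e4⟩ := hG
  set t1 := m - δ / 2 + (x - k₂ * y) / 2 with ht1
  set t2 := m - δ / 2 - (x - k₂ * y) / 2 with ht2
  set t3 := m + δ / 2 + (x - k₁ * y) / 2 with ht3
  set t4 := m + δ / 2 - (x - k₁ * y) / 2 with ht4
  have hJ0 : J φ ψ k₁ k₂ r (m, δ, x, y) = P ψ t1 - P ψ t2 - (P φ t3 - P φ t4) + y * δ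
      - r * (x ^ 2 + y ^ 2) / 2 := rfl
  have B1 := abs_le.1 (hψ.bound t1)
  have B2 := abs_le.1 (hψ.bound t2)
  have B3 := abs_le.1 (hφ.bound t3)
  have B4 := abs_le.1 (hφ.bound t4)
  have Ga := abs_le.1 (hn.1.trans hg1)
  have Gb := abs_le.1 (hn.2.1.trans hg1)
  have Gc := abs_le.1 (hn.2.2.1.trans hg1)
  have Gd := abs_le.1 (hn.2.2.2.trans hg1)
  have hy : |y| ≤ Y := by
    rw [abs_le]
    constructor <;> linarith [B1.1, B1.2, B2.1, B2.2, B3.1, B3.2, B4.1, B4.2, Gb.1, Gb.2]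
  have hx : |x| ≤ X := by
    have : |r * x| ≤ 1 + 2 * M := by
      rw [abs_le]
      constructor <;> linarith [B1.1, B1.2, B2.1, B2.2, B3.1, B3.2, B4.1, B4.2, Gc.1, Gc.2]
    rw [abs_mul, abs_of_pos hr] at this
    rw [hX, le_div_iff₀ hr]
    linarith
  have hδ : |δ| ≤ D := by
    have h1 : |k₂ * (ψ t1 + ψ t2) / 2| ≤ |k₂| * M := by
      rw [abs_div, abs_mul, abs_of_pos (by norm_num : (0:ℝ) < 2)]
      have : |ψ t1 + ψ t2| ≤ 2 * M := by
        have := abs_add_le (ψ t1) (ψ t2)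
        linarith [hψ.bound t1, hψ.bound t2]
      have := mul_le_mul_of_nonneg_left this (abs_nonneg k₂)
      linarith
    have h2 : |k₁ * (φ t3 + φ t4) / 2| ≤ |k₁| * M := by
      rw [abs_div, abs_mul, abs_of_pos (by norm_num : (0:ℝ) < 2)]
      have : |φ t3 + φ t4| ≤ 2 * M := by
        have := abs_add_le (φ t3) (φ t4)
        linarith [hφ.bound t3, hφ.bound t4]
      have := mul_le_mul_of_nonneg_left this (abs_nonneg k₁)
      linarith
    have h3 : |r * y| ≤ r * Y := by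
      rw [abs_mul, abs_of_pos hr]
      exact mul_le_mul_of_nonneg_left hy hr.le
    have h1' := abs_le.1 h1
    have h2' := abs_le.1 h2
    have h3' := abs_le.1 h3
    have hDe : D = 1 + (|k₁| * M + |k₂| * M) + r * Y := by rw [hD]; ring
    rw [abs_le, hDe]
    constructor <;> linarith [h1'.1, h1'.2, h2'.1, h2'.2, h3'.1, h3'.2, Gd.1, Gd.2]
  have hm : |m| ≤ L + 1 := by
    by_contra hcon
    push Not at hcon
    have hb : ∀ k : ℝ, |k| ≤ K → |(x - k * y) / 2| ≤ (X + K * Y) / 2 := by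
      intro k hk
      rw [abs_div, abs_of_pos (by norm_num : (0:ℝ) < 2)]
      have h1 : |k * y| ≤ K * Y := by
        rw [abs_mul]
        exact mul_le_mul hk hy (abs_nonneg _) hK0
      have := abs_sub x (k * y)
      linarith
    have hb1 := abs_le.1 (hb k₁ (by rw [hK]; linarith [abs_nonneg k₂]))
    have hb2 := abs_le.1 (hb k₂ (by rw [hK]; linarith [abs_nonneg k₁]))
    have hδ' := abs_le.1 hδ
    have hJle : J φ ψ k₁ k₂ r (m, δ, x, y) ≤ y * δ ∧ y = b := by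
      have hsq : 0 ≤ r * (x ^ 2 + y ^ 2) / 2 := by positivity
      rcases le_or_gt 0 m with hm0 | hm0
      · rw [abs_of_nonneg hm0] at hcon
        have q1 : 1 ≤ t1 := by rw [ht1]; linarith [hb2.1, hb2.2, hδ'.1, hδ'.2]
        have q2 : 1 ≤ t2 := by rw [ht2]; linarith [hb2.1, hb2.2, hδ'.1, hδ'.2]
        have q3 : 1 ≤ t3 := by rw [ht3]; linarith [hb1.1, hb1.2, hδ'.1, hδ'.2]
        have q4 : 1 ≤ t4 := by rw [ht4]; linarith [hb1.1, hb1.2, hδ'.1, hδ'.2]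
        rw [hJ0, hψ.P_right q2 q1, hφ.P_right q4 q3]
        refine ⟨by linarith, ?_⟩
        rw [hψ.right _ q1, hψ.right _ q2, hφ.right _ q3, hφ.right _ q4] at e2
        linarith
      · rw [abs_of_neg hm0] at hcon
        have q1 : t1 ≤ 0 := by rw [ht1]; linarith [hb2.1, hb2.2, hδ'.1, hδ'.2]
        have q2 : t2 ≤ 0 := by rw [ht2]; linarith [hb2.1, hb2.2, hδ'.1, hδ'.2]
        have q3 : t3 ≤ 0 := by rw [ht3]; linarith [hb1.1, hb1.2, hδ'.1, hδ'.2]
        have q4 : t4 ≤ 0 := by rw [ht4]; linarith [hb1.1, hb1.2, hδ'.1, hδ'.2]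
        rw [hJ0, hψ.P_left q1, hφ.P_left q3, hψ.P_left q2, hφ.P_left q4]
        refine ⟨by linarith, ?_⟩
        rw [hψ.left _ q1, hψ.left _ q2, hφ.left _ q3, hφ.left _ q4] at e2
        linarith
    obtain ⟨h1, h2⟩ := hJle
    have h3 : y * δ ≤ β / 2 := by
      calc y * δ ≤ |y * δ| := le_abs_self _
        _ = |y| * |δ| := abs_mul _ _
        _ ≤ β / (2 * D) * D := by
          apply mul_le_mul _ hδ (abs_nonneg _) (by positivity)
          rw [h2]
          exact hn.2.1.trans hg2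
        _ = β / 2 := by field_simp
    linarith
  simp only [Prod.norm_def, Real.norm_eq_abs]
  refine max_le (by linarith) (max_le (by linarith) (max_le (by linarith) (by linarith)))

lemma P_diff_le {f : ℝ → ℝ} (hf : Supp f M) (s t : ℝ) : |P f t - P f s| ≤ M * |t - s| := by
  rw [P_sub hf.cont]
  exact intervalIntegral.norm_integral_le_of_norm_le_const
    (fun u _ => (Real.norm_eq_abs _).trans_le (hf.bound u))

/-- Upper bound of `J` in terms of `w` and `δ`. -/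
lemma J_le (hφ : Supp φ M) (hψ : Supp ψ M) (m δ x y : ℝ) :
    J φ ψ k₁ k₂ r (m, δ, x, y) ≤ M * (2 + |k₁| + |k₂|) * (|x| + |y|) + y * δ
      - r * (x ^ 2 + y ^ 2) / 2 := by
  have hM0 : 0 ≤ M := (abs_nonneg _).trans (hφ.bound 0)
  have h1 := P_diff_le hψ (m - δ / 2 - (x - k₂ * y) / 2) (m - δ / 2 + (x - k₂ * y) / 2)
  have h2 := P_diff_le hφ (m + δ / 2 - (x - k₁ * y) / 2) (m + δ / 2 + (x - k₁ * y) / 2)
  have e1 : m - δ / 2 + (x - k₂ * y) / 2 - (m - δ / 2 - (x - k₂ * y) / 2) = x - k₂ * y := by ring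
  have e2 : m + δ / 2 + (x - k₁ * y) / 2 - (m + δ / 2 - (x - k₁ * y) / 2) = x - k₁ * y := by ring
  rw [e1] at h1
  rw [e2] at h2
  have h3 : |x - k₂ * y| ≤ |x| + |k₂| * |y| := by
    have := abs_sub x (k₂ * y)
    rwa [abs_mul] at this
  have h4 : |x - k₁ * y| ≤ |x| + |k₁| * |y| := by
    have := abs_sub x (k₁ * y)
    rwa [abs_mul] at this
  have h5 : M * |x - k₂ * y| ≤ M * (|x| + |k₂| * |y|) := mul_le_mul_of_nonneg_left h3 hM0
  have h6 : M * |x - k₁ * y| ≤ M * (|x| + |k₁| * |y|) := mul_le_mul_of_nonneg_left h4 hM0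
  have h7 := (abs_le.1 h1).2
  have h8 := (abs_le.1 h2).1
  have h9 : 0 ≤ M * ((|k₁| + |k₂|) * |x|) := by positivity
  have h10 : 0 ≤ M * (2 * |y|) := by positivity
  simp only [J]
  nlinarith

/-- On the tails `J` is quadratic. -/
lemma J_tail (hφ : Supp φ M) (hψ : Supp ψ M) (m δ x y : ℝ)
    (h : |δ| / 2 + (|x| + (|k₁| + |k₂|) * |y|) / 2 + 1 ≤ |m|) :
    J φ ψ k₁ k₂ r (m, δ, x, y) = y * δ - r * (x ^ 2 + y ^ 2) / 2 := by
  have hb : ∀ k : ℝ, |k| ≤ |k₁| + |k₂| → |(x - k * y) / 2| ≤ (|x| + (|k₁| + |k₂|) * |y|) / 2 := by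
    intro k hk
    rw [abs_div, abs_of_pos (by norm_num : (0:ℝ) < 2)]
    have h1 : |k * y| ≤ (|k₁| + |k₂|) * |y| := by
      rw [abs_mul]
      exact mul_le_mul_of_nonneg_right hk (abs_nonneg _)
    have := abs_sub x (k * y)
    linarith
  have hb1 := abs_le.1 (hb k₁ (by linarith [abs_nonneg k₂]))
  have hb2 := abs_le.1 (hb k₂ (by linarith [abs_nonneg k₁]))
  have hδ : |δ / 2| ≤ |δ| / 2 := by rw [abs_div, abs_of_pos (by norm_num : (0:ℝ) < 2)]
  have hδ' := abs_le.1 hδ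
  simp only [J]
  rcases le_or_gt 0 m with hm0 | hm0
  · rw [abs_of_nonneg hm0] at h
    rw [hψ.P_right (s := m - δ / 2 - (x - k₂ * y) / 2) (t := m - δ / 2 + (x - k₂ * y) / 2)
      (by linarith [hb2.1, hb2.2, hδ'.1, hδ'.2]) (by linarith [hb2.1, hb2.2, hδ'.1, hδ'.2]),
      hφ.P_right (s := m + δ / 2 - (x - k₁ * y) / 2) (t := m + δ / 2 + (x - k₁ * y) / 2)
      (by linarith [hb1.1, hb1.2, hδ'.1, hδ'.2]) (by linarith [hb1.1, hb1.2, hδ'.1, hδ'.2])]
    ring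
  · rw [abs_of_neg hm0] at h
    rw [hψ.P_left (t := m - δ / 2 - (x - k₂ * y) / 2)
        (by linarith [hb2.1, hb2.2, hδ'.1, hδ'.2]),
      hψ.P_left (t := m - δ / 2 + (x - k₂ * y) / 2) (by linarith [hb2.1, hb2.2, hδ'.1, hδ'.2]),
      hφ.P_left (t := m + δ / 2 - (x - k₁ * y) / 2) (by linarith [hb1.1, hb1.2, hδ'.1, hδ'.2]),
      hφ.P_left (t := m + δ / 2 + (x - k₁ * y) / 2) (by linarith [hb1.1, hb1.2, hδ'.1, hδ'.2])]
    ring

/-- **Critical points of positive level.** -/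
theorem core (hφ : Supp φ M) (hψ : Supp ψ M) (hr : 0 < r) (m₀ : ℝ) (wx wy : ℝ → ℝ)
    (hwx : Continuous wx) (hwy : Continuous wy) (β : ℝ) (hβ : 0 < β)
    (hdual : ∀ δ, β ≤ J φ ψ k₁ k₂ r (m₀, δ, wx δ, wy δ)) :
    ∃ v, g φ ψ k₁ k₂ r v = 0 ∧ β / 2 ≤ J φ ψ k₁ k₂ r v := by
  have hM0 : 0 ≤ M := (abs_nonneg _).trans (hφ.bound 0)
  obtain ⟨R, d0, hd0, hco⟩ := coer (M := M) k₁ k₂ hM0 hr (β / 2) (by positivity)
  set Q := M * (2 + |k₁| + |k₂|) with hQ
  have hQ0 : 0 ≤ Q := by positivity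
  have hq : ∀ t : ℝ, Q * |t| - r * t ^ 2 / 2 ≤ Q ^ 2 / (2 * r) := by
    intro t
    rw [le_div_iff₀ (by positivity)]
    have := sq_nonneg (Q - r * |t|)
    rw [← sq_abs t]
    nlinarith
  set L₁ := 4 * Q / r with hL₁
  have hL₁0 : 0 ≤ L₁ := by positivity
  have hq2 : ∀ t : ℝ, L₁ ≤ |t| → Q * |t| - r * t ^ 2 / 2 ≤ -(Q ^ 2 / (2 * r)) := by
    intro t ht
    rw [le_neg, neg_sub, div_le_iff₀ (by positivity)]
    rw [hL₁, div_le_iff₀ hr] at ht
    rw [← sq_abs t]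
    have h1 : 0 ≤ |t| := abs_nonneg t
    nlinarith [mul_nonneg hr.le h1]
  set L₂ := (2 + |k₁| + |k₂|) * L₁ + 1 with hL₂
  have hL₂0 : 0 ≤ L₂ := by positivity
  have hJ0 : ∀ m x y, J φ ψ k₁ k₂ r (m, 0, x, y) ≤ Q * (|x| + |y|) - r * (x ^ 2 + y ^ 2) / 2 := by
    intro m x y
    have := J_le (k₁ := k₁) (k₂ := k₂) (r := r) hφ hψ m 0 x y
    rw [← hQ] at this
    linarith
  refine Link.linking (V := V) (W := ℝ × ℝ × ℝ)
    (fun w => (w.1 + m₀, 0, w.2.1 + wx 0, w.2.2 + wy 0)) (by fun_prop)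
    (fun v => (v.1 - m₀, v.2.2.1 - wx v.2.1, v.2.2.2 - wy v.2.1)) (by fun_prop)
    (by rintro ⟨a, b, c⟩; simp)
    (J φ ψ k₁ k₂ r) (J_cont hφ.cont hψ.cont) (g φ ψ k₁ k₂ r) (g_cont hφ.cont hψ.cont)
    (β / 2) β (Q ^ 2 / r) (by linarith)
    (fun d hd => desc hφ.unif hψ.unif hφ.bound hψ.bound hr.le d hd) R d0 hd0
    (hco φ ψ hφ hψ) ?_
    (L₁ + |m₀| + |wx 0| + |wy 0| + L₂) ?_ ?_
  · rintro ⟨m, δ, x, y⟩ h
    simp only [Prod.mk_eq_zero] at h
    obtain ⟨h1, h2, h3⟩ := h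
    have e1 : m = m₀ := by linarith
    have e2 : x = wx δ := by linarith
    have e3 : y = wy δ := by linarith
    rw [e1, e2, e3]
    exact hdual δ
  · rintro ⟨m, x, y⟩ h
    have hle0 : J φ ψ k₁ k₂ r (m + m₀, 0, x + wx 0, y + wy 0) ≤ 0 := by
      rcases le_or_gt L₁ |x + wx 0| with h1 | h1
      · have := hJ0 (m + m₀) (x + wx 0) (y + wy 0)
        have h2 := hq2 _ h1
        have h3 := hq (y + wy 0)
        linarith
      · rcases le_or_gt L₁ |y + wy 0| with h2 | h2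
        · have := hJ0 (m + m₀) (x + wx 0) (y + wy 0)
          have h2 := hq2 _ h2
          have h3 := hq (x + wx 0)
          linarith
        · rw [J_tail hφ hψ]
          · have : 0 ≤ r * ((x + wx 0) ^ 2 + (y + wy 0) ^ 2) / 2 := by positivity
            linarith
          · have hx : |x| < L₁ + |wx 0| := by
              have := abs_sub (x + wx 0) (wx 0)
              rw [add_sub_cancel_right] at this
              linarith
            have hy : |y| < L₁ + |wy 0| := by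
              have := abs_sub (y + wy 0) (wy 0)
              rw [add_sub_cancel_right] at this
              linarith
            have hm : L₁ + |m₀| + |wx 0| + |wy 0| + L₂ ≤ |m| := by
              simp only [Prod.norm_def, Real.norm_eq_abs] at h
              rcases le_max_iff.1 h with h | h
              · exact h
              · exfalso
                rcases le_max_iff.1 h with h | h
                · linarith [abs_nonneg m₀, abs_nonneg (wy 0)]
                · linarith [abs_nonneg m₀, abs_nonneg (wx 0)]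
            have hm2 : L₂ ≤ |m + m₀| := by
              have := abs_sub (m + m₀) m₀
              rw [add_sub_cancel_right] at this
              linarith [abs_nonneg (wx 0), abs_nonneg (wy 0)]
            have h3 : (|k₁| + |k₂|) * |y + wy 0| ≤ (|k₁| + |k₂|) * L₁ :=
              mul_le_mul_of_nonneg_left h2.le (by positivity)
            have h4 : 0 ≤ (|k₁| + |k₂|) * L₁ := by positivity
            rw [abs_zero]
            have h5 : L₂ = 2 * L₁ + (|k₁| + |k₂|) * L₁ + 1 := by rw [hL₂]; ring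
            linarith
    exact hle0.trans (by positivity)
  · rintro ⟨m, x, y⟩
    have := hJ0 (m + m₀) (x + wx 0) (y + wy 0)
    have h2 := hq (x + wx 0)
    have h3 := hq (y + wy 0)
    have h4 : Q ^ 2 / r = Q ^ 2 / (2 * r) + Q ^ 2 / (2 * r) := by field_simp; ring
    rw [h4]
    linarith

/-- The graph of `φ` in oblique coordinates. -/
noncomputable def gr (φ : ℝ → ℝ) (k t : ℝ) : ℂ := t + φ t * (k + Complex.I)

/-- Critical points are rectangles. -/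
lemma crit_rect (m δ x y : ℝ) (h : g φ ψ k₁ k₂ r (m, δ, x, y) = 0) :
    ∃ s₁ s₂ s₃ s₄ : ℝ, gr φ k₁ s₂ = gr φ k₁ s₁ + (x + y * Complex.I) ∧
      gr ψ k₂ s₃ = gr φ k₁ s₁ + (x + y * Complex.I) + r * Complex.I * (x + y * Complex.I) ∧
      gr ψ k₂ s₄ = gr φ k₁ s₁ + r * Complex.I * (x + y * Complex.I) ∧
      s₁ = m + δ / 2 - (x - k₁ * y) / 2 ∧ s₂ = m + δ / 2 + (x - k₁ * y) / 2 ∧
      s₃ = m - δ / 2 + (x - k₂ * y) / 2 ∧ s₄ = m - δ / 2 - (x - k₂ * y) / 2 := by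
  simp only [g, Prod.mk_eq_zero] at h
  obtain ⟨e1, e2, e3, e4⟩ := h
  obtain ⟨t1, ht1⟩ : ∃ t, t = m - δ / 2 + (x - k₂ * y) / 2 := ⟨_, rfl⟩
  obtain ⟨t2, ht2⟩ : ∃ t, t = m - δ / 2 - (x - k₂ * y) / 2 := ⟨_, rfl⟩
  obtain ⟨t3, ht3⟩ : ∃ t, t = m + δ / 2 + (x - k₁ * y) / 2 := ⟨_, rfl⟩
  obtain ⟨t4, ht4⟩ : ∃ t, t = m + δ / 2 - (x - k₁ * y) / 2 := ⟨_, rfl⟩
  rw [← ht1, ← ht2, ← ht3, ← ht4] at e1 e2 e3
  rw [← ht1, ← ht2, ← ht3, ← ht4] at e4
  have f1 : φ t3 - φ t4 = y := by linarith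
  have f2 : ψ t1 - ψ t2 = y := by linarith
  have f3 : ψ t1 - φ t3 = r * x := by linarith
  have f4 : ψ t2 - φ t4 = r * x := by linarith
  have f5 : δ = r * y + k₂ * (ψ t1 + ψ t2) / 2 - k₁ * (φ t3 + φ t4) / 2 := by linarith
  refine ⟨t4, t3, t1, t2, ?_, ?_, ?_, ht4, ht3, ht1, ht2⟩
  · apply Complex.ext
    · simp [gr]
      linear_combination ht3 - ht4 + k₁ * f1
    · simp [gr]
      linarith
  · apply Complex.ext
    · simp [gr]
      linear_combination ht1 - ht4 - f5 + (k₂ / 2) * f2 + (k₁ / 2) * f1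
    · simp [gr]
      linarith
  · apply Complex.ext
    · simp [gr]
      linear_combination ht2 - ht4 - f5 - (k₂ / 2) * f2 + (k₁ / 2) * f1
    · simp [gr]
      linarith

/-- Critical points of level at least `β` are not small. -/
lemma crit_lower (hφ : Supp φ M) (hψ : Supp ψ M) (hr : 0 < r) (m δ x y β : ℝ)
    (h : g φ ψ k₁ k₂ r (m, δ, x, y) = 0) (hβ : β ≤ J φ ψ k₁ k₂ r (m, δ, x, y)) :
    β ≤ (M * (2 + |k₁| + |k₂|) + ((|k₁| + |k₂|) * M + r * (2 * M))) * (|x| + |y|) := by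
  have hM0 : 0 ≤ M := (abs_nonneg _).trans (hφ.bound 0)
  have h1 := J_le (k₁ := k₁) (k₂ := k₂) (r := r) hφ hψ m δ x y
  simp only [g, Prod.mk_eq_zero] at h
  obtain ⟨e1, e2, e3, e4⟩ := h
  obtain ⟨t1, ht1⟩ : ∃ t, t = m - δ / 2 + (x - k₂ * y) / 2 := ⟨_, rfl⟩
  obtain ⟨t2, ht2⟩ : ∃ t, t = m - δ / 2 - (x - k₂ * y) / 2 := ⟨_, rfl⟩
  obtain ⟨t3, ht3⟩ : ∃ t, t = m + δ / 2 + (x - k₁ * y) / 2 := ⟨_, rfl⟩
  obtain ⟨t4, ht4⟩ : ∃ t, t = m + δ / 2 - (x - k₁ * y) / 2 := ⟨_, rfl⟩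
  rw [← ht1, ← ht2, ← ht3, ← ht4] at e1 e2 e3
  rw [← ht1, ← ht2, ← ht3, ← ht4] at e4
  have B1 := abs_le.1 (hψ.bound t1)
  have B2 := abs_le.1 (hψ.bound t2)
  have B3 := abs_le.1 (hφ.bound t3)
  have B4 := abs_le.1 (hφ.bound t4)
  have hy : |y| ≤ 2 * M := by
    rw [abs_le]
    constructor <;> linarith [B1.1, B1.2, B2.1, B2.2, B3.1, B3.2, B4.1, B4.2]
  have hδ : |δ| ≤ (|k₁| + |k₂|) * M + r * (2 * M) := by
    have h1 : |k₂ * (ψ t1 + ψ t2) / 2| ≤ |k₂| * M := by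
      rw [abs_div, abs_mul, abs_of_pos (by norm_num : (0:ℝ) < 2)]
      have : |ψ t1 + ψ t2| ≤ 2 * M := by
        have := abs_add_le (ψ t1) (ψ t2)
        linarith [hψ.bound t1, hψ.bound t2]
      have := mul_le_mul_of_nonneg_left this (abs_nonneg k₂)
      linarith
    have h2 : |k₁ * (φ t3 + φ t4) / 2| ≤ |k₁| * M := by
      rw [abs_div, abs_mul, abs_of_pos (by norm_num : (0:ℝ) < 2)]
      have : |φ t3 + φ t4| ≤ 2 * M := by
        have := abs_add_le (φ t3) (φ t4)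
        linarith [hφ.bound t3, hφ.bound t4]
      have := mul_le_mul_of_nonneg_left this (abs_nonneg k₁)
      linarith
    have h3 : |r * y| ≤ r * (2 * M) := by
      rw [abs_mul, abs_of_pos hr]
      exact mul_le_mul_of_nonneg_left hy hr.le
    have h1' := abs_le.1 h1
    have h2' := abs_le.1 h2
    have h3' := abs_le.1 h3
    rw [add_mul, abs_le]
    constructor <;> linarith [h1'.1, h1'.2, h2'.1, h2'.2, h3'.1, h3'.2]
  have h2 : y * δ ≤ ((|k₁| + |k₂|) * M + r * (2 * M)) * |y| := by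
    calc y * δ ≤ |y * δ| := le_abs_self _
      _ = |δ| * |y| := by rw [abs_mul]; ring
      _ ≤ _ := mul_le_mul_of_nonneg_right hδ (abs_nonneg _)
  have h3 : 0 ≤ ((|k₁| + |k₂|) * M + r * (2 * M)) * |x| := by positivity
  have h4 : 0 ≤ r * (x ^ 2 + y ^ 2) / 2 := by positivity
  linarith

/-- The vector which is tested against `w` on the dual curve. -/
def Z (φ ψ : ℝ → ℝ) (k₁ k₂ δ t t' : ℝ) (x y : ℝ) : ℝ :=
  x * (ψ t' - φ t) + y * (δ + k₁ * φ t - k₂ * ψ t')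

lemma P_avg {f : ℝ → ℝ} (hf : Continuous f) (c ξ : ℝ) :
    P f (c + ξ / 2) - P f (c - ξ / 2) = ∫ τ in (-(1/2) : ℝ)..(1/2), ξ * f (c + ξ * τ) := by
  rw [P_sub hf, intervalIntegral.integral_const_mul]
  have := intervalIntegral.smul_integral_comp_add_mul (a := -(1/2)) (b := 1/2) f ξ c
  rw [smul_eq_mul] at this
  rw [this]
  congr 1 <;> ring

/-- Lower bound of `J` on the dual curve. -/
lemma dual_bound (hφ : Supp φ M) (hψ : Supp ψ M) (m₀ δ x y η : ℝ)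
    (h : ∀ t t', |t - (m₀ + δ / 2)| ≤ |x - k₁ * y| → |t' - (m₀ - δ / 2)| ≤ |x - k₂ * y| →
      η ≤ Z φ ψ k₁ k₂ δ t t' x y) :
    η - r * (x ^ 2 + y ^ 2) / 2 ≤ J φ ψ k₁ k₂ r (m₀, δ, x, y) := by
  simp only [J]
  rw [P_avg hψ.cont, P_avg hφ.cont, ← intervalIntegral.integral_sub]
  · have h1 : η - y * δ ≤ ∫ τ in (-(1/2) : ℝ)..(1/2), ((x - k₂ * y) * ψ (m₀ - δ / 2 + (x - k₂ * y) * τ)
        - (x - k₁ * y) * φ (m₀ + δ / 2 + (x - k₁ * y) * τ)) := by
      have h2 : ∫ _ in (-(1/2) : ℝ)..(1/2), (η - y * δ) = η - y * δ := by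
        rw [intervalIntegral.integral_const, smul_eq_mul]; ring
      rw [← h2]
      apply intervalIntegral.integral_mono_on (by norm_num)
      · exact continuous_const.intervalIntegrable _ _
      · apply Continuous.intervalIntegrable
        have := hφ.cont
        have := hψ.cont
        fun_prop
      · intro τ hτ
        have hτ' : |τ| ≤ 1 := by rw [abs_le]; constructor <;> linarith [hτ.1, hτ.2]
        have := h (m₀ + δ / 2 + (x - k₁ * y) * τ) (m₀ - δ / 2 + (x - k₂ * y) * τ)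
          (by rw [add_sub_cancel_left, abs_mul]
              exact mul_le_of_le_one_right (abs_nonneg _) hτ')
          (by rw [add_sub_cancel_left, abs_mul]
              exact mul_le_of_le_one_right (abs_nonneg _) hτ')
        simp only [Z] at this
        linarith
    linarith
  · apply Continuous.intervalIntegrable
    have := hψ.cont
    fun_prop
  · apply Continuous.intervalIntegrable
    have := hφ.cont
    fun_prop

end Pool.Agent.J4H19.Fun
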