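import Mathlib
import Pool.Agent.J4H19.Fun

/-! Weakly monotone arcs: approximation by graphs, the dual curve, the limit. -/

set_option autoImplicit false

open Set Filter Topology

namespace Pool.Agent.J4H19.Arcs

open Pool.Agent.J4H19.Fun

/-- The coordinate along which an arc is monotone. -/
def xi (k : ℝ) (z : ℂ) : ℝ := z.re - k * z.im

/-- The scalar product. -/
def T (w z : ℂ) : ℝ := w.re * z.re + w.im * z.im

lemma xi_cont (k : ℝ) : Continuous (xi k) := by
  unfold xi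
  fun_prop

structure Arc (a : ℝ → ℂ) (k M : ℝ) : Prop where
  cont : Continuous a
  left : ∀ s : ℝ, s ≤ 0 → a s = s
  right : ∀ s : ℝ, 1 ≤ s → a s = s
  mono : Monotone fun s => xi k (a s)
  bound : ∀ s, |(a s).im| ≤ M

variable {a b : ℝ → ℂ} {k k₁ k₂ M r : ℝ}

lemma Arc.xi_left (h : Arc a k M) {s : ℝ} (hs : s ≤ 0) : xi k (a s) = s := by
  rw [h.left s hs]; simp [xi]

lemma Arc.xi_right (h : Arc a k M) {s : ℝ} (hs : 1 ≤ s) : xi k (a s) = s := by
  rw [h.right s hs]; simp [xi]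

lemma Arc.lt_of (h : Arc a k M) {s : ℝ} (hs : 1 < xi k (a s)) : 1 < s := by
  by_contra hcon
  push Not at hcon
  have h1 : xi k (a s) ≤ xi k (a 1) := h.mono hcon
  rw [h.xi_right le_rfl] at h1
  linarith

lemma Arc.gt_of (h : Arc a k M) {s : ℝ} (hs : xi k (a s) < 0) : s < 0 := by
  by_contra hcon
  push Not at hcon
  have h1 : xi k (a 0) ≤ xi k (a s) := h.mono hcon
  rw [h.xi_left le_rfl] at h1
  linarith

lemma Arc.abs_le (h : Arc a k M) (s : ℝ) : |s| ≤ max 1 |xi k (a s)| := by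
  rcases le_or_gt s 0 with hs | hs
  · rw [h.xi_left hs]
    exact le_max_right _ _
  · rcases le_or_gt 1 s with hs1 | hs1
    · rw [h.xi_right hs1]
      exact le_max_right _ _
    · rw [abs_of_pos hs]
      exact hs1.le.trans (le_max_left _ _)

/-- Distance between the arc and the parameter. -/
lemma Arc.near (h : Arc a k M) : ∃ N : ℝ, 0 ≤ N ∧ ∀ s : ℝ, ‖a s - s‖ ≤ N ∧ |xi k (a s) - s| ≤ N := by
  have hc1 : Continuous fun s : ℝ => a s - s := h.cont.sub Complex.continuous_ofReal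
  have hc2 : Continuous fun s : ℝ => xi k (a s) - s := ((xi_cont k).comp h.cont).sub continuous_id
  obtain ⟨N1, hN1⟩ := (isCompact_Icc (a := (0:ℝ)) (b := 1)).exists_bound_of_continuousOn
    hc1.continuousOn
  obtain ⟨N2, hN2⟩ := (isCompact_Icc (a := (0:ℝ)) (b := 1)).exists_bound_of_continuousOn
    hc2.continuousOn
  refine ⟨max 0 (max N1 N2), le_max_left _ _, ?_⟩
  intro s
  by_cases hs : s ∈ Icc (0:ℝ) 1
  · exact ⟨(hN1 s hs).trans ((le_max_left _ _).trans (le_max_right _ _)),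
      (hN2 s hs).trans ((le_max_right _ _).trans (le_max_right _ _))⟩
  · rw [mem_Icc, not_and_or] at hs
    push Not at hs
    rcases hs with hs | hs
    · rw [h.xi_left hs.le, h.left s hs.le]
      simp
    · rw [h.xi_right hs.le, h.right s hs.le]
      simp

/-- Approximation by a graph. -/
lemma Arc.graph (h : Arc a k M) {ε : ℝ} (hε : 0 < ε) (hε1 : ε ≤ 1) :
    ∃ (φ : ℝ → ℝ) (S : ℝ → ℝ), Supp φ M ∧
      (∀ t, gr φ k t = (1 - ε) * a (S t) + ε * (S t)) ∧
      (∀ t, (1 - ε) * xi k (a (S t)) + ε * S t = t) ∧ ∀ t, |S t| ≤ max 1 |t| := by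
  set X : ℝ → ℝ := fun s => (1 - ε) * xi k (a s) + ε * s with hX
  have hXm : StrictMono X := by
    intro s t hst
    have h1 : (1 - ε) * xi k (a s) ≤ (1 - ε) * xi k (a t) :=
      mul_le_mul_of_nonneg_left (h.mono hst.le) (by linarith)
    have h2 : ε * s < ε * t := mul_lt_mul_of_pos_left hst hε
    simp only [hX]
    linarith
  have hXc : Continuous X := by
    have := (xi_cont k).comp h.cont
    simp only [hX]
    exact (continuous_const.mul this).add (continuous_const.mul continuous_id)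
  have hXl : ∀ s ≤ 0, X s = s := by
    intro s hs
    simp only [hX]
    rw [h.xi_left hs]; ring
  have hXr : ∀ s, 1 ≤ s → X s = s := by
    intro s hs
    simp only [hX]
    rw [h.xi_right hs]; ring
  have hXs : Function.Surjective X := by
    intro t
    have h1 : t ∈ Icc (X (-|t|)) (X (|t| + 1)) := by
      rw [hXl _ (neg_nonpos.2 (abs_nonneg t)), hXr _ (by linarith [abs_nonneg t])]
      exact ⟨neg_abs_le t, by linarith [le_abs_self t]⟩
    obtain ⟨s, -, hs⟩ := intermediate_value_Icc (by linarith [abs_nonneg t]) hXc.continuousOn h1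
    exact ⟨s, hs⟩
  set e := hXm.orderIsoOfSurjective X hXs with he
  have heX : ∀ s, e s = X s := fun s => rfl
  have hS : ∀ t, X (e.symm t) = t := fun t => e.apply_symm_apply t
  have hSl : ∀ t ≤ 0, e.symm t = t := by
    intro t ht
    rw [OrderIso.symm_apply_eq, heX, hXl t ht]
  have hSr : ∀ t, 1 ≤ t → e.symm t = t := by
    intro t ht
    rw [OrderIso.symm_apply_eq, heX, hXr t ht]
  refine ⟨fun t => (1 - ε) * (a (e.symm t)).im, e.symm, ⟨?_, ?_, ?_, ?_⟩, ?_, hS, ?_⟩
  · have h1 : Continuous e.symm := e.symm.continuous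
    exact continuous_const.mul (Complex.continuous_im.comp (h.cont.comp h1))
  · intro t ht
    rw [hSl t ht, h.left t ht]
    simp
  · intro t ht
    rw [hSr t ht, h.right t ht]
    simp
  · intro t
    rw [abs_mul, abs_of_nonneg (by linarith : (0:ℝ) ≤ 1 - ε)]
    have h1 := h.bound (e.symm t)
    have h2 := abs_nonneg (a (e.symm t)).im
    nlinarith
  · intro t
    have h1 := hS t
    simp only [hX, xi] at h1
    apply Complex.ext
    · simp [gr]
      linarith
    · simp [gr]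
  · intro t
    rcases le_or_gt t 0 with ht | ht
    · rw [hSl t ht]; exact le_max_right _ _
    · rcases le_or_gt 1 t with ht1 | ht1
      · rw [hSr t ht1]; exact le_max_right _ _
      · have h1 : 0 ≤ e.symm t := by
          rw [← hSl 0 le_rfl]
          exact e.symm.monotone ht.le
        have h2 : e.symm t ≤ 1 := by
          have := e.symm.monotone ht1.le
          rwa [hSr 1 le_rfl] at this
        rw [_root_.abs_of_nonneg h1]
        exact h2.trans (le_max_left _ _)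

lemma Arc.fiber_compact (h : Arc a k M) (A : ℝ) : IsCompact {s | xi k (a s) = A} := by
  apply Metric.isCompact_of_isClosed_isBounded
  · exact isClosed_eq ((xi_cont k).comp h.cont) continuous_const
  · refine (Metric.isBounded_closedBall (x := (0 : ℝ)) (r := max 1 |A|)).subset ?_
    intro s hs
    rw [Metric.mem_closedBall, dist_zero_right, Real.norm_eq_abs]
    have := h.abs_le s
    rwa [show xi k (a s) = A from hs] at this

lemma Arc.fiber_convex (h : Arc a k M) (A : ℝ) : Convex ℝ (a '' {s | xi k (a s) = A}) := by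
  have h1 : OrdConnected {s | xi k (a s) = A} := by
    constructor
    intro s hs t ht u hu
    have h2 : xi k (a s) ≤ xi k (a u) := h.mono hu.1
    have h3 : xi k (a u) ≤ xi k (a t) := h.mono hu.2
    rw [show xi k (a s) = A from hs] at h2
    rw [show xi k (a t) = A from ht] at h3
    exact le_antisymm h3 h2
  have h2 : IsPreconnected ((fun s => (a s).im) '' {s | xi k (a s) = A}) :=
    h1.isPreconnected.image _ (Complex.continuous_im.comp h.cont).continuousOn
  have h3 : Convex ℝ ((fun s => (a s).im) '' {s | xi k (a s) = A}) := h2.ordConnected.convex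
  rintro _ ⟨s, hs, rfl⟩ _ ⟨t, ht, rfl⟩ p q hp hq hpq
  obtain ⟨u, hu, hu'⟩ := h3 ⟨s, hs, rfl⟩ ⟨t, ht, rfl⟩ hp hq hpq
  refine ⟨u, hu, ?_⟩
  simp only [smul_eq_mul] at hu'
  have e1 : (a u).re - k * (a u).im = A := hu
  have e2 : (a s).re - k * (a s).im = A := hs
  have e3 : (a t).re - k * (a t).im = A := ht
  apply Complex.ext
  · simp
    linear_combination e1 - p * e2 - q * e3 + k * hu' - A * hpq
  · simp
    linarith

lemma T_I (w z : ℂ) : T w (Complex.I * z) = w.im * z.re - w.re * z.im := by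
  simp [T]; ring

lemma T_cont {X : Type*} [TopologicalSpace X] {f g : X → ℂ} (hf : Continuous f)
    (hg : Continuous g) : Continuous fun x => T (f x) (g x) := by
  unfold T
  fun_prop

/-- Pointwise separation. -/
lemma sep (ha : Arc a k₁ M) (hb : Arc b k₂ M)
    (hdis : ∀ s s', a s = b s' → s = s' ∧ (s ≤ 0 ∨ 1 ≤ s)) (δ : ℝ) :
    ∃ w : ℂ, ∀ s s', xi k₁ (a s) = 1 / 2 + δ / 2 → xi k₂ (b s') = 1 / 2 - δ / 2 →
      1 < T w (Complex.I * (a s - b s')) := by
  have hdisj : Disjoint (b '' {s | xi k₂ (b s) = 1 / 2 - δ / 2})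
      (a '' {s | xi k₁ (a s) = 1 / 2 + δ / 2}) := by
    rw [Set.disjoint_left]
    rintro _ ⟨s', hs', rfl⟩ ⟨s, hs, hss⟩
    have hs1 : xi k₁ (a s) = 1 / 2 + δ / 2 := hs
    have hs2 : xi k₂ (b s') = 1 / 2 - δ / 2 := hs'
    obtain ⟨h1, h2⟩ := hdis s s' hss
    subst h1
    rcases h2 with h2 | h2
    · rw [ha.xi_left h2] at hs1
      rw [hb.xi_left h2] at hs2
      linarith
    · rw [ha.xi_right h2] at hs1
      rw [hb.xi_right h2] at hs2
      linarith
  obtain ⟨f, u, v, h1, h2, h3⟩ := geometric_hahn_banach_compact_closed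
    (hb.fiber_convex (1 / 2 - δ / 2))
    ((hb.fiber_compact _).image hb.cont) (ha.fiber_convex (1 / 2 + δ / 2))
    ((ha.fiber_compact _).image ha.cont).isClosed hdisj
  have hf : ∀ z : ℂ, f z = z.re * f 1 + z.im * f Complex.I := by
    intro z
    have : z = z.re • (1 : ℂ) + z.im • Complex.I := by
      apply Complex.ext <;> simp
    conv_lhs => rw [this]
    rw [map_add, map_smul, map_smul, smul_eq_mul, smul_eq_mul]
  refine ⟨⟨-(f Complex.I / (v - u)), f 1 / (v - u)⟩, ?_⟩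
  intro s s' hs hs'
  have h4 := h1 (b s') ⟨s', hs', rfl⟩
  have h5 := h3 (a s) ⟨s, hs, rfl⟩
  rw [hf (b s')] at h4
  rw [hf (a s)] at h5
  rw [T_I]
  simp only [Complex.sub_re, Complex.sub_im]
  have h6 : 0 < v - u := by linarith
  rw [show f 1 / (v - u) * ((a s).re - (b s').re) - -(f Complex.I / (v - u)) * ((a s).im - (b s').im)
    = (((a s).re * f 1 + (a s).im * f Complex.I) - ((b s').re * f 1 + (b s').im * f Complex.I))
      / (v - u) by field_simp; ring]
  rw [lt_div_iff₀ h6]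
  linarith

/-- The set of the admissible test vectors. -/
def tt (a b : ℝ → ℂ) (k₁ k₂ δ : ℝ) : Set ℂ := {w | ∀ s s', xi k₁ (a s) = 1 / 2 + δ / 2 →
  xi k₂ (b s') = 1 / 2 - δ / 2 → 1 < T w (Complex.I * (a s - b s'))}

lemma tt_convex (δ : ℝ) : Convex ℝ (tt a b k₁ k₂ δ) := by
  intro w hw w' hw' p q hp hq hpq s s' hs hs'
  have h1 := hw s s' hs hs'
  have h2 := hw' s s' hs hs'
  rw [T_I] at h1 h2 ⊢
  simp only [Complex.add_re, Complex.add_im, Complex.real_smul, Complex.mul_re, Complex.mul_im,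
    Complex.ofReal_re, Complex.ofReal_im, zero_mul, sub_zero, add_zero]
  rcases hp.eq_or_lt with hp0 | hp0
  · have hq1 : q = 1 := by linarith
    rw [← hp0, hq1]
    linarith
  · nlinarith

lemma tt_local (ha : Arc a k₁ M) (hb : Arc b k₂ M)
    (hdis : ∀ s s', a s = b s' → s = s' ∧ (s ≤ 0 ∨ 1 ≤ s)) (δ₀ : ℝ) :
    ∃ w : ℂ, ∀ᶠ δ in 𝓝 δ₀, w ∈ tt a b k₁ k₂ δ := by
  obtain ⟨w, hw⟩ := sep ha hb hdis δ₀
  refine ⟨w, ?_⟩
  set F : Set (ℝ × ℝ × ℝ) := {p | |p.1 - δ₀| ≤ 1 ∧ xi k₁ (a p.2.1) = 1 / 2 + p.1 / 2 ∧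
    xi k₂ (b p.2.2) = 1 / 2 - p.1 / 2 ∧ T w (Complex.I * (a p.2.1 - b p.2.2)) ≤ 1} with hF
  have hac := ha.cont
  have hbc := hb.cont
  have hFcl : IsClosed F := by
    have c1 : Continuous fun p : ℝ × ℝ × ℝ => xi k₁ (a p.2.1) :=
      (xi_cont k₁).comp (hac.comp (by fun_prop))
    have c2 : Continuous fun p : ℝ × ℝ × ℝ => xi k₂ (b p.2.2) :=
      (xi_cont k₂).comp (hbc.comp (by fun_prop))
    have c3 : Continuous fun p : ℝ × ℝ × ℝ => T w (Complex.I * (a p.2.1 - b p.2.2)) :=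
      T_cont continuous_const (by fun_prop)
    have c0 : Continuous fun p : ℝ × ℝ × ℝ => |p.1 - δ₀| := by fun_prop
    have c4 : Continuous fun p : ℝ × ℝ × ℝ => 1 / 2 + p.1 / 2 := by fun_prop
    have c5 : Continuous fun p : ℝ × ℝ × ℝ => 1 / 2 - p.1 / 2 := by fun_prop
    exact (isClosed_le c0 (continuous_const (y := (1:ℝ)))).inter
      ((isClosed_eq c1 c4).inter ((isClosed_eq c2 c5).inter
        (isClosed_le c3 (continuous_const (y := (1:ℝ))))))
  have hFb : Bornology.IsBounded F := by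
    refine (Metric.isBounded_closedBall (x := (0 : ℝ × ℝ × ℝ)) (r := |δ₀| + 2)).subset ?_
    rintro ⟨δ, s, s'⟩ ⟨h1, h2, h3, -⟩
    simp only at h1 h2 h3
    have h4 : |δ| ≤ |δ₀| + 1 := by
      have := abs_add_le (δ - δ₀) δ₀
      rw [sub_add_cancel] at this
      linarith
    have h5 := ha.abs_le s
    have h6 := hb.abs_le s'
    rw [h2] at h5
    rw [h3] at h6
    have h7 : |1 / 2 + δ / 2| ≤ |δ₀| + 2 := by
      have := _root_.abs_le.1 h4
      rw [_root_.abs_le]
      constructor <;> linarith [abs_nonneg δ₀, this.1, this.2]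
    have h8 : |1 / 2 - δ / 2| ≤ |δ₀| + 2 := by
      have := _root_.abs_le.1 h4
      rw [_root_.abs_le]
      constructor <;> linarith [abs_nonneg δ₀, this.1, this.2]
    have h9 : (1:ℝ) ≤ |δ₀| + 2 := by linarith [abs_nonneg δ₀]
    rw [Metric.mem_closedBall, dist_zero_right]
    simp only [Prod.norm_def, Real.norm_eq_abs]
    exact max_le (by linarith) (max_le (h5.trans (max_le h9 h7)) (h6.trans (max_le h9 h8)))
  have hFc : IsCompact F := Metric.isCompact_of_isClosed_isBounded hFcl hFb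
  have hFi : IsClosed (Prod.fst '' F) := (hFc.image continuous_fst).isClosed
  have h0 : δ₀ ∉ Prod.fst '' F := by
    rintro ⟨⟨δ, s, s'⟩, ⟨h1, h2, h3, h4⟩, rfl⟩
    exact absurd (hw s s' h2 h3) (not_lt.mpr h4)
  filter_upwards [hFi.isOpen_compl.mem_nhds h0, Metric.ball_mem_nhds δ₀ one_pos] with δ hδ hδ1
  intro s s' hs hs'
  by_contra hcon
  push Not at hcon
  rw [Metric.mem_ball, Real.dist_eq] at hδ1
  exact hδ ⟨(δ, s, s'), ⟨hδ1.le, hs, hs', hcon⟩, rfl⟩

/-- **The dual curve.** -/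
lemma dual (ha : Arc a k₁ M) (hb : Arc b k₂ M)
    (hdis : ∀ s s', a s = b s' → s = s' ∧ (s ≤ 0 ∨ 1 ≤ s)) :
    ∃ (W : ℝ → ℂ) (B κ : ℝ), Continuous W ∧ 0 < B ∧ 0 < κ ∧ (∀ δ, ‖W δ‖ ≤ B) ∧
      ∀ δ s s', |xi k₁ (a s) - (1 / 2 + δ / 2)| ≤ κ → |xi k₂ (b s') - (1 / 2 - δ / 2)| ≤ κ →
        1 / 2 ≤ T (W δ) (Complex.I * (a s - b s')) := by
  obtain ⟨g, hg⟩ := exists_continuous_forall_mem_convex_of_local_const
    (fun δ => tt_convex (a := a) (b := b) (k₁ := k₁) (k₂ := k₂) δ) (tt_local ha hb hdis)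
  have hgc := g.continuous
  have hac := ha.cont
  have hbc := hb.cont
  set W : ℝ → ℂ := fun δ => g (max (-4) (min δ 4)) with hW
  have hWc : Continuous W := hgc.comp (by fun_prop)
  have hWr : ∀ δ, 4 ≤ δ → W δ = g 4 := by
    intro δ hδ
    simp only [hW]
    rw [min_eq_right hδ, max_eq_right (by norm_num)]
  have hWl : ∀ δ, δ ≤ -4 → W δ = g (-4) := by
    intro δ hδ
    simp only [hW]
    rw [min_eq_left (by linarith), max_eq_left hδ]
  have hWm : ∀ δ, |δ| ≤ 4 → W δ = g δ := by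
    intro δ hδ
    rw [_root_.abs_le] at hδ
    simp only [hW]
    rw [min_eq_left hδ.2, max_eq_right hδ.1]
  obtain ⟨B, hB⟩ := (isCompact_Icc (a := (-4:ℝ)) (b := 4)).exists_bound_of_continuousOn
    (f := g) hgc.continuousOn
  set F : Set (ℝ × ℝ × ℝ) := {p | |p.1| ≤ 4 ∧ |xi k₁ (a p.2.1) - (1 / 2 + p.1 / 2)| ≤ 1 ∧
    |xi k₂ (b p.2.2) - (1 / 2 - p.1 / 2)| ≤ 1 ∧
    T (g p.1) (Complex.I * (a p.2.1 - b p.2.2)) ≤ 1 / 2} with hF
  have c1 : Continuous fun p : ℝ × ℝ × ℝ => |xi k₁ (a p.2.1) - (1 / 2 + p.1 / 2)| :=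
    (((xi_cont k₁).comp (hac.comp (by fun_prop))).sub (by fun_prop)).abs
  have c2 : Continuous fun p : ℝ × ℝ × ℝ => |xi k₂ (b p.2.2) - (1 / 2 - p.1 / 2)| :=
    (((xi_cont k₂).comp (hbc.comp (by fun_prop))).sub (by fun_prop)).abs
  have c3 : Continuous fun p : ℝ × ℝ × ℝ => T (g p.1) (Complex.I * (a p.2.1 - b p.2.2)) :=
    T_cont (by fun_prop) (by fun_prop)
  have c0 : Continuous fun p : ℝ × ℝ × ℝ => |p.1| := by fun_prop
  have hFcl : IsClosed F :=
    (isClosed_le c0 (continuous_const (y := (4:ℝ)))).inter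
      ((isClosed_le c1 (continuous_const (y := (1:ℝ)))).inter
        ((isClosed_le c2 (continuous_const (y := (1:ℝ)))).inter
        (isClosed_le c3 (continuous_const (y := (1/2:ℝ))))))
  have hFb : Bornology.IsBounded F := by
    refine (Metric.isBounded_closedBall (x := (0 : ℝ × ℝ × ℝ)) (r := 4)).subset ?_
    rintro ⟨δ, s, s'⟩ ⟨h1, h2, h3, -⟩
    simp only at h1 h2 h3
    have h5 := ha.abs_le s
    have h6 := hb.abs_le s'
    have h1' := _root_.abs_le.1 h1
    have h2' := _root_.abs_le.1 h2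
    have h3' := _root_.abs_le.1 h3
    have h7 : |xi k₁ (a s)| ≤ 4 := by
      rw [_root_.abs_le]
      constructor <;> linarith [h1'.1, h1'.2, h2'.1, h2'.2]
    have h8 : |xi k₂ (b s')| ≤ 4 := by
      rw [_root_.abs_le]
      constructor <;> linarith [h1'.1, h1'.2, h3'.1, h3'.2]
    rw [Metric.mem_closedBall, dist_zero_right]
    simp only [Prod.norm_def, Real.norm_eq_abs]
    exact max_le h1 (max_le (h5.trans (max_le (by norm_num) h7))
      (h6.trans (max_le (by norm_num) h8)))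
  have hFc : IsCompact F := Metric.isCompact_of_isClosed_isBounded hFcl hFb
  obtain ⟨κ, hκ, hκ1, hκF⟩ : ∃ κ : ℝ, 0 < κ ∧ κ ≤ 1 ∧ ∀ p ∈ F,
      κ < max |xi k₁ (a p.2.1) - (1 / 2 + p.1 / 2)| |xi k₂ (b p.2.2) - (1 / 2 - p.1 / 2)| := by
    rcases F.eq_empty_or_nonempty with hFe | hFne
    · exact ⟨1, one_pos, le_rfl, by rw [hFe]; simp⟩
    · obtain ⟨z, hz, hzmin⟩ := hFc.exists_isMinOn hFne (c1.max c2).continuousOn
      have hz0 : 0 < max |xi k₁ (a z.2.1) - (1 / 2 + z.1 / 2)|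
          |xi k₂ (b z.2.2) - (1 / 2 - z.1 / 2)| := by
        by_contra hcon
        push Not at hcon
        have h1 := (le_max_left _ _).trans hcon
        have h2 := (le_max_right _ _).trans hcon
        have h3 := hg z.1 z.2.1 z.2.2 (by
          have := abs_nonpos_iff.1 h1
          linarith) (by
          have := abs_nonpos_iff.1 h2
          linarith)
        have h4 := hz.2.2.2
        linarith
      refine ⟨min 1 (max |xi k₁ (a z.2.1) - (1 / 2 + z.1 / 2)|
          |xi k₂ (b z.2.2) - (1 / 2 - z.1 / 2)| / 2), by positivity, min_le_left _ _, ?_⟩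
      intro p hp
      have h5 := isMinOn_iff.1 hzmin p hp
      have h6 := min_le_right 1 (max |xi k₁ (a z.2.1) - (1 / 2 + z.1 / 2)|
          |xi k₂ (b z.2.2) - (1 / 2 - z.1 / 2)| / 2)
      linarith
  refine ⟨W, max B 1, κ, hWc, by positivity, hκ, ?_, ?_⟩
  · intro δ
    refine le_trans ?_ (le_max_left _ _)
    apply hB
    exact ⟨le_max_left _ _, max_le (by norm_num) (min_le_right _ _)⟩
  · intro δ s s' hs hs'
    have hs1 := _root_.abs_le.1 hs
    have hs1' := _root_.abs_le.1 hs'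
    rcases le_or_gt 4 δ with hδ | hδ
    · rw [hWr δ hδ]
      have h1 : 1 < s := ha.lt_of (by linarith [hs1.1])
      have h2 : s' < 0 := hb.gt_of (by linarith [hs1'.2])
      have h3 := hg 4 (5 / 2) (-(3 / 2)) (by rw [ha.xi_right (by norm_num)]; norm_num)
        (by rw [hb.xi_left (by norm_num)]; norm_num)
      rw [ha.right _ (by norm_num), hb.left _ (by norm_num), T_I] at h3
      rw [ha.right _ h1.le, hb.left _ h2.le, T_I]
      rw [ha.xi_right h1.le] at hs1
      rw [hb.xi_left h2.le] at hs1'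
      simp only [Complex.sub_re, Complex.sub_im, Complex.ofReal_re, Complex.ofReal_im, sub_self,
        mul_zero, sub_zero] at h3 ⊢
      have h4 : 1 / 4 < (g 4).im := by linarith
      have h5 : 2 ≤ s - s' := by linarith [hs1.1, hs1'.2]
      nlinarith
    · rcases le_or_gt δ (-4) with hδ2 | hδ2
      · rw [hWl δ hδ2]
        have h1 : s < 0 := ha.gt_of (by linarith [hs1.2])
        have h2 : 1 < s' := hb.lt_of (by linarith [hs1'.1])
        have h3 := hg (-4) (-(3 / 2)) (5 / 2) (by rw [ha.xi_left (by norm_num)]; norm_num)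
          (by rw [hb.xi_right (by norm_num)]; norm_num)
        rw [ha.left _ (by norm_num), hb.right _ (by norm_num), T_I] at h3
        rw [ha.left _ h1.le, hb.right _ h2.le, T_I]
        rw [ha.xi_left h1.le] at hs1
        rw [hb.xi_right h2.le] at hs1'
        simp only [Complex.sub_re, Complex.sub_im, Complex.ofReal_re, Complex.ofReal_im, sub_self,
          mul_zero, sub_zero] at h3 ⊢
        have h4 : (g (-4)).im < -(1 / 4) := by linarith
        have h5 : s - s' ≤ -2 := by linarith [hs1.2, hs1'.1]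
        nlinarith
      · have hδ3 : |δ| ≤ 4 := _root_.abs_le.2 ⟨hδ2.le, hδ.le⟩
        rw [hWm δ hδ3]
        by_contra hcon
        push Not at hcon
        have := hκF (δ, s, s') ⟨hδ3, hs.trans hκ1, hs'.trans hκ1, hcon.le⟩
        exact absurd this (not_lt.mpr (max_le hs hs'))

lemma T_le (w z : ℂ) : |T w z| ≤ ‖w‖ * ‖z‖ := by
  have h : T w z = (w * (starRingEnd ℂ) z).re := by simp [T]
  rw [h]
  calc _ ≤ ‖w * (starRingEnd ℂ) z‖ := Complex.abs_re_le_norm _
    _ = ‖w‖ * ‖z‖ := by rw [norm_mul, Complex.norm_conj]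

/-- What is needed of the approximating graphs. -/
structure Appr (a : ℝ → ℂ) (k M ε : ℝ) (φ S : ℝ → ℝ) : Prop where
  supp : Supp φ M
  gr : ∀ t, gr φ k t = (1 - ε) * a (S t) + ε * (S t)
  par : ∀ t, (1 - ε) * xi k (a (S t)) + ε * S t = t
  bd : ∀ t, |S t| ≤ max 1 |t|

lemma dual_J (ha : Arc a k₁ M) (hb : Arc b k₂ M)
    (hdis : ∀ s s', a s = b s' → s = s' ∧ (s ≤ 0 ∨ 1 ≤ s)) (hr : 0 < r) :
    ∃ (wx wy : ℝ → ℝ) (β ε₀ : ℝ), Continuous wx ∧ Continuous wy ∧ 0 < β ∧ 0 < ε₀ ∧ ε₀ ≤ 1 ∧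
      ∀ ε, 0 < ε → ε ≤ ε₀ → ∀ φ ψ S S' : ℝ → ℝ, Appr a k₁ M ε φ S → Appr b k₂ M ε ψ S' →
        ∀ δ, β ≤ J φ ψ k₁ k₂ r (1 / 2, δ, wx δ, wy δ) := by
  obtain ⟨W, B, κ, hW, hB, hκ, hWB, hdual⟩ := dual ha hb hdis
  obtain ⟨N₁, hN₁, hn₁⟩ := ha.near
  obtain ⟨N₂, hN₂, hn₂⟩ := hb.near
  set N := N₁ + N₂ + 1 with hN
  have hN0 : 0 < N := by positivity
  set K := 1 + |k₁| + |k₂| with hK
  have hK0 : 0 < K := by positivity
  obtain ⟨l, hl, hl1, hl2, hl3⟩ : ∃ l : ℝ, 0 < l ∧ l * (2 * B * K) ≤ κ ∧ l * (16 * B ^ 2 * K) ≤ 1 ∧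
      l * (4 * r * B ^ 2) ≤ 1 := by
    refine ⟨min (κ / (2 * B * K)) (min (1 / (16 * B ^ 2 * K)) (1 / (4 * r * B ^ 2))),
      by positivity, ?_, ?_, ?_⟩
    · rw [← le_div_iff₀ (by positivity)]
      exact min_le_left _ _
    · rw [← le_div_iff₀ (by positivity)]
      exact (min_le_right _ _).trans (min_le_left _ _)
    · rw [← le_div_iff₀ (by positivity)]
      exact (min_le_right _ _).trans (min_le_right _ _)
  refine ⟨fun δ => l * (W δ).re, fun δ => l * (W δ).im, l / 8,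
    min 1 (min (κ / (2 * N)) (1 / (16 * B * N))), by fun_prop, by fun_prop, by positivity,
    by positivity, min_le_left _ _, ?_⟩
  intro ε hε hε0 φ ψ S S' hφ hψ δ
  have hε1 : ε ≤ 1 := hε0.trans (min_le_left _ _)
  have hε2 : ε * (2 * N) ≤ κ := by
    rw [← le_div_iff₀ (by positivity)]
    exact hε0.trans ((min_le_right _ _).trans (min_le_left _ _))
  have hε3 : ε * (16 * B * N) ≤ 1 := by
    rw [← le_div_iff₀ (by positivity)]
    exact hε0.trans ((min_le_right _ _).trans (min_le_right _ _))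
  have hre : |(W δ).re| ≤ B := (Complex.abs_re_le_norm _).trans (hWB δ)
  have him : |(W δ).im| ≤ B := (Complex.abs_im_le_norm _).trans (hWB δ)
  have hxi : ∀ k : ℝ, |k| ≤ |k₁| + |k₂| → |l * (W δ).re - k * (l * (W δ).im)| ≤ l * (B * K) := by
    intro k hk
    rw [show l * (W δ).re - k * (l * (W δ).im) = l * ((W δ).re - k * (W δ).im) by ring, abs_mul,
      abs_of_pos hl]
    apply mul_le_mul_of_nonneg_left _ hl.le
    have h1 : |k * (W δ).im| ≤ (|k₁| + |k₂|) * B := by
      rw [abs_mul]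
      exact mul_le_mul hk him (abs_nonneg _) (by positivity)
    have h2 := abs_sub (W δ).re (k * (W δ).im)
    rw [hK]
    nlinarith
  have hx1 := hxi k₁ (by linarith [abs_nonneg k₂])
  have hx2 := hxi k₂ (by linarith [abs_nonneg k₁])
  have hb1 := dual_bound (k₁ := k₁) (k₂ := k₂) (r := r) hφ.supp hψ.supp (1 / 2) δ
    (l * (W δ).re) (l * (W δ).im) (l / 4) (by
      intro t t' ht ht'
      have ht1 := ht.trans hx1
      have ht2 := ht'.trans hx2
      set s := S t with hs
      set s' := S' t' with hs'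
      have p1 := hφ.par t
      have p2 := hψ.par t'
      rw [← hs] at p1
      rw [← hs'] at p2
      have q1 : |xi k₁ (a s) - t| ≤ ε * N := by
        have e : xi k₁ (a s) - t = ε * (xi k₁ (a s) - s) := by linarith
        rw [e, abs_mul, abs_of_pos hε]
        exact mul_le_mul_of_nonneg_left ((hn₁ s).2.trans (by linarith)) hε.le
      have q2 : |xi k₂ (b s') - t'| ≤ ε * N := by
        have e : xi k₂ (b s') - t' = ε * (xi k₂ (b s') - s') := by linarith
        rw [e, abs_mul, abs_of_pos hε]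
        exact mul_le_mul_of_nonneg_left ((hn₂ s').2.trans (by linarith)) hε.le
      have q3 : |xi k₁ (a s) - (1 / 2 + δ / 2)| ≤ κ := by
        have := abs_add_le (xi k₁ (a s) - t) (t - (1 / 2 + δ / 2))
        rw [sub_add_sub_cancel] at this
        linarith
      have q4 : |xi k₂ (b s') - (1 / 2 - δ / 2)| ≤ κ := by
        have := abs_add_le (xi k₂ (b s') - t') (t' - (1 / 2 - δ / 2))
        rw [sub_add_sub_cancel] at this
        linarith
      have q5 := hdual δ s s' q3 q4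
      -- compare
      have e1 : Z φ ψ k₁ k₂ δ t t' (l * (W δ).re) (l * (W δ).im) =
          l * T (W δ) (Complex.I * (gr φ k₁ t - gr ψ k₂ t' + ((δ - (t - t') : ℝ) : ℂ))) := by
        simp [Z, T, gr]
        ring
      have e2 : Complex.I * (gr φ k₁ t - gr ψ k₂ t' + ((δ - (t - t') : ℝ) : ℂ)) =
          Complex.I * (a s - b s') + Complex.I * (-(ε * (a s - s)) + ε * (b s' - s')
            + ((δ - (t - t') : ℝ) : ℂ)) := by
        rw [hφ.gr t, hψ.gr t']
        ring
      have e3 : ∀ w z z' : ℂ, T w (z + z') = T w z + T w z' := by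
        intro w z z'; simp [T]; ring
      rw [e1, e2, e3]
      have q6 := T_le (W δ) (Complex.I * (-(ε * (a s - s)) + ε * (b s' - s')
            + ((δ - (t - t') : ℝ) : ℂ)))
      have q7 : ‖Complex.I * (-(ε * (a s - s)) + ε * (b s' - s')
            + ((δ - (t - t') : ℝ) : ℂ))‖ ≤ ε * N + 2 * (l * (B * K)) := by
        rw [norm_mul, Complex.norm_I, one_mul]
        have r1 : ‖-((ε : ℂ) * (a s - s))‖ ≤ ε * N₁ := by
          rw [norm_neg, norm_mul, Complex.norm_real, Real.norm_eq_abs, abs_of_pos hε]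
          exact mul_le_mul_of_nonneg_left (hn₁ s).1 hε.le
        have r2 : ‖(ε : ℂ) * (b s' - s')‖ ≤ ε * N₂ := by
          rw [norm_mul, Complex.norm_real, Real.norm_eq_abs, abs_of_pos hε]
          exact mul_le_mul_of_nonneg_left (hn₂ s').1 hε.le
        have r3 : ‖((δ - (t - t') : ℝ) : ℂ)‖ ≤ 2 * (l * (B * K)) := by
          rw [Complex.norm_real, Real.norm_eq_abs]
          have := abs_sub (t' - (1 / 2 - δ / 2)) (t - (1 / 2 + δ / 2))
          rw [show t' - (1 / 2 - δ / 2) - (t - (1 / 2 + δ / 2)) = δ - (t - t') by ring] at this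
          linarith
        have r4 := norm_add₃_le (a := -((ε : ℂ) * (a s - s))) (b := (ε : ℂ) * (b s' - s'))
          (c := ((δ - (t - t') : ℝ) : ℂ))
        have r5 : ε * N₁ + ε * N₂ ≤ ε * N := by
          rw [hN]; nlinarith
        linarith
      have q8 := hWB δ
      have q9 : ‖W δ‖ * ‖Complex.I * (-(ε * (a s - s)) + ε * (b s' - s')
            + ((δ - (t - t') : ℝ) : ℂ))‖ ≤ 1 / 4 := by
        calc _ ≤ B * (ε * N + 2 * (l * (B * K))) :=
              mul_le_mul q8 q7 (norm_nonneg _) hB.le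
          _ = (ε * (16 * B * N)) / 16 + (l * (16 * B ^ 2 * K)) / 8 := by ring
          _ ≤ 1 / 4 := by linarith
      have q10 := (_root_.abs_le.1 (q6.trans q9)).1
      have q11 : 1 / 4 ≤ T (W δ) (Complex.I * (a s - b s')) + T (W δ)
          (Complex.I * (-(ε * (a s - s)) + ε * (b s' - s') + ((δ - (t - t') : ℝ) : ℂ))) := by
        linarith
      have := mul_le_mul_of_nonneg_left q11 hl.le
      linarith)
  have hsq : (l * (W δ).re) ^ 2 + (l * (W δ).im) ^ 2 ≤ l ^ 2 * B ^ 2 := by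
    have h1 : (W δ).re ^ 2 + (W δ).im ^ 2 = ‖W δ‖ ^ 2 := by
      rw [← Complex.normSq_eq_norm_sq, Complex.normSq_apply]; ring
    have h2 : ‖W δ‖ ^ 2 ≤ B ^ 2 := pow_le_pow_left₀ (norm_nonneg _) (hWB δ) 2
    have h3 : l ^ 2 * ‖W δ‖ ^ 2 ≤ l ^ 2 * B ^ 2 := mul_le_mul_of_nonneg_left h2 (sq_nonneg _)
    rw [← h1] at h3
    linarith
  have hfin : r * ((l * (W δ).re) ^ 2 + (l * (W δ).im) ^ 2) / 2 ≤ l / 8 := by
    have h1 := mul_le_mul_of_nonneg_left hsq hr.le
    have h2 : r * (l ^ 2 * B ^ 2) = l * (l * (4 * r * B ^ 2)) / 4 := by ring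
    have h3 : l * (l * (4 * r * B ^ 2)) ≤ l * 1 := mul_le_mul_of_nonneg_left hl3 hl.le
    linarith
  linarith

/-- **Rectangles on the prolonged arcs.** -/
theorem rect_ext (ha : Arc a k₁ M) (hb : Arc b k₂ M)
    (hdis : ∀ s s', a s = b s' → s = s' ∧ (s ≤ 0 ∨ 1 ≤ s)) (hr : 0 < r) :
    ∃ (s₁ s₂ s₃ s₄ : ℝ) (w : ℂ), w ≠ 0 ∧ a s₂ = a s₁ + w ∧
      b s₃ = a s₁ + w + r * Complex.I * w ∧ b s₄ = a s₁ + r * Complex.I * w := by
  have hM0 : 0 ≤ M := (abs_nonneg _).trans (ha.bound 0)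
  obtain ⟨wx, wy, β, ε₀, hwx, hwy, hβ, hε₀, hε₁, hdual⟩ := dual_J ha hb hdis hr
  obtain ⟨R, d0, hd0, hco⟩ := coer (M := M) k₁ k₂ hM0 hr (β / 2) (by positivity)
  set Q := M * (2 + |k₁| + |k₂|) + ((|k₁| + |k₂|) * M + r * (2 * M)) with hQ
  set K := 2 + |k₁| + |k₂| with hK
  have hK0 : 0 < K := by positivity
  set R' := 1 + K * |R| with hR'
  have hR'0 : 0 ≤ R' := by positivity
  have hac := ha.cont
  have hbc := hb.cont
  set A : (Fin 7 → ℝ) → Fin 7 → ℂ := fun p i => (1 - p 0) * a (p i) + p 0 * p i with hA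
  set B : (Fin 7 → ℝ) → Fin 7 → ℂ := fun p i => (1 - p 0) * b (p i) + p 0 * p i with hB
  set w : (Fin 7 → ℝ) → ℂ := fun p => p 5 + p 6 * Complex.I with hw
  have hAc : ∀ i, Continuous fun p => A p i := by
    intro i
    simp only [hA]
    fun_prop
  have hBc : ∀ i, Continuous fun p => B p i := by
    intro i
    simp only [hB]
    fun_prop
  have hwc : Continuous w := by
    simp only [hw]
    fun_prop
  set F : Set (Fin 7 → ℝ) := {p | ‖p‖ ≤ R' ∧ A p 2 = A p 1 + w p ∧
    B p 3 = A p 1 + w p + r * Complex.I * w p ∧ B p 4 = A p 1 + r * Complex.I * w p ∧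
    β / 2 ≤ Q * (|p 5| + |p 6|)} with hF
  have hFcl : IsClosed F := by
    have c0 : Continuous fun p : Fin 7 → ℝ => ‖p‖ := continuous_norm
    have c2 := (hAc 1).add hwc
    have c3 : Continuous fun p => A p 1 + w p + r * Complex.I * w p :=
      c2.add (continuous_const.mul hwc)
    have c4 : Continuous fun p => A p 1 + r * Complex.I * w p :=
      (hAc 1).add (continuous_const.mul hwc)
    have c5 : Continuous fun p : Fin 7 → ℝ => Q * (|p 5| + |p 6|) := by fun_prop
    exact (isClosed_le c0 (continuous_const (y := R'))).inter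
      ((isClosed_eq (hAc 2) c2).inter ((isClosed_eq (hBc 3) c3).inter
        ((isClosed_eq (hBc 4) c4).inter (isClosed_le (continuous_const (y := β / 2)) c5))))
  have hFb : Bornology.IsBounded F := by
    refine (Metric.isBounded_closedBall (x := (0 : Fin 7 → ℝ)) (r := R')).subset ?_
    intro p hp
    rw [Metric.mem_closedBall, dist_zero_right]
    exact hp.1
  have hFc : IsCompact F := Metric.isCompact_of_isClosed_isBounded hFcl hFb
  have hFi : IsClosed ((fun p : Fin 7 → ℝ => p 0) '' F) :=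
    (hFc.image (continuous_apply 0)).isClosed
  have hsub : Ioc 0 ε₀ ⊆ (fun p : Fin 7 → ℝ => p 0) '' F := by
    intro ε hε
    have hε1 : ε ≤ 1 := hε.2.trans hε₁
    obtain ⟨φ, S, h1, h2, h3, h4⟩ := ha.graph hε.1 hε1
    obtain ⟨ψ, S', h1', h2', h3', h4'⟩ := hb.graph hε.1 hε1
    obtain ⟨⟨m, δ, x, y⟩, hg, hJ⟩ := core (k₁ := k₁) (k₂ := k₂) h1 h1' hr (1 / 2) wx wy hwx hwy β hβ
      (hdual ε hε.1 hε.2 φ ψ S S' ⟨h1, h2, h3, h4⟩ ⟨h1', h2', h3', h4'⟩)
    have hnorm := hco φ ψ h1 h1' (m, δ, x, y) (by rw [hg, norm_zero]; exact hd0.le) hJ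
    have hn4 := norm4 m δ x y
    have hm := hn4.1.trans (hnorm.trans (le_abs_self R))
    have hδ := hn4.2.1.trans (hnorm.trans (le_abs_self R))
    have hx := hn4.2.2.1.trans (hnorm.trans (le_abs_self R))
    have hy := hn4.2.2.2.trans (hnorm.trans (le_abs_self R))
    have hlow := crit_lower h1 h1' hr m δ x y (β / 2) hg hJ
    obtain ⟨t₁, t₂, t₃, t₄, e1, e2, e3, f1, f2, f3, f4⟩ := crit_rect m δ x y hg
    have hkey : ∀ k : ℝ, |k| ≤ |k₁| + |k₂| → ∀ σ σ' : ℝ, |σ| ≤ 1 → |σ'| ≤ 1 →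
        |m + σ * (δ / 2) + σ' * ((x - k * y) / 2)| ≤ K * |R| := by
      intro k hk σ σ' hσ hσ'
      have g1 : |σ * (δ / 2)| ≤ |R| / 2 := by
        rw [abs_mul, abs_div, abs_of_pos (by norm_num : (0:ℝ) < 2)]
        have := mul_le_mul hσ (div_le_div_of_nonneg_right hδ (by norm_num : (0:ℝ) ≤ 2))
          (by positivity) zero_le_one
        linarith
      have g2 : |k * y| ≤ (|k₁| + |k₂|) * |R| := by
        rw [abs_mul]
        exact mul_le_mul hk hy (abs_nonneg _) (by positivity)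
      have g3 : |(x - k * y) / 2| ≤ (|R| + (|k₁| + |k₂|) * |R|) / 2 := by
        rw [abs_div, abs_of_pos (by norm_num : (0:ℝ) < 2)]
        have := abs_sub x (k * y)
        linarith
      have g4 : |σ' * ((x - k * y) / 2)| ≤ (|R| + (|k₁| + |k₂|) * |R|) / 2 := by
        rw [abs_mul]
        have := mul_le_mul hσ' g3 (abs_nonneg _) zero_le_one
        linarith
      have g5 := abs_add_le (m + σ * (δ / 2)) (σ' * ((x - k * y) / 2))
      have g6 := abs_add_le m (σ * (δ / 2))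
      have g7 : 0 ≤ (|k₁| + |k₂|) * |R| := by positivity
      have g8 : K * |R| = 2 * |R| + (|k₁| + |k₂|) * |R| := by rw [hK]; ring
      linarith
    have ht₁ : |t₁| ≤ K * |R| := by
      have := hkey k₁ (by linarith [abs_nonneg k₂]) 1 (-1) (by simp) (by simp)
      rw [f1]; convert this using 2; ring
    have ht₂ : |t₂| ≤ K * |R| := by
      have := hkey k₁ (by linarith [abs_nonneg k₂]) 1 1 (by simp) (by simp)
      rw [f2]; convert this using 2; ring
    have ht₃ : |t₃| ≤ K * |R| := by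
      have := hkey k₂ (by linarith [abs_nonneg k₁]) (-1) 1 (by simp) (by simp)
      rw [f3]; convert this using 2; ring
    have ht₄ : |t₄| ≤ K * |R| := by
      have := hkey k₂ (by linarith [abs_nonneg k₁]) (-1) (-1) (by simp) (by simp)
      rw [f4]; convert this using 2; ring
    have hKR : 0 ≤ K * |R| := by positivity
    have hS : ∀ t, |t| ≤ K * |R| → |S t| ≤ R' := fun t ht =>
      (h4 t).trans (max_le (by linarith) (by linarith))
    have hS' : ∀ t, |t| ≤ K * |R| → |S' t| ≤ R' := fun t ht =>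
      (h4' t).trans (max_le (by linarith) (by linarith))
    have hRR : |R| ≤ R' := by
      have : 1 * |R| ≤ K * |R| := mul_le_mul_of_nonneg_right
        (by rw [hK]; linarith [abs_nonneg k₁, abs_nonneg k₂]) (abs_nonneg R)
      linarith
    refine ⟨![ε, S t₁, S t₂, S' t₃, S' t₄, x, y], ⟨?_, ?_, ?_, ?_, ?_⟩, rfl⟩
    · rw [pi_norm_le_iff_of_nonneg hR'0]
      intro i
      rw [Real.norm_eq_abs]
      fin_cases i
      · show |ε| ≤ R'
        rw [abs_of_pos hε.1]
        linarith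
      · exact hS _ ht₁
      · exact hS _ ht₂
      · exact hS' _ ht₃
      · exact hS' _ ht₄
      · exact hx.trans hRR
      · exact hy.trans hRR
    · have := e1
      rw [h2, h2] at this
      exact this
    · have := e2
      rw [h2, h2'] at this
      exact this
    · have := e3
      rw [h2, h2'] at this
      exact this
    · exact hlow
  have h0 : (0:ℝ) ∈ (fun p : Fin 7 → ℝ => p 0) '' F := by
    have h1 : (0:ℝ) ∈ closure (Ioc 0 ε₀) := by
      rw [closure_Ioc hε₀.ne]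
      exact ⟨le_rfl, hε₀.le⟩
    exact hFi.closure_subset_iff.2 hsub h1
  obtain ⟨p, ⟨-, g1, g2, g3, g4⟩, hp0⟩ := h0
  simp only at hp0
  simp only [hA, hB, hp0, Complex.ofReal_zero, sub_zero, one_mul, zero_mul, add_zero] at g1 g2 g3
  refine ⟨p 1, p 2, p 3, p 4, w p, ?_, g1, g2, g3⟩
  intro hw0
  have h5 : p 5 = 0 := by
    have := congrArg Complex.re hw0
    simpa [hw] using this
  have h6 : p 6 = 0 := by
    have := congrArg Complex.im hw0
    simpa [hw] using this
  rw [h5, h6, abs_zero, add_zero, mul_zero] at g4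
  linarith

end Pool.Agent.J4H19.Arcs
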