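import Mathlib
import Pool.Agent.H763R2.An.G

/-! A continuous function with opposite signs on the two sides of a proper arc which is the real line
outside of the strip `0 ≤ re ≤ 1`. -/

set_option autoImplicit false

open Complex Set Topology Metric Filter

namespace Pool.Agent.J4H19.Side

open Pool.Agent.H763R2.An

/-- An arc in the strip `0 ≤ re ≤ 1` from `0` to `1`, prolonged along the real line. -/
structure Lin (b : ℝ → ℂ) : Prop where
  cont : Continuous b
  left : ∀ t : ℝ, t ≤ 0 → b t = t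
  right : ∀ t : ℝ, 1 ≤ t → b t = t
  re0 : ∀ t ∈ Icc (0:ℝ) 1, 0 ≤ (b t).re
  re1 : ∀ t ∈ Icc (0:ℝ) 1, (b t).re ≤ 1

/-- the circle -/
noncomputable def Gm (N t : ℝ) : ℂ := 1 / 2 + (N + 1 / 2) * exp (Real.pi * I * (2 * t - 1))

/-- the arc closed up by a half circle -/
noncomputable def B0 (b : ℝ → ℂ) (N t : ℝ) : ℂ :=
  b (min (1 + N) (-N + (1 + 2 * N) * (2 * t))) + (Gm N (max (1 / 2) t) - (1 + N))

lemma Gm_cont (N : ℝ) : Continuous (Gm N) := by unfold Gm; fun_prop

lemma Gm_half (N : ℝ) : Gm N (1 / 2) = 1 + N := by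
  unfold Gm
  rw [show (Real.pi * I * (2 * ((1 / 2 : ℝ) : ℂ) - 1) : ℂ) = 0 by push_cast; ring, exp_zero]
  ring

lemma Gm_one (N : ℝ) : Gm N 1 = -N := by
  unfold Gm
  rw [show (Real.pi * I * (2 * ((1 : ℝ) : ℂ) - 1) : ℂ) = Real.pi * I by push_cast; ring, exp_pi_mul_I]
  ring

lemma Gm_exp (N t : ℝ) : Gm N t = 1 / 2 + ((N + 1 / 2 : ℝ) : ℂ) *
    exp (((Real.pi * (2 * t - 1) : ℝ) : ℂ) * I) := by
  unfold Gm
  push_cast
  congr 3
  ring

lemma Gm_im (N t : ℝ) : (Gm N t).im = (N + 1 / 2) * Real.sin (Real.pi * (2 * t - 1)) := by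
  rw [Gm_exp, add_im, im_ofReal_mul, exp_ofReal_mul_I_im]
  simp

lemma Gm_norm {N t : ℝ} (hN : 0 ≤ N) : ‖Gm N t - 1 / 2‖ = N + 1 / 2 := by
  rw [Gm_exp, add_sub_cancel_left, norm_mul, norm_exp_ofReal_mul_I, mul_one, norm_real,
    Real.norm_of_nonneg (by linarith)]

lemma Gm_norm_ge {N t : ℝ} (hN : 0 ≤ N) : N ≤ ‖Gm N t‖ := by
  have h1 := Gm_norm (t := t) hN
  have h2 := norm_sub_le (Gm N t) (1 / 2)
  have h3 : ‖(1 / 2 : ℂ)‖ = 1 / 2 := by norm_num
  linarith

lemma Gm_fract (N t : ℝ) : Gm N (Int.fract t) = Gm N t := by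
  have h : Function.Periodic (Gm N) 1 := by
    intro x
    unfold Gm
    rw [show (Real.pi * I * (2 * ((x + 1 : ℝ) : ℂ) - 1) : ℂ) =
      Real.pi * I * (2 * (x : ℂ) - 1) + 2 * Real.pi * I by push_cast; ring, exp_periodic]
  have := h.int_mul ⌊t⌋ (Int.fract t)
  rw [mul_one, Int.fract_add_floor] at this
  exact this.symm

variable {b : ℝ → ℂ} {N : ℝ}

lemma B0_low (hN : 0 ≤ N) {t : ℝ} (ht : t ≤ 1 / 2) :
    B0 b N t = b (-N + (1 + 2 * N) * (2 * t)) := by
  unfold B0
  rw [min_eq_right (by nlinarith), max_eq_left ht, Gm_half]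
  ring

lemma B0_high (h : Lin b) (hN : 0 ≤ N) {t : ℝ} (ht : 1 / 2 ≤ t) : B0 b N t = Gm N t := by
  unfold B0
  rw [min_eq_left (by nlinarith), max_eq_right ht, h.right _ (by linarith)]
  push_cast
  ring

lemma B0_cont (h : Lin b) : Continuous (B0 b N) := by
  have := h.cont
  have := Gm_cont N
  unfold B0
  fun_prop

noncomputable def BB (b : ℝ → ℂ) (N t : ℝ) : ℂ := B0 b N (Int.fract t)

lemma loop (h : Lin b) (hN : 0 ≤ N) : Loop (BB b N) where
  cont := by
    have h01 : B0 b N 0 = B0 b N 1 := by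
      rw [B0_low hN (by norm_num), B0_high h hN (by norm_num), Gm_one, h.left _ (by linarith)]
      push_cast; ring
    exact ((B0_cont h).continuousOn (s := Icc 0 1)).comp_fract'' h01
  per t := by unfold BB; rw [Int.fract_add_one]

lemma mem_range_iff (h : Lin b) (hN : 0 ≤ N) {z : ℂ} (hz : ‖z‖ < N) :
    z ∈ range (BB b N) ↔ z ∈ range b := by
  constructor
  · rintro ⟨t, rfl⟩
    unfold BB at hz ⊢
    rcases le_or_gt (Int.fract t) (1 / 2) with h1 | h1
    · rw [B0_low hN h1]; exact mem_range_self _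
    · rw [B0_high h hN h1.le] at hz
      exact absurd hz (not_lt.2 (Gm_norm_ge hN))
  · rintro ⟨t, rfl⟩
    have t0 : -N ≤ t := by
      by_contra hc
      push Not at hc
      rw [h.left t (by linarith), norm_real, Real.norm_eq_abs, abs_of_neg (by linarith)] at hz
      linarith
    have t1 : t ≤ 1 + N := by
      by_contra hc
      push Not at hc
      rw [h.right t (by linarith), norm_real, Real.norm_eq_abs, abs_of_pos (by linarith)] at hz
      linarith
    have e1 : 0 < 1 + 2 * N := by linarith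
    set τ := (t + N) / (2 * (1 + 2 * N)) with hτ
    have τ0 : 0 ≤ τ := div_nonneg (by linarith) (by linarith)
    have τ1 : τ ≤ 1 / 2 := by
      rw [hτ, div_le_iff₀ (by linarith)]; linarith
    refine ⟨τ, ?_⟩
    unfold BB
    rw [Int.fract_eq_self.2 ⟨τ0, by linarith⟩, B0_low hN τ1]
    congr 1
    rw [hτ]
    field_simp
    ring

/-- points off the arc -/
def Off (H : ℝ) (z : ℂ) : Prop := (z.re < 0 ∨ 1 < z.re ∨ H < |z.im|) ∧ z.im ≠ 0

lemma off_range (h : Lin b) {H : ℝ} (hH : ∀ t, |(b t).im| ≤ H) {z : ℂ} (hz : Off H z) :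
    z ∉ range b := by
  rintro ⟨t, rfl⟩
  obtain ⟨h1, h2⟩ := hz
  by_cases ht : t ∈ Icc (0:ℝ) 1
  · rcases h1 with h1 | h1 | h1
    · exact absurd (h.re0 t ht) (not_le.2 h1)
    · exact absurd (h.re1 t ht) (not_le.2 h1)
    · exact absurd (hH t) (not_le.2 h1)
  · rw [mem_Icc, not_and_or] at ht
    push Not at ht
    rcases ht with ht | ht
    · rw [h.left t ht.le] at h2; simp at h2
    · rw [h.right t ht.le] at h2; simp at h2

/-- above -/
lemma up (h : Lin b) {H ρ : ℝ} (hH0 : 0 ≤ H) (hH : ∀ t, |(b t).im| ≤ H) (hρ : 0 < ρ)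
    (hN : N = ρ + H + 2) {z : ℂ} (hz : Off H z) (hi : 0 < z.im) (hn : ‖z‖ < ρ) :
    0 < mgc (BB b N) z := by
  have hN0 : 0 ≤ N := by linarith
  have L := loop h hN0
  -- the vertical segment
  have hseg : ∀ s : ℝ, 0 ≤ s → s ≤ H + 1 → z + s * I ∉ range (BB b N) := by
    intro s hs0 hs1
    have hn' : ‖z + s * I‖ < N := by
      have := norm_add_le z (s * I)
      rw [norm_mul, norm_I, mul_one, norm_real, Real.norm_of_nonneg hs0] at this
      linarith
    rw [mem_range_iff h hN0 hn']
    apply off_range h hH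
    constructor
    · rcases hz.1 with h1 | h1 | h1
      · left; simpa using h1
      · right; left; simpa using h1
      · right; right
        have e : (z + s * I).im = z.im + s := by simp
        rw [e, abs_of_pos (by linarith)]
        rw [abs_of_pos hi] at h1
        linarith
    · have e : (z + s * I).im = z.im + s := by simp
      rw [e]; linarith
  set w : ℂ := z + (H + 1 : ℝ) * I with hw
  have hwim : H < w.im := by simp [hw]; linarith
  have hwn : ‖w‖ < N := by
    have := norm_add_le z ((H + 1 : ℝ) * I)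
    rw [norm_mul, norm_I, mul_one, norm_real, Real.norm_of_nonneg (by linarith)] at this
    linarith
  have hw2 : ‖w - 1 / 2‖ < N + 1 / 2 := by
    have := norm_sub_le w (1 / 2)
    have h3 : ‖(1 / 2 : ℂ)‖ = 1 / 2 := by norm_num
    linarith
  -- winding number of the reference point
  have key : IsWc (BB b N) w 1 := by
    have hwr : w ∉ range (BB b N) := by
      have := hseg (H + 1) (by linarith) le_rfl
      simpa [hw] using this
    obtain ⟨n, k, hk, ek, e⟩ := L.exW hwr
    -- first homotopy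
    set cl : ℝ → ℝ := fun s => max 0 (min 1 s) with hcl
    have cl0 : cl 0 = 0 := by simp [hcl]
    have cl1 : cl 1 = 1 := by simp [hcl]
    have clc : Continuous cl := by rw [hcl]; fun_prop
    have cln : ∀ s, 0 ≤ cl s := fun s => le_max_left _ _
    have clx : ∀ s, cl s ≤ 1 := fun s => max_le zero_le_one (min_le_left _ _)
    have hG : ∀ t, Gm N t - w ≠ 0 := by
      intro t h0
      rw [sub_eq_zero] at h0
      rw [← h0] at hwn
      exact absurd hwn (not_lt.2 (Gm_norm_ge hN0))
    obtain ⟨k', hk', ek'⟩ := H777R2.exists_log (X := ℝ) (g := fun t => Gm N t - w)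
      ((Gm_cont N).sub continuous_const) hG
    have hc := L.cont
    have hg := Gm_cont N
    have B1 : BB b N 1 = BB b N 0 := by have := L.per 0; rwa [zero_add] at this
    have G1 : Gm N 1 = Gm N 0 := by
      have := Gm_fract N 1
      rw [Int.fract_one] at this
      exact this.symm
    have h1 : k 1 - k 0 = k' 1 - k' 0 := by
      refine homW (F := fun s t => (1 - cl s) * BB b N t + cl s * Gm N t - w) (by fun_prop)
        (fun s => by simp only [B1, G1]) ?_ hk (fun t => by rw [ek, cl0]; push_cast; ring) hk'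
        (fun t => by rw [ek', cl1]; push_cast; ring)
      intro s t h0
      rcases le_or_gt (Int.fract t) (1 / 2) with hf | hf
      · have i1 : (BB b N t).im ≤ H := by
          unfold BB
          rw [B0_low hN0 hf]
          exact (abs_le.1 (hH _)).2
        have i2 : (Gm N t).im ≤ 0 := by
          rw [← Gm_fract, Gm_im]
          apply mul_nonpos_of_nonneg_of_nonpos (by linarith)
          apply Real.sin_nonpos_of_nonpos_of_neg_pi_le
          · have := Real.pi_pos
            nlinarith
          · have := Real.pi_pos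
            have := Int.fract_nonneg t
            nlinarith
        have i3 := congrArg Complex.im h0
        have i4 : (((1 - cl s : ℝ) : ℂ) * BB b N t + (cl s : ℂ) * Gm N t - w).im =
            (1 - cl s) * (BB b N t).im + cl s * (Gm N t).im - w.im := by
          rw [sub_im, add_im, im_ofReal_mul, im_ofReal_mul]
        push_cast at i4
        rw [i4, zero_im] at i3
        nlinarith [cln s, clx s, mul_nonneg (sub_nonneg.2 (clx s)) (sub_nonneg.2 i1),
          mul_nonneg (cln s) (sub_nonneg.2 i2), mul_nonneg (cln s) hH0]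
      · have i1 : BB b N t = Gm N t := by
          unfold BB
          rw [B0_high h hN0 hf.le, Gm_fract]
        apply hG t
        rw [← h0, i1]; ring
    -- second homotopy
    have h2 : k' 1 - k' 0 = 2 * Real.pi * I := by
      have hl : ((N + 1 / 2 : ℝ) : ℂ) ≠ 0 := by
        have : N + 1 / 2 ≠ 0 := by linarith
        exact_mod_cast this
      have e3 := homW (F := fun s t => Gm N t - ((1 - cl s) * w + cl s * (1 / 2)))
        (k := k') (k' := fun t : ℝ => log ((N + 1 / 2 : ℝ) : ℂ) +
          ((Real.pi * (2 * t - 1) : ℝ) : ℂ) * I) (by fun_prop)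
        (fun s => by simp only [G1]) ?_ hk' (fun t => by rw [ek', cl0]; push_cast; ring)
        (by fun_prop) (fun t => by
          rw [exp_add, exp_log hl, Gm_exp, cl1]; push_cast; ring)
      · rw [e3]; push_cast; ring
      · intro s t h0
        have i1 := Gm_norm (t := t) hN0
        rw [show Gm N t - 1 / 2 = ((1 - cl s : ℝ) : ℂ) * (w - 1 / 2) by
          rw [sub_eq_zero] at h0; rw [h0]; push_cast; ring, norm_mul, norm_real,
          Real.norm_of_nonneg (by linarith [clx s])] at i1
        have := norm_nonneg (w - 1 / 2)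
        nlinarith [cln s, clx s]
    refine ⟨k, hk, ek, ?_⟩
    rw [h1, h2]; push_cast; ring
  have hz1 : IsWc (BB b N) z 1 := by
    refine L.segW (z := w) (w := z) ?_ key
    intro s hs
    have e : w + s * (z - w) = z + ((1 - s) * (H + 1) : ℝ) * I := by
      rw [hw]; push_cast; ring
    rw [e]
    apply hseg
    · exact mul_nonneg (by linarith [hs.2]) (by linarith)
    · nlinarith [hs.1]
  have ho : Odc (BB b N) z := ⟨1, hz1, odd_one⟩
  have hzr : z ∉ range (BB b N) := by simpa using hseg 0 le_rfl (by linarith)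
  unfold mgc
  rw [if_pos ho]
  exact (L.closed.notMem_iff_infDist_pos L.ne).1 hzr

/-- below -/
lemma down (h : Lin b) {H : ℝ} (hH0 : 0 ≤ H) (hH : ∀ t, |(b t).im| ≤ H) (hN0 : 0 ≤ N)
    {z : ℂ} (hz : Off H z) (hi : z.im < 0) : mgc (BB b N) z < 0 := by
  have L := loop h hN0
  have hlow : ∀ t, (∃ x, BB b N t = b x) ∨ 0 ≤ (BB b N t).im := by
    intro t
    unfold BB
    rcases le_or_gt (Int.fract t) (1 / 2) with h1 | h1
    · left
      rw [B0_low hN0 h1]
      exact ⟨_, rfl⟩
    · right
      rw [B0_high h hN0 h1.le, Gm_im]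
      apply mul_nonneg (by linarith)
      apply Real.sin_nonneg_of_nonneg_of_le_pi
      · have := Real.pi_pos
        exact mul_nonneg this.le (by linarith)
      · have := Real.pi_pos
        have := (Int.fract_lt_one t).le
        nlinarith
  have hseg : ∀ s : ℝ, 0 ≤ s → z - s * I ∉ range (BB b N) := by
    rintro s hs0 ⟨t, ht⟩
    have e : (z - s * I).im = z.im - s := by simp
    have e' : (z - s * I).re = z.re := by simp
    rcases hlow t with ⟨x, hx⟩ | h1
    · rw [ht] at hx
      refine off_range h hH (z := z - s * I) ⟨?_, ?_⟩ ⟨x, hx.symm⟩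
      · rcases hz.1 with h1 | h1 | h1
        · left; rw [e']; exact h1
        · right; left; rw [e']; exact h1
        · right; right
          rw [e, abs_of_neg (by linarith)]
          rw [abs_of_neg hi] at h1
          linarith
      · rw [e]; linarith
    · rw [ht, e] at h1
      linarith
  have key : IsWc (BB b N) (z - (H + 1 : ℝ) * I) 0 := by
    refine (L.half (a := I) I_ne_zero ?_).2
    intro t
    have e : (z - (H + 1 : ℝ) * I).im = z.im - (H + 1) := by simp
    have e2 : ∀ w : ℂ, (w / I).re = w.im := by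
      intro w
      rw [div_I]
      simp
    rw [e2, sub_im, e]
    rcases hlow t with ⟨x, hx⟩ | h1
    · have := (abs_le.1 (hH x)).1
      rw [hx]; linarith
    · linarith
  have hz1 : IsWc (BB b N) z 0 := by
    refine L.segW (z := z - (H + 1 : ℝ) * I) (w := z) ?_ key
    intro s hs
    have e : z - (H + 1 : ℝ) * I + s * (z - (z - (H + 1 : ℝ) * I)) =
        z - ((1 - s) * (H + 1) : ℝ) * I := by
      push_cast; ring
    rw [e]
    apply hseg
    exact mul_nonneg (by linarith [hs.2]) (by linarith)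
  have hzr : z ∉ range (BB b N) := by simpa using hseg 0 le_rfl
  exact lt_of_le_of_ne (mgc_out hz1) fun h0 => hzr (((mgc_sg L).zero L).1 h0)

/-- **The side function.** -/
theorem exists_side (h : Lin b) : ∃ F : ℂ → ℝ, Continuous F ∧ (∀ z, F z = 0 ↔ z ∈ range b) ∧
    (∀ z : ℂ, (z.re < 0 ∨ 1 < z.re) → 0 < z.im → 0 < F z) ∧
    (∀ z : ℂ, (z.re < 0 ∨ 1 < z.re) → z.im < 0 → F z < 0) := by
  obtain ⟨H, hH0, hH⟩ : ∃ H : ℝ, 0 ≤ H ∧ ∀ t, |(b t).im| ≤ H := by
    obtain ⟨H, hH⟩ := (isCompact_Icc (a := (0:ℝ)) (b := 1)).exists_bound_of_continuousOn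
      (f := b) h.cont.continuousOn
    have hH0 : 0 ≤ H := (norm_nonneg _).trans (hH 0 ⟨le_rfl, zero_le_one⟩)
    refine ⟨H, hH0, ?_⟩
    intro t
    by_cases ht : t ∈ Icc (0:ℝ) 1
    · exact (abs_im_le_norm _).trans (hH t ht)
    · rw [mem_Icc, not_and_or] at ht
      push Not at ht
      rcases ht with ht | ht
      · rw [h.left t ht.le]; simpa using hH0
      · rw [h.right t ht.le]; simpa using hH0
  set ρ₀ : ℝ := H + 2 with hρ₀
  set ρ : ℝ := H + 4 with hρ
  set N : ℝ := ρ + H + 2 with hN
  have hN0 : 0 ≤ N := by linarith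
  have L := loop h hN0
  have S := mgc_sg L
  set M := mgc (BB b N) with hM
  set χ : ℂ → ℝ := fun z => max 0 (min 1 (‖z‖ - ρ₀)) with hχ
  have χ0 : ∀ z, 0 ≤ χ z := fun z => le_max_left _ _
  have χ1 : ∀ z, χ z ≤ 1 := fun z => max_le zero_le_one (min_le_left _ _)
  have χin : ∀ z, ‖z‖ ≤ ρ₀ → χ z = 0 := by
    intro z hz
    apply max_eq_left
    exact (min_le_right _ _).trans (by linarith)
  have χout : ∀ z, ρ₀ + 1 ≤ ‖z‖ → χ z = 1 := by
    intro z hz
    show max 0 (min 1 (‖z‖ - ρ₀)) = 1
    rw [min_eq_left (by linarith)]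
    exact max_eq_right zero_le_one
  have Mzero : ∀ z, ‖z‖ < N → (M z = 0 ↔ z ∈ range b) := by
    intro z hz
    rw [S.zero L, mem_range_iff h hN0 hz]
  -- far points are off
  have far : ∀ z : ℂ, ρ₀ ≤ ‖z‖ → z.im ≠ 0 → Off H z := by
    intro z hz hi
    refine ⟨?_, hi⟩
    by_contra hc
    push Not at hc
    obtain ⟨h1, h2, h3⟩ := hc
    have h4 := norm_le_abs_re_add_abs_im z
    rw [abs_of_nonneg h1] at h4
    linarith
  have off' : ∀ z : ℂ, (z.re < 0 ∨ 1 < z.re) → z.im ≠ 0 → Off H z := by
    intro z hz hi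
    refine ⟨?_, hi⟩
    rcases hz with h1 | h1
    · exact Or.inl h1
    · exact Or.inr (Or.inl h1)
  have pos : ∀ z : ℂ, Off H z → 0 < z.im → 0 < (1 - χ z) * M z + χ z * z.im := by
    intro z hz hi
    rcases lt_or_ge ‖z‖ ρ with h1 | h1
    · have h2 := up h hH0 hH (by linarith : 0 < ρ) hN hz hi h1
      rcases (χ0 z).eq_or_lt with h3 | h3
      · rw [← h3]; simpa using h2
      · have := mul_nonneg (sub_nonneg.2 (χ1 z)) h2.le
        have := mul_pos h3 hi
        linarith
    · rw [χout z (by linarith)]; simpa using hi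
  have neg : ∀ z : ℂ, Off H z → z.im < 0 → (1 - χ z) * M z + χ z * z.im < 0 := by
    intro z hz hi
    have h2 := down h hH0 hH hN0 hz hi
    rcases (χ0 z).eq_or_lt with h3 | h3
    · rw [← h3]; simpa using h2
    · have := mul_nonneg (sub_nonneg.2 (χ1 z)) (neg_pos.2 h2).le
      have := mul_pos h3 (neg_pos.2 hi)
      linarith
  refine ⟨fun z => (1 - χ z) * M z + χ z * z.im, ?_, ?_, ?_, ?_⟩
  · have := S.cont
    rw [hχ]
    fun_prop
  · intro z
    rcases lt_or_ge ‖z‖ ρ₀ with h1 | h1
    · simp only [χin z h1.le]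
      rw [← Mzero z (by linarith)]
      simp
    · rcases lt_trichotomy z.im 0 with h2 | h2 | h2
      · have h3 := far z h1 h2.ne
        exact iff_of_false (neg z h3 h2).ne (off_range h hH h3)
      · have hr : z = (z.re : ℂ) := Complex.ext (by simp) (by simpa using h2)
        have h3 : z ∈ range b := by
          have h4 : ρ₀ ≤ |z.re| := by
            rw [hr, norm_real, Real.norm_eq_abs] at h1
            simpa using h1
          rcases le_abs.1 h4 with h5 | h5
          · exact ⟨z.re, by rw [h.right _ (by linarith)]; exact hr.symm⟩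
          · exact ⟨z.re, by rw [h.left _ (by linarith)]; exact hr.symm⟩
        refine iff_of_true ?_ h3
        show (1 - χ z) * M z + χ z * z.im = 0
        rcases lt_or_ge ‖z‖ ρ with h4 | h4
        · rw [(Mzero z (by linarith)).2 h3, h2]; ring
        · rw [χout z (by linarith), h2]; ring
      · have h3 := far z h1 h2.ne'
        exact iff_of_false (pos z h3 h2).ne' (off_range h hH h3)
  · intro z hz hi
    exact pos z (off' z hz hi.ne') hi
  · intro z hz hi
    exact neg z (off' z hz hi.ne) hi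

end Pool.Agent.J4H19.Side
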