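import Mathlib
import Pool.Agent.J4H19.Arcs

/-! No vertex on the tails; the theorem for normalised arcs and for Jordan curves. -/

set_option autoImplicit false

open Set Filter Topology

namespace Pool.Agent.J4H19.Tails

open Pool.Agent.J4H19.Arcs

variable {a b : ℝ → ℂ} {k₁ k₂ M r : ℝ}

lemma contra {P : ℝ → Prop} (τ : ℝ) (haτ : a τ = τ) (hbτ : b τ = τ)
    (hD : ∀ s s', P s → P s' → s ≠ τ → s' ≠ τ → 0 < T (a s - τ) (b s' - τ))
    (s₁ s₂ s₃ s₄ : ℝ) (w : ℂ) (hw : w ≠ 0) (hr : 0 < r) (e1 : a s₂ = a s₁ + w)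
    (e2 : b s₃ = a s₁ + w + r * Complex.I * w) (e3 : b s₄ = a s₁ + r * Complex.I * w)
    (h₁ : P s₁) (h₂ : P s₂) (h₃ : P s₃) (h₄ : P s₄)
    (h : s₁ = τ ∨ s₂ = τ ∨ s₃ = τ ∨ s₄ = τ) : False := by
  have hrI : (r : ℂ) * Complex.I * w ≠ 0 := by
    apply mul_ne_zero (mul_ne_zero _ Complex.I_ne_zero) hw
    exact_mod_cast hr.ne'
  rcases h with h | h | h | h
  · subst h
    have n2 : s₂ ≠ s₁ := by
      intro h5
      rw [h5] at e1
      exact hw (by simpa using e1.symm)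
    have n4 : s₄ ≠ s₁ := by
      intro h5
      rw [h5, hbτ, haτ] at e3
      exact hrI (by simpa using e3.symm)
    have := hD s₂ s₄ h₂ h₄ n2 n4
    rw [e1, e3, haτ] at this
    have h0 : T ((s₁ : ℂ) + w - s₁) (s₁ + r * Complex.I * w - s₁) = 0 := by
      simp [T]; ring
    linarith
  · subst h
    have n1 : s₁ ≠ s₂ := by
      intro h5
      rw [h5] at e1
      exact hw (by simpa using e1.symm)
    have n3 : s₃ ≠ s₂ := by
      intro h5
      rw [h5, hbτ, ← e1, haτ] at e2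
      exact hrI (by simpa using e2.symm)
    have := hD s₁ s₃ h₁ h₃ n1 n3
    have g1 : a s₁ = s₂ - w := by rw [← haτ, e1]; ring
    rw [e2, ← e1, haτ, g1] at this
    have h0 : T ((s₂ : ℂ) - w - s₂) (s₂ + r * Complex.I * w - s₂) = 0 := by
      simp [T]; ring
    linarith
  · subst h
    have g1 : a s₂ = s₃ - r * Complex.I * w := by rw [e1, ← hbτ, e2]; ring
    have g2 : b s₄ = s₃ - w := by rw [e3, ← hbτ, e2]; ring
    have n2 : s₂ ≠ s₃ := by
      intro h5
      rw [h5, haτ] at g1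
      exact hrI (by linear_combination g1)
    have n4 : s₄ ≠ s₃ := by
      intro h5
      rw [h5, hbτ] at g2
      exact hw (by linear_combination g2)
    have := hD s₂ s₄ h₂ h₄ n2 n4
    rw [g1, g2] at this
    have h0 : T ((s₃ : ℂ) - r * Complex.I * w - s₃) (s₃ - w - s₃) = 0 := by
      simp [T]; ring
    linarith
  · subst h
    have g1 : a s₁ = s₄ - r * Complex.I * w := by rw [← hbτ, e3]; ring
    have g2 : b s₃ = s₄ + w := by rw [e2, ← hbτ, e3]; ring
    have n1 : s₁ ≠ s₄ := by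
      intro h5
      rw [h5, haτ] at g1
      exact hrI (by linear_combination g1)
    have n3 : s₃ ≠ s₄ := by
      intro h5
      rw [h5, hbτ] at g2
      exact hw (by linear_combination -g2)
    have := hD s₁ s₃ h₁ h₃ n1 n3
    rw [g1, g2] at this
    have h0 : T ((s₄ : ℂ) - r * Complex.I * w - s₄) (s₄ + w - s₄) = 0 := by
      simp [T]; ring
    linarith

/-- **The theorem for normalised arcs.** -/
theorem rect_norm (ha : Arc a k₁ M) (hb : Arc b k₂ M) (hr : 0 < r)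
    (hinj : ∀ s ∈ Icc (0:ℝ) 1, ∀ s' ∈ Icc (0:ℝ) 1, a s = b s' → s = s' ∧ (s = 0 ∨ s = 1))
    (hp : ∀ s ∈ Icc (0:ℝ) 1, ∀ s' ∈ Icc (0:ℝ) 1, 0 ≤ T (a s) (b s'))
    (hq : ∀ s ∈ Icc (0:ℝ) 1, ∀ s' ∈ Icc (0:ℝ) 1, 0 ≤ T (a s - 1) (b s' - 1)) :
    ∃ s₁ ∈ Icc (0:ℝ) 1, ∃ s₂ ∈ Icc (0:ℝ) 1, ∃ s₃ ∈ Icc (0:ℝ) 1, ∃ s₄ ∈ Icc (0:ℝ) 1,
      ∃ w : ℂ, w ≠ 0 ∧ a s₂ = a s₁ + w ∧
      b s₃ = a s₁ + w + r * Complex.I * w ∧ b s₄ = a s₁ + r * Complex.I * w := by
  have i0 : (0:ℝ) ∈ Icc (0:ℝ) 1 := ⟨le_rfl, zero_le_one⟩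
  have i1 : (1:ℝ) ∈ Icc (0:ℝ) 1 := ⟨zero_le_one, le_rfl⟩
  have ha0 : ∀ s ∈ Icc (0:ℝ) 1, 0 ≤ (a s).re := by
    intro s hs
    have := hp s hs 1 i1
    rw [hb.right 1 le_rfl] at this
    simpa [T] using this
  have hb0 : ∀ s ∈ Icc (0:ℝ) 1, 0 ≤ (b s).re := by
    intro s hs
    have := hp 1 i1 s hs
    rw [ha.right 1 le_rfl] at this
    simpa [T] using this
  have ha1 : ∀ s ∈ Icc (0:ℝ) 1, (a s).re ≤ 1 := by
    intro s hs
    have := hq s hs 0 i0
    rw [hb.left 0 le_rfl] at this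
    simpa [T] using this
  have hb1 : ∀ s ∈ Icc (0:ℝ) 1, (b s).re ≤ 1 := by
    intro s hs
    have := hq 0 i0 s hs
    rw [ha.left 0 le_rfl] at this
    simpa [T] using this
  have aout : ∀ s, s ∉ Icc (0:ℝ) 1 → a s = s := by
    intro s hs
    rw [mem_Icc, not_and_or] at hs
    push Not at hs
    rcases hs with hs | hs
    · exact ha.left s hs.le
    · exact ha.right s hs.le
  have bout : ∀ s, s ∉ Icc (0:ℝ) 1 → b s = s := by
    intro s hs
    rw [mem_Icc, not_and_or] at hs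
    push Not at hs
    rcases hs with hs | hs
    · exact hb.left s hs.le
    · exact hb.right s hs.le
  have hdis : ∀ s s', a s = b s' → s = s' ∧ (s ≤ 0 ∨ 1 ≤ s) := by
    intro s s' h
    by_cases hs : s ∈ Icc (0:ℝ) 1
    · by_cases hs' : s' ∈ Icc (0:ℝ) 1
      · obtain ⟨h1, h2⟩ := hinj s hs s' hs' h
        refine ⟨h1, ?_⟩
        rcases h2 with h2 | h2
        · exact Or.inl h2.le
        · exact Or.inr h2.ge
      · exfalso
        rw [bout s' hs'] at h
        have h1 := ha0 s hs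
        have h2 := ha1 s hs
        rw [h, Complex.ofReal_re] at h1 h2
        exact hs' ⟨h1, h2⟩
    · by_cases hs' : s' ∈ Icc (0:ℝ) 1
      · exfalso
        rw [aout s hs] at h
        have h1 := hb0 s' hs'
        have h2 := hb1 s' hs'
        rw [← h, Complex.ofReal_re] at h1 h2
        exact hs ⟨h1, h2⟩
      · rw [aout s hs, bout s' hs'] at h
        refine ⟨by exact_mod_cast h, ?_⟩
        rw [mem_Icc, not_and_or] at hs
        push Not at hs
        exact hs.imp le_of_lt le_of_lt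
  obtain ⟨s₁, s₂, s₃, s₄, w, hw, e1, e2, e3⟩ := rect_ext ha hb hdis hr
  have hleft : ∀ τ : ℝ, τ < 0 → ∀ s s', τ ≤ s → τ ≤ s' → s ≠ τ → s' ≠ τ →
      0 < T (a s - τ) (b s' - τ) := by
    intro τ hτ s s' hs hs' hn hn'
    have hs1 : τ < s := lt_of_le_of_ne hs (Ne.symm hn)
    have hs1' : τ < s' := lt_of_le_of_ne hs' (Ne.symm hn')
    have ra : 0 < (a s).re - τ := by
      by_cases h : s ∈ Icc (0:ℝ) 1
      · linarith [ha0 s h]
      · rw [aout s h, Complex.ofReal_re]; linarith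
    have rb : 0 < (b s').re - τ := by
      by_cases h : s' ∈ Icc (0:ℝ) 1
      · linarith [hb0 s' h]
      · rw [bout s' h, Complex.ofReal_re]; linarith
    by_cases h : s ∈ Icc (0:ℝ) 1
    · by_cases h' : s' ∈ Icc (0:ℝ) 1
      · have h1 := hp s h s' h'
        have h2 := ha0 s h
        have h3 := hb0 s' h'
        simp only [T, Complex.sub_re, Complex.sub_im, Complex.ofReal_re, Complex.ofReal_im,
          sub_zero] at h1 ⊢
        nlinarith
      · rw [bout s' h'] at rb ⊢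
        simp only [T, Complex.sub_re, Complex.sub_im, Complex.ofReal_re, Complex.ofReal_im,
          sub_zero, mul_zero, add_zero] at ra rb ⊢
        exact mul_pos ra rb
    · rw [aout s h] at ra ⊢
      simp only [T, Complex.sub_re, Complex.sub_im, Complex.ofReal_re, Complex.ofReal_im,
        sub_zero, zero_mul, add_zero] at ra rb ⊢
      exact mul_pos ra rb
  have hright : ∀ τ : ℝ, 1 < τ → ∀ s s', s ≤ τ → s' ≤ τ → s ≠ τ → s' ≠ τ →
      0 < T (a s - τ) (b s' - τ) := by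
    intro τ hτ s s' hs hs' hn hn'
    have hs1 : s < τ := lt_of_le_of_ne hs hn
    have hs1' : s' < τ := lt_of_le_of_ne hs' hn'
    have ra : (a s).re - τ < 0 := by
      by_cases h : s ∈ Icc (0:ℝ) 1
      · linarith [ha1 s h]
      · rw [aout s h, Complex.ofReal_re]; linarith
    have rb : (b s').re - τ < 0 := by
      by_cases h : s' ∈ Icc (0:ℝ) 1
      · linarith [hb1 s' h]
      · rw [bout s' h, Complex.ofReal_re]; linarith
    by_cases h : s ∈ Icc (0:ℝ) 1
    · by_cases h' : s' ∈ Icc (0:ℝ) 1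
      · have h1 := hq s h s' h'
        have h2 := ha1 s h
        have h3 := hb1 s' h'
        simp only [T, Complex.sub_re, Complex.sub_im, Complex.ofReal_re, Complex.ofReal_im,
          sub_zero, Complex.one_re, Complex.one_im] at h1 ⊢
        nlinarith
      · rw [bout s' h'] at rb ⊢
        simp only [T, Complex.sub_re, Complex.sub_im, Complex.ofReal_re, Complex.ofReal_im,
          sub_zero, mul_zero, add_zero] at ra rb ⊢
        exact mul_pos_of_neg_of_neg ra rb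
    · rw [aout s h] at ra ⊢
      simp only [T, Complex.sub_re, Complex.sub_im, Complex.ofReal_re, Complex.ofReal_im,
        sub_zero, zero_mul, add_zero] at ra rb ⊢
      exact mul_pos_of_neg_of_neg ra rb
  -- the smallest parameter
  have hmin : 0 ≤ min s₁ (min s₂ (min s₃ s₄)) := by
    by_contra hcon
    push Not at hcon
    set τ := min s₁ (min s₂ (min s₃ s₄)) with hτ
    have t1 : τ ≤ s₁ := min_le_left _ _
    have t2 : τ ≤ s₂ := (min_le_right _ _).trans (min_le_left _ _)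
    have t3 : τ ≤ s₃ := (min_le_right _ _).trans ((min_le_right _ _).trans (min_le_left _ _))
    have t4 : τ ≤ s₄ := (min_le_right _ _).trans ((min_le_right _ _).trans (min_le_right _ _))
    refine contra (P := fun s => τ ≤ s) τ (ha.left τ hcon.le) (hb.left τ hcon.le)
      (fun s s' => hleft τ hcon s s') s₁ s₂ s₃ s₄ w hw hr e1 e2 e3 t1 t2 t3 t4 ?_
    rcases min_choice s₁ (min s₂ (min s₃ s₄)) with h | h
    · exact Or.inl (by rw [hτ, h])
    · rcases min_choice s₂ (min s₃ s₄) with h' | h'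
      · exact Or.inr (Or.inl (by rw [hτ, h, h']))
      · rcases min_choice s₃ s₄ with h'' | h''
        · exact Or.inr (Or.inr (Or.inl (by rw [hτ, h, h', h''])))
        · exact Or.inr (Or.inr (Or.inr (by rw [hτ, h, h', h''])))
  have hmax : max s₁ (max s₂ (max s₃ s₄)) ≤ 1 := by
    by_contra hcon
    push Not at hcon
    set τ := max s₁ (max s₂ (max s₃ s₄)) with hτ
    have t1 : s₁ ≤ τ := le_max_left _ _
    have t2 : s₂ ≤ τ := (le_max_left _ _).trans (le_max_right _ _)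
    have t3 : s₃ ≤ τ := (le_max_left _ _).trans ((le_max_right _ _).trans (le_max_right _ _))
    have t4 : s₄ ≤ τ := (le_max_right _ _).trans ((le_max_right _ _).trans (le_max_right _ _))
    refine contra (P := fun s => s ≤ τ) τ (ha.right τ hcon.le) (hb.right τ hcon.le)
      (fun s s' => hright τ hcon s s') s₁ s₂ s₃ s₄ w hw hr e1 e2 e3 t1 t2 t3 t4 ?_
    rcases max_choice s₁ (max s₂ (max s₃ s₄)) with h | h
    · exact Or.inl (by rw [hτ, h])
    · rcases max_choice s₂ (max s₃ s₄) with h' | h'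
      · exact Or.inr (Or.inl (by rw [hτ, h, h']))
      · rcases max_choice s₃ s₄ with h'' | h''
        · exact Or.inr (Or.inr (Or.inl (by rw [hτ, h, h', h''])))
        · exact Or.inr (Or.inr (Or.inr (by rw [hτ, h, h', h''])))
  simp only [le_min_iff] at hmin
  simp only [max_le_iff] at hmax
  exact ⟨s₁, ⟨hmin.1, hmax.1⟩, s₂, ⟨hmin.2.1, hmax.2.1⟩, s₃, ⟨hmin.2.2.1, hmax.2.2.1⟩, s₄,
    ⟨hmin.2.2.2, hmax.2.2.2⟩, w, hw, e1, e2, e3⟩

open scoped ComplexConjugate

/-- Normalisation of an arc: `t ∈ [0, 1]` is mapped to `(c t - p) / L`, prolonged by `t ↦ t`. -/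
noncomputable def nrm (c : ℝ → ℂ) (p L : ℂ) (t : ℝ) : ℂ :=
  if t ≤ 0 then t else if 1 ≤ t then t else (c t - p) / L

lemma nrm_mid {c : ℝ → ℂ} {p L : ℂ} (hL : L ≠ 0) (h0 : c 0 = p) (h1 : c 1 = p + L) {t : ℝ}
    (ht : t ∈ Icc (0:ℝ) 1) : nrm c p L t = (c t - p) / L := by
  unfold nrm
  split_ifs with g1 g2
  · have : t = 0 := le_antisymm g1 ht.1
    rw [this, h0]; simp
  · have : t = 1 := le_antisymm ht.2 g2
    rw [this, h1]; simp [hL]
  · rfl

lemma nrm_arc {c : ℝ → ℂ} {p L : ℂ} (hc : ContinuousOn c (Icc 0 1)) (hL : L ≠ 0) (h0 : c 0 = p)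
    (h1 : c 1 = p + L) {e : ℂ} (hm : MonotoneOn (fun t => (conj e * c t).re) (Icc 0 1))
    (hlt : (conj e * c 0).re < (conj e * c 1).re) :
    ∃ k M : ℝ, Arc (nrm c p L) k M := by
  set ω : ℂ := conj e * L with hω
  have hω0 : 0 < ω.re := by
    rw [h0, h1, mul_add, Complex.add_re] at hlt
    linarith
  have hcont : Continuous (nrm c p L) := by
    have h2 : Continuous (fun t : ℝ => (c (projIcc (0:ℝ) 1 zero_le_one t) - p) / L) := by
      have : Continuous (fun t : ℝ => c (projIcc (0:ℝ) 1 zero_le_one t)) :=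
        hc.comp_continuous (continuous_subtype_val.comp continuous_projIcc)
          (fun t => (projIcc (0:ℝ) 1 zero_le_one t).2)
      exact (this.sub continuous_const).div_const _
    have h3 : nrm c p L = fun t : ℝ => (c (projIcc (0:ℝ) 1 zero_le_one t) - p) / L
        + ((t - max 0 (min t 1) : ℝ) : ℂ) := by
      funext t
      unfold nrm
      split_ifs with g1 g2
      · rw [projIcc_of_le_left _ g1]
        simp only [h0, sub_self, zero_div, zero_add]
        rw [min_eq_left (by linarith), max_eq_left g1, sub_zero]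
      · rw [projIcc_of_right_le _ g2]
        simp only [h1, add_sub_cancel_left, div_self hL]
        rw [min_eq_right g2, max_eq_right zero_le_one]
        push_cast; ring
      · push Not at g1 g2
        rw [projIcc_of_mem _ ⟨g1.le, g2.le⟩, min_eq_left g2.le, max_eq_right g1.le, sub_self]
        simp
    rw [h3]
    apply h2.add
    fun_prop
  obtain ⟨M, hM⟩ := (isCompact_Icc (a := (0:ℝ)) (b := 1)).exists_bound_of_continuousOn
    (f := nrm c p L) hcont.continuousOn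
  have hl : ∀ s : ℝ, s ≤ 0 → nrm c p L s = s := by
    intro s hs
    unfold nrm
    rw [if_pos hs]
  have hr : ∀ s : ℝ, 1 ≤ s → nrm c p L s = s := by
    intro s hs
    unfold nrm
    rw [if_neg (by linarith), if_pos hs]
  have hxi : ∀ z : ℂ, xi (ω.im / ω.re) z = (ω * z).re / ω.re := by
    intro z
    simp only [xi, Complex.mul_re]
    field_simp
  have hmid : ∀ s ∈ Icc (0:ℝ) 1, (ω * nrm c p L s).re = (conj e * c s).re - (conj e * p).re := by
    intro s hs
    rw [nrm_mid hL h0 h1 hs, hω]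
    rw [show conj e * L * ((c s - p) / L) = conj e * c s - conj e * p by field_simp,
      Complex.sub_re]
  refine ⟨ω.im / ω.re, M, hcont, hl, hr, ?_, ?_⟩
  · intro s t hst
    simp only
    have hl' : ∀ s : ℝ, s ≤ 0 → xi (ω.im / ω.re) (nrm c p L s) = s := by
      intro s hs; rw [hl s hs]; simp [xi]
    have hr' : ∀ s : ℝ, 1 ≤ s → xi (ω.im / ω.re) (nrm c p L s) = s := by
      intro s hs; rw [hr s hs]; simp [xi]
    have hmono : ∀ s ∈ Icc (0:ℝ) 1, ∀ t ∈ Icc (0:ℝ) 1, s ≤ t →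
        xi (ω.im / ω.re) (nrm c p L s) ≤ xi (ω.im / ω.re) (nrm c p L t) := by
      intro s hs t ht hst
      rw [hxi, hxi, hmid s hs, hmid t ht]
      apply div_le_div_of_nonneg_right _ hω0.le
      have := hm hs ht hst
      simp only at this
      linarith
    rcases le_or_gt s 0 with hs | hs
    · rcases le_or_gt t 0 with ht | ht
      · rw [hl' s hs, hl' t ht]; exact hst
      · rcases le_or_gt 1 t with ht1 | ht1
        · rw [hl' s hs, hr' t ht1]; exact hst
        · have h5 := hmono 0 ⟨le_rfl, zero_le_one⟩ t ⟨ht.le, ht1.le⟩ ht.le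
          rw [hl' 0 le_rfl] at h5
          rw [hl' s hs]; linarith
    · rcases le_or_gt 1 s with hs1 | hs1
      · rw [hr' s hs1, hr' t (hs1.trans hst)]; exact hst
      · rcases le_or_gt 1 t with ht1 | ht1
        · have h5 := hmono s ⟨hs.le, hs1.le⟩ 1 ⟨zero_le_one, le_rfl⟩ hs1.le
          rw [hr' 1 le_rfl] at h5
          rw [hr' t ht1]; linarith
        · exact hmono s ⟨hs.le, hs1.le⟩ t ⟨hs.le.trans hst, ht1.le⟩ hst
  · intro s
    by_cases hs : s ∈ Icc (0:ℝ) 1
    · exact (Complex.abs_im_le_norm _).trans (hM s hs)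
    · have hM0 : 0 ≤ M := (norm_nonneg _).trans (hM 0 ⟨le_rfl, zero_le_one⟩)
      rw [mem_Icc, not_and_or] at hs
      push Not at hs
      rcases hs with hs | hs
      · rw [hl s hs.le]; simpa using hM0
      · rw [hr s hs.le]; simpa using hM0

/-- **The theorem for two arcs** with common end points. -/
theorem rect_arcs (A B : ℝ → ℂ) (hA : ContinuousOn A (Icc 0 1)) (hB : ContinuousOn B (Icc 0 1))
    (h0 : A 0 = B 0) (h1 : A 1 = B 1) (hne : A 0 ≠ A 1)
    (hinj : ∀ s ∈ Icc (0:ℝ) 1, ∀ s' ∈ Icc (0:ℝ) 1, A s = B s' → s = s' ∧ (s = 0 ∨ s = 1))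
    (e₁ e₂ : ℂ) (hm₁ : MonotoneOn (fun t => (conj e₁ * A t).re) (Icc 0 1))
    (hlt₁ : (conj e₁ * A 0).re < (conj e₁ * A 1).re)
    (hm₂ : MonotoneOn (fun t => (conj e₂ * B t).re) (Icc 0 1))
    (hlt₂ : (conj e₂ * B 0).re < (conj e₂ * B 1).re)
    (hp : ∀ s ∈ Icc (0:ℝ) 1, ∀ t ∈ Icc (0:ℝ) 1, 0 ≤ ((A s - A 0) * conj (B t - A 0)).re)
    (hq : ∀ s ∈ Icc (0:ℝ) 1, ∀ t ∈ Icc (0:ℝ) 1, 0 ≤ ((A s - A 1) * conj (B t - A 1)).re)
    (r : ℝ) (hr : 0 < r) :
    ∃ z w : ℂ, w ≠ 0 ∧ z ∈ A '' Icc 0 1 ∧ z + w ∈ A '' Icc 0 1 ∧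
      z + w + r * Complex.I * w ∈ B '' Icc 0 1 ∧ z + r * Complex.I * w ∈ B '' Icc 0 1 := by
  set p := A 0 with hpd
  set L := A 1 - A 0 with hLd
  have hL : L ≠ 0 := sub_ne_zero.2 hne.symm
  have hA1 : A 1 = p + L := by rw [hLd]; ring
  have hB1 : B 1 = p + L := by rw [← h1, hA1]
  obtain ⟨k₁, M₁, ha⟩ := nrm_arc hA hL rfl hA1 hm₁ hlt₁
  obtain ⟨k₂, M₂, hb⟩ := nrm_arc hB hL h0.symm hB1 hm₂ hlt₂
  have ha' : Arc (nrm A p L) k₁ (max M₁ M₂) :=
    ⟨ha.cont, ha.left, ha.right, ha.mono, fun s => (ha.bound s).trans (le_max_left _ _)⟩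
  have hb' : Arc (nrm B p L) k₂ (max M₁ M₂) :=
    ⟨hb.cont, hb.left, hb.right, hb.mono, fun s => (hb.bound s).trans (le_max_right _ _)⟩
  have eA : ∀ s ∈ Icc (0:ℝ) 1, nrm A p L s = (A s - p) / L := fun s hs => nrm_mid hL rfl hA1 hs
  have eB : ∀ s ∈ Icc (0:ℝ) 1, nrm B p L s = (B s - p) / L :=
    fun s hs => nrm_mid hL h0.symm hB1 hs
  have hT : ∀ z z' : ℂ, T (z / L) (z' / L) = (z * conj z').re / Complex.normSq L := by
    intro z z'
    have e1 : T (z / L) (z' / L) = ((z / L) * conj (z' / L)).re := by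
      simp only [T, Complex.mul_re, Complex.conj_re, Complex.conj_im]
      ring
    rw [e1, map_div₀, div_mul_div_comm, Complex.mul_conj L, Complex.div_ofReal_re]
  have hLp : 0 < Complex.normSq L := Complex.normSq_pos.2 hL
  obtain ⟨s₁, hs₁, s₂, hs₂, s₃, hs₃, s₄, hs₄, w, hw, g1, g2, g3⟩ := rect_norm ha' hb' hr
    (by
      intro s hs s' hs' h
      rw [eA s hs, eB s' hs', div_left_inj' hL, sub_left_inj] at h
      exact hinj s hs s' hs' h)
    (by
      intro s hs s' hs'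
      rw [eA s hs, eB s' hs', hT]
      exact div_nonneg (hp s hs s' hs') hLp.le)
    (by
      intro s hs s' hs'
      rw [eA s hs, eB s' hs']
      have f1 : (A s - p) / L - 1 = (A s - A 1) / L := by
        rw [hA1]; field_simp; ring
      have f2 : (B s' - p) / L - 1 = (B s' - A 1) / L := by
        rw [hA1]; field_simp; ring
      rw [f1, f2, hT]
      exact div_nonneg (hq s hs s' hs') hLp.le)
  rw [eA s₁ hs₁] at g1 g2 g3
  rw [eA s₂ hs₂] at g1
  rw [eB s₃ hs₃] at g2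
  rw [eB s₄ hs₄] at g3
  refine ⟨A s₁, w * L, mul_ne_zero hw hL, ⟨s₁, hs₁, rfl⟩, ⟨s₂, hs₂, ?_⟩, ⟨s₃, hs₃, ?_⟩,
    ⟨s₄, hs₄, ?_⟩⟩
  · field_simp at g1
    linear_combination g1
  · field_simp at g2
    linear_combination g2
  · field_simp at g3
    linear_combination g3

end Pool.Agent.J4H19.Tails
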