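import Mathlib
import Pool.Agent.J4H19.Tails
import Pool.Agent.J4H19.Side

/-! The side function near an end point of the arcs; excluded corners. -/

set_option autoImplicit false

open Set Filter Topology

namespace Pool.Agent.J4H19.Ends

open Pool.Agent.J4H19.Arcs (T)
open Pool.Agent.J4H19.Side (Lin)

/-- Two arcs from `0` to `1` with disjoint interiors, seen from `0` and from `1` under an angle of at
most 90 degrees, and a side function of the second one. -/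
structure Conf (a b : ℝ → ℂ) (F : ℂ → ℝ) : Prop where
  la : Lin a
  lb : Lin b
  dis : ∀ s s' : ℝ, a s = b s' → s = s' ∧ (s ≤ 0 ∨ 1 ≤ s)
  hp : ∀ s ∈ Icc (0:ℝ) 1, ∀ s' ∈ Icc (0:ℝ) 1, 0 ≤ T (a s) (b s')
  hq : ∀ s ∈ Icc (0:ℝ) 1, ∀ s' ∈ Icc (0:ℝ) 1, 0 ≤ T (a s - 1) (b s' - 1)
  Fc : Continuous F
  Fz : ∀ z, F z = 0 ↔ z ∈ range b
  Fp : ∀ z : ℂ, (z.re < 0 ∨ 1 < z.re) → 0 < z.im → 0 < F z
  Fn : ∀ z : ℂ, (z.re < 0 ∨ 1 < z.re) → z.im < 0 → F z < 0

/-- The local condition at the end point `0`. -/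
def EndP (a b : ℝ → ℂ) (r : ℝ) : Prop :=
  ∃ v : ℂ, v ≠ 0 ∧ 0 ≤ v.re ∧ ∃ ε > (0:ℝ), (∀ s ∈ Ioc 0 ε, 0 ≤ T v (a s) ∧
    T (Complex.I * v) (a s) < 0) ∧ ((∀ s ∈ Ioc 0 ε, 0 ≤ T v (b s) ∧ T (Complex.I * v) (b s) = 0) ∨
    ∃ m₁ m₂ : ℝ, 0 ≤ m₂ ∧ r * (m₁ - m₂) ≤ 1 ∧ ∀ s ∈ Ioc 0 ε, 0 ≤ T (Complex.I * v) (b s) ∧
      m₂ * T (Complex.I * v) (b s) ≤ T v (b s) ∧ T v (b s) ≤ m₁ * T (Complex.I * v) (b s))

variable {a b : ℝ → ℂ} {F : ℂ → ℝ} {r : ℝ}

lemma const_neg {φ : ℝ → ℝ} (hφ : Continuous φ) {x y : ℝ} (h : ∀ t ∈ uIcc x y, φ t ≠ 0)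
    (hx : φ x < 0) : φ y < 0 := by
  by_contra hc
  push Not at hc
  have h1 : (0:ℝ) ∈ uIcc (φ x) (φ y) := mem_uIcc.2 (Or.inl ⟨hx.le, hc⟩)
  obtain ⟨t, ht, h0⟩ := intermediate_value_uIcc hφ.continuousOn h1
  exact h t ht h0

lemma const_pos {φ : ℝ → ℝ} (hφ : Continuous φ) {x y : ℝ} (h : ∀ t ∈ uIcc x y, φ t ≠ 0)
    (hx : 0 < φ x) : 0 < φ y := by
  have := const_neg (φ := fun t => - φ t) hφ.neg (x := x) (y := y)
    (fun t ht => neg_ne_zero.2 (h t ht)) (by simpa using hx)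
  simpa using this

lemma T_add (u z w : ℂ) : T u (z + w) = T u z + T u w := by simp only [T, Complex.add_re, Complex.add_im]; ring
lemma T_sub (u z w : ℂ) : T u (z - w) = T u z - T u w := by simp only [T, Complex.sub_re, Complex.sub_im]; ring
lemma T_smul (u z : ℂ) (s : ℝ) : T u (s * z) = s * T u z := by simp only [T, Complex.mul_re, Complex.mul_im, Complex.ofReal_re, Complex.ofReal_im]; ring
lemma T_real (u : ℂ) (t : ℝ) : T u (t : ℂ) = u.re * t := by simp [T]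
lemma T_zero (u : ℂ) : T u 0 = 0 := by simp [T]

/-- third and fourth vertex -/
noncomputable def P3 (r : ℝ) (x y : ℂ) : ℂ := y + r * Complex.I * (y - x)
noncomputable def P4 (r : ℝ) (x y : ℂ) : ℂ := x + r * Complex.I * (y - x)

/-- Points on a segment near the end point are off the arc `b`. -/
lemma clear (C : Conf a b F) {ε δ : ℝ} (hδ : ∀ t, ‖b t‖ < δ → t < ε) {u u' z R : ℂ}
    (hz : ‖z‖ < δ) (hR : ‖R‖ < δ) (h1 : ∀ s ∈ Ioc 0 ε, T u (b s) ≤ 0) (h2 : 0 ≤ u'.re)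
    (z1 : 0 < T u z) (R1 : 0 ≤ T u R) (z2 : 0 < T u' z) (R2 : 0 ≤ T u' R)
    {s : ℝ} (s0 : 0 ≤ s) (s1 : s < 1) : F (z + s * (R - z)) ≠ 0 := by
  intro h
  obtain ⟨t, ht⟩ := (C.Fz _).1 h
  have hn : ‖z + s * (R - z)‖ < δ := by
    have e : z + s * (R - z) = ((1 - s : ℝ) : ℂ) * z + (s : ℂ) * R := by push_cast; ring
    rw [e]
    refine (norm_add_le _ _).trans_lt ?_
    rw [norm_mul, norm_mul, Complex.norm_real, Complex.norm_real, Real.norm_of_nonneg s0,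
      Real.norm_of_nonneg (by linarith)]
    nlinarith
  rw [← ht] at hn
  have hlt := hδ t hn
  have e1 : ∀ w, T w (b t) = (1 - s) * T w z + s * T w R := by
    intro w
    rw [ht, T_add, T_smul, T_sub]; ring
  rcases le_or_gt t 0 with h0 | h0
  · have h3 := e1 u'
    rw [C.lb.left t h0, T_real] at h3
    have := mul_pos (sub_pos.2 s1) z2
    have := mul_nonneg s0 R2
    have := mul_nonneg h2 (neg_nonneg.2 h0)
    linarith
  · have h3 := e1 u
    have := h1 t ⟨h0, hlt.le⟩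
    have := mul_pos (sub_pos.2 s1) z1
    have := mul_nonneg s0 R1
    linarith

lemma neg_of_clear (C : Conf a b F) {ε δ : ℝ} (hδ : ∀ t, ‖b t‖ < δ → t < ε) {u u' z R : ℂ}
    (hz : ‖z‖ < δ) (hR : ‖R‖ < δ) (h1 : ∀ s ∈ Ioc 0 ε, T u (b s) ≤ 0) (h2 : 0 ≤ u'.re)
    (z1 : 0 < T u z) (R1 : 0 ≤ T u R) (z2 : 0 < T u' z) (R2 : 0 ≤ T u' R) (hF : F R ≠ 0) :
    ∀ s ∈ uIcc (0:ℝ) 1, F (z + s * (R - z)) ≠ 0 := by
  intro s hs
  rw [uIcc_of_le zero_le_one] at hs
  rcases hs.2.eq_or_lt with h | h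
  · rw [h]; simpa using hF
  · exact clear C hδ hz hR h1 h2 z1 R1 z2 R2 hs.1 h

lemma seg_cont (C : Conf a b F) (z R : ℂ) : Continuous fun s : ℝ => F (z + s * (R - z)) :=
  C.Fc.comp (by fun_prop)

/-- close to the end point -/
lemma exists_delta (C : Conf a b F) {ε : ℝ} (hε : 0 < ε) : ∃ δ > 0, ∀ t, ‖b t‖ < δ → t < ε := by
  have key : ∃ δ > 0, ∀ t ∈ Icc (min ε 1) 1, δ ≤ ‖b t‖ := by
    obtain ⟨t₀, h1, h2⟩ := (isCompact_Icc (a := min ε 1) (b := 1)).exists_isMinOn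
      ⟨1, min_le_right _ _, le_rfl⟩ (C.lb.cont.norm.continuousOn)
    refine ⟨‖b t₀‖, ?_, fun t ht => h2 ht⟩
    rw [gt_iff_lt, norm_pos_iff]
    intro h0
    have h3 := C.dis 0 t₀ (by rw [C.la.left 0 le_rfl, h0]; simp)
    have := lt_min hε zero_lt_one
    linarith [h1.1, h3.1]
  obtain ⟨δ, hδ, h⟩ := key
  refine ⟨min δ 1, lt_min hδ zero_lt_one, ?_⟩
  intro t ht
  by_contra hc
  push Not at hc
  rcases le_total t 1 with h1 | h1
  · have := h t ⟨(min_le_left _ _).trans hc, h1⟩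
    have := min_le_left δ 1
    linarith
  · rw [C.lb.right t h1, Complex.norm_real, Real.norm_eq_abs, abs_of_nonneg (by linarith)] at ht
    have := min_le_right δ 1
    linarith

/-- the first arc is off the second one -/
lemma a_ne (C : Conf a b F) {s : ℝ} (h0 : 0 < s) (h1 : s < 1) : F (a s) ≠ 0 := by
  intro h
  obtain ⟨t, ht⟩ := (C.Fz _).1 h
  rcases (C.dis s t ht.symm).2 with h | h <;> linarith

lemma exists_scale {R : ℂ} {δ : ℝ} (hδ : 0 < δ) : ∃ σ : ℝ, 0 < σ ∧ ‖(σ : ℂ) * R‖ < δ := by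
  refine ⟨δ / (‖R‖ + 1), div_pos hδ (by positivity), ?_⟩
  rw [norm_mul, Complex.norm_real, Real.norm_of_nonneg (by positivity), div_mul_eq_mul_div,
    div_lt_iff₀ (by positivity)]
  nlinarith [norm_nonneg R]

/-- sign along the first arc -/
lemma neg_a (C : Conf a b F) {v : ℂ} (hv : v ≠ 0) (hv0 : 0 ≤ v.re) {ε : ℝ} (hε : 0 < ε)
    (hα : ∀ s ∈ Ioc 0 ε, 0 ≤ T v (a s) ∧ T (Complex.I * v) (a s) < 0)
    (hβ : ∀ s ∈ Ioc 0 ε, 0 ≤ T v (b s) ∧ 0 ≤ T (Complex.I * v) (b s)) :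
    ∀ s ∈ Ioo (0:ℝ) 1, F (a s) < 0 := by
  obtain ⟨δ, hδ, hδε⟩ := exists_delta C hε
  -- a small parameter
  obtain ⟨s₀, h0, h1, h2, h3⟩ : ∃ s₀ : ℝ, 0 < s₀ ∧ s₀ < 1 ∧ s₀ ≤ ε ∧ ‖a s₀‖ < δ := by
    have h5 : Tendsto (fun s => ‖a s‖) (𝓝[>] 0) (𝓝 ‖a 0‖) :=
      (C.la.cont.norm.tendsto 0).mono_left nhdsWithin_le_nhds
    rw [C.la.left 0 le_rfl, Complex.ofReal_zero, norm_zero] at h5
    have h6 := (h5.eventually (gt_mem_nhds hδ)).and
      ((Ioo_mem_nhdsGT (lt_min hε zero_lt_one) : Ioo 0 (min ε 1) ∈ 𝓝[>] (0:ℝ)))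
    obtain ⟨s, hs1, hs2⟩ := h6.exists
    exact ⟨s, hs2.1, hs2.2.trans_le (min_le_right _ _), (hs2.2.trans_le (min_le_left _ _)).le, hs1⟩
  obtain ⟨hx, hy⟩ := hα s₀ ⟨h0, h2⟩
  have hre : 0 ≤ (a s₀).re := C.la.re0 s₀ ⟨h0.le, h1.le⟩
  -- the reference direction
  have main : ∃ u u' R : ℂ, R.re < 0 ∧ R.im < 0 ∧ 0 < T u R ∧ 0 < T u' R ∧ 0 ≤ u'.re ∧
      (∀ s ∈ Ioc 0 ε, T u (b s) ≤ 0) ∧ 0 ≤ T u (a s₀) ∧ 0 ≤ T u' (a s₀) := by
    have eY : ∀ z, T (Complex.I * v) z = v.re * z.im - v.im * z.re := by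
      intro z; simp [T]; ring
    have eY' : ∀ z, T (-(Complex.I * v)) z = v.im * z.re - v.re * z.im := by
      intro z; simp [T]; ring
    rcases hv0.eq_or_lt with hc | hc
    · -- vertical
      have hvi : 0 < v.im := by
        rcases lt_trichotomy v.im 0 with h | h | h
        · rw [eY, ← hc] at hy
          nlinarith
        · exact absurd (Complex.ext hc.symm h) hv
        · exact h
      set X := T v (a s₀) with hX
      set Y := T (Complex.I * v) (a s₀) with hY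
      have hX1 : 0 < X + 1 := by linarith
      set k : ℝ := -Y / (X + 1) with hk
      have hk0 : 0 < k := div_pos (neg_pos.2 hy) hX1
      have eu : ∀ z, T (-(Complex.I * v) - k * v) z = -T (Complex.I * v) z - k * T v z := by
        intro z; simp [T]; ring
      refine ⟨-(Complex.I * v) - k * v, -(Complex.I * v) - k * v, ⟨-(k / 2), -1⟩, by simpa using hk0,
        by norm_num, ?_, ?_, ?_, ?_, ?_, ?_⟩
      · rw [eu, eY]; simp only [T, ← hc]; nlinarith [mul_pos hk0 hvi]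
      · rw [eu, eY]; simp only [T, ← hc]; nlinarith [mul_pos hk0 hvi]
      · simp [← hc]; exact hvi.le
      · intro s hs
        obtain ⟨g1, g2⟩ := hβ s hs
        rw [eu]
        have := mul_nonneg hk0.le g1
        linarith
      · rw [eu, ← hX, ← hY]
        have : k * X = -Y - k := by rw [hk]; field_simp; ring
        linarith
      · rw [eu, ← hX, ← hY]
        have : k * X = -Y - k := by rw [hk]; field_simp; ring
        linarith
    · rcases lt_or_ge v.im 0 with hi | hi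
      · -- downward
        obtain ⟨η, hη, hη2⟩ : ∃ η : ℝ, 0 < η ∧ η * v.re = -v.im / 2 :=
          ⟨-v.im / (2 * v.re), div_pos (by linarith) (by linarith), by field_simp⟩
        refine ⟨-(Complex.I * v), v, -(Complex.I * v) + (η : ℂ) * v, ?_, ?_,
          ?_, ?_, hv0, ?_, ?_, ?_⟩
        · simp
          rw [hη2]; linarith
        · simp
          nlinarith
        · simp [T]; nlinarith
        · have e : T v (-(Complex.I * v) + (η : ℂ) * v) = η * (v.re ^ 2 + v.im ^ 2) := by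
            rw [T_add, T_smul]; simp [T]; ring
          rw [e]; positivity
        · intro s hs
          obtain ⟨g1, g2⟩ := hβ s hs
          rw [eY] at g2
          rw [eY']; linarith
        · rw [eY] at hy
          rw [eY']; linarith
        · exact hx
      · -- upward
        have hd : 0 < v.re / (2 * (v.im + 1)) := div_pos hc (by linarith)
        have hd2 : v.re / (2 * (v.im + 1)) * v.im ≤ v.re / 2 := by
          have : v.re / 2 = v.re / (2 * (v.im + 1)) * (v.im + 1) := by field_simp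
          rw [this]
          nlinarith
        refine ⟨-(Complex.I * v), -(Complex.I * v), ⟨-(v.re / (2 * (v.im + 1))), -1⟩, ?_, ?_,
          ?_, ?_, ?_, ?_, ?_, ?_⟩
        · simpa using hd
        · norm_num
        · rw [eY']; simp only; nlinarith
        · rw [eY']; simp only; nlinarith
        · simpa using hi
        · intro s hs
          obtain ⟨g1, g2⟩ := hβ s hs
          rw [eY] at g2
          rw [eY']; linarith
        · rw [eY] at hy
          rw [eY']; linarith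
        · rw [eY] at hy
          rw [eY']; linarith
  obtain ⟨u, u', R, hR1, hR2, hR3, hR4, hu', hub, hua, hua'⟩ := main
  obtain ⟨σ, hσ, hσ2⟩ := exists_scale (R := R) hδ
  have hFR : F (σ * R) < 0 := by
    apply C.Fn
    · left
      rw [Complex.re_ofReal_mul]
      exact mul_neg_of_pos_of_neg hσ hR1
    · rw [Complex.im_ofReal_mul]
      exact mul_neg_of_pos_of_neg hσ hR2
  have h7 : F (a s₀) < 0 := by
    have h8 := const_neg (seg_cont C (σ * R) (a s₀)) (neg_of_clear C hδε hσ2 h3 hub hu'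
      (by rw [T_smul]; exact mul_pos hσ hR3) hua (by rw [T_smul]; exact mul_pos hσ hR4) hua'
      (a_ne C h0 h1)) (by simpa using hFR)
    simpa using h8
  intro s hs
  refine const_neg (C.Fc.comp C.la.cont) (x := s₀) (y := s) ?_ h7
  intro t ht
  rw [mem_uIcc] at ht
  apply a_ne C
  · rcases ht with h | h
    · linarith [h.1]
    · linarith [h.1, hs.1]
  · rcases ht with h | h
    · linarith [h.2, hs.2]
    · linarith [h.2]

lemma small_param (C : Conf a b F) {δ ε : ℝ} (hδ : 0 < δ) (hε : 0 < ε) :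
    ∃ s₀ : ℝ, 0 < s₀ ∧ s₀ < ε ∧ ∀ t, 0 ≤ t → t ≤ s₀ → ‖a t‖ < δ := by
  have h5 : Tendsto (fun s => ‖a s‖) (𝓝 0) (𝓝 ‖a 0‖) := C.la.cont.norm.tendsto 0
  rw [C.la.left 0 le_rfl, Complex.ofReal_zero, norm_zero] at h5
  obtain ⟨e, he, h6⟩ := Metric.eventually_nhds_iff.1 (h5.eventually (gt_mem_nhds hδ))
  refine ⟨min (e / 2) (ε / 2), lt_min (by linarith) (by linarith),
    (min_le_right _ _).trans_lt (by linarith), ?_⟩
  intro t ht0 ht1
  apply h6
  rw [dist_zero_right, Real.norm_eq_abs, abs_of_nonneg ht0]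
  have := min_le_left (e / 2) (ε / 2)
  linarith

lemma neg_near (C : Conf a b F) {ε δ : ℝ} (hδ : ∀ t, ‖b t‖ < δ → t < ε) {s₀ : ℝ}
    (hs : ‖a s₀‖ < δ) (hneg : F (a s₀) < 0) {u v z : ℂ} (hv0 : 0 ≤ v.re) (hz : ‖z‖ < δ)
    (hu : ∀ s ∈ Ioc 0 ε, T u (b s) ≤ 0) (ha : 0 ≤ T u (a s₀)) (hav : 0 ≤ T v (a s₀))
    (z1 : 0 < T u z) (z2 : 0 < T v z) : F z < 0 := by
  have h := const_neg (seg_cont C z (a s₀)) (x := 1) (y := 0) (by
    rw [uIcc_comm]
    exact neg_of_clear C hδ hz hs hu hv0 z1 ha z2 hav hneg.ne) (by simpa using hneg)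
  simpa using h

lemma pos_near (C : Conf a b F) {ε δ : ℝ} (hδ0 : 0 < δ) (hδ : ∀ t, ‖b t‖ < δ → t < ε) {v : ℂ}
    (hv0 : 0 ≤ v.re) (hvr : v.im ≤ 0 → 0 < v.re) {m : ℝ} (hm : 0 < m) {u : ℂ}
    (hu : ∀ R, 0 < T (Complex.I * v) R → T v R ≤ m * T (Complex.I * v) R → 0 < T u R)
    (hub : ∀ s ∈ Ioc 0 ε, T u (b s) ≤ 0) {z : ℂ} (hz : ‖z‖ < δ) (z1 : 0 < T v z)
    (z2 : 0 < T (Complex.I * v) z) (z3 : 0 < T u z) : 0 < F z := by
  have eY : ∀ z, T (Complex.I * v) z = v.re * z.im - v.im * z.re := by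
    intro z; simp [T]; ring
  have main : ∃ u' R : ℂ, R.re < 0 ∧ 0 < R.im ∧ 0 < T u R ∧ 0 < T u' R ∧ 0 ≤ u'.re ∧
      0 < T u' z := by
    rcases lt_or_ge 0 v.im with hi | hi
    · obtain ⟨η, hη, hη1, hη2⟩ : ∃ η : ℝ, 0 < η ∧ η ≤ m ∧ η * v.re < v.im := by
        refine ⟨min m (v.im / (v.re + 1)), lt_min hm (div_pos hi (by linarith)), min_le_left _ _, ?_⟩
        have h1 : min m (v.im / (v.re + 1)) ≤ v.im / (v.re + 1) := min_le_right _ _
        have h2 : v.im / (v.re + 1) * (v.re + 1) = v.im := by field_simp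
        have h3 : 0 < v.im / (v.re + 1) := div_pos hi (by linarith)
        nlinarith
      have e1 : T (Complex.I * v) (Complex.I * v + (η : ℂ) * v) = v.re ^ 2 + v.im ^ 2 := by
        rw [T_add, T_smul]; simp [T]; ring
      have e2 : T v (Complex.I * v + (η : ℂ) * v) = η * (v.re ^ 2 + v.im ^ 2) := by
        rw [T_add, T_smul]; simp [T]; ring
      have hpos : 0 < v.re ^ 2 + v.im ^ 2 := by positivity
      refine ⟨v, Complex.I * v + (η : ℂ) * v, ?_, ?_, ?_, ?_, hv0, z1⟩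
      · simp; linarith
      · simp; nlinarith
      · apply hu
        · rw [e1]; exact hpos
        · rw [e1, e2]; exact mul_le_mul_of_nonneg_right hη1 hpos.le
      · rw [e2]; exact mul_pos hη hpos
    · have hr := hvr hi
      obtain ⟨η, hη, hη2⟩ : ∃ η : ℝ, 0 < η ∧ 0 < v.re + η * v.im := by
        refine ⟨v.re / (1 - v.im), div_pos hr (by linarith), ?_⟩
        have h1 : v.re + v.re / (1 - v.im) * v.im = v.re / (1 - v.im) := by
          have : 1 - v.im ≠ 0 := by linarith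
          field_simp; ring
        rw [h1]
        exact div_pos hr (by linarith)
      have e1 : T (Complex.I * v) ⟨-η, 1⟩ = v.re + η * v.im := by
        rw [eY]; ring
      refine ⟨Complex.I * v, ⟨-η, 1⟩, by simpa using hη, by norm_num, ?_, ?_, ?_, z2⟩
      · apply hu
        · rw [e1]; exact hη2
        · rw [e1]
          have e2 : T v ⟨-η, 1⟩ = -η * v.re + v.im := by simp [T]; ring
          rw [e2]
          have := mul_pos hm hη2
          have := mul_pos hη hr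
          linarith
      · rw [e1]; exact hη2
      · simpa using hi
  obtain ⟨u', R, hR1, hR2, hR3, hR4, hu', hz'⟩ := main
  obtain ⟨σ, hσ, hσ2⟩ := exists_scale (R := R) hδ0
  have hFR : 0 < F (σ * R) := by
    apply C.Fp
    · left
      rw [Complex.re_ofReal_mul]
      exact mul_neg_of_pos_of_neg hσ hR1
    · rw [Complex.im_ofReal_mul]
      exact mul_pos hσ hR2
  have h8 := const_pos (seg_cont C z (σ * R)) (x := 1) (y := 0) (by
    rw [uIcc_comm]
    exact neg_of_clear C hδ hz hσ2 hub hu' z3 (by rw [T_smul]; exact (mul_pos hσ hR3).le) hz'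
      (by rw [T_smul]; exact (mul_pos hσ hR4).le) hFR.ne') (by simpa using hFR)
  simpa using h8

/-- vertices in the frame `v`, `i v` -/
lemma frame (v x y : ℂ) (r : ℝ) :
    T v (P3 r x y) = T v y + r * (T (Complex.I * v) x - T (Complex.I * v) y) ∧
    T (Complex.I * v) (P3 r x y) = T (Complex.I * v) y + r * (T v y - T v x) ∧
    T v (P4 r x y) = T v x + r * (T (Complex.I * v) x - T (Complex.I * v) y) ∧
    T (Complex.I * v) (P4 r x y) = T (Complex.I * v) x + r * (T v y - T v x) := by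
  refine ⟨?_, ?_, ?_, ?_⟩ <;>
  · simp [T, P3, P4]
    ring

lemma sector_arith {r m₁ m₂ x₁ x₂ y₁ y₂ : ℝ} (hr : 0 < r) (hm : r * (m₁ - m₂) ≤ 1)
    (hy₁ : y₁ ≤ 0) (hrec : y₂ < y₁) (X3 : 0 < x₂ + r * (y₁ - y₂))
    (Y3 : 0 ≤ y₂ + r * (x₂ - x₁)) (Y4 : 0 < y₁ + r * (x₂ - x₁))
    (X3' : x₂ + r * (y₁ - y₂) ≤ m₁ * (y₂ + r * (x₂ - x₁)))
    (X4' : m₂ * (y₁ + r * (x₂ - x₁)) ≤ x₁ + r * (y₁ - y₂)) : False := by
  have hm₁' : 0 < m₁ := by
    by_contra hc
    push Not at hc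
    have := mul_nonpos_of_nonpos_of_nonneg hc Y3
    linarith
  -- `x₂ - x₁ ≤ m₁ y₃ - m₂ y₄ < (m₁ - m₂) y₄`
  have e1 : m₁ * (y₂ + r * (x₂ - x₁)) < m₁ * (y₁ + r * (x₂ - x₁)) :=
    mul_lt_mul_of_pos_left (by linarith) hm₁'
  have e2 : r * (x₂ - x₁) < r * ((m₁ - m₂) * (y₁ + r * (x₂ - x₁))) :=
    mul_lt_mul_of_pos_left (by linarith) hr
  have e3 : r * ((m₁ - m₂) * (y₁ + r * (x₂ - x₁))) ≤ y₁ + r * (x₂ - x₁) := by
    have := mul_le_mul_of_nonneg_right hm Y4.le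
    linarith
  linarith

lemma eq_zero_of_frame {v z : ℂ} (hv : v ≠ 0) (h1 : T v z = 0) (h2 : T (Complex.I * v) z = 0) :
    z = 0 := by
  have hn : 0 < v.re ^ 2 + v.im ^ 2 := by
    have := Complex.normSq_pos.2 hv
    rw [Complex.normSq_apply] at this
    linarith
  have h2' : v.re * z.im - v.im * z.re = 0 := by
    rw [← h2]; simp [T]; ring
  simp only [T] at h1
  apply Complex.ext
  · simp only [Complex.zero_re]
    have : z.re * (v.re ^ 2 + v.im ^ 2) = 0 := by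
      linear_combination v.re * h1 - v.im * h2'
    exact (mul_eq_zero.1 this).resolve_right hn.ne'
  · simp only [Complex.zero_im]
    have : z.im * (v.re ^ 2 + v.im ^ 2) = 0 := by
      linear_combination v.im * h1 + v.re * h2'
    exact (mul_eq_zero.1 this).resolve_right hn.ne'

lemma m1_nonneg (C : Conf a b F) {v : ℂ} (hv : v ≠ 0) {ε m₁ m₂ : ℝ} (hε : 0 < ε) (hm₂ : 0 ≤ m₂)
    (g1 : 0 ≤ T (Complex.I * v) (b ε)) (g2 : m₂ * T (Complex.I * v) (b ε) ≤ T v (b ε))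
    (g3 : T v (b ε) ≤ m₁ * T (Complex.I * v) (b ε)) : 0 ≤ m₁ := by
  by_contra hc
  push Not at hc
  have h0 := mul_nonneg hm₂ g1
  have h1 := mul_nonneg (neg_nonneg.2 hc.le) g1
  have g4 : m₁ * T (Complex.I * v) (b ε) = 0 := by linarith
  have g4' := (mul_eq_zero.1 g4).resolve_left hc.ne
  have g5 : T v (b ε) = 0 := by linarith
  have g6 := eq_zero_of_frame hv g5 g4'
  have g7 := C.dis 0 ε (by rw [g6, C.la.left 0 le_rfl]; simp)
  linarith [g7.1]

/-- the corner, for two points of the first arc -/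
lemma corner_at (C : Conf a b F) (hr : 0 < r) {v : ℂ} (hv : v ≠ 0) (hv0 : 0 ≤ v.re)
    (hvr : v.im ≤ 0 → 0 < v.re) {ε δ : ℝ} (hε : 0 < ε) (hδ : 0 < δ)
    (hδε : ∀ t, ‖b t‖ < δ → t < ε)
    (hβ0 : ∀ s ∈ Ioc 0 ε, 0 ≤ T v (b s) ∧ 0 ≤ T (Complex.I * v) (b s))
    (hβ : (∀ s ∈ Ioc 0 ε, 0 ≤ T v (b s) ∧ T (Complex.I * v) (b s) = 0) ∨
      ∃ m₁ m₂ : ℝ, 0 ≤ m₂ ∧ r * (m₁ - m₂) ≤ 1 ∧ ∀ s ∈ Ioc 0 ε, 0 ≤ T (Complex.I * v) (b s) ∧
      m₂ * T (Complex.I * v) (b s) ≤ T v (b s) ∧ T v (b s) ≤ m₁ * T (Complex.I * v) (b s))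
    {s₀ : ℝ} (na : ‖a s₀‖ < δ) (Fa : F (a s₀) < 0) (ga1 : 0 ≤ T v (a s₀))
    (ga2 : T (Complex.I * v) (a s₀) < 0) {x y : ℂ} (hx₁ : 0 ≤ T v x)
    (hy₁ : T (Complex.I * v) x ≤ 0) (hx₂ : 0 ≤ T v y)
    (hrec : T (Complex.I * v) y < T (Complex.I * v) x)
    (n3 : ‖P3 r x y‖ < δ) (n4 : ‖P4 r x y‖ < δ) (hF3 : 0 ≤ F (P3 r x y))
    (hF4 : F (P4 r x y) ≤ 0) : False := by
  obtain ⟨f1, f2, f3, f4⟩ := frame v x y r
  have hry : 0 < r * (T (Complex.I * v) x - T (Complex.I * v) y) := mul_pos hr (by linarith)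
  have X3 : 0 < T v (P3 r x y) := by rw [f1]; linarith
  have X4 : 0 < T v (P4 r x y) := by rw [f3]; linarith
  -- the third vertex is not below
  have Y3 : 0 ≤ T (Complex.I * v) (P3 r x y) := by
    by_contra hc
    push Not at hc
    have hT : ∀ z, T (-(Complex.I * v)) z = - T (Complex.I * v) z := by
      intro z; simp [T]; ring
    have := neg_near C hδε na Fa (u := -(Complex.I * v)) hv0 n3
      (fun s hs => by rw [hT]; linarith [(hβ0 s hs).2]) (by rw [hT]; linarith) ga1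
      (by rw [hT]; linarith) X3
    linarith
  have Y4 : 0 < T (Complex.I * v) (P4 r x y) := by
    rw [f4]; rw [f2] at Y3; linarith
  rcases hβ with hβ | ⟨m₁, m₂, hm₂, hm, hβ⟩
  · have := pos_near C hδ hδε hv0 hvr (m := 1) one_pos (u := Complex.I * v) (fun R h _ => h)
      (fun s hs => (hβ s hs).2.le) n4 X4 Y4 Y4
    linarith
  · obtain ⟨g1, g2, g3⟩ := hβ ε ⟨hε, le_rfl⟩
    have hm₁ : 0 ≤ m₁ := m1_nonneg C hv hε hm₂ g1 g2 g3
    have X3' : T v (P3 r x y) ≤ m₁ * T (Complex.I * v) (P3 r x y) := by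
      by_contra hc
      push Not at hc
      have hT : ∀ z, T (v - m₁ * (Complex.I * v)) z = T v z - m₁ * T (Complex.I * v) z := by
        intro z; simp [T]; ring
      have hga := mul_nonneg hm₁ (neg_nonneg.2 ga2.le)
      have := neg_near C hδε na Fa (u := v - m₁ * (Complex.I * v)) hv0 n3
        (fun s hs => by rw [hT]; linarith [(hβ s hs).2.2])
        (by rw [hT]; linarith) ga1 (by rw [hT]; linarith) X3
      linarith
    have X4' : m₂ * T (Complex.I * v) (P4 r x y) ≤ T v (P4 r x y) := by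
      by_contra hc
      push Not at hc
      have hm₂' : 0 < m₂ := by
        refine lt_of_le_of_ne hm₂ fun h => ?_
        rw [← h, zero_mul] at hc
        linarith
      have hT : ∀ z, T (m₂ * (Complex.I * v) - v) z = m₂ * T (Complex.I * v) z - T v z := by
        intro z; simp [T]; ring
      have hu : ∀ R, 0 < T (Complex.I * v) R → T v R ≤ m₂ / 2 * T (Complex.I * v) R →
          0 < T (m₂ * (Complex.I * v) - v) R := by
        intro R h h'
        rw [hT]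
        have := mul_pos hm₂' h
        linarith
      have := pos_near C hδ hδε hv0 hvr (m := m₂ / 2) (by linarith)
        (u := m₂ * (Complex.I * v) - v) hu
        (fun s hs => by rw [hT]; linarith [(hβ s hs).2.1]) n4 X4 Y4 (by rw [hT]; linarith)
      linarith
    rw [f1, f2] at X3'
    rw [f3, f4] at X4'
    rw [f1] at X3
    rw [f2] at Y3
    rw [f4] at Y4
    exact sector_arith hr hm hy₁ hrec X3 Y3 Y4 X3' X4'

/-- **Excluded corner** at the end point `0`, and the sign along the first arc. -/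
theorem corner (C : Conf a b F) (hr : 0 < r) (E : EndP a b r) :
    (∀ s ∈ Ioo (0:ℝ) 1, F (a s) < 0) ∧
    ∃ tp : ℝ, 0 < tp ∧ tp < 1 / 2 ∧ ∀ t, 0 ≤ t → t < tp →
      ¬ (0 ≤ F (P3 r (a t) (a tp)) ∧ F (P4 r (a t) (a tp)) ≤ 0) := by
  obtain ⟨v, hv, hv0, ε, hε, hα, hβ⟩ := E
  have hβ0 : ∀ s ∈ Ioc 0 ε, 0 ≤ T v (b s) ∧ 0 ≤ T (Complex.I * v) (b s) := by
    rcases hβ with hβ | ⟨m₁, m₂, hm, -, hβ⟩
    · exact fun s hs => ⟨(hβ s hs).1, (hβ s hs).2.ge⟩
    · exact fun s hs => ⟨(mul_nonneg hm (hβ s hs).1).trans (hβ s hs).2.1, (hβ s hs).1⟩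
  have hneg := neg_a C hv hv0 hε hα hβ0
  refine ⟨hneg, ?_⟩
  obtain ⟨δ, hδ, hδε⟩ := exists_delta C hε
  have eY : ∀ z, T (Complex.I * v) z = v.re * z.im - v.im * z.re := by
    intro z; simp [T]; ring
  have hvr : v.im ≤ 0 → 0 < v.re := by
    intro hi
    refine lt_of_le_of_ne hv0 fun h0 => ?_
    have hi' : v.im < 0 := lt_of_le_of_ne hi fun h => hv (Complex.ext h0.symm h)
    set s := min ε 1 with hs
    have hs0 : 0 < s := lt_min hε zero_lt_one
    have h1 := (hα s ⟨hs0, min_le_left _ _⟩).2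
    rw [eY, ← h0] at h1
    have h2 := C.la.re0 s ⟨hs0.le, min_le_right _ _⟩
    have := mul_nonneg (neg_nonneg.2 hi'.le) h2
    linarith
  -- the radius
  set δ₁ : ℝ := δ / (2 * (1 + 2 * r)) with hδ₁
  have hr2 : 0 < 2 * (1 + 2 * r) := by positivity
  have hδ₁0 : 0 < δ₁ := div_pos hδ hr2
  have hδ₁e : δ₁ * (2 * (1 + 2 * r)) = δ := by rw [hδ₁]; field_simp
  obtain ⟨s₀, hs0, hs1, hs2⟩ := small_param C hδ₁0 (lt_min hε (by norm_num : (0:ℝ) < 1 / 2))
  have hs1e : s₀ ≤ ε := (hs1.trans_le (min_le_left _ _)).le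
  have hs1h : s₀ < 1 / 2 := hs1.trans_le (min_le_right _ _)
  obtain ⟨ga1, ga2⟩ := hα s₀ ⟨hs0, hs1e⟩
  -- the first time of a given depth
  have hTc : Continuous fun t => T (Complex.I * v) (a t) := by
    have := C.la.cont
    unfold T
    fun_prop
  have hKc : IsCompact {t | t ∈ Icc 0 s₀ ∧ T (Complex.I * v) (a t) ≤ T (Complex.I * v) (a s₀)} :=
    isCompact_Icc.inter_right (isClosed_le hTc continuous_const)
  obtain ⟨tp, ⟨⟨ht0, ht1⟩, ht2⟩, hmin⟩ := hKc.exists_isLeast ⟨s₀, ⟨hs0.le, le_rfl⟩, le_rfl⟩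
  have htp : 0 < tp := by
    refine lt_of_le_of_ne ht0 fun h => ?_
    rw [← h, C.la.left 0 le_rfl, Complex.ofReal_zero, T_zero] at ht2
    linarith
  refine ⟨tp, htp, ht1.trans_lt hs1h, ?_⟩
  rintro t h0 h1 ⟨hF3, hF4⟩
  have hrec : T (Complex.I * v) (a tp) < T (Complex.I * v) (a t) := by
    by_contra hc
    push Not at hc
    have := hmin ⟨⟨h0, h1.le.trans ht1⟩, hc.trans ht2⟩
    linarith
  have nx : ‖a t‖ < δ₁ := hs2 t h0 (h1.le.trans ht1)
  have ny : ‖a tp‖ < δ₁ := hs2 tp ht0 ht1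
  have nw : ‖r * Complex.I * (a tp - a t)‖ ≤ r * (2 * δ₁) := by
    rw [norm_mul, norm_mul, Complex.norm_I, mul_one, Complex.norm_real, Real.norm_of_nonneg hr.le]
    apply mul_le_mul_of_nonneg_left _ hr.le
    have := norm_sub_le (a tp) (a t)
    linarith
  have hr3 : 0 < r * δ₁ := mul_pos hr hδ₁0
  have n3 : ‖P3 r (a t) (a tp)‖ < δ := by
    have := norm_add_le (a tp) (r * Complex.I * (a tp - a t))
    unfold P3
    linarith
  have n4 : ‖P4 r (a t) (a tp)‖ < δ := by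
    have := norm_add_le (a t) (r * Complex.I * (a tp - a t))
    unfold P4
    linarith
  have na : ‖a s₀‖ < δ := by
    have := hs2 s₀ hs0.le le_rfl
    linarith
  have hx₁ : 0 ≤ T v (a t) ∧ T (Complex.I * v) (a t) ≤ 0 := by
    rcases h0.eq_or_lt with h | h
    · rw [← h, C.la.left 0 le_rfl, Complex.ofReal_zero, T_zero, T_zero]
      exact ⟨le_rfl, le_rfl⟩
    · have := hα t ⟨h, by linarith⟩
      exact ⟨this.1, this.2.le⟩
  exact corner_at C hr hv hv0 hvr hε hδ hδε hβ0 hβ na (hneg s₀ ⟨hs0, by linarith⟩) ga1 ga2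
    hx₁.1 hx₁.2 (hα tp ⟨htp, by linarith⟩).1 hrec n3 n4 hF3 hF4

end Pool.Agent.J4H19.Ends
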