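import Mathlib
import Pool.Agent.J4H19.Ends

/-! Signs of side functions near a common end point of two arcs, one of which is simple. -/

set_option autoImplicit false

open Set Filter Topology

namespace Pool.Agent.J4H19.Loc

open Pool.Agent.J4H19.Arcs (T)
open Pool.Agent.J4H19.Side (Lin)
open Pool.Agent.J4H19.Ends

/-- a side function of an arc -/
structure Sd (b : ℝ → ℂ) (F : ℂ → ℝ) : Prop where
  lb : Lin b
  Fc : Continuous F
  Fz : ∀ z, F z = 0 ↔ z ∈ range b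
  Fp : ∀ z : ℂ, (z.re < 0 ∨ 1 < z.re) → 0 < z.im → 0 < F z
  Fn : ∀ z : ℂ, (z.re < 0 ∨ 1 < z.re) → z.im < 0 → F z < 0

lemma Sd.of_conf {a b : ℝ → ℂ} {F : ℂ → ℝ} (C : Conf a b F) : Sd b F :=
  ⟨C.lb, C.Fc, C.Fz, C.Fp, C.Fn⟩

variable {b : ℝ → ℂ} {F : ℂ → ℝ}

lemma T_comb (u z R : ℂ) (s : ℝ) : T u (z + s * (R - z)) = (1 - s) * T u z + s * T u R := by
  rw [T_add, T_smul, T_sub]; ring

lemma T_Iv (v z : ℂ) : T (Complex.I * v) z = v.re * z.im - v.im * z.re := by simp [T]; ring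

lemma T_vv (v : ℂ) : T v v = v.re ^ 2 + v.im ^ 2 := by simp only [T]; ring
lemma T_vI (v : ℂ) : T v (Complex.I * v) = 0 := by simp [T]; ring
lemma T_Iv' (v : ℂ) : T (Complex.I * v) v = 0 := by simp [T]; ring
lemma T_II (v : ℂ) : T (Complex.I * v) (Complex.I * v) = v.re ^ 2 + v.im ^ 2 := by simp [T]; ring

lemma norm_comb {z R : ℂ} {δ s : ℝ} (hz : ‖z‖ < δ) (hR : ‖R‖ < δ) (s0 : 0 ≤ s) (s1 : s ≤ 1) :
    ‖z + s * (R - z)‖ < δ := by
  have e : z + s * (R - z) = ((1 - s : ℝ) : ℂ) * z + (s : ℂ) * R := by push_cast; ring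
  rw [e]
  refine (norm_add_le _ _).trans_lt ?_
  rw [norm_mul, norm_mul, Complex.norm_real, Complex.norm_real, Real.norm_of_nonneg s0,
    Real.norm_of_nonneg (by linarith)]
  rcases s0.eq_or_lt with h | h
  · rw [← h]; linarith
  · nlinarith [mul_lt_mul_of_pos_left hR h, mul_le_mul_of_nonneg_left hz.le (sub_nonneg.2 s1)]

lemma seg_cont (S : Sd b F) (z R : ℂ) : Continuous fun s : ℝ => F (z + s * (R - z)) :=
  S.Fc.comp (by fun_prop)

/-- Positive side, with a reference point far to the left. -/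
lemma pos_of (S : Sd b F) {ε δ : ℝ} (hδ : ∀ t, ‖b t‖ < δ → t < ε) {v z R : ℂ} (hv0 : 0 ≤ v.re)
    (hz : ‖z‖ < δ) (hR : ‖R‖ < δ) (hR1 : R.re < 0) (hR2 : 0 < R.im) (hx : 0 < T v z)
    (hy : 0 ≤ T (Complex.I * v) z) (hRY : 0 < T (Complex.I * v) R) (hRX : 0 < T v R ∨ v.im ≤ 0)
    (hb : ∀ s ∈ Icc (0:ℝ) 1, ∀ t ∈ Ioc 0 ε, b t ≠ z + s * (R - z)) : 0 < F z := by
  have hFR : 0 < F R := S.Fp R (Or.inl hR1) hR2
  have h8 := const_pos (seg_cont S z R) (x := 1) (y := 0) ?_ (by simpa using hFR)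
  · simpa using h8
  · intro s hs h
    rw [uIcc_comm, uIcc_of_le zero_le_one] at hs
    obtain ⟨t, ht⟩ := (S.Fz _).1 h
    have hn := norm_comb hz hR hs.1 hs.2
    rw [← ht] at hn
    have hlt := hδ t hn
    rcases le_or_gt t 0 with h0 | h0
    · have e1 := T_comb v z R s
      have e2 := T_comb (Complex.I * v) z R s
      rw [← ht, S.lb.left t h0, T_real] at e1 e2
      have e3 : (Complex.I * v).re = -v.im := by simp
      rw [e3] at e2
      have i1 := mul_nonneg hv0 (neg_nonneg.2 h0)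
      rcases hRX with h1 | h1
      · rcases hs.2.eq_or_lt with h2 | h2
        · rw [h2] at e1
          linarith
        · have := mul_pos (sub_pos.2 h2) hx
          have := mul_nonneg hs.1 h1.le
          linarith
      · have i2 := mul_nonneg (neg_nonneg.2 h1) (neg_nonneg.2 h0)
        have i3 := mul_nonneg (sub_nonneg.2 hs.2) hy
        rcases hs.1.eq_or_lt with h2 | h2
        · rw [← h2] at e1
          linarith
        · have := mul_pos h2 hRY
          linarith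
    · exact hb s hs t ⟨h0, hlt.le⟩ ht

/-- Negative side, with a reference point `R`. -/
lemma neg_of (S : Sd b F) {ε δ : ℝ} (hδ : ∀ t, ‖b t‖ < δ → t < ε) {v z R : ℂ} (hv0 : 0 ≤ v.re)
    (hz : ‖z‖ < δ) (hR : ‖R‖ < δ) (hFR : F R < 0) (hx : 0 < T v z) (hRX : 0 ≤ T v R)
    (hb : ∀ s : ℝ, 0 ≤ s → s < 1 → ∀ t ∈ Ioc 0 ε, b t ≠ z + s * (R - z)) : F z < 0 := by
  have h8 := const_neg (seg_cont S z R) (x := 1) (y := 0) ?_ (by simpa using hFR)
  · simpa using h8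
  · intro s hs h
    rw [uIcc_comm, uIcc_of_le zero_le_one] at hs
    rcases hs.2.eq_or_lt with h2 | h2
    · rw [h2] at h
      simp only [Complex.ofReal_one, one_mul, add_sub_cancel] at h
      exact hFR.ne h
    obtain ⟨t, ht⟩ := (S.Fz _).1 h
    have hn := norm_comb hz hR hs.1 hs.2
    rw [← ht] at hn
    have hlt := hδ t hn
    rcases le_or_gt t 0 with h0 | h0
    · have e1 := T_comb v z R s
      rw [← ht, S.lb.left t h0, T_real] at e1
      have i1 := mul_nonneg hv0 (neg_nonneg.2 h0)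
      have := mul_pos (sub_pos.2 h2) hx
      have := mul_nonneg hs.1 hRX
      linarith
    · exact hb s hs.1 h2 t ⟨h0, hlt.le⟩ ht

/-- reference points -/
lemma ref {v : ℂ} (hv0 : 0 ≤ v.re) (hvr : v.im ≤ 0 → 0 < v.re) {δ : ℝ} (hδ : 0 < δ) :
    ∃ c > 0, ∀ k > 0, ∃ R : ℂ, ‖R‖ < δ ∧ R.re < 0 ∧ 0 < R.im ∧ c ≤ T (Complex.I * v) R ∧
      T v R ≤ k ∧ (0 < T v R ∨ v.im ≤ 0) := by
  rcases lt_or_ge 0 v.im with hi | hi
  · have hpos : 0 < v.re ^ 2 + v.im ^ 2 := by positivity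
    have hv : 0 < ‖v‖ := norm_pos_iff.2 fun h => by rw [h] at hi; simp at hi
    set σ : ℝ := δ / (3 * ‖v‖) with hσ
    have hσ0 : 0 < σ := by positivity
    have hσ1 : σ * ‖v‖ = δ / 3 := by rw [hσ]; field_simp
    refine ⟨σ * (v.re ^ 2 + v.im ^ 2), by positivity, fun k hk => ?_⟩
    obtain ⟨η, hη, hη1, hη2, hη3⟩ : ∃ η : ℝ, 0 < η ∧ η ≤ 1 ∧ η * v.re < v.im ∧
        σ * η * (v.re ^ 2 + v.im ^ 2) ≤ k := by
      set A := min 1 (min (v.im / (v.re + 1)) (k / (σ * (v.re ^ 2 + v.im ^ 2)))) with hA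
      have hp1 : 0 < v.im / (v.re + 1) := div_pos hi (by linarith)
      have hp2 : 0 < k / (σ * (v.re ^ 2 + v.im ^ 2)) := by positivity
      have hA0 : 0 < A := lt_min one_pos (lt_min hp1 hp2)
      have hA1 : A ≤ v.im / (v.re + 1) := (min_le_right _ _).trans (min_le_left _ _)
      have hA2 : A ≤ k / (σ * (v.re ^ 2 + v.im ^ 2)) := (min_le_right _ _).trans (min_le_right _ _)
      refine ⟨A, hA0, min_le_left _ _, ?_, ?_⟩
      · have h2 : v.im / (v.re + 1) * (v.re + 1) = v.im := by field_simp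
        nlinarith
      · rw [le_div_iff₀ (by positivity)] at hA2
        linarith
    have e1 : T (Complex.I * v) ((σ : ℂ) * (Complex.I * v + (η : ℂ) * v)) =
        σ * (v.re ^ 2 + v.im ^ 2) := by
      rw [T_smul, T_add, T_smul, T_II, T_Iv']; ring
    have e2 : T v ((σ : ℂ) * (Complex.I * v + (η : ℂ) * v)) = σ * η * (v.re ^ 2 + v.im ^ 2) := by
      rw [T_smul, T_add, T_smul, T_vI, T_vv]; ring
    refine ⟨(σ : ℂ) * (Complex.I * v + (η : ℂ) * v), ?_, ?_, ?_, e1.ge, e2.le.trans hη3, Or.inl ?_⟩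
    · rw [norm_mul, Complex.norm_real, Real.norm_of_nonneg hσ0.le]
      have h3 : ‖Complex.I * v + (η : ℂ) * v‖ ≤ 2 * ‖v‖ := by
        refine (norm_add_le _ _).trans ?_
        rw [norm_mul, norm_mul, Complex.norm_I, Complex.norm_real, Real.norm_of_nonneg hη.le]
        nlinarith
      nlinarith
    · rw [Complex.re_ofReal_mul]
      apply mul_neg_of_pos_of_neg hσ0
      simp; linarith
    · rw [Complex.im_ofReal_mul]
      apply mul_pos hσ0
      simp; nlinarith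
    · rw [e2]; positivity
  · have hr := hvr hi
    obtain ⟨η, hη, hη1, hη2⟩ : ∃ η : ℝ, 0 < η ∧ η ≤ 1 ∧ 0 < v.re + η * v.im := by
      refine ⟨v.re / (v.re + 1 - v.im), div_pos hr (by linarith), ?_, ?_⟩
      · rw [div_le_one (by linarith)]; linarith
      · have h1 : v.re + v.re / (v.re + 1 - v.im) * v.im =
            v.re * (v.re + 1) / (v.re + 1 - v.im) := by
          have : v.re + 1 - v.im ≠ 0 := by linarith
          field_simp; ring
        rw [h1]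
        exact div_pos (mul_pos hr (by linarith)) (by linarith)
    set R : ℂ := ((δ / 3 : ℝ) : ℂ) * ⟨-η, 1⟩ with hRd
    have e1 : T (Complex.I * v) R = δ / 3 * (v.re + η * v.im) := by
      rw [hRd, T_smul, T_Iv]; ring
    have e2 : T v R = δ / 3 * (-η * v.re + v.im) := by
      rw [hRd, T_smul]; simp only [T]; ring
    refine ⟨δ / 3 * (v.re + η * v.im), by positivity, fun k hk => ⟨R, ?_, ?_, ?_, e1.ge, ?_,
      Or.inr hi⟩⟩
    · rw [hRd, norm_mul, Complex.norm_real, Real.norm_of_nonneg (by positivity)]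
      have h3 : ‖(⟨-η, 1⟩ : ℂ)‖ ≤ 2 := by
        refine (Complex.norm_le_abs_re_add_abs_im _).trans ?_
        simp only [abs_neg, abs_of_pos hη, abs_one]
        linarith
      nlinarith
    · rw [hRd, Complex.re_ofReal_mul]
      simp only
      nlinarith
    · rw [hRd, Complex.im_ofReal_mul]
      simp only
      linarith
    · rw [e2]
      have := mul_pos hη hr
      have h3 : δ / 3 * (-η * v.re + v.im) ≤ 0 := by
        apply mul_nonpos_of_nonneg_of_nonpos (by linarith) (by linarith)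
      linarith

/-- above an arc that is strictly below the axis -/
lemma axis_pos (S : Sd b F) {ε δ : ℝ} (hδ0 : 0 < δ) (hδ : ∀ t, ‖b t‖ < δ → t < ε) {v z : ℂ}
    (hv0 : 0 ≤ v.re) (hvr : v.im ≤ 0 → 0 < v.re)
    (hb : ∀ t ∈ Ioc 0 ε, T (Complex.I * v) (b t) < 0) (hz : ‖z‖ < δ) (hx : 0 < T v z)
    (hy : 0 ≤ T (Complex.I * v) z) : 0 < F z := by
  obtain ⟨c, hc, h⟩ := ref hv0 hvr hδ0
  obtain ⟨R, h1, h2, h3, h4, h5, h6⟩ := h 1 one_pos
  refine pos_of S hδ hv0 hz h1 h2 h3 hx hy (hc.trans_le h4) h6 ?_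
  intro s hs t ht he
  have := hb t ht
  rw [he, T_comb] at this
  have := mul_nonneg (sub_nonneg.2 hs.2) hy
  have := mul_nonneg hs.1 (hc.le.trans h4)
  linarith

/-- to the left of a sector -/
lemma sector_pos (S : Sd b F) {ε δ : ℝ} (hδ0 : 0 < δ) (hδ : ∀ t, ‖b t‖ < δ → t < ε) {v z : ℂ}
    (hv0 : 0 ≤ v.re) (hvr : v.im ≤ 0 → 0 < v.re) {m : ℝ} (hm : 0 ≤ m)
    (hb : ∀ t ∈ Ioc 0 ε, m * T (Complex.I * v) (b t) ≤ T v (b t)) (hz : ‖z‖ < δ)
    (hx : 0 < T v z) (hy : T v z < m * T (Complex.I * v) z) : 0 < F z := by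
  have hm' : 0 < m := by
    refine lt_of_le_of_ne hm fun h => ?_
    rw [← h, zero_mul] at hy
    linarith
  have hy0 : 0 < T (Complex.I * v) z := by
    by_contra hc
    push Not at hc
    nlinarith
  obtain ⟨c, hc, h⟩ := ref hv0 hvr hδ0
  obtain ⟨R, h1, h2, h3, h4, h5, h6⟩ := h (m * c / 2) (by positivity)
  refine pos_of S hδ hv0 hz h1 h2 h3 hx hy0.le (hc.trans_le h4) h6 ?_
  intro s hs t ht he
  have := hb t ht
  rw [he, T_comb, T_comb] at this
  have i1 : T v R < m * T (Complex.I * v) R := by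
    have := mul_le_mul_of_nonneg_left h4 hm'.le
    have := mul_pos hm' hc
    linarith
  rcases hs.2.eq_or_lt with g | g
  · rw [g] at this
    linarith
  · have j1 := mul_pos (sub_pos.2 g) (sub_pos.2 hy)
    have j2 := mul_nonneg hs.1 (sub_pos.2 i1).le
    linarith

/-- up and to the left of a point of a monotone arc -/
lemma nw_pos (S : Sd b F) {ε δ c : ℝ} (hδ : ∀ t, ‖b t‖ < δ → t < ε) {v z : ℂ}
    (hv0 : 0 ≤ v.re)
    (href : ∀ k > 0, ∃ R : ℂ, ‖R‖ < δ ∧ R.re < 0 ∧ 0 < R.im ∧ c ≤ T (Complex.I * v) R ∧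
      T v R ≤ k ∧ (0 < T v R ∨ v.im ≤ 0)) (hc : 0 < c)
    (hb0 : ∀ t ∈ Ioc 0 ε, 0 ≤ T (Complex.I * v) (b t))
    (hX : MonotoneOn (fun t => T v (b t)) (Ioc 0 ε))
    (hY : MonotoneOn (fun t => T (Complex.I * v) (b t)) (Ioc 0 ε)) (hz : ‖z‖ < δ)
    (hx : 0 < T v z) {t₀ : ℝ} (ht₀ : t₀ ∈ Ioc 0 ε) (hx' : T v z < T v (b t₀))
    (hy : T (Complex.I * v) (b t₀) < T (Complex.I * v) z)
    (hyc : T (Complex.I * v) (b t₀) < c) : 0 < F z := by
  have hy0 := hb0 t₀ ht₀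
  obtain ⟨R, h1, h2, h3, h4, h5, h6⟩ := href (T v (b t₀) / 2) (by linarith)
  refine pos_of S hδ hv0 hz h1 h2 h3 hx (hy0.trans hy.le) (hc.trans_le h4) h6 ?_
  intro s hs t ht he
  have e1 := T_comb v z R s
  have e2 := T_comb (Complex.I * v) z R s
  rw [← he] at e1 e2
  have j1 : T v (b t) < T v (b t₀) := by
    rw [e1]
    have h7 : T v R < T v (b t₀) := by linarith
    rcases hs.2.eq_or_lt with g | g
    · rw [g]; linarith
    · have k1 := mul_pos (sub_pos.2 g) (sub_pos.2 hx')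
      have k2 := mul_nonneg hs.1 (sub_pos.2 h7).le
      linarith
  have j2 : T (Complex.I * v) (b t₀) < T (Complex.I * v) (b t) := by
    rw [e2]
    have k1 : T (Complex.I * v) (b t₀) < T (Complex.I * v) R := hyc.trans_le h4
    rcases hs.2.eq_or_lt with g | g
    · rw [g]; linarith
    · have k2 := mul_pos (sub_pos.2 g) (sub_pos.2 hy)
      have k3 := mul_nonneg hs.1 (sub_pos.2 k1).le
      linarith
  rcases le_total t t₀ with h | h
  · have := hY ht ht₀ h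
    simp only at this
    linarith
  · have := hX ht₀ ht h
    simp only at this
    linarith

/-- below the axis -/
lemma axis_neg (S : Sd b F) {ε δ : ℝ} (hδ : ∀ t, ‖b t‖ < δ → t < ε) {v z R : ℂ}
    (hv0 : 0 ≤ v.re) (hb : ∀ t ∈ Ioc 0 ε, 0 ≤ T (Complex.I * v) (b t)) (hz : ‖z‖ < δ)
    (hR : ‖R‖ < δ) (hFR : F R < 0) (hRX : 0 ≤ T v R) (hRY : T (Complex.I * v) R ≤ 0)
    (hx : 0 < T v z) (hy : T (Complex.I * v) z < 0) : F z < 0 := by
  refine neg_of S hδ hv0 hz hR hFR hx hRX ?_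
  intro s hs0 hs1 t ht he
  have := hb t ht
  rw [he, T_comb] at this
  have := mul_pos (sub_pos.2 hs1) (neg_pos.2 hy)
  have := mul_nonneg hs0 (neg_nonneg.2 hRY)
  linarith

/-- down and to the right of a point of a monotone arc -/
lemma se_neg (S : Sd b F) {ε δ : ℝ} (hδ : ∀ t, ‖b t‖ < δ → t < ε) {v z R : ℂ} (hv : v ≠ 0)
    (hv0 : 0 ≤ v.re) (hb0 : ∀ t ∈ Ioc 0 ε, 0 ≤ T v (b t) ∧ 0 ≤ T (Complex.I * v) (b t))
    (hX : MonotoneOn (fun t => T v (b t)) (Ioc 0 ε))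
    (hY : MonotoneOn (fun t => T (Complex.I * v) (b t)) (Ioc 0 ε)) (hz : ‖z‖ < δ / 3)
    (hR : ‖R‖ < δ) (hFR : F R < 0) (hRX : 0 ≤ T v R) (hRY : T (Complex.I * v) R ≤ 0)
    {t₀ : ℝ} (ht₀ : t₀ ∈ Ioc 0 ε) (hx' : T v (b t₀) < T v z)
    (hy : T (Complex.I * v) z < T (Complex.I * v) (b t₀)) : F z < 0 := by
  have hδ0 : 0 < δ := by have := norm_nonneg z; linarith
  have hx : 0 < T v z := (hb0 t₀ ht₀).1.trans_lt hx'
  have hvn : 0 < ‖v‖ := norm_pos_iff.2 hv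
  have hsq : v.re ^ 2 + v.im ^ 2 = ‖v‖ ^ 2 := by
    rw [← Complex.normSq_eq_norm_sq, Complex.normSq_apply]; ring
  -- the point straight below
  set y := T (Complex.I * v) z with hyd
  have hyn : |y| ≤ ‖v‖ * ‖z‖ := by
    rw [hyd]
    have h1 : |T (Complex.I * v) z| ≤ ‖(Complex.I * v) * (starRingEnd ℂ) z‖ := by
      have : T (Complex.I * v) z = ((Complex.I * v) * (starRingEnd ℂ) z).re := by simp [T]
      rw [this]; exact Complex.abs_re_le_norm _
    rwa [norm_mul, norm_mul, Complex.norm_I, one_mul, Complex.norm_conj] at h1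
  set κ : ℝ := (|y| + ‖v‖ * δ / 3) / ‖v‖ ^ 2 with hκ
  have hκ0 : 0 < κ := by positivity
  set z' : ℂ := z - (κ : ℂ) * (Complex.I * v) with hz'
  have e1 : T v z' = T v z := by
    rw [hz', T_sub, T_smul, T_vI]; ring
  have e2 : T (Complex.I * v) z' = y - (|y| + ‖v‖ * δ / 3) := by
    have h1 : T (Complex.I * v) (Complex.I * v) = ‖v‖ ^ 2 := by
      rw [← hsq, T_II]
    rw [hz', T_sub, T_smul, h1, hκ, ← hyd]
    field_simp
  have e3 : T (Complex.I * v) z' < 0 := by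
    rw [e2]
    have := le_abs_self y
    have : 0 < ‖v‖ * δ / 3 := by positivity
    linarith
  have hz'n : ‖z'‖ < δ := by
    rw [hz']
    refine (norm_sub_le _ _).trans_lt ?_
    rw [norm_mul, norm_mul, Complex.norm_I, one_mul, Complex.norm_real, Real.norm_of_nonneg hκ0.le]
    have h1 : κ * ‖v‖ = (|y| + ‖v‖ * δ / 3) / ‖v‖ := by rw [hκ]; field_simp
    rw [h1]
    have h2 : (|y| + ‖v‖ * δ / 3) / ‖v‖ ≤ ‖z‖ + δ / 3 := by
      rw [div_le_iff₀ hvn]; nlinarith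
    linarith
  have hF' : F z' < 0 := axis_neg S hδ hv0 (fun t ht => (hb0 t ht).2) hz'n hR hFR hRX hRY
    (by rw [e1]; exact hx) e3
  refine neg_of S hδ hv0 (by linarith) hz'n hF' hx (by rw [e1]; exact hx.le) ?_
  intro s hs0 hs1 t ht he
  have g1 := T_comb v z z' s
  have g2 := T_comb (Complex.I * v) z z' s
  rw [← he] at g1 g2
  have j1 : T v (b t₀) < T v (b t) := by
    rw [g1, e1]; linarith
  have j2 : T (Complex.I * v) (b t) < T (Complex.I * v) (b t₀) := by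
    have k1 := (hb0 t₀ ht₀).2
    rw [g2, ← hyd]
    have := mul_pos (sub_pos.2 hs1) (sub_pos.2 hy)
    have := mul_nonneg hs0 (sub_nonneg.2 (e3.le.trans k1))
    linarith
  rcases le_total t t₀ with h | h
  · have := hX ht ht₀ h
    simp only at this
    linarith
  · have := hY ht₀ ht h
    simp only at this
    linarith

/-- up and to the left of a point of a coarsely monotone arc -/
lemma nwr_pos (S : Sd b F) {ε δ c r : ℝ} (hr : 0 < r) (hδ : ∀ t, ‖b t‖ < δ → t < ε) {v z : ℂ}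
    (hv0 : 0 ≤ v.re)
    (href : ∀ k > 0, ∃ R : ℂ, ‖R‖ < δ ∧ R.re < 0 ∧ 0 < R.im ∧ c ≤ T (Complex.I * v) R ∧
      T v R ≤ k ∧ (0 < T v R ∨ v.im ≤ 0)) (hc : 0 < c)
    (hb0 : ∀ t ∈ Ioc 0 ε, 0 ≤ T (Complex.I * v) (b t))
    (hN : ∀ s ∈ Ioc 0 ε, ∀ t ∈ Ioc 0 ε, T (Complex.I * v) (b s) < T (Complex.I * v) (b t) →
      r * (T v (b s) - T v (b t)) ≤ T (Complex.I * v) (b s)) (hz : ‖z‖ < δ)
    (hx : 0 < T v z) {t₀ : ℝ} (ht₀ : t₀ ∈ Ioc 0 ε)
    (hx' : T (Complex.I * v) (b t₀) < r * (T v (b t₀) - T v z))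
    (hy : T (Complex.I * v) (b t₀) < T (Complex.I * v) z)
    (hyc : T (Complex.I * v) (b t₀) < c) : 0 < F z := by
  have hy0 := hb0 t₀ ht₀
  obtain ⟨R, h1, h2, h3, h4, h5, h6⟩ := href (T v z) hx
  refine pos_of S hδ hv0 hz h1 h2 h3 hx (hy0.trans hy.le) (hc.trans_le h4) h6 ?_
  intro s hs t ht he
  have e1 := T_comb v z R s
  have e2 := T_comb (Complex.I * v) z R s
  rw [← he] at e1 e2
  have j1 : T v (b t) ≤ T v z := by
    rw [e1]
    have k2 := mul_nonneg hs.1 (sub_nonneg.2 h5)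
    linarith
  have j2 : T (Complex.I * v) (b t₀) < T (Complex.I * v) (b t) := by
    rw [e2]
    have k1 : T (Complex.I * v) (b t₀) < T (Complex.I * v) R := hyc.trans_le h4
    rcases hs.2.eq_or_lt with g | g
    · rw [g]; linarith
    · have k2 := mul_pos (sub_pos.2 g) (sub_pos.2 hy)
      have k3 := mul_nonneg hs.1 (sub_pos.2 k1).le
      linarith
  have h7 := hN t₀ ht₀ t ht j2
  have h8 := mul_nonneg hr.le (sub_nonneg.2 j1)
  linarith

/-- a point of the arc straight below a point that is not below the arc -/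
lemma exists_below (S : Sd b F) {ε δ : ℝ} (hδ : ∀ t, ‖b t‖ < δ → t < ε) {v z R : ℂ} (hv : v ≠ 0)
    (hv0 : 0 ≤ v.re) (hb0 : ∀ t ∈ Ioc 0 ε, 0 ≤ T (Complex.I * v) (b t)) (hz : ‖z‖ < δ / 3)
    (hR : ‖R‖ < δ) (hFR : F R < 0) (hRX : 0 ≤ T v R) (hRY : T (Complex.I * v) R ≤ 0)
    (hx : 0 < T v z) (hF : 0 ≤ F z) :
    ∃ t₀ ∈ Ioc 0 ε, T v (b t₀) = T v z ∧ T (Complex.I * v) (b t₀) ≤ T (Complex.I * v) z := by
  have hδ0 : 0 < δ := by have := norm_nonneg z; linarith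
  have hvn : 0 < ‖v‖ := norm_pos_iff.2 hv
  have hsq : v.re ^ 2 + v.im ^ 2 = ‖v‖ ^ 2 := by
    rw [← Complex.normSq_eq_norm_sq, Complex.normSq_apply]; ring
  obtain ⟨y, hyd⟩ : ∃ y, y = T (Complex.I * v) z := ⟨_, rfl⟩
  have hyn : |y| ≤ ‖v‖ * ‖z‖ := by
    rw [hyd]
    have h1 : |T (Complex.I * v) z| ≤ ‖(Complex.I * v) * (starRingEnd ℂ) z‖ := by
      have : T (Complex.I * v) z = ((Complex.I * v) * (starRingEnd ℂ) z).re := by simp [T]
      rw [this]; exact Complex.abs_re_le_norm _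
    rwa [norm_mul, norm_mul, Complex.norm_I, one_mul, Complex.norm_conj] at h1
  obtain ⟨κ, hκ⟩ : ∃ κ : ℝ, κ = (|y| + ‖v‖ * δ / 3) / ‖v‖ ^ 2 := ⟨_, rfl⟩
  have hκ0 : 0 < κ := by rw [hκ]; positivity
  obtain ⟨z', hz'⟩ : ∃ z' : ℂ, z' = z - (κ : ℂ) * (Complex.I * v) := ⟨_, rfl⟩
  have e1 : T v z' = T v z := by
    rw [hz', T_sub, T_smul, T_vI]; ring
  have e2 : T (Complex.I * v) z' = y - (|y| + ‖v‖ * δ / 3) := by
    have h1 : T (Complex.I * v) (Complex.I * v) = ‖v‖ ^ 2 := by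
      rw [← hsq, T_II]
    rw [hz', T_sub, T_smul, h1, hκ, ← hyd]
    field_simp
  have e3 : T (Complex.I * v) z' < 0 := by
    rw [e2]
    have := le_abs_self y
    have : 0 < ‖v‖ * δ / 3 := by positivity
    linarith
  have hz'n : ‖z'‖ < δ := by
    rw [hz']
    refine (norm_sub_le _ _).trans_lt ?_
    rw [norm_mul, norm_mul, Complex.norm_I, one_mul, Complex.norm_real, Real.norm_of_nonneg hκ0.le]
    have h1 : κ * ‖v‖ = (|y| + ‖v‖ * δ / 3) / ‖v‖ := by rw [hκ]; field_simp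
    rw [h1]
    have h2 : (|y| + ‖v‖ * δ / 3) / ‖v‖ ≤ ‖z‖ + δ / 3 := by
      rw [div_le_iff₀ hvn]; nlinarith
    linarith
  have hF' : F z' < 0 := axis_neg S hδ hv0 hb0 hz'n hR hFR hRX hRY (by rw [e1]; exact hx) e3
  obtain ⟨s, hs, hs0⟩ : ∃ s ∈ Icc (0:ℝ) 1, F (z + s * (z' - z)) = 0 := by
    have h1 := intermediate_value_Icc' (zero_le_one' ℝ) (seg_cont S z z').continuousOn
    have h2 : (0:ℝ) ∈ Icc (F (z + ((1:ℝ):ℂ) * (z' - z))) (F (z + ((0:ℝ):ℂ) * (z' - z))) := by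
      simp only [Complex.ofReal_one, Complex.ofReal_zero, one_mul, zero_mul, add_zero,
        add_sub_cancel]
      exact ⟨hF'.le, hF⟩
    obtain ⟨s, hs, h3⟩ := h1 h2
    exact ⟨s, hs, h3⟩
  obtain ⟨t, ht⟩ := (S.Fz _).1 hs0
  have hn := norm_comb (by linarith : ‖z‖ < δ) hz'n hs.1 hs.2
  rw [← ht] at hn
  have hlt := hδ t hn
  have g1 := T_comb v z z' s
  have g2 := T_comb (Complex.I * v) z z' s
  rw [← ht] at g1 g2
  have g1' : T v (b t) = T v z := by rw [g1, e1]; ring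
  have ht0 : 0 < t := by
    by_contra hcon
    push Not at hcon
    rw [S.lb.left t hcon, T_real] at g1'
    have := mul_nonneg hv0 (neg_nonneg.2 hcon)
    linarith
  refine ⟨t, ⟨ht0, hlt.le⟩, g1', ?_⟩
  rw [g2, e2, ← hyd]
  have h1 := le_abs_self y
  have h2 : 0 < ‖v‖ * δ / 3 := by positivity
  have h3 := neg_abs_le y
  have h4 := mul_nonneg hs.1 (by linarith : 0 ≤ |y| + ‖v‖ * δ / 3)
  linarith

end Pool.Agent.J4H19.Loc
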