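import Mathlib
import Pool.Agent.J4H19.Loc

/-! The excluded corner for two vertices on the wild arc, when the other arc is coarsely monotone near
the end point. -/

set_option autoImplicit false

open Set Filter Topology

namespace Pool.Agent.J4H19.CornerQ

open Pool.Agent.J4H19.Arcs (T)
open Pool.Agent.J4H19.Side (Lin)
open Pool.Agent.J4H19.Ends
open Pool.Agent.J4H19.Loc

/-- The local condition at the end point `0`; `b` is the coarsely monotone arc. -/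
def EndQ (a b : ℝ → ℂ) (r : ℝ) : Prop :=
  ∃ v : ℂ, v ≠ 0 ∧ 0 ≤ v.re ∧ ∃ ε > (0:ℝ), (∀ s ∈ Ioc 0 ε, 0 ≤ T v (a s) ∧
    T (Complex.I * v) (a s) < 0) ∧
    (∀ s ∈ Ioc 0 ε, 0 ≤ T v (b s) ∧ 0 ≤ T (Complex.I * v) (b s)) ∧
    ∀ s ∈ Ioc 0 ε, ∀ t ∈ Ioc 0 ε, T (Complex.I * v) (b s) < T (Complex.I * v) (b t) →
      r * (T v (b s) - T v (b t)) ≤ T (Complex.I * v) (b s)

variable {a b : ℝ → ℂ} {F : ℂ → ℝ} {r : ℝ}

lemma abs_T_le (u z : ℂ) : |T u z| ≤ ‖u‖ * ‖z‖ := by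
  have : T u z = (u * (starRingEnd ℂ) z).re := by simp [T]
  rw [this]
  refine (Complex.abs_re_le_norm _).trans ?_
  rw [norm_mul, Complex.norm_conj]

lemma corner_mono_at (S : Sd b F) (hr : 0 < r) {v : ℂ} (hv : v ≠ 0) (hv0 : 0 ≤ v.re)
    {ε δ c : ℝ} (hδε : ∀ t, ‖b t‖ < δ → t < ε)
    (href : ∀ k > 0, ∃ R : ℂ, ‖R‖ < δ ∧ R.re < 0 ∧ 0 < R.im ∧ c ≤ T (Complex.I * v) R ∧
      T v R ≤ k ∧ (0 < T v R ∨ v.im ≤ 0)) (hc : 0 < c)
    (hb0 : ∀ t ∈ Ioc 0 ε, 0 ≤ T v (b t) ∧ 0 ≤ T (Complex.I * v) (b t))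
    (hN : ∀ s ∈ Ioc 0 ε, ∀ t ∈ Ioc 0 ε, T (Complex.I * v) (b s) < T (Complex.I * v) (b t) →
      r * (T v (b s) - T v (b t)) ≤ T (Complex.I * v) (b s))
    {R : ℂ} (hR : ‖R‖ < δ) (hFR : F R < 0) (hRX : 0 ≤ T v R) (hRY : T (Complex.I * v) R ≤ 0)
    {x y : ℂ} (hx₁ : 0 ≤ T v x) (hy₁ : T (Complex.I * v) x ≤ 0) (hx₂ : 0 ≤ T v y)
    (hrec : T (Complex.I * v) y < T (Complex.I * v) x) {ρ : ℝ} (hρ : ρ ≤ δ / 3)
    (hρc : ‖v‖ * ρ ≤ c)
    (n3 : ‖P3 r x y‖ < ρ) (n4 : ‖P4 r x y‖ < ρ) (hF3 : 0 ≤ F (P3 r x y))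
    (hF4 : F (P4 r x y) ≤ 0) : False := by
  have hρ0 : 0 < ρ := (norm_nonneg _).trans_lt n3
  have hδ0 : 0 < δ := by linarith
  obtain ⟨f1, f2, f3, f4⟩ := frame v x y r
  have hry : 0 < r * (T (Complex.I * v) x - T (Complex.I * v) y) := mul_pos hr (by linarith)
  have X3 : 0 < T v (P3 r x y) := by rw [f1]; linarith
  have X4 : 0 < T v (P4 r x y) := by rw [f3]; linarith
  obtain ⟨t₀, ht₀, k1, k2⟩ := exists_below S hδε hv hv0 (fun t ht => (hb0 t ht).2)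
    (z := P3 r x y) (R := R) (by linarith) hR hFR hRX hRY X3 hF3
  have hY3 : T (Complex.I * v) (P3 r x y) < c := by
    have h1 := (le_abs_self _).trans (abs_T_le (Complex.I * v) (P3 r x y))
    rw [norm_mul, Complex.norm_I, one_mul] at h1
    have := mul_lt_mul_of_pos_left n3 (norm_pos_iff.2 hv)
    linarith
  have := nwr_pos S hr hδε hv0 href hc (fun t ht => (hb0 t ht).2) hN (z := P4 r x y)
    (by linarith) X4 (t₀ := t₀) ht₀ (by
      have e : r * (T v (b t₀) - T v (P4 r x y)) = r * (T v y - T v x) := by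
        rw [k1, f1, f3]; ring
      rw [e]
      linarith) (by linarith) (by linarith)
  linarith

/-- **Excluded corner** at the end point `0`, and the sign along the first arc. -/
theorem cornerQ (C : Conf a b F) (hr : 0 < r) (E : EndQ a b r) :
    (∀ s ∈ Ioo (0:ℝ) 1, F (a s) < 0) ∧
    ∃ tp : ℝ, 0 < tp ∧ tp < 1 / 2 ∧ ∀ t, 0 ≤ t → t < tp →
      ¬ (0 ≤ F (P3 r (a t) (a tp)) ∧ F (P4 r (a t) (a tp)) ≤ 0) := by
  obtain ⟨v, hv, hv0, ε, hε, hα, hβ0, hN⟩ := E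
  have S := Sd.of_conf C
  have hneg := neg_a C hv hv0 hε hα hβ0
  refine ⟨hneg, ?_⟩
  obtain ⟨δ, hδ, hδε⟩ := exists_delta C hε
  have hvr : v.im ≤ 0 → 0 < v.re := by
    intro hi
    refine lt_of_le_of_ne hv0 fun h0 => ?_
    have hi' : v.im < 0 := lt_of_le_of_ne hi fun h => hv (Complex.ext h0.symm h)
    set s := min ε 1 with hs
    have hs0 : 0 < s := lt_min hε zero_lt_one
    have h1 := (hα s ⟨hs0, min_le_left _ _⟩).2
    rw [T_Iv, ← h0] at h1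
    have h2 := C.la.re0 s ⟨hs0.le, min_le_right _ _⟩
    have := mul_nonneg (neg_nonneg.2 hi'.le) h2
    linarith
  obtain ⟨c, hc, href⟩ := ref hv0 hvr hδ
  have hvn : 0 < ‖v‖ := norm_pos_iff.2 hv
  set ρ : ℝ := min (δ / 3) (c / ‖v‖) with hρ
  have hρ0 : 0 < ρ := lt_min (by positivity) (by positivity)
  have hρ1 : ρ ≤ δ / 3 := min_le_left _ _
  have hρ2 : ‖v‖ * ρ ≤ c := by
    have : ρ ≤ c / ‖v‖ := min_le_right _ _
    rw [le_div_iff₀ hvn] at this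
    linarith
  -- the radius
  set δ₁ : ℝ := ρ / (2 * (1 + 2 * r)) with hδ₁
  have hr2 : 0 < 2 * (1 + 2 * r) := by positivity
  have hδ₁0 : 0 < δ₁ := div_pos hρ0 hr2
  have hδ₁e : δ₁ * (2 * (1 + 2 * r)) = ρ := by rw [hδ₁]; field_simp
  obtain ⟨s₀, hs0, hs1, hs2⟩ := small_param C hδ₁0 (lt_min hε (by norm_num : (0:ℝ) < 1 / 2))
  have hs1e : s₀ ≤ ε := (hs1.trans_le (min_le_left _ _)).le
  have hs1h : s₀ < 1 / 2 := hs1.trans_le (min_le_right _ _)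
  obtain ⟨ga1, ga2⟩ := hα s₀ ⟨hs0, hs1e⟩
  -- the first time of a given depth
  have hTc : Continuous fun t => T (Complex.I * v) (a t) := by
    have := C.la.cont
    unfold T
    fun_prop
  have hKc : IsCompact {t | t ∈ Icc 0 s₀ ∧ T (Complex.I * v) (a t) ≤ T (Complex.I * v) (a s₀)} :=
    isCompact_Icc.inter_right (isClosed_le hTc continuous_const)
  obtain ⟨tp, ⟨⟨ht0, ht1⟩, ht2⟩, hmin⟩ := hKc.exists_isLeast ⟨s₀, ⟨hs0.le, le_rfl⟩, le_rfl⟩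
  have htp : 0 < tp := by
    refine lt_of_le_of_ne ht0 fun h => ?_
    rw [← h, C.la.left 0 le_rfl, Complex.ofReal_zero, T_zero] at ht2
    linarith
  refine ⟨tp, htp, ht1.trans_lt hs1h, ?_⟩
  rintro t h0 h1 ⟨hF3, hF4⟩
  have hrec : T (Complex.I * v) (a tp) < T (Complex.I * v) (a t) := by
    by_contra hc
    push Not at hc
    have := hmin ⟨⟨h0, h1.le.trans ht1⟩, hc.trans ht2⟩
    linarith
  have nx : ‖a t‖ < δ₁ := hs2 t h0 (h1.le.trans ht1)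
  have ny : ‖a tp‖ < δ₁ := hs2 tp ht0 ht1
  have nw : ‖r * Complex.I * (a tp - a t)‖ ≤ r * (2 * δ₁) := by
    rw [norm_mul, norm_mul, Complex.norm_I, mul_one, Complex.norm_real, Real.norm_of_nonneg hr.le]
    apply mul_le_mul_of_nonneg_left _ hr.le
    have := norm_sub_le (a tp) (a t)
    linarith
  have hr3 : 0 < r * δ₁ := mul_pos hr hδ₁0
  have n3 : ‖P3 r (a t) (a tp)‖ < ρ := by
    have := norm_add_le (a tp) (r * Complex.I * (a tp - a t))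
    unfold P3
    linarith
  have n4 : ‖P4 r (a t) (a tp)‖ < ρ := by
    have := norm_add_le (a t) (r * Complex.I * (a tp - a t))
    unfold P4
    linarith
  have na : ‖a s₀‖ < δ := by
    have := hs2 s₀ hs0.le le_rfl
    linarith
  have hx₁ : 0 ≤ T v (a t) ∧ T (Complex.I * v) (a t) ≤ 0 := by
    rcases h0.eq_or_lt with h | h
    · rw [← h, C.la.left 0 le_rfl, Complex.ofReal_zero, T_zero, T_zero]
      exact ⟨le_rfl, le_rfl⟩
    · have := hα t ⟨h, by linarith⟩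
      exact ⟨this.1, this.2.le⟩
  exact corner_mono_at S hr hv hv0 hδε href hc hβ0 hN na (hneg s₀ ⟨hs0, by linarith⟩) ga1
    ga2.le hx₁.1 hx₁.2 (hα tp ⟨htp, by linarith⟩).1 hrec hρ1 hρ2 n3 n4 hF3 hF4

end Pool.Agent.J4H19.CornerQ
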