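import Mathlib
import Pool.Agent.J4H19.CornerQ

/-! Rectangles with opposite vertices on the two arcs: signs near an end point where the upper arc is
simple, and on the tails. -/

set_option autoImplicit false

open Set Filter Topology

namespace Pool.Agent.J4H19.Diag

open Pool.Agent.J4H19.Arcs (T)
open Pool.Agent.J4H19.Side (Lin)
open Pool.Agent.J4H19.Ends
open Pool.Agent.J4H19.Loc
open Pool.Agent.J4H19.CornerQ
open scoped ComplexConjugate

/-- the side `P₂ - P₁`, for the opposite vertices `P₁ = x`, `P₃ = y` -/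
noncomputable def wd (r : ℝ) (x y : ℂ) : ℂ :=
  (((1 + r ^ 2)⁻¹ : ℝ) : ℂ) * ((1 - r * Complex.I) * (y - x))
noncomputable def Q2 (r : ℝ) (x y : ℂ) : ℂ := x + wd r x y
noncomputable def Q4 (r : ℝ) (x y : ℂ) : ℂ := x + r * Complex.I * wd r x y

lemma wd_mul (r : ℝ) (x y : ℂ) : wd r x y + r * Complex.I * wd r x y = y - x := by
  unfold wd
  have h : ((1 + r ^ 2 : ℝ) : ℂ) ≠ 0 := by
    have : (1 + r ^ 2 : ℝ) ≠ 0 := by positivity
    exact_mod_cast this
  have h2 : (((1 + r ^ 2)⁻¹ : ℝ) : ℂ) * ((1 + r ^ 2 : ℝ) : ℂ) = 1 := by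
    rw [← Complex.ofReal_mul, inv_mul_cancel₀ (by positivity), Complex.ofReal_one]
  have h3 : (1 + r * Complex.I) * (1 - r * Complex.I) = ((1 + r ^ 2 : ℝ) : ℂ) := by
    push_cast
    linear_combination (-(r:ℂ) ^ 2) * Complex.I_sq
  calc _ = (((1 + r ^ 2)⁻¹ : ℝ) : ℂ) * (((1 + r * Complex.I) * (1 - r * Complex.I)) * (y - x)) := by
        ring
    _ = ((((1 + r ^ 2)⁻¹ : ℝ) : ℂ) * ((1 + r ^ 2 : ℝ) : ℂ)) * (y - x) := by rw [h3]; ring
    _ = y - x := by rw [h2, one_mul]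

lemma Q2_add (r : ℝ) (x y : ℂ) : Q2 r x y + r * Complex.I * wd r x y = y := by
  have := wd_mul r x y
  unfold Q2
  linear_combination this

lemma Q4_add (r : ℝ) (x y : ℂ) : Q4 r x y + wd r x y = y := by
  have := wd_mul r x y
  unfold Q4
  linear_combination this

lemma frameD (v x y : ℂ) (r : ℝ) :
    T v (Q2 r x y) = T v x + (1 + r ^ 2)⁻¹ * ((T v y - T v x) +
      r * (T (Complex.I * v) y - T (Complex.I * v) x)) ∧
    T (Complex.I * v) (Q2 r x y) = T (Complex.I * v) x + (1 + r ^ 2)⁻¹ *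
      ((T (Complex.I * v) y - T (Complex.I * v) x) - r * (T v y - T v x)) ∧
    T v (Q4 r x y) = T v x + (1 + r ^ 2)⁻¹ * (r * (r * (T v y - T v x) -
      (T (Complex.I * v) y - T (Complex.I * v) x))) ∧
    T (Complex.I * v) (Q4 r x y) = T (Complex.I * v) x + (1 + r ^ 2)⁻¹ * (r * ((T v y - T v x) +
      r * (T (Complex.I * v) y - T (Complex.I * v) x))) := by
  have e1 : ∀ u : ℂ, T u (wd r x y) = (1 + r ^ 2)⁻¹ * T u ((1 - r * Complex.I) * (y - x)) := by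
    intro u; unfold wd; rw [T_smul]
  have e2 : ∀ u : ℂ, T u (r * Complex.I * wd r x y) = (1 + r ^ 2)⁻¹ *
      T u (r * Complex.I * ((1 - r * Complex.I) * (y - x))) := by
    intro u; unfold wd
    rw [← T_smul]
    congr 1; ring
  unfold Q2 Q4
  refine ⟨?_, ?_, ?_, ?_⟩
  · rw [T_add, e1]; congr 2; simp [T]; ring
  · rw [T_add, e1]; congr 2; simp [T]; ring
  · rw [T_add, e2]; congr 2; simp [T]; ring
  · rw [T_add, e2]; congr 2; simp [T]; ring

structure Cf (a b : ℝ → ℂ) (f g : ℂ → ℝ) : Prop where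
  Sa : Sd a f
  Sb : Sd b g
  dis : ∀ s s' : ℝ, a s = b s' → s = s' ∧ (s ≤ 0 ∨ 1 ≤ s)
  hp : ∀ s ∈ Icc (0:ℝ) 1, ∀ s' ∈ Icc (0:ℝ) 1, 0 ≤ T (a s) (b s')
  hq : ∀ s ∈ Icc (0:ℝ) 1, ∀ s' ∈ Icc (0:ℝ) 1, 0 ≤ T (a s - 1) (b s' - 1)

variable {a b : ℝ → ℂ} {f g : ℂ → ℝ} {r : ℝ}

lemma exists_delta' {b : ℝ → ℂ} (L : Lin b) (h0 : ∀ t, b t = 0 → t = 0) {ε : ℝ} (hε : 0 < ε) :
    ∃ δ > 0, ∀ t, ‖b t‖ < δ → t < ε := by
  have key : ∃ δ > 0, ∀ t ∈ Icc (min ε 1) 1, δ ≤ ‖b t‖ := by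
    obtain ⟨t₀, h1, h2⟩ := (isCompact_Icc (a := min ε 1) (b := 1)).exists_isMinOn
      ⟨1, min_le_right _ _, le_rfl⟩ (L.cont.norm.continuousOn)
    refine ⟨‖b t₀‖, ?_, fun t ht => h2 ht⟩
    rw [gt_iff_lt, norm_pos_iff]
    intro h3
    have := lt_min hε zero_lt_one
    have := h0 t₀ h3
    linarith [h1.1]
  obtain ⟨δ, hδ, h⟩ := key
  refine ⟨min δ 1, lt_min hδ zero_lt_one, ?_⟩
  intro t ht
  by_contra hc
  push Not at hc
  rcases le_total t 1 with h1 | h1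
  · have := h t ⟨(min_le_left _ _).trans hc, h1⟩
    have := min_le_left δ 1
    linarith
  · rw [L.right t h1, Complex.norm_real, Real.norm_eq_abs, abs_of_nonneg (by linarith)] at ht
    have := min_le_right δ 1
    linarith

/-- propagation of the positive sign -/
lemma prop_pos {F : ℂ → ℝ} (S : Sd b F) {ε δ : ℝ} (hδ : ∀ t, ‖b t‖ < δ → t < ε) {v z R : ℂ}
    (hv0 : 0 ≤ v.re) (hz : ‖z‖ < δ) (hR : ‖R‖ < δ) (hFR : 0 < F R) (hx : 0 < T v z)
    (hRX : 0 ≤ T v R)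
    (hb : ∀ s : ℝ, 0 ≤ s → s < 1 → ∀ t ∈ Ioc 0 ε, b t ≠ z + s * (R - z)) : 0 < F z := by
  have h8 := const_pos (Loc.seg_cont S z R) (x := 1) (y := 0) ?_ (by simpa using hFR)
  · simpa using h8
  · intro s hs h
    rw [uIcc_comm, uIcc_of_le zero_le_one] at hs
    rcases hs.2.eq_or_lt with h2 | h2
    · rw [h2] at h
      simp only [Complex.ofReal_one, one_mul, add_sub_cancel] at h
      exact hFR.ne' h
    obtain ⟨t, ht⟩ := (S.Fz _).1 h
    have hn := norm_comb hz hR hs.1 hs.2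
    rw [← ht] at hn
    have hlt := hδ t hn
    rcases le_or_gt t 0 with h0 | h0
    · have e1 := T_comb v z R s
      rw [← ht, S.lb.left t h0, T_real] at e1
      have i1 := mul_nonneg hv0 (neg_nonneg.2 h0)
      have := mul_pos (sub_pos.2 h2) hx
      have := mul_nonneg hs.1 hRX
      linarith
    · exact hb s hs.1 h2 t ⟨h0, hlt.le⟩ ht

/-- up and to the right of a point beyond which the lower arc stays lower -/
lemma ne_pos (S : Sd a f) {ε δ : ℝ} (hδ0 : 0 < δ) (hδ : ∀ t, ‖a t‖ < δ → t < ε) {v z A : ℂ}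
    (hv : v ≠ 0) (hv0 : 0 ≤ v.re) (hvr : v.im ≤ 0 → 0 < v.re)
    (hα : ∀ t ∈ Ioc 0 ε, T (Complex.I * v) (a t) < 0) (hA : 0 ≤ T v A)
    (hfree : ∀ t ∈ Ioc 0 ε, T v A < T v (a t) → T (Complex.I * v) (a t) < T (Complex.I * v) A)
    (hz : ‖z‖ < δ / 2) (hx : T v A < T v z) (hy : T (Complex.I * v) A ≤ T (Complex.I * v) z) :
    0 < f z := by
  have hx0 : 0 < T v z := hA.trans_lt hx
  rcases le_or_gt 0 (T (Complex.I * v) z) with h | h
  · exact axis_pos S hδ0 hδ hv0 hvr hα (by linarith) hx0 h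
  have hvn : 0 < ‖v‖ := norm_pos_iff.2 hv
  have hsq : v.re ^ 2 + v.im ^ 2 = ‖v‖ ^ 2 := by
    rw [← Complex.normSq_eq_norm_sq, Complex.normSq_apply]; ring
  set y := T (Complex.I * v) z with hyd
  have hyn : -y ≤ ‖v‖ * ‖z‖ := by
    have h1 := (neg_le_abs _).trans (abs_T_le (Complex.I * v) z)
    rwa [norm_mul, Complex.norm_I, one_mul] at h1
  set κ : ℝ := -y / ‖v‖ ^ 2 with hκ
  have hκ0 : 0 < κ := div_pos (by linarith) (by positivity)
  set z' : ℂ := z + (κ : ℂ) * (Complex.I * v) with hz'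
  have e1 : T v z' = T v z := by
    rw [hz', T_add, T_smul, T_vI]; ring
  have e2 : T (Complex.I * v) z' = 0 := by
    rw [hz', T_add, T_smul, T_II, hsq, hκ, ← hyd]
    field_simp
    ring
  have hz'n : ‖z'‖ < δ := by
    rw [hz']
    refine (norm_add_le _ _).trans_lt ?_
    rw [norm_mul, norm_mul, Complex.norm_I, one_mul, Complex.norm_real, Real.norm_of_nonneg hκ0.le]
    have h1 : κ * ‖v‖ = -y / ‖v‖ := by rw [hκ]; field_simp
    rw [h1]
    have h2 : -y / ‖v‖ ≤ ‖z‖ := by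
      rw [div_le_iff₀ hvn]; linarith
    linarith
  have hF' : 0 < f z' := axis_pos S hδ0 hδ hv0 hvr hα hz'n (by rw [e1]; exact hx0) e2.ge
  refine prop_pos S hδ hv0 (by linarith) hz'n hF' hx0 (by rw [e1]; exact hx0.le) ?_
  intro s hs0 hs1 t ht he
  have g1 := T_comb v z z' s
  have g2 := T_comb (Complex.I * v) z z' s
  rw [← he, e1] at g1
  rw [← he, e2, ← hyd] at g2
  have h5 := hfree t ht (by rw [g1]; linarith)
  have h6 := mul_nonneg hs0 (neg_nonneg.2 h.le)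
  linarith

lemma wd_norm (hr : 0 < r) (x y : ℂ) :
    ‖wd r x y‖ ≤ ‖y - x‖ ∧ ‖r * Complex.I * wd r x y‖ ≤ ‖y - x‖ := by
  have hk0 : 0 < (1 + r ^ 2)⁻¹ := by positivity
  have hk1 : (1 + r ^ 2)⁻¹ * (1 + r ^ 2) = 1 := inv_mul_cancel₀ (by positivity)
  have h1' : ‖(1 - r * Complex.I : ℂ)‖ ^ 2 = 1 + r ^ 2 := by
    rw [← Complex.normSq_eq_norm_sq, Complex.normSq_apply]; simp; ring
  have h2 : ‖wd r x y‖ = (1 + r ^ 2)⁻¹ * (‖(1 - r * Complex.I : ℂ)‖ * ‖y - x‖) := by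
    unfold wd
    rw [norm_mul, norm_mul, Complex.norm_real, Real.norm_of_nonneg hk0.le]
  have h3 : ‖r * Complex.I * wd r x y‖ = r * ‖wd r x y‖ := by
    rw [norm_mul, norm_mul, Complex.norm_I, mul_one, Complex.norm_real, Real.norm_of_nonneg hr.le]
  generalize ‖(1 - r * Complex.I : ℂ)‖ = N at h1' h2
  generalize hkd : (1 + r ^ 2)⁻¹ = k at *
  rcases lt_or_ge N 0 with hN0 | hN0
  · have h4 : ‖wd r x y‖ ≤ 0 := by
      rw [h2]
      exact mul_nonpos_of_nonneg_of_nonpos hk0.le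
        (mul_nonpos_of_nonpos_of_nonneg hN0.le (norm_nonneg _))
    have h5 := norm_nonneg (y - x)
    refine ⟨h4.trans h5, ?_⟩
    rw [h3]
    exact (mul_nonpos_of_nonneg_of_nonpos hr.le h4).trans h5
  have hN1 : 1 ≤ N := by nlinarith
  have hNr : r ≤ N := by nlinarith
  have hkN : k * N ≤ 1 := by
    have h4 : k * N ≤ k * (N * N) := mul_le_mul_of_nonneg_left (by nlinarith) hk0.le
    have h5 : k * (N * N) = 1 := by rw [← hk1, ← h1']; ring
    linarith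
  have hkN2 : k * (r * N) ≤ 1 := by
    have h4 : k * (r * N) ≤ k * (N * N) :=
      mul_le_mul_of_nonneg_left (mul_le_mul_of_nonneg_right hNr hN0) hk0.le
    have h5 : k * (N * N) = 1 := by rw [← hk1, ← h1']; ring
    linarith
  have hn := norm_nonneg (y - x)
  constructor
  · rw [h2]
    have := mul_le_mul_of_nonneg_right hkN hn
    linarith
  · rw [h3, h2]
    have := mul_le_mul_of_nonneg_right hkN2 hn
    linarith

/-- **Trichotomy.** -/
lemma tricho (Sa : Sd a f) (Sb : Sd b g) (hr : 0 < r) {ε δ c : ℝ} (hδ0 : 0 < δ)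
    (hδa : ∀ t, ‖a t‖ < δ → t < ε) (hδb : ∀ t, ‖b t‖ < δ → t < ε) {v : ℂ} (hv : v ≠ 0)
    (hv0 : 0 ≤ v.re) (hvr : v.im ≤ 0 → 0 < v.re)
    (href : ∀ k > 0, ∃ R : ℂ, ‖R‖ < δ ∧ R.re < 0 ∧ 0 < R.im ∧ c ≤ T (Complex.I * v) R ∧
      T v R ≤ k ∧ (0 < T v R ∨ v.im ≤ 0)) (hc : 0 < c)
    (hα : ∀ t ∈ Ioc 0 ε, 0 ≤ T v (a t) ∧ T (Complex.I * v) (a t) < 0)
    (hβ : ∀ s ∈ Ioc 0 ε, 0 ≤ T v (b s) ∧ 0 ≤ T (Complex.I * v) (b s))
    (hN : ∀ s ∈ Ioc 0 ε, ∀ t ∈ Ioc 0 ε, T (Complex.I * v) (b s) < T (Complex.I * v) (b t) →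
      r * (T v (b s) - T v (b t)) ≤ T (Complex.I * v) (b s))
    {ρ : ℝ} (hρ : ρ ≤ δ / 3) (hρc : ‖v‖ * ρ ≤ c) {A : ℂ} (hA1 : 0 ≤ T v A)
    (hA2 : T (Complex.I * v) A ≤ 0)
    (hfree : ∀ t ∈ Ioc 0 ε, T v A < T v (a t) → T (Complex.I * v) (a t) < T (Complex.I * v) A)
    (hAn : ‖A‖ < ρ / 6) {t₀ : ℝ} (ht₀ : 0 ≤ t₀) (ht₀ε : t₀ ≤ ε) (hBn : ‖b t₀‖ < ρ / 6)
    (hne : A ≠ b t₀) : 0 < f (Q2 r A (b t₀)) ∨ 0 < g (Q4 r A (b t₀)) := by
  have hρ0 : 0 < ρ := by have := norm_nonneg A; linarith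
  obtain ⟨f1, f2, f3, f4⟩ := frameD v A (b t₀) r
  have hk0 : 0 < (1 + r ^ 2)⁻¹ := by positivity
  have hk1 : (1 + r ^ 2)⁻¹ * (1 + r ^ 2) = 1 := inv_mul_cancel₀ (by positivity)
  generalize (1 + r ^ 2)⁻¹ = k at hk0 hk1 f1 f2 f3 f4
  have hB : 0 ≤ T v (b t₀) ∧ 0 ≤ T (Complex.I * v) (b t₀) := by
    rcases ht₀.eq_or_lt with h | h
    · rw [← h, Sb.lb.left 0 le_rfl, Complex.ofReal_zero, T_zero, T_zero]
      exact ⟨le_rfl, le_rfl⟩
    · exact hβ t₀ ⟨h, ht₀ε⟩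
  obtain ⟨hB1, hB2⟩ := hB
  obtain ⟨ξ, hξ⟩ : ∃ ξ, ξ = T v (b t₀) - T v A := ⟨_, rfl⟩
  obtain ⟨η, hη⟩ : ∃ η, η = T (Complex.I * v) (b t₀) - T (Complex.I * v) A := ⟨_, rfl⟩
  rw [← hξ, ← hη] at f1 f2 f3 f4
  have hη0 : 0 ≤ η := by linarith
  obtain ⟨hw1, hw2⟩ := wd_norm hr A (b t₀)
  have hd : ‖b t₀ - A‖ < ρ / 3 := by
    have := norm_sub_le (b t₀) A
    linarith
  have n2 : ‖Q2 r A (b t₀)‖ < ρ / 2 := by
    have := norm_add_le A (wd r A (b t₀))
    unfold Q2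
    linarith
  have n4 : ‖Q4 r A (b t₀)‖ < ρ / 2 := by
    have := norm_add_le A (r * Complex.I * wd r A (b t₀))
    unfold Q4
    linarith
  rcases lt_or_ge η (r * ξ) with h1 | h1
  · -- the fourth vertex is on the left of the upper arc
    right
    have hξ0 : 0 < ξ := by
      by_contra hcon
      push Not at hcon
      have := mul_nonneg hr.le (neg_nonneg.2 hcon)
      linarith
    have hXB : 0 < T v (b t₀) := by linarith
    have ht₀' : 0 < t₀ := by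
      refine lt_of_le_of_ne ht₀ fun h => ?_
      rw [← h, Sb.lb.left 0 le_rfl, Complex.ofReal_zero, T_zero] at hXB
      exact lt_irrefl _ hXB
    have hX4 : 0 < T v (Q4 r A (b t₀)) := by
      rw [f3]
      have : 0 < k * (r * (r * ξ - η)) := mul_pos hk0 (mul_pos hr (by linarith))
      linarith
    have e1 : T v (Q4 r A (b t₀)) = T v (b t₀) - k * (ξ + r * η) := by
      rw [f3]
      linear_combination ξ * hk1 + hξ
    have e2 : T (Complex.I * v) (Q4 r A (b t₀)) =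
        T (Complex.I * v) (b t₀) + k * (r * ξ - η) := by
      rw [f4]
      linear_combination η * hk1 + hη
    have hs1 : 0 < k * (ξ + r * η) := mul_pos hk0 (by have := mul_nonneg hr.le hη0; linarith)
    have hs2 : 0 < k * (r * ξ - η) := mul_pos hk0 (by linarith)
    have h7 : η < r * (k * (ξ + r * η)) := by
      have h8 : r * (k * (ξ + r * η)) = k * (r * ξ + r ^ 2 * η) := by ring
      have h9 : k * (η + r ^ 2 * η) < k * (r * ξ + r ^ 2 * η) :=
        mul_lt_mul_of_pos_left (by linarith) hk0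
      have h10 : k * (η + r ^ 2 * η) = η := by linear_combination η * hk1
      linarith
    refine nwr_pos Sb hr hδb hv0 href hc (fun t ht => (hβ t ht).2) hN (by linarith) hX4
      (t₀ := t₀) ⟨ht₀', ht₀ε⟩ ?_ (by linarith) ?_
    · have e3 : r * (T v (b t₀) - T v (Q4 r A (b t₀))) = r * (k * (ξ + r * η)) := by
        rw [e1]; ring
      rw [e3]
      linarith
    · have h6 := (le_abs_self _).trans (abs_T_le (Complex.I * v) (b t₀))
      rw [norm_mul, Complex.norm_I, one_mul] at h6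
      have := mul_lt_mul_of_pos_left hBn (norm_pos_iff.2 hv)
      have := mul_pos (norm_pos_iff.2 hv) hρ0
      linarith
  · -- the second vertex is above the lower arc
    left
    have hY2 : T (Complex.I * v) A ≤ T (Complex.I * v) (Q2 r A (b t₀)) := by
      rw [f2]
      have := mul_nonneg hk0.le (sub_nonneg.2 h1)
      linarith
    rcases lt_or_ge 0 (ξ + r * η) with h2 | h2
    · refine ne_pos Sa hδ0 hδa hv hv0 hvr (fun t ht => (hα t ht).2) hA1 hfree (by linarith) ?_ hY2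
      rw [f1]
      have := mul_pos hk0 h2
      linarith
    · have hYB : T (Complex.I * v) (b t₀) ≤ T (Complex.I * v) (Q2 r A (b t₀)) := by
        rw [f2]
        have h6 : k * (r * (ξ + r * η)) ≤ 0 :=
          mul_nonpos_of_nonneg_of_nonpos hk0.le (mul_nonpos_of_nonneg_of_nonpos hr.le h2)
        have h7 : k * (η - r * ξ) = η - k * (r * (ξ + r * η)) := by linear_combination η * hk1
        linarith
      have hX2 : T v (Q2 r A (b t₀)) = k * (r ^ 2 * T v A + T v (b t₀) + r * η) := by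
        rw [f1]
        linear_combination (-T v A) * hk1 + k * hξ
      refine axis_pos Sa hδ0 hδa hv0 hvr (fun t ht => (hα t ht).2) (by linarith) ?_
        (hB2.trans hYB)
      rw [hX2]
      apply mul_pos hk0
      have i1 : 0 ≤ r ^ 2 * T v A := by positivity
      have i2 : 0 ≤ r * η := mul_nonneg hr.le hη0
      by_contra hcon
      push Not at hcon
      have j1 : r ^ 2 * T v A = 0 := by linarith
      have j2 : T v (b t₀) = 0 := by linarith
      have j3 : r * η = 0 := by linarith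
      have j4 : T v A = 0 := (mul_eq_zero.1 j1).resolve_left (by positivity)
      have j5 : η = 0 := (mul_eq_zero.1 j3).resolve_left hr.ne'
      have j6 : T (Complex.I * v) (b t₀) = 0 := by linarith
      have j7 : T (Complex.I * v) A = 0 := by linarith
      exact hne ((eq_zero_of_frame hv j4 j7).trans (eq_zero_of_frame hv j2 j6).symm)

end Pool.Agent.J4H19.Diag
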