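import Mathlib
import Pool.Agent.H63Fed.Miranda

/-! Two functions on a square with two opposite corners cut off. -/

set_option autoImplicit false

open Set

namespace Pool.Agent.J4H19.Quad

lemma miranda4 {E V : ℝ → ℝ → ℝ} (Ec : Continuous fun x : ℝ × ℝ => E x.1 x.2)
    (Vc : Continuous fun x : ℝ × ℝ => V x.1 x.2)
    (hU : ∀ m, 0 ≤ m → m ≤ 1 → ¬ (0 ≤ E m 0 ∧ V m 0 ≤ 0))
    (hD : ∀ m, 0 ≤ m → m ≤ 1 → ¬ (E m 1 ≤ 0 ∧ 0 ≤ V m 1))
    (hP : ∀ l, 0 ≤ l → l ≤ 1 → 0 < E 0 l ∨ 0 < V 0 l)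
    (hQ : ∀ l, 0 ≤ l → l ≤ 1 → E 1 l < 0 ∨ V 1 l < 0) :
    ∃ m l, 0 ≤ m ∧ m ≤ 1 ∧ 0 ≤ l ∧ l ≤ 1 ∧ E m l = 0 ∧ V m l = 0 := by
  set F : (Fin 2 → ℝ) → (Fin 2 → ℝ) := fun x =>
    ![-((E (x 0) (x 1) + V (x 0) (x 1)) + |V (x 0) (x 1) - E (x 0) (x 1)| * (1 - 2 * x 0)),
      -((V (x 0) (x 1) - E (x 0) (x 1)) + |E (x 0) (x 1) + V (x 0) (x 1)| * (1 - 2 * x 1))] with hF
  have Ec' : Continuous fun x : Fin 2 → ℝ => E (x 0) (x 1) :=
    Ec.comp (f := fun x : Fin 2 → ℝ => (x 0, x 1)) (by fun_prop)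
  have Vc' : Continuous fun x : Fin 2 → ℝ => V (x 0) (x 1) :=
    Vc.comp (f := fun x : Fin 2 → ℝ => (x 0, x 1)) (by fun_prop)
  have Fc : Continuous F := by
    refine continuous_pi fun i => ?_
    fin_cases i
    · simp only [hF]
      simp
      fun_prop
    · simp only [hF]
      simp
      fun_prop
  have kP : ∀ e v : ℝ, (0 < e ∨ 0 < v) → 0 < (e + v) + |v - e| := by
    intro e v h
    have := le_abs_self (v - e)
    have := neg_le_abs (v - e)
    rcases h with h | h <;> linarith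
  have kQ : ∀ e v : ℝ, (e < 0 ∨ v < 0) → (e + v) - |v - e| < 0 := by
    intro e v h
    have := le_abs_self (v - e)
    have := neg_le_abs (v - e)
    rcases h with h | h <;> linarith
  have kU : ∀ e v : ℝ, ¬ (0 ≤ e ∧ v ≤ 0) → 0 < (v - e) + |e + v| := by
    intro e v h
    rw [not_and_or] at h
    push Not at h
    have := le_abs_self (e + v)
    have := neg_le_abs (e + v)
    rcases h with h | h <;> linarith
  have kD : ∀ e v : ℝ, ¬ (e ≤ 0 ∧ 0 ≤ v) → (v - e) - |e + v| < 0 := by
    intro e v h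
    rw [not_and_or] at h
    push Not at h
    have := le_abs_self (e + v)
    have := neg_le_abs (e + v)
    rcases h with h | h <;> linarith
  obtain ⟨x, hx, hx0⟩ := H63Fed.Miranda.poincare_miranda 2 F Fc.continuousOn
    (by
      intro x hx i hi
      fin_cases i
      · simp only [Fin.zero_eta] at hi ⊢
        have h3 := kP _ _ (hP (x 1) (hx 1).1 (hx 1).2)
        simp only [hF, hi]
        simp
        linarith
      · simp only [Fin.mk_one] at hi ⊢
        have h3 := kU _ _ (hU (x 0) (hx 0).1 (hx 0).2)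
        simp only [hF, hi]
        simp
        linarith)
    (by
      intro x hx i hi
      fin_cases i
      · simp only [Fin.zero_eta] at hi ⊢
        have h3 := kQ _ _ (hQ (x 1) (hx 1).1 (hx 1).2)
        simp only [hF, hi]
        simp
        linarith
      · simp only [Fin.mk_one] at hi ⊢
        have h3 := kD _ _ (hD (x 0) (hx 0).1 (hx 0).2)
        simp only [hF, hi]
        simp
        linarith)
  have h5 : (E (x 0) (x 1) + V (x 0) (x 1)) + |V (x 0) (x 1) - E (x 0) (x 1)| * (1 - 2 * x 0) = 0 := by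
    have := congrFun hx0 0
    simp only [hF] at this
    simp at this
    linarith
  have h6 : (V (x 0) (x 1) - E (x 0) (x 1)) + |E (x 0) (x 1) + V (x 0) (x 1)| * (1 - 2 * x 1) = 0 := by
    have := congrFun hx0 1
    simp only [hF] at this
    simp at this
    linarith
  obtain ⟨m0, m1⟩ := hx 0
  obtain ⟨l0, l1⟩ := hx 1
  have hm0 : 0 < x 0 := by
    refine lt_of_le_of_ne m0 fun h => ?_
    have h3 := kP _ _ (hP (x 1) l0 l1)
    rw [← h] at h5
    linarith
  have hm1 : x 0 < 1 := by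
    refine lt_of_le_of_ne m1 fun h => ?_
    have h3 := kQ _ _ (hQ (x 1) l0 l1)
    rw [h] at h5
    linarith
  refine ⟨x 0, x 1, m0, m1, l0, l1, ?_⟩
  generalize E (x 0) (x 1) = e at h5 h6 ⊢
  generalize V (x 0) (x 1) = v at h5 h6 ⊢
  -- `|d| ≤ |s|`
  have j1 : |v - e| ≤ |e + v| := by
    have h7 : v - e = -(|e + v| * (1 - 2 * x 1)) := by linarith
    rw [h7, abs_neg, abs_mul, abs_abs]
    have h8 : |1 - 2 * x 1| ≤ 1 := abs_le.2 ⟨by linarith, by linarith⟩
    have := mul_le_mul_of_nonneg_left h8 (abs_nonneg (e + v))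
    linarith
  have j2 : |e + v| = |v - e| * |1 - 2 * x 0| := by
    have h7 : e + v = -(|v - e| * (1 - 2 * x 0)) := by linarith
    rw [h7, abs_neg, abs_mul, abs_abs]
  have j3 : |1 - 2 * x 0| < 1 := abs_lt.2 ⟨by linarith, by linarith⟩
  have j4 : |v - e| = 0 := by
    by_contra hne
    have hpos := lt_of_le_of_ne (abs_nonneg (v - e)) (Ne.symm hne)
    have := mul_lt_mul_of_pos_left j3 hpos
    linarith
  have j5 : |e + v| = 0 := by rw [j2, j4, zero_mul]
  rw [abs_eq_zero] at j4 j5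
  constructor <;> linarith

/-- Two functions on `[-ε, 1 + ε]²` without the corners `[-ε, A) × [-ε, B)` and
`(x', 1 + ε] × (y', 1 + ε]`. -/
theorem quad {e v : ℝ × ℝ → ℝ} (he : Continuous e) (hv : Continuous v) {ε A B x' y' : ℝ}
    (hε : 0 < ε) (hε2 : ε < 1 / 2) (hA : ε < A) (hA2 : A < 1 / 2) (hB : ε < B) (hB2 : B < 1 / 2)
    (hx : 1 / 2 < x') (hx2 : x' < 1 - ε) (hy : 1 / 2 < y') (hy2 : y' < 1 - ε)
    (hU1 : ∀ t, B ≤ t → t ≤ 1 + ε → ¬ (0 ≤ e (-ε, t) ∧ v (-ε, t) ≤ 0))
    (hU2 : ∀ s, -ε ≤ s → s ≤ x' → ¬ (0 ≤ e (s, 1 + ε) ∧ v (s, 1 + ε) ≤ 0))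
    (hD1 : ∀ s, A ≤ s → s ≤ 1 + ε → ¬ (e (s, -ε) ≤ 0 ∧ 0 ≤ v (s, -ε)))
    (hD2 : ∀ t, -ε ≤ t → t ≤ y' → ¬ (e (1 + ε, t) ≤ 0 ∧ 0 ≤ v (1 + ε, t)))
    (hp1 : ∀ s, -ε ≤ s → s ≤ A → 0 < e (s, B) ∨ 0 < v (s, B))
    (hp2 : ∀ t, -ε ≤ t → t ≤ B → 0 < e (A, t) ∨ 0 < v (A, t))
    (hq1 : ∀ t, y' ≤ t → t ≤ 1 + ε → e (x', t) < 0 ∨ v (x', t) < 0)
    (hq2 : ∀ s, x' ≤ s → s ≤ 1 + ε → e (s, y') < 0 ∨ v (s, y') < 0) :
    ∃ s t, e (s, t) = 0 ∧ v (s, t) = 0 ∧ ¬ (s ≤ 0 ∧ t ≤ 0) ∧ ¬ (1 ≤ s ∧ 1 ≤ t) := by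
  set f : ℝ → ℝ := fun m => min 1 (2 * m) with hf
  set g : ℝ → ℝ := fun m => max 0 (2 * m - 1) with hg
  have fc : Continuous f := by rw [hf]; fun_prop
  have gc : Continuous g := by rw [hg]; fun_prop
  set U1 : ℝ → ℝ := fun m => -ε + g m * (x' + ε) with hU1d
  set U2 : ℝ → ℝ := fun m => B + f m * (1 + ε - B) with hU2d
  set D1 : ℝ → ℝ := fun m => A + f m * (1 + ε - A) with hD1d
  set D2 : ℝ → ℝ := fun m => -ε + g m * (y' + ε) with hD2d
  set h1 : ℝ → ℝ → ℝ := fun m l => f l * (1 - m) + g l * m with hh1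
  set h2 : ℝ → ℝ → ℝ := fun m l => f l * m + g l * (1 - m) with hh2
  set P : ℝ → ℝ → ℝ × ℝ := fun m l =>
    (U1 m + (D1 m - U1 m) * h1 m l, U2 m + (D2 m - U2 m) * h2 m l) with hP
  have Pc : Continuous fun x : ℝ × ℝ => P x.1 x.2 := by
    rw [hP, hU1d, hU2d, hD1d, hD2d, hh1, hh2]; fun_prop
  have f0 : f 0 = 0 := by simp [hf]
  have g0 : g 0 = 0 := by simp [hg]
  have f1 : f 1 = 1 := by norm_num [hf]
  have g1 : g 1 = 1 := by norm_num [hg]
  have fr : ∀ m, 0 ≤ m → 0 ≤ f m ∧ f m ≤ 1 := fun m hm =>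
    ⟨le_min zero_le_one (by linarith), min_le_left _ _⟩
  have gr : ∀ m, m ≤ 1 → 0 ≤ g m ∧ g m ≤ 1 := fun m hm =>
    ⟨le_max_left _ _, max_le zero_le_one (by linarith)⟩
  have fg : ∀ m, (m ≤ 1 / 2 ∧ f m = 2 * m ∧ g m = 0) ∨ (1 / 2 ≤ m ∧ f m = 1 ∧ g m = 2 * m - 1) := by
    intro m
    rcases le_total m (1 / 2) with h | h
    · left; exact ⟨h, min_eq_right (by linarith), max_eq_left (by linarith)⟩
    · right; exact ⟨h, min_eq_left (by linarith), max_eq_right (by linarith)⟩
  obtain ⟨m, l, m0, m1, l0, l1, hE, hV⟩ := miranda4 (E := fun m l => e (P m l))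
    (V := fun m l => v (P m l)) (he.comp Pc) (hv.comp Pc)
    (by
      intro m m0 m1
      have e1 : P m 0 = (U1 m, U2 m) := by simp [hP, hh1, hh2, f0, g0]
      simp only [e1]
      rcases fg m with ⟨ha, hb, hc⟩ | ⟨ha, hb, hc⟩
      · have e2 : U1 m = -ε := by simp only [hU1d, hc]; ring
        have e3 : U2 m = B + 2 * m * (1 + ε - B) := by simp only [hU2d, hb]
        rw [e2]
        apply hU1
        · rw [e3]
          have := mul_nonneg m0 (by linarith : 0 ≤ 1 + ε - B)
          linarith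
        · rw [e3]
          have := mul_nonneg (sub_nonneg.2 ha) (by linarith : 0 ≤ 1 + ε - B)
          linarith
      · have e2 : U2 m = 1 + ε := by simp only [hU2d, hb]; ring
        have e3 : U1 m = -ε + (2 * m - 1) * (x' + ε) := by simp only [hU1d, hc]
        rw [e2]
        apply hU2
        · rw [e3]
          have := mul_nonneg (sub_nonneg.2 ha) (by linarith : 0 ≤ x' + ε)
          linarith
        · rw [e3]
          have := mul_nonneg (sub_nonneg.2 m1) (by linarith : 0 ≤ x' + ε)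
          linarith)
    (by
      intro m m0 m1
      have e1 : P m 1 = (D1 m, D2 m) := by
        simp only [hP, hh1, hh2, f1, g1]
        ext
        · simp only; ring
        · simp only; ring
      simp only [e1]
      rcases fg m with ⟨ha, hb, hc⟩ | ⟨ha, hb, hc⟩
      · have e2 : D2 m = -ε := by simp only [hD2d, hc]; ring
        have e3 : D1 m = A + 2 * m * (1 + ε - A) := by simp only [hD1d, hb]
        rw [e2]
        apply hD1
        · rw [e3]
          have := mul_nonneg m0 (by linarith : 0 ≤ 1 + ε - A)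
          linarith
        · rw [e3]
          have := mul_nonneg (sub_nonneg.2 ha) (by linarith : 0 ≤ 1 + ε - A)
          linarith
      · have e2 : D1 m = 1 + ε := by simp only [hD1d, hb]; ring
        have e3 : D2 m = -ε + (2 * m - 1) * (y' + ε) := by simp only [hD2d, hc]
        rw [e2]
        apply hD2
        · rw [e3]
          have := mul_nonneg (sub_nonneg.2 ha) (by linarith : 0 ≤ y' + ε)
          linarith
        · rw [e3]
          have := mul_nonneg (sub_nonneg.2 m1) (by linarith : 0 ≤ y' + ε)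
          linarith)
    (by
      intro l l0 l1
      have e1 : P 0 l = (-ε + (A + ε) * f l, B - (B + ε) * g l) := by
        simp only [hP, hh1, hh2, hU1d, hU2d, hD1d, hD2d, f0, g0]
        ext
        · simp only; ring
        · simp only; ring
      simp only [e1]
      rcases fg l with ⟨ha, hb, hc⟩ | ⟨ha, hb, hc⟩
      · rw [hb, hc, mul_zero, sub_zero]
        apply hp1
        · have := mul_nonneg l0 (by linarith : 0 ≤ A + ε)
          linarith
        · have := mul_nonneg (sub_nonneg.2 ha) (by linarith : 0 ≤ A + ε)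
          linarith
      · rw [hb, mul_one, hc, show -ε + (A + ε) = A by ring]
        apply hp2
        · have := mul_nonneg (sub_nonneg.2 l1) (by linarith : 0 ≤ B + ε)
          linarith
        · have := mul_nonneg (sub_nonneg.2 ha) (by linarith : 0 ≤ B + ε)
          linarith)
    (by
      intro l l0 l1
      have e1 : P 1 l = (x' + (1 + ε - x') * g l, 1 + ε - (1 + ε - y') * f l) := by
        simp only [hP, hh1, hh2, hU1d, hU2d, hD1d, hD2d, f1, g1]
        ext
        · simp only; ring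
        · simp only; ring
      simp only [e1]
      rcases fg l with ⟨ha, hb, hc⟩ | ⟨ha, hb, hc⟩
      · rw [hb, hc, mul_zero, add_zero]
        apply hq1
        · have := mul_nonneg (sub_nonneg.2 ha) (by linarith : 0 ≤ 1 + ε - y')
          linarith
        · have := mul_nonneg l0 (by linarith : 0 ≤ 1 + ε - y')
          linarith
      · rw [hb, mul_one, hc, show 1 + ε - (1 + ε - y') = y' by ring]
        apply hq2
        · have := mul_nonneg (sub_nonneg.2 ha) (by linarith : 0 ≤ 1 + ε - x')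
          linarith
        · have := mul_nonneg (sub_nonneg.2 l1) (by linarith : 0 ≤ 1 + ε - x')
          linarith)
  refine ⟨(P m l).1, (P m l).2, hE, hV, ?_, ?_⟩
  · rintro ⟨k1, k2⟩
    simp only [hP] at k1 k2
    rcases fg m with ⟨ma, mb, mc⟩ | ⟨ma, mb, mc⟩
    · have e1 : U1 m = -ε := by simp only [hU1d, mc]; ring
      have e2 : B ≤ U2 m := by
        simp only [hU2d, mb]
        have := mul_nonneg m0 (by linarith : 0 ≤ 1 + ε - B)
        linarith
      have e3 : A ≤ D1 m := by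
        simp only [hD1d, mb]
        have := mul_nonneg m0 (by linarith : 0 ≤ 1 + ε - A)
        linarith
      have e4 : D2 m = -ε := by simp only [hD2d, mc]; ring
      rw [e1] at k1
      rw [e4] at k2
      rcases fg l with ⟨la, lb, lc⟩ | ⟨la, lb, lc⟩
      · have i1 : h2 m l ≤ 1 / 2 := by
          simp only [hh2, lb, lc]
          have := mul_nonneg l0 (sub_nonneg.2 ma)
          have := mul_nonneg m0 (sub_nonneg.2 la)
          linarith
        have := mul_nonneg (sub_nonneg.2 i1) (by linarith : 0 ≤ U2 m + ε)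
        linarith
      · have i1 : 1 / 2 ≤ h1 m l := by
          simp only [hh1, lb, lc]
          have := mul_nonneg (sub_nonneg.2 la) m0
          linarith
        have := mul_nonneg (sub_nonneg.2 i1) (by linarith : 0 ≤ D1 m + ε)
        linarith
    · have e1 : -ε + (m - 1 / 2) ≤ U1 m ∧ U1 m ≤ 1 := by
        simp only [hU1d, mc]
        constructor
        · have := mul_nonneg (by linarith : (0:ℝ) ≤ 2 * m - 1) (by linarith : 0 ≤ x' + ε - 1 / 2)
          linarith
        · have := mul_nonneg (by linarith : (0:ℝ) ≤ 1 - (2 * m - 1)) (by linarith : 0 ≤ x' + ε)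
          linarith
      have e2 : U2 m = 1 + ε := by simp only [hU2d, mb]; ring
      have e3 : D1 m = 1 + ε := by simp only [hD1d, mb]; ring
      have e4 : -ε + (m - 1 / 2) ≤ D2 m ∧ D2 m ≤ 1 := by
        simp only [hD2d, mc]
        constructor
        · have := mul_nonneg (by linarith : (0:ℝ) ≤ 2 * m - 1) (by linarith : 0 ≤ y' + ε - 1 / 2)
          linarith
        · have := mul_nonneg (by linarith : (0:ℝ) ≤ 1 - (2 * m - 1)) (by linarith : 0 ≤ y' + ε)
          linarith
      rw [e3] at k1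
      rw [e2] at k2
      have key : ∀ u : ℝ, -ε + (m - 1 / 2) ≤ u → 0 < u * m + (1 + ε) * (1 - m) := by
        intro u hu
        have := mul_nonneg m0 (sub_nonneg.2 hu)
        nlinarith [sq_nonneg (m - 3 / 4)]
      rcases fg l with ⟨la, lb, lc⟩ | ⟨la, lb, lc⟩
      · have i1 : h2 m l ≤ m := by
          simp only [hh2, lb, lc]
          have := mul_nonneg m0 (sub_nonneg.2 la)
          linarith
        have := mul_nonneg (sub_nonneg.2 i1) (by linarith [e4.2] : 0 ≤ 1 + ε - D2 m)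
        have := key (D2 m) e4.1
        linarith
      · have i1 : 1 - m ≤ h1 m l := by
          simp only [hh1, lb, lc]
          have := mul_nonneg (by linarith : (0:ℝ) ≤ 2 * l - 1) m0
          linarith
        have := mul_nonneg (sub_nonneg.2 i1) (by linarith [e1.2] : 0 ≤ 1 + ε - U1 m)
        have := key (U1 m) e1.1
        linarith
  · rintro ⟨k1, k2⟩
    simp only [hP] at k1 k2
    rcases fg m with ⟨ma, mb, mc⟩ | ⟨ma, mb, mc⟩
    · have e1 : U1 m = -ε := by simp only [hU1d, mc]; ring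
      have e2 : U2 m ≤ 1 / 2 + 2 * m * (1 / 2 + ε) ∧ 0 ≤ U2 m := by
        simp only [hU2d, mb]
        constructor
        · have := mul_nonneg (by linarith : (0:ℝ) ≤ 1 - 2 * m) (by linarith : 0 ≤ 1 / 2 - B)
          linarith
        · have := mul_nonneg m0 (by linarith : 0 ≤ 1 + ε - B)
          linarith
      have e3 : D1 m ≤ 1 / 2 + 2 * m * (1 / 2 + ε) ∧ 0 ≤ D1 m := by
        simp only [hD1d, mb]
        constructor
        · have := mul_nonneg (by linarith : (0:ℝ) ≤ 1 - 2 * m) (by linarith : 0 ≤ 1 / 2 - A)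
          linarith
        · have := mul_nonneg m0 (by linarith : 0 ≤ 1 + ε - A)
          linarith
      have e4 : D2 m = -ε := by simp only [hD2d, mc]; ring
      rw [e1] at k1
      rw [e4] at k2
      have key : ∀ u : ℝ, u ≤ 1 / 2 + 2 * m * (1 / 2 + ε) → u * (1 - m) - ε * m < 1 := by
        intro u hu
        have h3 := mul_nonneg (by linarith : (0:ℝ) ≤ 1 - m) (sub_nonneg.2 hu)
        have h4 := mul_nonneg m0 (by linarith : (0:ℝ) ≤ 1 - 2 * m)
        have h5 := mul_nonneg h4 (by linarith : (0:ℝ) ≤ 1 / 2 - ε)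
        nlinarith [sq_nonneg (m - 1 / 4)]
      rcases fg l with ⟨la, lb, lc⟩ | ⟨la, lb, lc⟩
      · have i1 : h1 m l ≤ 1 - m := by
          simp only [hh1, lb, lc]
          have := mul_nonneg (by linarith : (0:ℝ) ≤ 1 - m) (sub_nonneg.2 la)
          linarith
        have := mul_nonneg (sub_nonneg.2 i1) (by linarith [e3.2] : 0 ≤ D1 m + ε)
        have := key (D1 m) e3.1
        linarith
      · have i1 : m ≤ h2 m l := by
          simp only [hh2, lb, lc]
          have := mul_nonneg (by linarith : (0:ℝ) ≤ 2 * l - 1) (by linarith : (0:ℝ) ≤ 1 - m)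
          linarith
        have := mul_nonneg (sub_nonneg.2 i1) (by linarith [e2.2] : 0 ≤ U2 m + ε)
        have := key (U2 m) e2.1
        linarith
    · have e1 : U1 m ≤ x' := by
        simp only [hU1d, mc]
        have := mul_nonneg (by linarith : (0:ℝ) ≤ 1 - (2 * m - 1)) (by linarith : 0 ≤ x' + ε)
        linarith
      have e2 : U2 m = 1 + ε := by simp only [hU2d, mb]; ring
      have e3 : D1 m = 1 + ε := by simp only [hD1d, mb]; ring
      have e4 : D2 m ≤ y' := by
        simp only [hD2d, mc]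
        have := mul_nonneg (by linarith : (0:ℝ) ≤ 1 - (2 * m - 1)) (by linarith : 0 ≤ y' + ε)
        linarith
      rw [e3] at k1
      rw [e2] at k2
      rcases fg l with ⟨la, lb, lc⟩ | ⟨la, lb, lc⟩
      · have i1 : h1 m l ≤ 1 / 2 := by
          simp only [hh1, lb, lc]
          have := mul_nonneg (by linarith : (0:ℝ) ≤ 1 - m) (sub_nonneg.2 la)
          linarith
        have := mul_nonneg (sub_nonneg.2 i1) (by linarith : 0 ≤ 1 + ε - U1 m)
        linarith
      · have i1 : 1 / 2 ≤ h2 m l := by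
          simp only [hh2, lb, lc]
          have := mul_nonneg (by linarith : (0:ℝ) ≤ 2 * l - 1) (by linarith : (0:ℝ) ≤ 1 - m)
          linarith
        have := mul_nonneg (sub_nonneg.2 i1) (by linarith : 0 ≤ 1 + ε - D2 m)
        linarith

end Pool.Agent.J4H19.Quad
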