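import Mathlib
import Pool.Agent.H63Fed.Miranda

/-! Two functions on a triangle with a cut off corner at each end of the diagonal. -/

set_option autoImplicit false

open Set

namespace Pool.Agent.J4H19.Tri

lemma cvx_ge {l x y c : ℝ} (l0 : 0 ≤ l) (l1 : l ≤ 1) (hx : c ≤ x) (hy : c ≤ y) :
    c ≤ (1 - l) * x + l * y := by
  have h1 := mul_nonneg (sub_nonneg.2 l1) (sub_nonneg.2 hx)
  have h2 := mul_nonneg l0 (sub_nonneg.2 hy)
  linarith

lemma cvx_le {l x y c : ℝ} (l0 : 0 ≤ l) (l1 : l ≤ 1) (hx : x ≤ c) (hy : y ≤ c) :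
    (1 - l) * x + l * y ≤ c := by
  have h1 := mul_nonneg (sub_nonneg.2 l1) (sub_nonneg.2 hx)
  have h2 := mul_nonneg l0 (sub_nonneg.2 hy)
  linarith

lemma cvx_mono {l x y x' y' : ℝ} (l0 : 0 ≤ l) (l1 : l ≤ 1) (hx : x ≤ x') (hy : y ≤ y') :
    (1 - l) * x + l * y ≤ (1 - l) * x' + l * y' := by
  have h1 := mul_le_mul_of_nonneg_left hx (sub_nonneg.2 l1)
  have h2 := mul_le_mul_of_nonneg_left hy l0
  linarith

/-- Two continuous functions `e`, `v` on the hexagon `-1 ≤ s ≤ tq`, `tp ≤ t ≤ 2`, `s ≤ t`: both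
negative on the diagonal, both positive at the corner `(-1, 2)`, and `(e ≥ 0, v ≤ 0)`,
`(e ≤ 0, v ≥ 0)` are excluded on the two parts of the boundary that join the diagonal to the corner.
Then they have a common zero. -/
theorem tri {e v : ℝ × ℝ → ℝ} (he : Continuous e) (hv : Continuous v) {tp tq : ℝ} (h0 : -1 ≤ tp)
    (hpq : tp ≤ tq) (h2 : tq ≤ 2)
    (hD : ∀ t, tp ≤ t → t ≤ tq → e (t, t) < 0 ∧ v (t, t) < 0)
    (hL1 : ∀ s, -1 ≤ s → s ≤ tp → ¬ (0 ≤ e (s, tp) ∧ v (s, tp) ≤ 0))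
    (hL2 : ∀ t, tp ≤ t → t ≤ 2 → ¬ (0 ≤ e (-1, t) ∧ v (-1, t) ≤ 0))
    (hR1 : ∀ t, tq ≤ t → t ≤ 2 → ¬ (e (tq, t) ≤ 0 ∧ 0 ≤ v (tq, t)))
    (hR2 : ∀ s, -1 ≤ s → s ≤ tq → ¬ (e (s, 2) ≤ 0 ∧ 0 ≤ v (s, 2)))
    (hC : 0 < e (-1, 2) ∧ 0 < v (-1, 2)) :
    ∃ s t, -1 ≤ s ∧ s ≤ tq ∧ tp ≤ t ∧ t ≤ 2 ∧ s < t ∧ e (s, t) = 0 ∧ v (s, t) = 0 := by
  -- the parametrisation; `m` runs from the diagonal to the corner, `l` from left to right
  set f : ℝ → ℝ := fun m => min 1 (2 * m) with hf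
  set g : ℝ → ℝ := fun m => max 0 (2 * m - 1) with hg
  have fc : Continuous f := by rw [hf]; fun_prop
  have gc : Continuous g := by rw [hg]; fun_prop
  set A1 : ℝ → ℝ := fun m => tp - f m * (tp + 1) with hA1
  set A2 : ℝ → ℝ := fun m => tp + g m * (2 - tp) with hA2
  set B1 : ℝ → ℝ := fun m => tq - g m * (tq + 1) with hB1
  set B2 : ℝ → ℝ := fun m => tq + f m * (2 - tq) with hB2
  set P : ℝ → ℝ → ℝ × ℝ := fun m l =>
    ((1 - l) * A1 m + l * B1 m, (1 - l) * A2 m + l * B2 m) with hP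
  have Pc : Continuous fun x : ℝ × ℝ => P x.1 x.2 := by
    rw [hP, hA1, hA2, hB1, hB2]; fun_prop
  have f0 : f 0 = 0 := by simp [hf]
  have g0 : g 0 = 0 := by simp [hg]
  have f1 : f 1 = 1 := by norm_num [hf]
  have g1 : g 1 = 1 := by norm_num [hg]
  have fr : ∀ m, 0 ≤ m → m ≤ 1 → 0 ≤ f m ∧ f m ≤ 1 := fun m hm _ =>
    ⟨le_min zero_le_one (by linarith), min_le_left _ _⟩
  have gr : ∀ m, 0 ≤ m → m ≤ 1 → 0 ≤ g m ∧ g m ≤ 1 := fun m _ hm =>
    ⟨le_max_left _ _, max_le zero_le_one (by linarith)⟩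
  have fg : ∀ m, f m = 1 ∨ g m = 0 := by
    intro m
    rcases le_total 1 (2 * m) with h | h
    · left; exact min_eq_left h
    · right; exact max_eq_left (by linarith)
  set E : ℝ → ℝ → ℝ := fun m l => e (P m l) with hE
  set V : ℝ → ℝ → ℝ := fun m l => v (P m l) with hV
  set F : (Fin 2 → ℝ) → (Fin 2 → ℝ) := fun x =>
    ![E (x 0) (x 1) + V (x 0) (x 1),
      -((V (x 0) (x 1) - E (x 0) (x 1)) + |E (x 0) (x 1) + V (x 0) (x 1)| * (1 - 2 * x 1))] with hF
  have Ec : Continuous fun x : Fin 2 → ℝ => E (x 0) (x 1) :=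
    he.comp (Pc.comp (f := fun x : Fin 2 → ℝ => (x 0, x 1)) (by fun_prop))
  have Vc : Continuous fun x : Fin 2 → ℝ => V (x 0) (x 1) :=
    hv.comp (Pc.comp (f := fun x : Fin 2 → ℝ => (x 0, x 1)) (by fun_prop))
  have Fc : Continuous F := by
    refine continuous_pi fun i => ?_
    fin_cases i
    · show Continuous fun x : Fin 2 → ℝ => E (x 0) (x 1) + V (x 0) (x 1)
      exact Ec.add Vc
    · simp only [hF]
      simp
      fun_prop
  -- the left and the right side
  have left : ∀ m, 0 ≤ m → m ≤ 1 → ¬ (0 ≤ E m 0 ∧ V m 0 ≤ 0) := by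
    intro m hm0 hm1
    have e1 : P m 0 = (A1 m, A2 m) := by simp [hP]
    rw [hE, hV]
    simp only [e1]
    rcases fg m with h | h
    · have e2 : A1 m = -1 := by simp only [hA1, h]; ring
      rw [e2]
      obtain ⟨h3, h4⟩ := gr m hm0 hm1
      apply hL2
      · simp only [hA2]; nlinarith
      · simp only [hA2]; nlinarith
    · have e2 : A2 m = tp := by simp only [hA2, h]; ring
      rw [e2]
      obtain ⟨h3, h4⟩ := fr m hm0 hm1
      apply hL1
      · simp only [hA1]; nlinarith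
      · simp only [hA1]; nlinarith
  have right : ∀ m, 0 ≤ m → m ≤ 1 → ¬ (E m 1 ≤ 0 ∧ 0 ≤ V m 1) := by
    intro m hm0 hm1
    have e1 : P m 1 = (B1 m, B2 m) := by simp [hP]
    rw [hE, hV]
    simp only [e1]
    rcases fg m with h | h
    · have e2 : B2 m = 2 := by simp only [hB2, h]; ring
      rw [e2]
      obtain ⟨h3, h4⟩ := gr m hm0 hm1
      apply hR2
      · simp only [hB1]; nlinarith
      · simp only [hB1]; nlinarith
    · have e2 : B1 m = tq := by simp only [hB1, h]; ring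
      rw [e2]
      obtain ⟨h3, h4⟩ := fr m hm0 hm1
      apply hR1
      · simp only [hB2]; nlinarith
      · simp only [hB2]; nlinarith
  have hlow : ∀ l, 0 ≤ l → l ≤ 1 → E 0 l < 0 ∧ V 0 l < 0 := by
    intro l hl0 hl1
    have e1 : P 0 l = ((1 - l) * tp + l * tq, (1 - l) * tp + l * tq) := by
      simp [hP, hA1, hA2, hB1, hB2, f0, g0]
    rw [hE, hV]
    simp only [e1]
    apply hD <;> nlinarith
  have hup : ∀ l, 0 < E 1 l ∧ 0 < V 1 l := by
    intro l
    have e1 : P 1 l = (-1, 2) := by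
      simp only [hP, hA1, hA2, hB1, hB2, f1, g1]
      ext
      · simp; ring
      · simp; ring
    rw [hE, hV]
    simp only [e1]
    exact hC
  obtain ⟨x, hx, hx0⟩ := H63Fed.Miranda.poincare_miranda 2 F Fc.continuousOn
    (by
      intro x hx i hi
      fin_cases i
      · simp only [Fin.zero_eta] at hi ⊢
        obtain ⟨h3, h4⟩ := hlow (x 1) (hx 1).1 (hx 1).2
        simp only [hF, hi]
        simp
        linarith
      · simp only [Fin.mk_one] at hi ⊢
        have h3 := left (x 0) (hx 0).1 (hx 0).2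
        simp only [hF, hi]
        simp
        rw [not_and_or] at h3
        push Not at h3
        rcases h3 with h3 | h3
        · have := neg_abs_le (E (x 0) 0 + V (x 0) 0)
          have := le_abs_self (E (x 0) 0 + V (x 0) 0)
          have := neg_le_abs (E (x 0) 0 + V (x 0) 0)
          linarith
        · have := le_abs_self (E (x 0) 0 + V (x 0) 0)
          linarith)
    (by
      intro x hx i hi
      fin_cases i
      · simp only [Fin.zero_eta] at hi ⊢
        obtain ⟨h3, h4⟩ := hup (x 1)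
        simp only [hF, hi]
        simp
        linarith
      · simp only [Fin.mk_one] at hi ⊢
        have h3 := right (x 0) (hx 0).1 (hx 0).2
        simp only [hF, hi]
        simp
        rw [not_and_or] at h3
        push Not at h3
        have e5 : |E (x 0) 1 + V (x 0) 1| * (1 - 2) = - |E (x 0) 1 + V (x 0) 1| := by ring
        rw [e5]
        rcases h3 with h3 | h3
        · have := le_abs_self (E (x 0) 1 + V (x 0) 1)
          linarith
        · have := neg_le_abs (E (x 0) 1 + V (x 0) 1)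
          linarith)
  have h5 : E (x 0) (x 1) + V (x 0) (x 1) = 0 := by
    have := congrFun hx0 0
    simpa [hF] using this
  have h6 : V (x 0) (x 1) - E (x 0) (x 1) = 0 := by
    have := congrFun hx0 1
    simp only [hF, h5] at this
    simp at this
    linarith
  have hEz : E (x 0) (x 1) = 0 := by linarith
  have hVz : V (x 0) (x 1) = 0 := by linarith
  obtain ⟨m0, m1⟩ := hx 0
  obtain ⟨l0, l1⟩ := hx 1
  set m := x 0
  set l := x 1
  obtain ⟨f3, f4⟩ := fr m m0 m1
  obtain ⟨g3, g4⟩ := gr m m0 m1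
  have a1 : -1 ≤ A1 m := by simp only [hA1]; nlinarith
  have a1' : A1 m ≤ tp := by simp only [hA1]; nlinarith
  have a2 : tp ≤ A2 m := by simp only [hA2]; nlinarith
  have a2' : A2 m ≤ 2 := by simp only [hA2]; nlinarith
  have b1 : -1 ≤ B1 m := by simp only [hB1]; nlinarith
  have b1' : B1 m ≤ tq := by simp only [hB1]; nlinarith
  have b2 : tq ≤ B2 m := by simp only [hB2]; nlinarith
  have b2' : B2 m ≤ 2 := by simp only [hB2]; nlinarith
  have r1 : -1 ≤ (1 - l) * A1 m + l * B1 m := cvx_ge l0 l1 a1 b1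
  have r2 : (1 - l) * A1 m + l * B1 m ≤ tq := cvx_le l0 l1 (a1'.trans hpq) b1'
  have r3 : tp ≤ (1 - l) * A2 m + l * B2 m := cvx_ge l0 l1 a2 (hpq.trans b2)
  have r4 : (1 - l) * A2 m + l * B2 m ≤ 2 := cvx_le l0 l1 a2' b2'
  have r5 : (1 - l) * A1 m + l * B1 m ≤ (1 - l) * A2 m + l * B2 m :=
    cvx_mono l0 l1 (a1'.trans a2) (b1'.trans b2)
  refine ⟨(1 - l) * A1 m + l * B1 m, (1 - l) * A2 m + l * B2 m, r1, r2, r3, r4, ?_, hEz, hVz⟩
  refine lt_of_le_of_ne r5 fun h => ?_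
  have h7 := (hD _ r3 (by rw [← h]; exact r2)).1
  have h8 : e ((1 - l) * A2 m + l * B2 m, (1 - l) * A2 m + l * B2 m) = E m l := by
    simp only [hE, hP, h]
  rw [h8, hEz] at h7
  exact lt_irrefl _ h7

end Pool.Agent.J4H19.Tri
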