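import Mathlib
import Pool.Agent.J4H19.Ends
import Pool.Agent.J4H19.Tri

/-! The theorem for normalised arcs, one of which is wild. -/

set_option autoImplicit false

open Set Filter Topology

namespace Pool.Agent.J4H19.Wild

open Pool.Agent.J4H19.Arcs (T)
open Pool.Agent.J4H19.Side (Lin)
open Pool.Agent.J4H19.Ends
open scoped ComplexConjugate

variable {a b : ℝ → ℂ} {F : ℂ → ℝ} {r : ℝ}

lemma re_gt (L : Lin a) {τ : ℝ} (hτ : τ < 0) {s : ℝ} (hs : τ < s) : 0 < (a s).re - τ := by
  by_cases h : s ∈ Icc (0:ℝ) 1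
  · linarith [L.re0 s h]
  · rw [mem_Icc, not_and_or] at h
    push Not at h
    rcases h with h | h
    · rw [L.left s h.le, Complex.ofReal_re]; linarith
    · rw [L.right s h.le, Complex.ofReal_re]; linarith

lemma re_lt (L : Lin a) {τ : ℝ} (hτ : 1 < τ) {s : ℝ} (hs : s < τ) : (a s).re - τ < 0 := by
  by_cases h : s ∈ Icc (0:ℝ) 1
  · linarith [L.re1 s h]
  · rw [mem_Icc, not_and_or] at h
    push Not at h
    rcases h with h | h
    · rw [L.left s h.le, Complex.ofReal_re]; linarith
    · rw [L.right s h.le, Complex.ofReal_re]; linarith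

lemma out (L : Lin a) {s : ℝ} (h : s ∉ Icc (0:ℝ) 1) : a s = s := by
  rw [mem_Icc, not_and_or] at h
  push Not at h
  rcases h with h | h
  · exact L.left s h.le
  · exact L.right s h.le

lemma hleft (C : Conf a b F) {τ : ℝ} (hτ : τ < 0) {s s' : ℝ} (hs1 : τ < s) (hs1' : τ < s') :
    0 < T (a s - τ) (b s' - τ) := by
  have ra := re_gt C.la hτ hs1
  have rb := re_gt C.lb hτ hs1'
  by_cases h : s ∈ Icc (0:ℝ) 1
  · by_cases h' : s' ∈ Icc (0:ℝ) 1
    · have h1 := C.hp s h s' h'
      have h2 := C.la.re0 s h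
      have h3 := C.lb.re0 s' h'
      simp only [T, Complex.sub_re, Complex.sub_im, Complex.ofReal_re, Complex.ofReal_im,
        sub_zero] at h1 ⊢
      nlinarith
    · rw [out C.lb h'] at rb ⊢
      simp only [T, Complex.sub_re, Complex.sub_im, Complex.ofReal_re, Complex.ofReal_im,
        sub_zero, mul_zero, add_zero] at ra rb ⊢
      exact mul_pos ra rb
  · rw [out C.la h] at ra ⊢
    simp only [T, Complex.sub_re, Complex.sub_im, Complex.ofReal_re, Complex.ofReal_im,
      sub_zero, zero_mul, add_zero] at ra rb ⊢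
    exact mul_pos ra rb

lemma hright (C : Conf a b F) {τ : ℝ} (hτ : 1 < τ) {s s' : ℝ} (hs1 : s < τ) (hs1' : s' < τ) :
    0 < T (a s - τ) (b s' - τ) := by
  have ra := re_lt C.la hτ hs1
  have rb := re_lt C.lb hτ hs1'
  by_cases h : s ∈ Icc (0:ℝ) 1
  · by_cases h' : s' ∈ Icc (0:ℝ) 1
    · have h1 := C.hq s h s' h'
      have h2 := C.la.re1 s h
      have h3 := C.lb.re1 s' h'
      simp only [T, Complex.sub_re, Complex.sub_im, Complex.ofReal_re, Complex.ofReal_im,
        sub_zero, Complex.one_re, Complex.one_im] at h1 ⊢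
      nlinarith
    · rw [out C.lb h'] at rb ⊢
      simp only [T, Complex.sub_re, Complex.sub_im, Complex.ofReal_re, Complex.ofReal_im,
        sub_zero, mul_zero, add_zero] at ra rb ⊢
      exact mul_pos_of_neg_of_neg ra rb
  · rw [out C.la h] at ra ⊢
    simp only [T, Complex.sub_re, Complex.sub_im, Complex.ofReal_re, Complex.ofReal_im,
      sub_zero, zero_mul, add_zero] at ra rb ⊢
    exact mul_pos_of_neg_of_neg ra rb

/-- first vertex on the left tail -/
lemma tail (C : Conf a b F) (hr : 0 < r) {τ t : ℝ} (hτ : τ < 0) (ht : τ < t) :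
    0 < F (P4 r (a τ) (a t)) := by
  have hw := re_gt C.la hτ ht
  set w : ℂ := a t - τ with hwd
  have hwre : 0 < w.re := by simpa [hwd] using hw
  have hne : ∀ ρ : ℝ, 0 < ρ → F (τ + ρ * Complex.I * w) ≠ 0 := by
    intro ρ hρ h
    obtain ⟨s', hs'⟩ := (C.Fz _).1 h
    rcases le_or_gt s' τ with h1 | h1
    · rw [C.lb.left s' (by linarith)] at hs'
      have := congrArg Complex.im hs'
      simp at this
      rcases this with h2 | h2
      · linarith
      · linarith
    · have h2 := hleft C hτ ht h1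
      rw [hs', ← hwd] at h2
      have h3 : T w ((τ : ℂ) + ρ * Complex.I * w - τ) = 0 := by
        simp [T]; ring
      linarith
  have hφ : Continuous fun ρ : ℝ => F (τ + ρ * Complex.I * w) := C.Fc.comp (by fun_prop)
  obtain ⟨ρ₀, h0, h1⟩ : ∃ ρ₀ : ℝ, 0 < ρ₀ ∧ τ - ρ₀ * w.im < 0 := by
    refine ⟨-τ / (|w.im| + 1), div_pos (by linarith) (by positivity), ?_⟩
    have h3 : -τ / (|w.im| + 1) * (|w.im| + 1) = -τ := by field_simp
    have h4 : 0 < -τ / (|w.im| + 1) := div_pos (by linarith) (by positivity)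
    have h5 := neg_abs_le w.im
    nlinarith
  have h2 : 0 < F (τ + ρ₀ * Complex.I * w) := by
    apply C.Fp
    · left
      simp
      linarith
    · simp
      exact mul_pos h0 hwre
  have h3 := const_pos hφ (x := ρ₀) (y := r) (fun ρ hρ => hne ρ (by
    rw [mem_uIcc] at hρ
    rcases hρ with h | h
    · linarith [h.1]
    · linarith [h.1])) h2
  have e : P4 r (a τ) (a t) = τ + r * Complex.I * w := by
    unfold P4
    rw [C.la.left τ hτ.le]
  rw [e]
  exact h3

/-- reflection -/
noncomputable def rfl' (a : ℝ → ℂ) (t : ℝ) : ℂ := 1 - conj (a (1 - t))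

lemma Lin.refl (L : Lin a) : Lin (rfl' a) where
  cont := by
    have := L.cont
    unfold rfl'
    fun_prop
  left t ht := by
    unfold rfl'
    rw [L.right (1 - t) (by linarith), Complex.conj_ofReal]; push_cast; ring
  right t ht := by
    unfold rfl'
    rw [L.left (1 - t) (by linarith), Complex.conj_ofReal]; push_cast; ring
  re0 t ht := by
    have := L.re1 (1 - t) ⟨by linarith [ht.2], by linarith [ht.1]⟩
    simp [rfl']
    exact this
  re1 t ht := by
    have := L.re0 (1 - t) ⟨by linarith [ht.2], by linarith [ht.1]⟩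
    simp [rfl']
    exact this

lemma rfl'_eq {z : ℂ} {t : ℝ} : rfl' b t = z ↔ b (1 - t) = 1 - conj z := by
  unfold rfl'
  constructor
  · intro h
    rw [← h]; simp
  · intro h
    rw [h]; simp

lemma Conf.refl (C : Conf a b F) : Conf (rfl' a) (rfl' b) (fun z => F (1 - conj z)) where
  la := Lin.refl C.la
  lb := Lin.refl C.lb
  dis s s' h := by
    rw [rfl'_eq] at h
    unfold rfl' at h
    simp at h
    obtain ⟨h1, h2⟩ := C.dis _ _ h
    refine ⟨by linarith, ?_⟩
    rcases h2 with h2 | h2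
    · right; linarith
    · left; linarith
  hp s hs s' hs' := by
    have := C.hq (1 - s) ⟨by linarith [hs.2], by linarith [hs.1]⟩ (1 - s')
      ⟨by linarith [hs'.2], by linarith [hs'.1]⟩
    simp [T, rfl'] at this ⊢
    linarith
  hq s hs s' hs' := by
    have := C.hp (1 - s) ⟨by linarith [hs.2], by linarith [hs.1]⟩ (1 - s')
      ⟨by linarith [hs'.2], by linarith [hs'.1]⟩
    simp [T, rfl'] at this ⊢
    linarith
  Fc := by
    have := C.Fc
    exact this.comp (by fun_prop)
  Fz z := by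
    rw [C.Fz]
    constructor
    · rintro ⟨t, ht⟩
      exact ⟨1 - t, rfl'_eq.2 (by rw [sub_sub_cancel, ht])⟩
    · rintro ⟨t, ht⟩
      exact ⟨1 - t, rfl'_eq.1 ht⟩
  Fp z hz hi := by
    apply C.Fp
    · simp
      rcases hz with h | h
      · right; linarith
      · left; linarith
    · simpa using hi
  Fn z hz hi := by
    apply C.Fn
    · simp
      rcases hz with h | h
      · right; linarith
      · left; linarith
    · simpa using hi

lemma rfl'_P3 (s t : ℝ) : 1 - conj (P3 r (rfl' a s) (rfl' a t)) = P4 r (a (1 - t)) (a (1 - s)) := by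
  simp [P3, P4, rfl']
  ring

lemma rfl'_P4 (s t : ℝ) : 1 - conj (P4 r (rfl' a s) (rfl' a t)) = P3 r (a (1 - t)) (a (1 - s)) := by
  simp [P3, P4, rfl']
  ring

lemma tail' (C : Conf a b F) (hr : 0 < r) {τ t : ℝ} (hτ : 1 < τ) (ht : t < τ) :
    0 < F (P3 r (a t) (a τ)) := by
  have := tail (Conf.refl C) hr (τ := 1 - τ) (t := 1 - t) (by linarith) (by linarith)
  rw [rfl'_P4] at this
  simpa using this

/-- **The theorem for normalised arcs.** -/
theorem norm_thm (C : Conf a b F) (hinj : Function.Injective a) (hr : 0 < r)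
    (Ep : EndP a b r) (Eq : EndP (rfl' a) (rfl' b) r) :
    ∃ s₁ ∈ Icc (0:ℝ) 1, ∃ s₂ ∈ Icc (0:ℝ) 1, ∃ s₃ ∈ Icc (0:ℝ) 1, ∃ s₄ ∈ Icc (0:ℝ) 1,
      ∃ w : ℂ, w ≠ 0 ∧ a s₂ = a s₁ + w ∧
      b s₃ = a s₁ + w + r * Complex.I * w ∧ b s₄ = a s₁ + r * Complex.I * w := by
  obtain ⟨hneg, tp, htp0, htp1, hcp⟩ := corner C hr Ep
  obtain ⟨-, tq', htq0, htq1, hcq⟩ := corner (Conf.refl C) hr Eq
  set tq := 1 - tq' with htq
  set e : ℝ × ℝ → ℝ := fun x => F (P3 r (a x.1) (a x.2)) with he
  set v : ℝ × ℝ → ℝ := fun x => F (P4 r (a x.1) (a x.2)) with hv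
  have ca := C.la.cont
  have ec : Continuous e := C.Fc.comp (by unfold P3; fun_prop)
  have vc : Continuous v := C.Fc.comp (by unfold P4; fun_prop)
  have diag : ∀ t, 0 < t → t < 1 → e (t, t) < 0 ∧ v (t, t) < 0 := by
    intro t h0 h1
    have e1 : P3 r (a t) (a t) = a t := by simp [P3]
    have e2 : P4 r (a t) (a t) = a t := by simp [P4]
    simp only [he, hv, e1, e2]
    exact ⟨hneg t ⟨h0, h1⟩, hneg t ⟨h0, h1⟩⟩
  have tl : ∀ s t, s < 0 → s < t → 0 < v (s, t) := fun s t h1 h2 => tail C hr h1 h2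
  have tr : ∀ s t, 1 < t → s < t → 0 < e (s, t) := fun s t h1 h2 => tail' C hr h1 h2
  obtain ⟨s₁, s₂, hs1, hs2, ht1, ht2, hst, hE, hV⟩ := Tri.tri ec vc (tp := tp) (tq := tq)
    (by linarith) (by linarith) (by linarith)
    (fun t h1 h2 => diag t (by linarith) (by linarith))
    (by
      rintro s h1 h2 ⟨h3, h4⟩
      rcases lt_or_ge s 0 with h5 | h5
      · have := tl s tp h5 (by linarith)
        linarith
      · rcases h2.eq_or_lt with h6 | h6
        · rw [h6] at h3
          have := (diag tp htp0 (by linarith)).1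
          linarith
        · exact hcp s h5 h6 ⟨h3, h4⟩)
    (by
      rintro t h1 h2 ⟨h3, h4⟩
      have := tl (-1) t (by norm_num) (by linarith)
      linarith)
    (by
      rintro t h1 h2 ⟨h3, h4⟩
      rcases lt_or_ge 1 t with h5 | h5
      · have := tr tq t h5 (by linarith)
        linarith
      · rcases h1.eq_or_lt with h6 | h6
        · rw [← h6] at h4
          have := (diag tq (by linarith) (by linarith)).2
          linarith
        · apply hcq (1 - t) (by linarith) (by linarith)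
          rw [rfl'_P3, rfl'_P4, sub_sub_cancel]
          exact ⟨h4, h3⟩)
    (by
      rintro s h1 h2 ⟨h3, h4⟩
      have := tr s 2 (by norm_num) (by linarith)
      linarith)
    ⟨tr (-1) 2 (by norm_num) (by norm_num), tl (-1) 2 (by norm_num) (by norm_num)⟩
  obtain ⟨s₃, hs₃⟩ := (C.Fz _).1 hE
  obtain ⟨s₄, hs₄⟩ := (C.Fz _).1 hV
  set w := a s₂ - a s₁ with hw
  have hw0 : w ≠ 0 := sub_ne_zero.2 fun h => hst.ne (hinj h).symm
  have e1 : a s₂ = a s₁ + w := by rw [hw]; ring
  have e2 : b s₃ = a s₁ + w + r * Complex.I * w := by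
    rw [hs₃]
    show a s₂ + r * Complex.I * w = _
    rw [e1]
  have e3 : b s₄ = a s₁ + r * Complex.I * w := hs₄
  -- the smallest parameter
  have hmin : 0 ≤ min s₁ (min s₂ (min s₃ s₄)) := by
    by_contra hcon
    push Not at hcon
    set τ := min s₁ (min s₂ (min s₃ s₄)) with hτ
    have t1 : τ ≤ s₁ := min_le_left _ _
    have t2 : τ ≤ s₂ := (min_le_right _ _).trans (min_le_left _ _)
    have t3 : τ ≤ s₃ := (min_le_right _ _).trans ((min_le_right _ _).trans (min_le_left _ _))
    have t4 : τ ≤ s₄ := (min_le_right _ _).trans ((min_le_right _ _).trans (min_le_right _ _))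
    refine Tails.contra (P := fun s => τ ≤ s) τ (C.la.left τ hcon.le) (C.lb.left τ hcon.le)
      (fun s s' h h' n n' => hleft C hcon (lt_of_le_of_ne h (Ne.symm n))
        (lt_of_le_of_ne h' (Ne.symm n'))) s₁ s₂ s₃ s₄ w hw0 hr e1 e2 e3 t1 t2 t3 t4 ?_
    rcases min_choice s₁ (min s₂ (min s₃ s₄)) with h | h
    · exact Or.inl (by rw [hτ, h])
    · rcases min_choice s₂ (min s₃ s₄) with h' | h'
      · exact Or.inr (Or.inl (by rw [hτ, h, h']))
      · rcases min_choice s₃ s₄ with h'' | h''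
        · exact Or.inr (Or.inr (Or.inl (by rw [hτ, h, h', h''])))
        · exact Or.inr (Or.inr (Or.inr (by rw [hτ, h, h', h''])))
  have hmax : max s₁ (max s₂ (max s₃ s₄)) ≤ 1 := by
    by_contra hcon
    push Not at hcon
    set τ := max s₁ (max s₂ (max s₃ s₄)) with hτ
    have t1 : s₁ ≤ τ := le_max_left _ _
    have t2 : s₂ ≤ τ := (le_max_left _ _).trans (le_max_right _ _)
    have t3 : s₃ ≤ τ := (le_max_left _ _).trans ((le_max_right _ _).trans (le_max_right _ _))
    have t4 : s₄ ≤ τ := (le_max_right _ _).trans ((le_max_right _ _).trans (le_max_right _ _))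
    refine Tails.contra (P := fun s => s ≤ τ) τ (C.la.right τ hcon.le) (C.lb.right τ hcon.le)
      (fun s s' h h' n n' => hright C hcon (lt_of_le_of_ne h n) (lt_of_le_of_ne h' n'))
      s₁ s₂ s₃ s₄ w hw0 hr e1 e2 e3 t1 t2 t3 t4 ?_
    rcases max_choice s₁ (max s₂ (max s₃ s₄)) with h | h
    · exact Or.inl (by rw [hτ, h])
    · rcases max_choice s₂ (max s₃ s₄) with h' | h'
      · exact Or.inr (Or.inl (by rw [hτ, h, h']))
      · rcases max_choice s₃ s₄ with h'' | h''
        · exact Or.inr (Or.inr (Or.inl (by rw [hτ, h, h', h''])))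
        · exact Or.inr (Or.inr (Or.inr (by rw [hτ, h, h', h''])))
  simp only [le_min_iff] at hmin
  simp only [max_le_iff] at hmax
  exact ⟨s₁, ⟨hmin.1, hmax.1⟩, s₂, ⟨hmin.2.1, hmax.2.1⟩, s₃, ⟨hmin.2.2.1, hmax.2.2.1⟩, s₄,
    ⟨hmin.2.2.2, hmax.2.2.2⟩, w, hw0, e1, e2, e3⟩

end Pool.Agent.J4H19.Wild
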