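import Mathlib
import Pool.Agent.J4H19.Diag
import Pool.Agent.J4H19.Quad
import Pool.Agent.J4H19.Wild

/-! Rectangles with opposite vertices on the two arcs: the theorem for normalised arcs when the upper
arc is simple at `0` and the lower arc is simple at `1`. -/

set_option autoImplicit false

open Set Filter Topology

namespace Pool.Agent.J4H19.Diag2

open Pool.Agent.J4H19.Arcs (T)
open Pool.Agent.J4H19.Side (Lin)
open Pool.Agent.J4H19.Ends
open Pool.Agent.J4H19.Loc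
open Pool.Agent.J4H19.CornerQ
open Pool.Agent.J4H19.Diag
open Pool.Agent.J4H19.Wild (re_gt hleft hright)
open scoped ComplexConjugate

variable {a b : ℝ → ℂ} {f g : ℂ → ℝ} {r : ℝ}

lemma T_cont (L : Lin a) (v : ℂ) : Continuous fun t => T v (a t) := by
  have := L.cont
  unfold T
  fun_prop

lemma T_symm (u v : ℂ) : T u v = T v u := by simp only [T]; ring

/-- a point of the lower arc such that the part further to the right is lower -/
lemma pick (L : Lin a) {v : ℂ} {ε : ℝ}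
    (hα : ∀ t ∈ Ioc 0 ε, 0 ≤ T v (a t) ∧ T (Complex.I * v) (a t) < 0) {s : ℝ} (hs : 0 < s)
    (hsε : s ≤ ε) :
    ∃ tm, 0 < tm ∧ tm < s ∧ ∀ t ∈ Ioc 0 ε, T v (a tm) < T v (a t) →
      T (Complex.I * v) (a t) < T (Complex.I * v) (a tm) := by
  have Xc := T_cont L v
  have Yc := T_cont L (Complex.I * v)
  have a0 : a 0 = 0 := by rw [L.left 0 le_rfl]; simp
  obtain ⟨t₁, ht₁, hmax⟩ := (isCompact_Icc (a := s) (b := ε)).exists_isMaxOn
    ⟨s, le_rfl, hsε⟩ Yc.continuousOn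
  have hM : T (Complex.I * v) (a t₁) < 0 := (hα t₁ ⟨hs.trans_le ht₁.1, ht₁.2⟩).2
  have hmax' : ∀ t ∈ Icc s ε, T (Complex.I * v) (a t) ≤ T (Complex.I * v) (a t₁) :=
    fun t ht => hmax ht
  clear hmax
  generalize T (Complex.I * v) (a t₁) = M at hM hmax'
  have hKc : IsCompact {t | t ∈ Icc 0 ε ∧ M / 2 ≤ T (Complex.I * v) (a t)} :=
    isCompact_Icc.inter_right (isClosed_le continuous_const Yc)
  have X0 : T v (a 0) = 0 := by rw [a0, T_zero]
  have Y0 : T (Complex.I * v) (a 0) = 0 := by rw [a0, T_zero]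
  obtain ⟨τ, ⟨⟨hτ0, hτε⟩, hτ2⟩, hτmax⟩ := hKc.exists_isMaxOn
    ⟨0, ⟨le_rfl, by linarith⟩, by rw [Y0]; linarith⟩ Xc.continuousOn
  have hKs : ∀ t ∈ Icc 0 ε, M / 2 ≤ T (Complex.I * v) (a t) → t < s := by
    intro t ht h
    by_contra hc
    push Not at hc
    have := hmax' t ⟨hc, ht.2⟩
    linarith
  rcases hτ0.eq_or_lt with h | h
  · obtain ⟨s₁, h1, h2, h3⟩ : ∃ s₁, 0 < s₁ ∧ s₁ < s ∧ M / 2 ≤ T (Complex.I * v) (a s₁) := by
      have h5 : ∀ᶠ t in 𝓝[>] (0:ℝ), M / 2 < T (Complex.I * v) (a t) := by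
        have := (Yc.tendsto 0).eventually (lt_mem_nhds (a := M / 2) (by rw [Y0]; linarith))
        exact this.filter_mono nhdsWithin_le_nhds
      obtain ⟨t, h6, h7⟩ := (h5.and (Ioo_mem_nhdsGT hs)).exists
      exact ⟨t, h7.1, h7.2, h6.le⟩
    refine ⟨s₁, h1, h2, fun t ht hlt => ?_⟩
    by_contra hc
    push Not at hc
    have h4 : T v (a t) ≤ T v (a τ) := hτmax ⟨⟨ht.1.le, ht.2⟩, h3.trans hc⟩
    rw [← h, X0] at h4
    have := (hα s₁ ⟨h1, by linarith⟩).1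
    linarith
  · refine ⟨τ, h, hKs τ ⟨hτ0, hτε⟩ hτ2, fun t ht hlt => ?_⟩
    by_contra hc
    push Not at hc
    have h1 : T v (a t) ≤ T v (a τ) := hτmax ⟨⟨ht.1.le, ht.2⟩, hτ2.trans hc⟩
    linarith

lemma or_near {φ ψ : ℝ → ℝ} (hφ : Continuous φ) (hψ : Continuous ψ) (h : 0 < φ 0 ∨ 0 < ψ 0) :
    ∃ δ > 0, ∀ s, |s| < δ → 0 < φ s ∨ 0 < ψ s := by
  have key : ∀ φ : ℝ → ℝ, Continuous φ → 0 < φ 0 → ∃ δ > 0, ∀ s, |s| < δ → 0 < φ s := by
    intro φ hφ h
    obtain ⟨δ, hδ, h1⟩ := Metric.eventually_nhds_iff.1 ((hφ.tendsto 0).eventually (lt_mem_nhds h))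
    exact ⟨δ, hδ, fun s hs => h1 (by rwa [dist_zero_right, Real.norm_eq_abs])⟩
  rcases h with h | h
  · obtain ⟨δ, hδ, h1⟩ := key φ hφ h
    exact ⟨δ, hδ, fun s hs => Or.inl (h1 s hs)⟩
  · obtain ⟨δ, hδ, h1⟩ := key ψ hψ h
    exact ⟨δ, hδ, fun s hs => Or.inr (h1 s hs)⟩

lemma small' (L : Lin a) {δ ε : ℝ} (hδ : 0 < δ) (hε : 0 < ε) :
    ∃ s₀ : ℝ, 0 < s₀ ∧ s₀ < ε ∧ ∀ t, 0 ≤ t → t ≤ s₀ → ‖a t‖ < δ := by
  have h5 : Tendsto (fun s => ‖a s‖) (𝓝 0) (𝓝 ‖a 0‖) := L.cont.norm.tendsto 0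
  rw [L.left 0 le_rfl, Complex.ofReal_zero, norm_zero] at h5
  obtain ⟨e, he, h6⟩ := Metric.eventually_nhds_iff.1 (h5.eventually (gt_mem_nhds hδ))
  refine ⟨min (e / 2) (ε / 2), lt_min (by linarith) (by linarith),
    (min_le_right _ _).trans_lt (by linarith), ?_⟩
  intro t ht0 ht1
  apply h6
  rw [dist_zero_right, Real.norm_eq_abs, abs_of_nonneg ht0]
  have := min_le_left (e / 2) (ε / 2)
  linarith

lemma Q2_cont {x y : ℝ → ℂ} (hx : Continuous x) (hy : Continuous y) :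
    Continuous fun t => Q2 r (x t) (y t) := by
  unfold Q2 wd; fun_prop

lemma Q4_cont {x y : ℝ → ℂ} (hx : Continuous x) (hy : Continuous y) :
    Continuous fun t => Q4 r (x t) (y t) := by
  unfold Q4 wd; fun_prop

/-- **The path around the corner `(0, 0)`.** -/
lemma path_p (C : Cf a b f g) (hr : 0 < r) (E : EndQ a b r) :
    ∃ A B ε₀ : ℝ, 0 < A ∧ A < 1 / 2 ∧ 0 < B ∧ B < 1 / 2 ∧ 0 < ε₀ ∧
      (∀ s, -ε₀ ≤ s → s ≤ A → 0 < f (Q2 r (a s) (b B)) ∨ 0 < g (Q4 r (a s) (b B))) ∧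
      (∀ t, -ε₀ ≤ t → t ≤ B → 0 < f (Q2 r (a A) (b t)) ∨ 0 < g (Q4 r (a A) (b t))) := by
  obtain ⟨v, hv, hv0, ε, hε, hα, hβ, hN⟩ := E
  have a0 : a 0 = 0 := by rw [C.Sa.lb.left 0 le_rfl]; simp
  have b0 : b 0 = 0 := by rw [C.Sb.lb.left 0 le_rfl]; simp
  obtain ⟨δa, hδa0, hδa⟩ := exists_delta' C.Sa.lb (fun t ht => (C.dis t 0 (by rw [ht, b0])).1) hε
  obtain ⟨δb, hδb0, hδb⟩ := exists_delta' C.Sb.lb
    (fun t ht => ((C.dis 0 t (by rw [ht, a0])).1).symm) hε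
  obtain ⟨δ, hδ, h1, h2⟩ : ∃ δ > 0, δ ≤ δa ∧ δ ≤ δb :=
    ⟨min δa δb, lt_min hδa0 hδb0, min_le_left _ _, min_le_right _ _⟩
  replace hδa : ∀ t, ‖a t‖ < δ → t < ε := fun t ht => hδa t (ht.trans_le h1)
  replace hδb : ∀ t, ‖b t‖ < δ → t < ε := fun t ht => hδb t (ht.trans_le h2)
  have hvr : v.im ≤ 0 → 0 < v.re := by
    intro hi
    refine lt_of_le_of_ne hv0 fun h0 => ?_
    have hi' : v.im < 0 := lt_of_le_of_ne hi fun h => hv (Complex.ext h0.symm h)
    have hs0 : 0 < min ε 1 := lt_min hε zero_lt_one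
    have h1 := (hα (min ε 1) ⟨hs0, min_le_left _ _⟩).2
    rw [T_Iv, ← h0] at h1
    have h2 := C.Sa.lb.re0 (min ε 1) ⟨hs0.le, min_le_right _ _⟩
    have := mul_nonneg (neg_nonneg.2 hi'.le) h2
    linarith
  obtain ⟨c, hc, href⟩ := ref hv0 hvr hδ
  have hvn : 0 < ‖v‖ := norm_pos_iff.2 hv
  obtain ⟨ρ, hρ0, hρ1, hρ2⟩ : ∃ ρ > 0, ρ ≤ δ / 3 ∧ ‖v‖ * ρ ≤ c := by
    refine ⟨min (δ / 3) (c / ‖v‖), lt_min (by positivity) (by positivity), min_le_left _ _, ?_⟩
    have : min (δ / 3) (c / ‖v‖) ≤ c / ‖v‖ := min_le_right _ _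
    rw [le_div_iff₀ hvn] at this
    linarith
  obtain ⟨B, hB0, hB1, hBn⟩ := small' C.Sb.lb (δ := ρ / 6) (by positivity)
    (lt_min hε (by norm_num : (0:ℝ) < 1 / 2))
  have hBε : B ≤ ε := (hB1.trans_le (min_le_left _ _)).le
  have hBh : B < 1 / 2 := hB1.trans_le (min_le_right _ _)
  -- at `(0, B)`
  have k1 : 0 < f (Q2 r (a 0) (b B)) ∨ 0 < g (Q4 r (a 0) (b B)) := by
    refine tricho C.Sa C.Sb hr hδ hδa hδb hv hv0 hvr href hc hα hβ hN hρ1 hρ2 (A := a 0) ?_ ?_ ?_ ?_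
      hB0.le hBε (hBn B hB0.le le_rfl) ?_
    · rw [a0, T_zero]
    · rw [a0, T_zero]
    · intro t ht _
      rw [a0, T_zero]
      exact (hα t ht).2
    · rw [a0, norm_zero]; positivity
    · intro h
      exact hB0.ne (C.dis 0 B h).1
  obtain ⟨δ₂, hδ₂, hn2⟩ := or_near (φ := fun s => f (Q2 r (a s) (b B)))
    (ψ := fun s => g (Q4 r (a s) (b B)))
    (C.Sa.Fc.comp (Q2_cont C.Sa.lb.cont continuous_const))
    (C.Sb.Fc.comp (Q4_cont C.Sa.lb.cont continuous_const)) k1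
  obtain ⟨s₀, hs0, hs1, hsn⟩ := small' C.Sa.lb (δ := ρ / 6) (by positivity)
    (lt_min (lt_min hε (by norm_num : (0:ℝ) < 1 / 2)) hδ₂)
  have hs0ε : s₀ ≤ ε := (hs1.trans_le ((min_le_left _ _).trans (min_le_left _ _))).le
  have hs0h : s₀ < 1 / 2 := hs1.trans_le ((min_le_left _ _).trans (min_le_right _ _))
  have hs0δ : s₀ < δ₂ := hs1.trans_le (min_le_right _ _)
  obtain ⟨A, hA0, hA1, hfree⟩ := pick C.Sa.lb hα hs0 hs0ε
  have hAα := hα A ⟨hA0, by linarith⟩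
  have k2 : ∀ t, 0 ≤ t → t ≤ B → 0 < f (Q2 r (a A) (b t)) ∨ 0 < g (Q4 r (a A) (b t)) := by
    intro t ht0 ht1
    refine tricho C.Sa C.Sb hr hδ hδa hδb hv hv0 hvr href hc hα hβ hN hρ1 hρ2 (A := a A) hAα.1
      hAα.2.le hfree (hsn A hA0.le hA1.le) ht0 (ht1.trans hBε) (hBn t ht0 ht1) ?_
    intro h
    rcases (C.dis A t h).2 with h' | h' <;> linarith
  obtain ⟨δ₃, hδ₃, hn3⟩ := or_near (φ := fun t => f (Q2 r (a A) (b t)))
    (ψ := fun t => g (Q4 r (a A) (b t)))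
    (C.Sa.Fc.comp (Q2_cont continuous_const C.Sb.lb.cont))
    (C.Sb.Fc.comp (Q4_cont continuous_const C.Sb.lb.cont)) (k2 0 le_rfl hB0.le)
  obtain ⟨ε₀, hε₀, hε₁, hε₂⟩ : ∃ ε₀ > 0, ε₀ < δ₂ ∧ ε₀ < δ₃ :=
    ⟨min δ₂ δ₃ / 2, half_pos (lt_min hδ₂ hδ₃),
      (half_lt_self (lt_min hδ₂ hδ₃)).trans_le (min_le_left _ _),
      (half_lt_self (lt_min hδ₂ hδ₃)).trans_le (min_le_right _ _)⟩
  refine ⟨A, B, ε₀, hA0, by linarith, hB0, hBh, hε₀, ?_, ?_⟩
  · intro s h3 h4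
    exact hn2 s (abs_lt.2 ⟨by linarith, by linarith⟩)
  · intro t h3 h4
    rcases le_or_gt 0 t with h | h
    · exact k2 t h h4
    · exact hn3 t (abs_lt.2 ⟨by linarith, by linarith⟩)

lemma exists_rho {τ u : ℝ} (hτ : τ < 0) (hu : 0 < u) : ∃ ρ, 0 < ρ ∧ ρ < 1 ∧ τ + ρ * u < 0 := by
  refine ⟨-τ / (-τ + u), div_pos (by linarith) (by linarith), ?_, ?_⟩
  · rw [div_lt_one (by linarith)]; linarith
  · have h : τ + -τ / (-τ + u) * u = -(τ ^ 2) / (-τ + u) := by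
      have : -τ + u ≠ 0 := by linarith
      field_simp; ring
    rw [h]
    apply div_neg_of_neg_of_pos _ (by linarith)
    have := sq_pos_of_neg hτ
    linarith

/-- a vertex on the left tail -/
lemma side {a₁ a₂ : ℝ → ℂ} {F₁ F₂ : ℂ → ℝ} (S₁ : Sd a₁ F₁) (S₂ : Sd a₂ F₂) (hr : 0 < r) {τ : ℝ}
    (hτ : τ < 0) (hT : ∀ s s', τ < s → τ < s' → 0 < T (a₁ s - τ) (a₂ s' - τ)) {w : ℂ}
    (hw : 0 < (w + r * Complex.I * w).re) :
    ¬ (0 ≤ F₁ (τ + w) ∧ F₂ (τ + r * Complex.I * w) ≤ 0) := by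
  rintro ⟨h1, h2⟩
  have hw' : r * w.im < w.re := by
    simp at hw
    linarith
  have er : ((τ : ℂ) + r * Complex.I * w).re = τ - r * w.im := by simp; ring
  have ei : ((τ : ℂ) + r * Complex.I * w).im = r * w.re := by simp
  rcases le_or_gt 0 w.im with hi | hi
  · have h3 := mul_nonneg hr.le hi
    have : 0 < F₂ (τ + r * Complex.I * w) := by
      apply S₂.Fp
      · left; rw [er]; linarith
      · rw [ei]; exact mul_pos hr (by linarith)
    linarith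
  rcases le_or_gt w.re 0 with hre | hre
  · have : F₁ (τ + w) < 0 := by
      apply S₁.Fn
      · left; simp; linarith
      · simpa using hi
    linarith
  obtain ⟨ρ, hρ, hρ0⟩ : ∃ ρ : ℝ, 0 < ρ ∧ F₁ (τ + ρ * w) = 0 := by
    obtain ⟨ρ₀, g0, g1, g2⟩ := exists_rho hτ hre
    have hc : Continuous fun ρ : ℝ => F₁ (τ + ρ * w) := S₁.Fc.comp (by fun_prop)
    have h3 : F₁ (τ + ρ₀ * w) < 0 := by
      apply S₁.Fn
      · left; simp; linarith
      · simp; exact mul_neg_of_pos_of_neg g0 hi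
    obtain ⟨ρ, hρ, h4⟩ := intermediate_value_Icc g1.le hc.continuousOn
      (show (0:ℝ) ∈ Icc _ _ from ⟨h3.le, by simpa using h1⟩)
    exact ⟨ρ, g0.trans_le hρ.1, h4⟩
  obtain ⟨ρ', hρ', hρ0'⟩ : ∃ ρ : ℝ, 0 < ρ ∧ F₂ (τ + ρ * (r * Complex.I * w)) = 0 := by
    have hu : 0 < r * (-w.im) := mul_pos hr (by linarith)
    obtain ⟨ρ₀, g0, g1, g2⟩ := exists_rho hτ hu
    have hc : Continuous fun ρ : ℝ => F₂ (τ + ρ * (r * Complex.I * w)) := S₂.Fc.comp (by fun_prop)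
    have h3 : 0 < F₂ (τ + ρ₀ * (r * Complex.I * w)) := by
      apply S₂.Fp
      · left; simp; linarith
      · simp; exact mul_pos g0 (mul_pos hr hre)
    obtain ⟨ρ, hρ, h4⟩ := intermediate_value_Icc' g1.le hc.continuousOn
      (show (0:ℝ) ∈ Icc _ _ from ⟨by simpa using h2, h3.le⟩)
    exact ⟨ρ, g0.trans_le hρ.1, h4⟩
  obtain ⟨s, hs⟩ := (S₁.Fz _).1 hρ0
  obtain ⟨s', hs'⟩ := (S₂.Fz _).1 hρ0'
  have k1 : τ < s := by
    by_contra hc
    push Not at hc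
    rw [S₁.lb.left s (by linarith)] at hs
    have := congrArg Complex.im hs
    simp at this
    rcases this with h | h <;> linarith
  have k2 : τ < s' := by
    by_contra hc
    push Not at hc
    rw [S₂.lb.left s' (by linarith)] at hs'
    have := congrArg Complex.im hs'
    simp at this
    rcases this with h | h | h <;> linarith
  have h5 := hT s s' k1 k2
  rw [hs, hs'] at h5
  have h6 : T ((τ : ℂ) + ρ * w - τ) ((τ : ℂ) + ρ' * (r * Complex.I * w) - τ) = 0 := by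
    simp [T]; ring
  linarith

lemma Cf.conf (C : Cf a b f g) : Conf a b g where
  la := C.Sa.lb
  lb := C.Sb.lb
  dis := C.dis
  hp := C.hp
  hq := C.hq
  Fc := C.Sb.Fc
  Fz := C.Sb.Fz
  Fp := C.Sb.Fp
  Fn := C.Sb.Fn

lemma U_left (C : Cf a b f g) (hr : 0 < r) {τ t : ℝ} (hτ : τ < 0) (ht : τ < t) :
    ¬ (0 ≤ f (Q2 r (a τ) (b t)) ∧ g (Q4 r (a τ) (b t)) ≤ 0) := by
  have h := side C.Sa C.Sb hr hτ (fun s s' h h' => hleft (Cf.conf C) hτ h h')
    (w := wd r (a τ) (b t)) (by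
      rw [wd_mul, C.Sa.lb.left τ hτ.le]
      have := re_gt C.Sb.lb hτ ht
      simpa using this)
  unfold Q2 Q4
  rw [C.Sa.lb.left τ hτ.le] at h ⊢
  exact h

lemma D_left (C : Cf a b f g) (hr : 0 < r) {τ s : ℝ} (hτ : τ < 0) (hs : τ < s) :
    ¬ (f (Q2 r (a s) (b τ)) ≤ 0 ∧ 0 ≤ g (Q4 r (a s) (b τ))) := by
  have h := side C.Sb C.Sa hr hτ
    (fun s s' h h' => by rw [T_symm]; exact hleft (Cf.conf C) hτ h' h)
    (w := - wd r (a s) (b τ)) (by
      have e : -wd r (a s) (b τ) + r * Complex.I * -wd r (a s) (b τ) = a s - b τ := by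
        linear_combination - wd_mul r (a s) (b τ)
      rw [e, C.Sb.lb.left τ hτ.le]
      have := re_gt C.Sa.lb hτ hs
      simpa using this)
  have e1 : Q2 r (a s) (b τ) = τ + r * Complex.I * -wd r (a s) (b τ) := by
    rw [← C.Sb.lb.left τ hτ.le]
    linear_combination Q2_add r (a s) (b τ)
  have e2 : Q4 r (a s) (b τ) = τ + -wd r (a s) (b τ) := by
    rw [← C.Sb.lb.left τ hτ.le]
    linear_combination Q4_add r (a s) (b τ)
  rw [e1, e2]
  rintro ⟨h1, h2⟩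
  exact h ⟨h2, h1⟩

/-- rotation by 180 degrees -/
noncomputable def rot (a : ℝ → ℂ) (t : ℝ) : ℂ := 1 - a (1 - t)

lemma Lin.rot (L : Lin a) : Lin (rot a) where
  cont := by
    have := L.cont
    unfold Diag2.rot
    fun_prop
  left t ht := by
    unfold Diag2.rot
    rw [L.right (1 - t) (by linarith)]; push_cast; ring
  right t ht := by
    unfold Diag2.rot
    rw [L.left (1 - t) (by linarith)]; push_cast; ring
  re0 t ht := by
    have := L.re1 (1 - t) ⟨by linarith [ht.2], by linarith [ht.1]⟩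
    simp [Diag2.rot]
    exact this
  re1 t ht := by
    have := L.re0 (1 - t) ⟨by linarith [ht.2], by linarith [ht.1]⟩
    simp [Diag2.rot]
    exact this

lemma Sd.rot (S : Sd b g) : Sd (rot b) (fun z => - g (1 - z)) where
  lb := Lin.rot S.lb
  Fc := (S.Fc.comp (by fun_prop)).neg
  Fz z := by
    rw [neg_eq_zero, S.Fz]
    constructor
    · rintro ⟨t, ht⟩
      exact ⟨1 - t, by unfold Diag2.rot; rw [sub_sub_cancel, ht, sub_sub_cancel]⟩
    · rintro ⟨t, ht⟩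
      exact ⟨1 - t, by rw [← ht]; unfold Diag2.rot; rw [sub_sub_cancel]⟩
  Fp z hz hi := by
    rw [neg_pos]
    apply S.Fn
    · simp
      rcases hz with h | h
      · right; linarith
      · left; linarith
    · simpa using hi
  Fn z hz hi := by
    rw [neg_neg_iff_pos]
    apply S.Fp
    · simp
      rcases hz with h | h
      · right; linarith
      · left; linarith
    · simpa using hi

lemma Cf.rot (C : Cf a b f g) : Cf (rot b) (rot a) (fun z => - g (1 - z)) (fun z => - f (1 - z)) where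
  Sa := Sd.rot C.Sb
  Sb := Sd.rot C.Sa
  dis s s' h := by
    unfold Diag2.rot at h
    have h1 : a (1 - s') = b (1 - s) := by linear_combination h
    obtain ⟨h1, h2⟩ := C.dis _ _ h1
    refine ⟨by linarith, ?_⟩
    rcases h2 with h2 | h2
    · right; linarith
    · left; linarith
  hp s hs s' hs' := by
    have := C.hq (1 - s') ⟨by linarith [hs'.2], by linarith [hs'.1]⟩ (1 - s)
      ⟨by linarith [hs.2], by linarith [hs.1]⟩
    simp [T, Diag2.rot] at this ⊢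
    linarith
  hq s hs s' hs' := by
    have := C.hp (1 - s') ⟨by linarith [hs'.2], by linarith [hs'.1]⟩ (1 - s)
      ⟨by linarith [hs.2], by linarith [hs.1]⟩
    simp [T, Diag2.rot] at this ⊢
    linarith

lemma wd_rot (x y : ℂ) : wd r (1 - y) (1 - x) = wd r x y := by
  unfold wd; ring

lemma Q2_rot (x y : ℂ) : Q2 r (1 - y) (1 - x) = 1 - Q4 r x y := by
  have := Q4_add r x y
  unfold Q2
  rw [wd_rot]
  linear_combination this

lemma Q4_rot (x y : ℂ) : Q4 r (1 - y) (1 - x) = 1 - Q2 r x y := by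
  have := Q2_add r x y
  unfold Q4
  rw [wd_rot]
  linear_combination this

/-- no vertex is on the tails -/
lemma inside {F : ℂ → ℝ} (C : Conf a b F) (hr : 0 < r) {s₁ s₂ s₃ s₄ : ℝ} {w : ℂ} (hw0 : w ≠ 0)
    (e1 : a s₂ = a s₁ + w) (e2 : b s₃ = a s₁ + w + r * Complex.I * w)
    (e3 : b s₄ = a s₁ + r * Complex.I * w) :
    ∃ s₁ ∈ Icc (0:ℝ) 1, ∃ s₂ ∈ Icc (0:ℝ) 1, ∃ s₃ ∈ Icc (0:ℝ) 1, ∃ s₄ ∈ Icc (0:ℝ) 1,
      ∃ w : ℂ, w ≠ 0 ∧ a s₂ = a s₁ + w ∧
      b s₃ = a s₁ + w + r * Complex.I * w ∧ b s₄ = a s₁ + r * Complex.I * w := by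
  have hmin : 0 ≤ min s₁ (min s₂ (min s₃ s₄)) := by
    by_contra hcon
    push Not at hcon
    set τ := min s₁ (min s₂ (min s₃ s₄)) with hτ
    have t1 : τ ≤ s₁ := min_le_left _ _
    have t2 : τ ≤ s₂ := (min_le_right _ _).trans (min_le_left _ _)
    have t3 : τ ≤ s₃ := (min_le_right _ _).trans ((min_le_right _ _).trans (min_le_left _ _))
    have t4 : τ ≤ s₄ := (min_le_right _ _).trans ((min_le_right _ _).trans (min_le_right _ _))
    refine Tails.contra (P := fun s => τ ≤ s) τ (C.la.left τ hcon.le) (C.lb.left τ hcon.le)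
      (fun s s' h h' n n' => hleft C hcon (lt_of_le_of_ne h (Ne.symm n))
        (lt_of_le_of_ne h' (Ne.symm n'))) s₁ s₂ s₃ s₄ w hw0 hr e1 e2 e3 t1 t2 t3 t4 ?_
    rcases min_choice s₁ (min s₂ (min s₃ s₄)) with h | h
    · exact Or.inl (by rw [hτ, h])
    · rcases min_choice s₂ (min s₃ s₄) with h' | h'
      · exact Or.inr (Or.inl (by rw [hτ, h, h']))
      · rcases min_choice s₃ s₄ with h'' | h''
        · exact Or.inr (Or.inr (Or.inl (by rw [hτ, h, h', h''])))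
        · exact Or.inr (Or.inr (Or.inr (by rw [hτ, h, h', h''])))
  have hmax : max s₁ (max s₂ (max s₃ s₄)) ≤ 1 := by
    by_contra hcon
    push Not at hcon
    set τ := max s₁ (max s₂ (max s₃ s₄)) with hτ
    have t1 : s₁ ≤ τ := le_max_left _ _
    have t2 : s₂ ≤ τ := (le_max_left _ _).trans (le_max_right _ _)
    have t3 : s₃ ≤ τ := (le_max_left _ _).trans ((le_max_right _ _).trans (le_max_right _ _))
    have t4 : s₄ ≤ τ := (le_max_right _ _).trans ((le_max_right _ _).trans (le_max_right _ _))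
    refine Tails.contra (P := fun s => s ≤ τ) τ (C.la.right τ hcon.le) (C.lb.right τ hcon.le)
      (fun s s' h h' n n' => hright C hcon (lt_of_le_of_ne h n) (lt_of_le_of_ne h' n'))
      s₁ s₂ s₃ s₄ w hw0 hr e1 e2 e3 t1 t2 t3 t4 ?_
    rcases max_choice s₁ (max s₂ (max s₃ s₄)) with h | h
    · exact Or.inl (by rw [hτ, h])
    · rcases max_choice s₂ (max s₃ s₄) with h' | h'
      · exact Or.inr (Or.inl (by rw [hτ, h, h']))
      · rcases max_choice s₃ s₄ with h'' | h''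
        · exact Or.inr (Or.inr (Or.inl (by rw [hτ, h, h', h''])))
        · exact Or.inr (Or.inr (Or.inr (by rw [hτ, h, h', h''])))
  simp only [le_min_iff] at hmin
  simp only [max_le_iff] at hmax
  exact ⟨s₁, ⟨hmin.1, hmax.1⟩, s₂, ⟨hmin.2.1, hmax.2.1⟩, s₃, ⟨hmin.2.2.1, hmax.2.2.1⟩, s₄,
    ⟨hmin.2.2.2, hmax.2.2.2⟩, w, hw0, e1, e2, e3⟩

/-- **The theorem for normalised arcs**, the upper one simple at `0` and the lower one simple at
`1`. -/
theorem diag_thm (C : Cf a b f g) (hr : 0 < r) (Ep : EndQ a b r) (Eq : EndQ (rot b) (rot a) r) :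
    ∃ s₁ ∈ Icc (0:ℝ) 1, ∃ s₂ ∈ Icc (0:ℝ) 1, ∃ s₃ ∈ Icc (0:ℝ) 1, ∃ s₄ ∈ Icc (0:ℝ) 1,
      ∃ w : ℂ, w ≠ 0 ∧ a s₂ = a s₁ + w ∧
      b s₃ = a s₁ + w + r * Complex.I * w ∧ b s₄ = a s₁ + r * Complex.I * w := by
  obtain ⟨A, B, e₁, hA0, hA1, hB0, hB1, he1, hp1, hp2⟩ := path_p C hr Ep
  obtain ⟨A', B', e₂, hA0', hA1', hB0', hB1', he2, hq1, hq2⟩ := path_p (Cf.rot C) hr Eq
  obtain ⟨ε, hε, h1, h2, h3, h4, h5, h6⟩ : ∃ ε > 0, ε ≤ e₁ ∧ ε ≤ e₂ ∧ ε < A ∧ ε < B ∧ ε < A' ∧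
      ε < B' := by
    have hm : 0 < min (min e₁ e₂) (min (min A B) (min A' B')) :=
      lt_min (lt_min he1 he2) (lt_min (lt_min hA0 hB0) (lt_min hA0' hB0'))
    have i1 : min (min e₁ e₂) (min (min A B) (min A' B')) ≤ min e₁ e₂ := min_le_left _ _
    have i2 : min (min e₁ e₂) (min (min A B) (min A' B')) ≤ min (min A B) (min A' B') :=
      min_le_right _ _
    refine ⟨min (min e₁ e₂) (min (min A B) (min A' B')) / 2, half_pos hm, ?_, ?_, ?_, ?_, ?_, ?_⟩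
    · have := i1.trans (min_le_left _ _); linarith
    · have := i1.trans (min_le_right _ _); linarith
    · have := (i2.trans (min_le_left _ _)).trans (min_le_left _ _); linarith
    · have := (i2.trans (min_le_left _ _)).trans (min_le_right _ _); linarith
    · have := (i2.trans (min_le_right _ _)).trans (min_le_left _ _); linarith
    · have := (i2.trans (min_le_right _ _)).trans (min_le_right _ _); linarith
  have ca := C.Sa.lb.cont
  have cb := C.Sb.lb.cont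
  have ec : Continuous fun x : ℝ × ℝ => f (Q2 r (a x.1) (b x.2)) :=
    C.Sa.Fc.comp (by unfold Q2 wd; fun_prop)
  have vc : Continuous fun x : ℝ × ℝ => g (Q4 r (a x.1) (b x.2)) :=
    C.Sb.Fc.comp (by unfold Q4 wd; fun_prop)
  have rq : ∀ s t : ℝ, - g (1 - Q2 r (Diag2.rot b s) (Diag2.rot a t)) =
      - g (Q4 r (a (1 - t)) (b (1 - s))) := by
    intro s t
    unfold Diag2.rot
    rw [Q2_rot, sub_sub_cancel]
  have rf : ∀ s t : ℝ, - f (1 - Q4 r (Diag2.rot b s) (Diag2.rot a t)) =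
      - f (Q2 r (a (1 - t)) (b (1 - s))) := by
    intro s t
    unfold Diag2.rot
    rw [Q4_rot, sub_sub_cancel]
  simp only [rq, rf, neg_pos] at hq1 hq2
  obtain ⟨s, t, hE, hV, hn1, hn2⟩ := Quad.quad ec vc hε (A := A) (B := B) (x' := 1 - B')
    (y' := 1 - A') (by linarith) h3 hA1 h4 hB1 (by linarith) (by linarith) (by linarith)
    (by linarith)
    (fun t ht1 ht2 => U_left C hr (by linarith) (by linarith))
    (by
      intro s hs1 hs2
      have := U_left (Cf.rot C) hr (τ := -ε) (t := 1 - s) (by linarith) (by linarith)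
      rw [rq, rf, sub_sub_cancel, sub_neg_eq_add] at this
      rintro ⟨k1, k2⟩
      exact this ⟨by linarith, by linarith⟩)
    (fun s hs1 hs2 => D_left C hr (by linarith) (by linarith))
    (by
      intro t ht1 ht2
      have := D_left (Cf.rot C) hr (τ := -ε) (s := 1 - t) (by linarith) (by linarith)
      rw [rq, rf, sub_sub_cancel, sub_neg_eq_add] at this
      rintro ⟨k1, k2⟩
      exact this ⟨by linarith, by linarith⟩)
    (fun s hs1 hs2 => hp1 s (by linarith) hs2)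
    (fun t ht1 ht2 => hp2 t (by linarith) ht2)
    (by
      intro t ht1 ht2
      have := hq1 (1 - t) (by linarith) (by linarith)
      rw [sub_sub_cancel] at this
      exact this.symm)
    (by
      intro s hs1 hs2
      have := hq2 (1 - s) (by linarith) (by linarith)
      rw [sub_sub_cancel] at this
      exact this.symm)
  obtain ⟨s₂, hs₂⟩ := (C.Sa.Fz _).1 hE
  obtain ⟨s₄, hs₄⟩ := (C.Sb.Fz _).1 hV
  simp only at hs₂ hs₄
  have hne : a s ≠ b t := by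
    intro h
    obtain ⟨h7, h8⟩ := C.dis s t h
    rcases h8 with h8 | h8
    · exact hn1 ⟨h8, by linarith⟩
    · exact hn2 ⟨h8, by linarith⟩
  have hwm := wd_mul r (a s) (b t)
  have hw0 : wd r (a s) (b t) ≠ 0 := by
    intro h
    rw [h] at hwm
    apply hne
    linear_combination hwm
  refine inside (Cf.conf C) hr (s₁ := s) (s₂ := s₂) (s₃ := t) (s₄ := s₄) hw0 hs₂ ?_ hs₄
  linear_combination -hwm

end Pool.Agent.J4H19.Diag2
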