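import Mathlib
import Pool.Agent.J4H19.Diag2

/-! The theorem for normalised arcs, at each end point one of which is simple. -/

set_option autoImplicit false

open Set Filter Topology

namespace Pool.Agent.J4H19.Diag3

open Pool.Agent.J4H19.Arcs (T)
open Pool.Agent.J4H19.Side (Lin)
open Pool.Agent.J4H19.Ends
open Pool.Agent.J4H19.Loc
open Pool.Agent.J4H19.CornerQ
open Pool.Agent.J4H19.Diag
open Pool.Agent.J4H19.Diag2
open Pool.Agent.J4H19.Wild (rfl' tail tail' Conf.refl rfl'_P3 rfl'_P4)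
open scoped ComplexConjugate

variable {a b : ℝ → ℂ} {f g F : ℂ → ℝ} {r : ℝ}

/-- **The theorem for normalised arcs**, the upper one simple at both end points. -/
theorem adj_thm (C : Conf a b F) (hinj : Function.Injective a) (hr : 0 < r)
    (Ep : EndQ a b r) (Eq : EndQ (rfl' a) (rfl' b) r) :
    ∃ s₁ ∈ Icc (0:ℝ) 1, ∃ s₂ ∈ Icc (0:ℝ) 1, ∃ s₃ ∈ Icc (0:ℝ) 1, ∃ s₄ ∈ Icc (0:ℝ) 1,
      ∃ w : ℂ, w ≠ 0 ∧ a s₂ = a s₁ + w ∧
      b s₃ = a s₁ + w + r * Complex.I * w ∧ b s₄ = a s₁ + r * Complex.I * w := by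
  obtain ⟨hneg, tp, htp0, htp1, hcp⟩ := cornerQ C hr Ep
  obtain ⟨-, tq', htq0, htq1, hcq⟩ := cornerQ (Conf.refl C) hr Eq
  set tq := 1 - tq' with htq
  set e : ℝ × ℝ → ℝ := fun x => F (P3 r (a x.1) (a x.2)) with he
  set v : ℝ × ℝ → ℝ := fun x => F (P4 r (a x.1) (a x.2)) with hv
  have ca := C.la.cont
  have ec : Continuous e := C.Fc.comp (by unfold P3; fun_prop)
  have vc : Continuous v := C.Fc.comp (by unfold P4; fun_prop)
  have diag : ∀ t, 0 < t → t < 1 → e (t, t) < 0 ∧ v (t, t) < 0 := by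
    intro t h0 h1
    have e1 : P3 r (a t) (a t) = a t := by simp [P3]
    have e2 : P4 r (a t) (a t) = a t := by simp [P4]
    simp only [he, hv, e1, e2]
    exact ⟨hneg t ⟨h0, h1⟩, hneg t ⟨h0, h1⟩⟩
  have tl : ∀ s t, s < 0 → s < t → 0 < v (s, t) := fun s t h1 h2 => tail C hr h1 h2
  have tr : ∀ s t, 1 < t → s < t → 0 < e (s, t) := fun s t h1 h2 => tail' C hr h1 h2
  obtain ⟨s₁, s₂, hs1, hs2, ht1, ht2, hst, hE, hV⟩ := Tri.tri ec vc (tp := tp) (tq := tq)
    (by linarith) (by linarith) (by linarith)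
    (fun t h1 h2 => diag t (by linarith) (by linarith))
    (by
      rintro s h1 h2 ⟨h3, h4⟩
      rcases lt_or_ge s 0 with h5 | h5
      · have := tl s tp h5 (by linarith)
        linarith
      · rcases h2.eq_or_lt with h6 | h6
        · rw [h6] at h3
          have := (diag tp htp0 (by linarith)).1
          linarith
        · exact hcp s h5 h6 ⟨h3, h4⟩)
    (by
      rintro t h1 h2 ⟨h3, h4⟩
      have := tl (-1) t (by norm_num) (by linarith)
      linarith)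
    (by
      rintro t h1 h2 ⟨h3, h4⟩
      rcases lt_or_ge 1 t with h5 | h5
      · have := tr tq t h5 (by linarith)
        linarith
      · rcases h1.eq_or_lt with h6 | h6
        · rw [← h6] at h4
          have := (diag tq (by linarith) (by linarith)).2
          linarith
        · apply hcq (1 - t) (by linarith) (by linarith)
          rw [rfl'_P3, rfl'_P4, sub_sub_cancel]
          exact ⟨h4, h3⟩)
    (by
      rintro s h1 h2 ⟨h3, h4⟩
      have := tr s 2 (by norm_num) (by linarith)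
      linarith)
    ⟨tr (-1) 2 (by norm_num) (by norm_num), tl (-1) 2 (by norm_num) (by norm_num)⟩
  obtain ⟨s₃, hs₃⟩ := (C.Fz _).1 hE
  obtain ⟨s₄, hs₄⟩ := (C.Fz _).1 hV
  have hw0 : a s₂ - a s₁ ≠ 0 := sub_ne_zero.2 fun h => hst.ne (hinj h).symm
  have e1 : a s₂ = a s₁ + (a s₂ - a s₁) := by ring
  have e2 : b s₃ = a s₁ + (a s₂ - a s₁) + r * Complex.I * (a s₂ - a s₁) := by
    rw [hs₃]
    show a s₂ + r * Complex.I * (a s₂ - a s₁) = _
    ring
  exact inside C hr (s₁ := s₁) (s₂ := s₂) (s₃ := s₃) (s₄ := s₄) hw0 e1 e2 hs₄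

lemma Lin.cj (L : Lin a) : Lin (fun t => conj (a t)) :=
  ⟨by have := L.cont; fun_prop, fun t ht => by rw [L.left t ht, Complex.conj_ofReal],
    fun t ht => by rw [L.right t ht, Complex.conj_ofReal],
    fun t ht => by simpa using L.re0 t ht, fun t ht => by simpa using L.re1 t ht⟩

lemma Sd.cj (S : Sd b g) : Sd (fun t => conj (b t)) (fun z => - g (conj z)) where
  lb := Lin.cj S.lb
  Fc := (S.Fc.comp (by fun_prop)).neg
  Fz z := by
    rw [neg_eq_zero, S.Fz]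
    constructor
    · rintro ⟨t, ht⟩
      exact ⟨t, by simp [ht]⟩
    · rintro ⟨t, ht⟩
      exact ⟨t, by rw [← ht]; simp⟩
  Fp z hz hi := by
    rw [neg_pos]
    apply S.Fn
    · simpa using hz
    · simpa using hi
  Fn z hz hi := by
    rw [neg_lt_zero]
    apply S.Fp
    · simpa using hz
    · simpa using hi

lemma Cf.cj (C : Cf a b f g) : Cf (fun t => conj (b t)) (fun t => conj (a t))
    (fun z => - g (conj z)) (fun z => - f (conj z)) where
  Sa := Sd.cj C.Sb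
  Sb := Sd.cj C.Sa
  dis s s' h := by
    obtain ⟨h1, h2⟩ := C.dis s' s ((starRingEnd ℂ).injective h).symm
    exact ⟨h1.symm, h1 ▸ h2⟩
  hp s hs s' hs' := by
    have := C.hp s' hs' s hs
    simp [T] at this ⊢
    linarith
  hq s hs s' hs' := by
    have := C.hq s' hs' s hs
    simp [T] at this ⊢
    linarith

lemma rfl'_cj : rfl' (fun t => conj (a t)) = rot a := by
  funext t; simp [rfl', rot]

lemma rot_cj : rot (fun t => conj (a t)) = rfl' a := by
  funext t; simp [rfl', rot]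

/-- **The theorem for normalised arcs.** -/
theorem four (C : Cf a b f g) (ha : Function.Injective a) (hb : Function.Injective b) (hr : 0 < r)
    (Ep : EndQ a b r ∨ EndQ (fun t => conj (b t)) (fun t => conj (a t)) r)
    (Eq : EndQ (rfl' a) (rfl' b) r ∨ EndQ (rot b) (rot a) r) :
    ∃ s₁ ∈ Icc (0:ℝ) 1, ∃ s₂ ∈ Icc (0:ℝ) 1, ∃ s₃ ∈ Icc (0:ℝ) 1, ∃ s₄ ∈ Icc (0:ℝ) 1,
      ∃ w : ℂ, w ≠ 0 ∧ a s₂ = a s₁ + w ∧
      b s₃ = a s₁ + w + r * Complex.I * w ∧ b s₄ = a s₁ + r * Complex.I * w := by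
  have key : (∃ s₁ ∈ Icc (0:ℝ) 1, ∃ s₂ ∈ Icc (0:ℝ) 1, ∃ s₃ ∈ Icc (0:ℝ) 1, ∃ s₄ ∈ Icc (0:ℝ) 1,
      ∃ w : ℂ, w ≠ 0 ∧ conj (b s₂) = conj (b s₁) + w ∧
      conj (a s₃) = conj (b s₁) + w + r * Complex.I * w ∧
      conj (a s₄) = conj (b s₁) + r * Complex.I * w) →
      ∃ s₁ ∈ Icc (0:ℝ) 1, ∃ s₂ ∈ Icc (0:ℝ) 1, ∃ s₃ ∈ Icc (0:ℝ) 1, ∃ s₄ ∈ Icc (0:ℝ) 1,
      ∃ w : ℂ, w ≠ 0 ∧ a s₂ = a s₁ + w ∧
      b s₃ = a s₁ + w + r * Complex.I * w ∧ b s₄ = a s₁ + r * Complex.I * w := by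
    rintro ⟨s₁, hs₁, s₂, hs₂, s₃, hs₃, s₄, hs₄, w, hw, e1, e2, e3⟩
    have cc : ∀ z w : ℂ, conj z = w → z = conj w := by
      intro z w h; rw [← h]; simp
    replace e1 := cc _ _ e1
    replace e2 := cc _ _ e2
    replace e3 := cc _ _ e3
    simp at e1 e2 e3
    refine ⟨s₄, hs₄, s₃, hs₃, s₂, hs₂, s₁, hs₁, conj w, (map_ne_zero _).2 hw, ?_, ?_, ?_⟩
    · linear_combination e2 - e3
    · linear_combination e1 - e3
    · linear_combination -e3
  rcases Ep with Ep | Ep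
  · rcases Eq with Eq | Eq
    · exact adj_thm (Cf.conf C) ha hr Ep Eq
    · exact diag_thm C hr Ep Eq
  · rcases Eq with Eq | Eq
    · refine key (diag_thm (Cf.cj C) hr Ep ?_)
      rw [rot_cj, rot_cj]
      exact Eq
    · refine key (adj_thm (Cf.conf (Cf.cj C)) (fun s t h => hb ((starRingEnd ℂ).injective h)) hr
        Ep ?_)
      rw [rfl'_cj, rfl'_cj]
      exact Eq

/-- the higher one of the two arcs above `1 / 2` -/
lemma above (Sa : Sd a f) (hd : ∀ s s' : ℝ, a s = b s' → s = s' ∧ (s ≤ 0 ∨ 1 ≤ s)) (Lb : Lin b)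
    {s : ℝ} (hs : s ∈ Icc (0:ℝ) 1) (hre : (b s).re = 1 / 2)
    (hmax : ∀ t ∈ Icc (0:ℝ) 1, (a t).re = 1 / 2 → (a t).im ≤ (b s).im) : 0 < f (b s) := by
  have hs0 : 0 < s := by
    refine lt_of_le_of_ne hs.1 fun h => ?_
    rw [← h, Lb.left 0 le_rfl] at hre
    simp at hre
  have hs1 : s < 1 := by
    refine lt_of_le_of_ne hs.2 fun h => ?_
    rw [h, Lb.right 1 le_rfl] at hre
    norm_num at hre
  -- a bound for the first arc
  obtain ⟨t₀, -, hM⟩ := (isCompact_Icc (a := (0:ℝ)) (b := 1)).exists_isMaxOn ⟨0, le_rfl, zero_le_one⟩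
    (Complex.continuous_im.comp Sa.lb.cont).continuousOn
  have hM' : ∀ t, (a t).im ≤ max (a t₀).im 0 := by
    intro t
    by_cases ht : t ∈ Icc (0:ℝ) 1
    · exact (hM ht).trans (le_max_left _ _)
    · rw [Wild.out Sa.lb ht, Complex.ofReal_im]
      exact le_max_right _ _
  generalize max (a t₀).im 0 = M at hM'
  obtain ⟨H, hH0, hH1, hH2⟩ : ∃ H : ℝ, 0 < H ∧ M < (b s).im + H ∧ 0 < (b s).im + H := by
    refine ⟨|M| + |(b s).im| + 1, by positivity, ?_, ?_⟩
    · have := le_abs_self M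
      have := neg_abs_le (b s).im
      linarith
    · have := abs_nonneg M
      have := neg_abs_le (b s).im
      linarith
  have h1 : 0 < f (b s + (H : ℂ) * Complex.I) := by
    have hc : Continuous fun x : ℝ => f (b s + (H : ℂ) * Complex.I + (x : ℂ)) :=
      Sa.Fc.comp (by fun_prop)
    have := const_pos hc (x := -1) (y := 0) ?_ ?_
    · simpa using this
    · intro x _ h
      obtain ⟨t, ht⟩ := (Sa.Fz _).1 h
      have := hM' t
      rw [ht] at this
      simp at this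
      linarith
    · apply Sa.Fp
      · left
        simp [hre]
        norm_num
      · simp
        linarith
  have hc : Continuous fun x : ℝ => f (b s + (x : ℂ) * Complex.I) := Sa.Fc.comp (by fun_prop)
  have := const_pos hc (x := H) (y := 0) ?_ h1
  · simpa using this
  · intro x hx h
    rw [uIcc_comm, uIcc_of_le hH0.le] at hx
    obtain ⟨t, ht⟩ := (Sa.Fz _).1 h
    have e1 : (a t).re = 1 / 2 := by rw [ht]; simp [hre]
    have e2 : (a t).im = (b s).im + x := by rw [ht]; simp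
    have htI : t ∈ Icc (0:ℝ) 1 := by
      by_contra hc
      rw [Wild.out Sa.lb hc, Complex.ofReal_re] at e1
      exact hc ⟨by linarith, by linarith⟩
    have h3 := hmax t htI e1
    have h4 : x = 0 := le_antisymm (by linarith) hx.1
    rw [h4] at ht
    simp at ht
    rcases (hd t s ht).2 with h5 | h5
    · have := (hd t s ht).1; linarith
    · have := (hd t s ht).1; linarith

lemma exists_top (L : Lin a) : ∃ s ∈ Icc (0:ℝ) 1, (a s).re = 1 / 2 ∧
    ∀ t ∈ Icc (0:ℝ) 1, (a t).re = 1 / 2 → (a t).im ≤ (a s).im := by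
  have rc : Continuous fun t => (a t).re := Complex.continuous_re.comp L.cont
  have ic : Continuous fun t => (a t).im := Complex.continuous_im.comp L.cont
  have hK : IsCompact {t | t ∈ Icc (0:ℝ) 1 ∧ (a t).re = 1 / 2} :=
    isCompact_Icc.inter_right (isClosed_eq rc continuous_const)
  obtain ⟨t₁, h1, h2⟩ : ∃ t ∈ Icc (0:ℝ) 1, (a t).re = 1 / 2 := by
    have := intermediate_value_Icc (zero_le_one' ℝ) rc.continuousOn
    have h3 : (1 / 2 : ℝ) ∈ Icc (a 0).re (a 1).re := by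
      rw [L.left 0 le_rfl, L.right 1 le_rfl]
      simp
      norm_num
    obtain ⟨t, ht, h4⟩ := this h3
    exact ⟨t, ht, h4⟩
  obtain ⟨s, ⟨hs1, hs2⟩, hmax⟩ := hK.exists_isMaxOn ⟨t₁, h1, h2⟩ ic.continuousOn
  exact ⟨s, hs1, hs2, fun t ht h => hmax ⟨ht, h⟩⟩

lemma half_mem (L : Lin a) {s : ℝ} (hs : s ∈ Icc (0:ℝ) 1) (h : (a s).re = 1 / 2) :
    s ∈ Ioo (0:ℝ) 1 := by
  refine ⟨lt_of_le_of_ne hs.1 fun h1 => ?_, lt_of_le_of_ne hs.2 fun h1 => ?_⟩
  · rw [← h1, L.left 0 le_rfl] at h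
    simp at h
  · rw [h1, L.right 1 le_rfl] at h
    norm_num at h

/-- One of the arcs is above the other one. -/
lemma not_neg (C : Cf a b f g) :
    ¬ ((∀ s ∈ Ioo (0:ℝ) 1, g (a s) < 0) ∧ ∀ s ∈ Ioo (0:ℝ) 1, f (b s) < 0) := by
  rintro ⟨h1, h2⟩
  obtain ⟨s, hs, hs1, hs2⟩ := exists_top C.Sa.lb
  obtain ⟨t, ht, ht1, ht2⟩ := exists_top C.Sb.lb
  rcases le_total (a s).im (b t).im with h | h
  · have := above C.Sa C.dis C.Sb.lb ht ht1 (fun x hx hx1 => (hs2 x hx hx1).trans h)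
    have := h2 t (half_mem C.Sb.lb ht ht1)
    linarith
  · have := above C.Sb (fun x y hxy => by
      obtain ⟨h3, h4⟩ := C.dis y x hxy.symm
      exact ⟨h3.symm, h3 ▸ h4⟩) C.Sa.lb hs hs1 (fun x hx hx1 => (ht2 x hx hx1).trans h)
    have := h1 s (half_mem C.Sa.lb hs hs1)
    linarith

lemma not_pos (C : Cf a b f g) :
    ¬ ((∀ s ∈ Ioo (0:ℝ) 1, 0 < g (a s)) ∧ ∀ s ∈ Ioo (0:ℝ) 1, 0 < f (b s)) := by
  rintro ⟨h1, h2⟩
  apply not_neg (Cf.cj C)
  constructor
  · intro s hs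
    simp only [Complex.conj_conj]
    linarith [h2 s hs]
  · intro s hs
    simp only [Complex.conj_conj]
    linarith [h1 s hs]

end Pool.Agent.J4H19.Diag3
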