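import Mathlib

/-! Two Lipschitz functions on a half line: a pair of points for which the outer square has both further
vertices outside. -/

set_option autoImplicit false

open Set Filter Topology

namespace Pool.Agent.J4H19.LipR

lemma taylor {F f : ℝ → ℝ} {L : ℝ} (hF : ∀ x, HasDerivAt F (f x) x)
    (hf : ∀ x y, |f x - f y| ≤ L * |x - y|) (x y : ℝ) :
    f x * (y - x) - L * (y - x) ^ 2 / 2 ≤ F y - F x := by
  obtain ⟨ψ, hψ⟩ : ∃ ψ : ℝ → ℝ, ψ = fun z => F z - F x - f x * (z - x) + L * (z - x) ^ 2 / 2 :=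
    ⟨_, rfl⟩
  have hd : ∀ z, HasDerivAt ψ (f z - f x + L * (z - x)) z := by
    intro z
    rw [hψ]
    have h1 : HasDerivAt (fun z : ℝ => z - x) 1 z := (hasDerivAt_id z).sub_const x
    have h2 : HasDerivAt (fun z : ℝ => L * (z - x) ^ 2 / 2) (L * (z - x)) z := by
      have := ((h1.pow 2).const_mul L).div_const 2
      refine this.congr_deriv ?_
      push_cast
      ring
    have h3 := (((hF z).sub_const (F x)).sub (h1.const_mul (f x))).add h2
    exact h3.congr_deriv (by ring)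
  have hdiff : Differentiable ℝ ψ := fun z => (hd z).differentiableAt
  have h0 : ψ x = 0 := by rw [hψ]; simp
  have key : 0 ≤ ψ y := by
    rcases le_total x y with h | h
    · have hm : MonotoneOn ψ (Icc x y) := by
        refine monotoneOn_of_deriv_nonneg (convex_Icc x y) hdiff.continuous.continuousOn
          hdiff.differentiableOn ?_
        intro z hz
        rw [interior_Icc] at hz
        rw [(hd z).deriv]
        have := (abs_le.1 (hf z x)).1
        rw [abs_of_pos (by linarith [hz.1] : 0 < z - x)] at this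
        linarith
      have := hm ⟨le_rfl, h⟩ ⟨h, le_rfl⟩ h
      linarith
    · have hm : AntitoneOn ψ (Icc y x) := by
        refine antitoneOn_of_deriv_nonpos (convex_Icc y x) hdiff.continuous.continuousOn
          hdiff.differentiableOn ?_
        intro z hz
        rw [interior_Icc] at hz
        rw [(hd z).deriv]
        have := (abs_le.1 (hf z x)).2
        rw [abs_of_neg (by linarith [hz.2] : z - x < 0)] at this
        linarith
      have := hm ⟨le_rfl, h⟩ ⟨h, le_rfl⟩ h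
      linarith
  rw [hψ] at key
  simp only at key
  linarith

lemma taylor' {F f : ℝ → ℝ} {L : ℝ} (hF : ∀ x, HasDerivAt F (f x) x)
    (hf : ∀ x y, |f x - f y| ≤ L * |x - y|) (x y : ℝ) :
    F y - F x ≤ f x * (y - x) + L * (y - x) ^ 2 / 2 := by
  have := taylor (F := fun z => -F z) (f := fun z => -f z) (L := L) (fun x => (hF x).neg)
    (fun x y => by
      rw [show -f x - -f y = -(f x - f y) by ring, abs_neg]; exact hf x y) x y
  linarith

/-- the functional -/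
noncomputable def phi (F G f g : ℝ → ℝ) (κ : ℝ) (s t : ℝ) : ℝ :=
  -F s - G t + F (s - (f s + g t)) + G (t - (f s + g t)) - ((t - s) ^ 2 - (f s + g t) ^ 2) / 2 +
    κ * ((s - (f s + g t)) + (t - (f s + g t)))

variable {F G f g : ℝ → ℝ} {L₁ L₂ κ : ℝ}

lemma phi_swap (s t : ℝ) : phi F G f g κ s t = phi G F g f κ t s := by
  unfold phi
  rw [show g t + f s = f s + g t by ring]
  ring

lemma step_s (hF : ∀ x, HasDerivAt F (f x) x) (hG : ∀ x, HasDerivAt G (g x) x)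
    (h10 : 0 ≤ L₁) (h11 : L₁ ≤ 1) (h20 : 0 ≤ L₂) (h21 : L₂ ≤ 1)
    (hf : ∀ x y, |f x - f y| ≤ L₁ * |x - y|) (hg : ∀ x y, |g x - g y| ≤ L₂ * |x - y|)
    (s t Δ : ℝ) :
    (f (s - (f s + g t)) - f s + (t - s) + κ) * Δ -
      (f (s - (f s + g t)) + g (t - (f s + g t)) - (f s + g t) + 2 * κ) * (f (s + Δ) - f s) -
      4 * Δ ^ 2 ≤ phi F G f g κ (s + Δ) t - phi F G f g κ s t := by
  obtain ⟨η, hη⟩ : ∃ η, η = f (s + Δ) - f s := ⟨_, rfl⟩
  obtain ⟨h, hh⟩ : ∃ h, h = f s + g t := ⟨_, rfl⟩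
  have e1 : f (s + Δ) + g t = h + η := by rw [hη, hh]; ring
  have hηa : |η| ≤ L₁ * |Δ| := by
    have := hf (s + Δ) s
    rwa [add_sub_cancel_left, ← hη] at this
  have hη2 : η ^ 2 ≤ Δ ^ 2 := by
    have h3 : |η| ≤ |Δ| := hηa.trans (by nlinarith [abs_nonneg Δ])
    exact sq_le_sq.2 h3
  have t1 := taylor' hF hf s (s + Δ)
  have t2 := taylor hF hf (s - h) (s + Δ - (h + η))
  have t3 := taylor hG hg (t - h) (t - (h + η))
  unfold phi
  rw [e1, ← hh, ← hη]
  rw [show s + Δ - s = Δ by ring] at t1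
  rw [show s + Δ - (h + η) - (s - h) = Δ - η by ring] at t2
  rw [show t - (h + η) - (t - h) = -η by ring] at t3
  have q1 : (Δ - η) ^ 2 ≤ 4 * Δ ^ 2 := by nlinarith [sq_nonneg (Δ + η)]
  have q2 : L₁ * Δ ^ 2 ≤ Δ ^ 2 := by nlinarith [sq_nonneg Δ]
  have q3 : L₁ * (Δ - η) ^ 2 ≤ (Δ - η) ^ 2 := by nlinarith [sq_nonneg (Δ - η)]
  have q4 : L₂ * (-η) ^ 2 ≤ (-η) ^ 2 := by nlinarith [sq_nonneg (-η)]
  nlinarith [sq_nonneg η]

lemma le_zero_of {a δ : ℝ} (hδ : 0 < δ) (h : ∀ Δ, 0 < Δ → Δ < δ → a ≤ 4 * Δ) : a ≤ 0 := by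
  by_contra hc
  push Not at hc
  have h1 : 0 < min (a / 8) (δ / 2) := lt_min (by positivity) (by positivity)
  have h2 := h (min (a / 8) (δ / 2)) h1 ((min_le_right _ _).trans_lt (by linarith))
  have h3 : min (a / 8) (δ / 2) ≤ a / 8 := min_le_left _ _
  linarith

/-- first order conditions in the first variable -/
lemma cond_s (hF : ∀ x, HasDerivAt F (f x) x) (hG : ∀ x, HasDerivAt G (g x) x)
    (h10 : 0 ≤ L₁) (h11 : L₁ ≤ 1) (h20 : 0 ≤ L₂) (h21 : L₂ ≤ 1)
    (hf : ∀ x y, |f x - f y| ≤ L₁ * |x - y|) (hg : ∀ x y, |g x - g y| ≤ L₂ * |x - y|)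
    {ε s t : ℝ} (hs : s ∈ Ico 0 ε)
    (hmax : ∀ s' ∈ Icc 0 ε, phi F G f g κ s' t ≤ phi F G f g κ s t) {B S : ℝ}
    (hB : B = f (s - (f s + g t)) - f s + (t - s) + κ)
    (hS : S = f (s - (f s + g t)) + g (t - (f s + g t)) - (f s + g t) + 2 * κ) :
    B ≤ L₁ * |S| ∧ (0 < s → -(L₁ * |S|) ≤ B) := by
  have hst := step_s (κ := κ) hF hG h10 h11 h20 h21 hf hg s t
  rw [← hB, ← hS] at hst
  have hη : ∀ Δ, |S * (f (s + Δ) - f s)| ≤ |S| * (L₁ * |Δ|) := by
    intro Δ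
    rw [abs_mul]
    refine mul_le_mul_of_nonneg_left ?_ (abs_nonneg _)
    have := hf (s + Δ) s
    rwa [add_sub_cancel_left] at this
  constructor
  · have : B - L₁ * |S| ≤ 0 := by
      refine le_zero_of (δ := ε - s) (by linarith [hs.2]) ?_
      intro Δ h1 h2
      have h3 := hmax (s + Δ) ⟨by linarith [hs.1], by linarith⟩
      have h4 := hst Δ
      have h5 := (abs_le.1 (hη Δ)).2
      rw [abs_of_pos h1] at h5
      have h6 : (B - L₁ * |S|) * Δ ≤ 4 * Δ * Δ := by nlinarith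
      exact le_of_mul_le_mul_right h6 h1
    linarith
  · intro hs0
    have : -B - L₁ * |S| ≤ 0 := by
      refine le_zero_of (δ := s) hs0 ?_
      intro Δ h1 h2
      have h3 := hmax (s + -Δ) ⟨by linarith, by linarith [hs.2]⟩
      have h4 := hst (-Δ)
      have h5 := (abs_le.1 (hη (-Δ))).2
      rw [abs_neg, abs_of_pos h1] at h5
      have h6 : (-B - L₁ * |S|) * Δ ≤ 4 * Δ * Δ := by nlinarith
      exact le_of_mul_le_mul_right h6 h1
    linarith

theorem exists_pt (h10 : 0 ≤ L₁) (h20 : 0 ≤ L₂) (hL : L₁ + L₂ < 1)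
    (hf : ∀ x y, |f x - f y| ≤ L₁ * |x - y|) (hg : ∀ x y, |g x - g y| ≤ L₂ * |x - y|)
    (f0 : ∀ x ≤ 0, f x = 0) (g0 : ∀ x ≤ 0, g x = 0) (fp : ∀ x, 0 < x → 0 < f x)
    (gp : ∀ x, 0 < x → 0 < g x) {ε : ℝ} (hε : 0 < ε) :
    ∃ s ∈ Ioo 0 ε, ∃ t ∈ Ioo 0 ε, f (s - (f s + g t)) - f s + (t - s) < 0 ∧
      g (t - (f s + g t)) - g t - (t - s) < 0 := by
  have h11 : L₁ ≤ 1 := by linarith
  have h21 : L₂ ≤ 1 := by linarith
  have cf : Continuous f := (LipschitzWith.of_dist_le_mul (K := ⟨L₁, h10⟩) fun x y => by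
    rw [Real.dist_eq, Real.dist_eq]; exact hf x y).continuous
  have cg : Continuous g := (LipschitzWith.of_dist_le_mul (K := ⟨L₂, h20⟩) fun x y => by
    rw [Real.dist_eq, Real.dist_eq]; exact hg x y).continuous
  obtain ⟨F, hF⟩ : ∃ F : ℝ → ℝ, ∀ x, HasDerivAt F (f x) x :=
    ⟨fun u => ∫ x in (0:ℝ)..u, f x, fun x => (cf.integral_hasStrictDerivAt 0 x).hasDerivAt⟩
  obtain ⟨G, hG⟩ : ∃ G : ℝ → ℝ, ∀ x, HasDerivAt G (g x) x :=
    ⟨fun u => ∫ x in (0:ℝ)..u, g x, fun x => (cg.integral_hasStrictDerivAt 0 x).hasDerivAt⟩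
  have cF : Continuous F := continuous_iff_continuousAt.2 fun x => (hF x).continuousAt
  have cG : Continuous G := continuous_iff_continuousAt.2 fun x => (hG x).continuousAt
  have fn : ∀ x, 0 ≤ f x := fun x => by
    rcases le_or_gt x 0 with h | h
    · rw [f0 x h]
    · exact (fp x h).le
  have gn : ∀ x, 0 ≤ g x := fun x => by
    rcases le_or_gt x 0 with h | h
    · rw [g0 x h]
    · exact (gp x h).le
  have fL : ∀ x, 0 ≤ x → f x ≤ L₁ * x := fun x hx => by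
    have := (abs_le.1 (hf x 0)).2
    rw [f0 0 le_rfl, sub_zero, sub_zero, abs_of_nonneg hx] at this
    exact this
  have gL : ∀ x, 0 ≤ x → g x ≤ L₂ * x := fun x hx => by
    have := (abs_le.1 (hg x 0)).2
    rw [g0 0 le_rfl, sub_zero, sub_zero, abs_of_nonneg hx] at this
    exact this
  -- the parameter
  obtain ⟨m, hm⟩ : ∃ m, m = min (f ε) (g ε) := ⟨_, rfl⟩
  have hm0 : 0 < m := by rw [hm]; exact lt_min (fp ε hε) (gp ε hε)
  have hmf : m ≤ f ε := by rw [hm]; exact min_le_left _ _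
  have hmg : m ≤ g ε := by rw [hm]; exact min_le_right _ _
  obtain ⟨κ, hκ⟩ : ∃ κ, κ = (1 - (L₁ + L₂)) * m ^ 2 / (8 * ε) := ⟨_, rfl⟩
  have hL' : 0 < 1 - (L₁ + L₂) := by linarith
  have hκ0 : 0 < κ := by rw [hκ]; positivity
  have hκε : κ * (8 * ε) = (1 - (L₁ + L₂)) * m ^ 2 := by rw [hκ]; field_simp
  -- the maximum
  have cphi : Continuous fun p : ℝ × ℝ => phi F G f g κ p.1 p.2 := by
    unfold phi
    fun_prop
  obtain ⟨⟨s, t⟩, ⟨hs, ht⟩, hmax⟩ := (isCompact_Icc (a := (0:ℝ)) (b := ε)).prod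
    (isCompact_Icc (a := (0:ℝ)) (b := ε)) |>.exists_isMaxOn
    ⟨(0, 0), ⟨le_rfl, hε.le⟩, ⟨le_rfl, hε.le⟩⟩ cphi.continuousOn
  simp only at hs ht
  have hmax' : ∀ s' ∈ Icc (0:ℝ) ε, ∀ t' ∈ Icc (0:ℝ) ε, phi F G f g κ s' t' ≤ phi F G f g κ s t :=
    fun s' h1 t' h2 => hmax (show ((s', t') : ℝ × ℝ) ∈ Icc (0:ℝ) ε ×ˢ Icc (0:ℝ) ε from ⟨h1, h2⟩)
  -- it exceeds the value at the corner
  have h00 : phi F G f g κ 0 0 = 0 := by
    unfold phi; rw [f0 0 le_rfl, g0 0 le_rfl]; ring_nf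
  have hpos : 0 < phi F G f g κ s t := by
    obtain ⟨x, hx⟩ : ∃ x, x = min (ε / 2) (κ * (1 - (L₁ + L₂)) / 2) := ⟨_, rfl⟩
    have hx0 : 0 < x := by rw [hx]; exact lt_min (by positivity) (by positivity)
    have hx1 : x ≤ ε / 2 := by rw [hx]; exact min_le_left _ _
    have hx2 : x ≤ κ * (1 - (L₁ + L₂)) / 2 := by rw [hx]; exact min_le_right _ _
    refine lt_of_lt_of_le ?_ (hmax' x ⟨hx0.le, by linarith⟩ x ⟨hx0.le, by linarith⟩)
    have a1 := fL x hx0.le
    have a2 := gL x hx0.le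
    obtain ⟨h, hh⟩ : ∃ h, h = f x + g x := ⟨_, rfl⟩
    have hh0 : 0 ≤ h := by rw [hh]; exact add_nonneg (fn x) (gn x)
    have hh1 : h ≤ (L₁ + L₂) * x := by rw [hh]; linarith
    have hh2 : h ≤ x := by nlinarith
    have t1 := taylor hF hf x (x - h)
    have t2 := taylor hG hg x (x - h)
    rw [show x - h - x = -h by ring] at t1 t2
    unfold phi
    rw [← hh]
    have q1 : h ^ 2 ≤ x ^ 2 := by nlinarith
    have q2 : (L₁ + L₂) * h ^ 2 ≤ h ^ 2 := by nlinarith [sq_nonneg h]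
    have q3 : (f x + g x) * h = h ^ 2 := by rw [← hh]; ring
    have q4 : κ * ((1 - (L₁ + L₂)) * x) ≤ κ * (x - h) :=
      mul_le_mul_of_nonneg_left (by linarith) hκ0.le
    have q5 : x * (2 * x) ≤ x * (κ * (1 - (L₁ + L₂))) :=
      mul_le_mul_of_nonneg_left (by linarith) hx0.le
    nlinarith
  -- upper bound
  have hub : ∀ s' t', 0 ≤ s' → s' ≤ ε → 0 ≤ t' → t' ≤ ε → phi F G f g κ s' t' ≤
      -((1 - (L₁ + L₂)) * (f s' + g t') ^ 2 / 2) + κ * (2 * ε) := by
    intro s' t' g1 g2 g3 g4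
    obtain ⟨h, hh⟩ : ∃ h, h = f s' + g t' := ⟨_, rfl⟩
    have hh0 : 0 ≤ h := by rw [hh]; exact add_nonneg (fn s') (gn t')
    have t1 := taylor' hF hf s' (s' - h)
    have t2 := taylor' hG hg t' (t' - h)
    rw [show s' - h - s' = -h by ring] at t1
    rw [show t' - h - t' = -h by ring] at t2
    unfold phi
    rw [← hh]
    have q3 : (f s' + g t') * h = h ^ 2 := by rw [← hh]; ring
    have q4 : κ * ((s' - h) + (t' - h)) ≤ κ * (2 * ε) :=
      mul_le_mul_of_nonneg_left (by linarith) hκ0.le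
    nlinarith [sq_nonneg (t' - s')]
  have hsε : s < ε := by
    refine lt_of_le_of_ne hs.2 fun h => ?_
    have := hub s t hs.1 hs.2 ht.1 ht.2
    have h2 : m ≤ f s + g t := by rw [h]; linarith [gn t]
    have h3 : m ^ 2 ≤ (f s + g t) ^ 2 := by nlinarith
    have h4 := mul_le_mul_of_nonneg_left h3 hL'.le
    nlinarith
  have htε : t < ε := by
    refine lt_of_le_of_ne ht.2 fun h => ?_
    have := hub s t hs.1 hs.2 ht.1 ht.2
    have h2 : m ≤ f s + g t := by rw [h]; linarith [fn s]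
    have h3 : m ^ 2 ≤ (f s + g t) ^ 2 := by nlinarith
    have h4 := mul_le_mul_of_nonneg_left h3 hL'.le
    nlinarith
  -- first order conditions
  obtain ⟨B₁, hB₁⟩ : ∃ B, B = f (s - (f s + g t)) - f s + (t - s) + κ := ⟨_, rfl⟩
  obtain ⟨B₂, hB₂⟩ : ∃ B, B = g (t - (g t + f s)) - g t + (s - t) + κ := ⟨_, rfl⟩
  obtain ⟨S, hS⟩ : ∃ S, S = f (s - (f s + g t)) + g (t - (f s + g t)) - (f s + g t) + 2 * κ :=
    ⟨_, rfl⟩
  have hS' : S = g (t - (g t + f s)) + f (s - (g t + f s)) - (g t + f s) + 2 * κ := by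
    rw [hS, show g t + f s = f s + g t by ring]; ring
  have hsum : B₁ + B₂ = S := by
    rw [hB₁, hB₂, hS, show g t + f s = f s + g t by ring]; ring
  obtain ⟨c1, c2⟩ := cond_s (κ := κ) hF hG h10 h11 h20 h21 hf hg (ε := ε) (s := s) (t := t)
    ⟨hs.1, hsε⟩ (fun s' hs' => hmax' s' hs' t ht) hB₁ hS
  obtain ⟨c3, c4⟩ := cond_s (κ := κ) hG hF h20 h21 h10 h11 hg hf (ε := ε) (s := t) (t := s)
    ⟨ht.1, htε⟩ (fun t' ht' => by
      rw [phi_swap (F := G) (G := F) (f := g) (g := f), phi_swap (F := G) (G := F) (f := g)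
        (g := f)]
      exact hmax' s hs t' ht') hB₂ hS'
  have hS0 : S ≤ 0 := by
    by_contra hc
    push Not at hc
    rw [abs_of_pos hc] at c1 c3
    have : S ≤ (L₁ + L₂) * S := by linarith
    nlinarith
  rw [abs_of_nonpos hS0] at c1 c2 c3 c4
  -- not on the sides
  have hs0 : 0 < s := by
    refine lt_of_le_of_ne hs.1 fun h => ?_
    have ht0 : 0 < t := by
      refine lt_of_le_of_ne ht.1 fun h' => ?_
      rw [← h, ← h', h00] at hpos
      exact lt_irrefl _ hpos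
    have h4 := c4 ht0
    have h5 : B₁ = t + κ := by
      rw [hB₁, ← h, f0 0 le_rfl, f0 _ (by linarith [gn t])]; ring
    have h6 : B₂ ≥ L₂ * S := by linarith
    nlinarith
  have ht0 : 0 < t := by
    refine lt_of_le_of_ne ht.1 fun h => ?_
    have h4 := c2 hs0
    have h5 : B₂ = s + κ := by
      rw [hB₂, ← h, g0 0 le_rfl, g0 _ (by linarith [fn s])]; ring
    nlinarith
  have h4 := c2 hs0
  have h5 := c4 ht0
  have hB1 : B₁ ≤ 0 := by nlinarith
  have hB2 : B₂ ≤ 0 := by nlinarith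
  refine ⟨s, ⟨hs0, hsε⟩, t, ⟨ht0, htε⟩, by linarith, ?_⟩
  rw [show g t + f s = f s + g t by ring] at hB₂
  linarith

end Pool.Agent.J4H19.LipR
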