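import Mathlib
import Pool.Agent.J4H19.Wild

/-! The theorem for two arcs, one of which is wild. -/

set_option autoImplicit false

open Set Filter Topology

namespace Pool.Agent.J4H19.WildArcs

open Pool.Agent.J4H19.Arcs (T)
open Pool.Agent.J4H19.Side (Lin)
open Pool.Agent.J4H19.Ends
open Pool.Agent.J4H19.Wild
open Pool.Agent.J4H19.Tails (nrm nrm_mid)
open scoped ComplexConjugate

/-- The condition at the common initial point of the arcs `A` and `B`. -/
def StK (A B : ℝ → ℂ) (d : ℂ) (r : ℝ) (κ : ℂ) : Prop :=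
  ∃ v : ℂ, v ≠ 0 ∧ 0 ≤ (v * conj d).re ∧ ∃ ε > (0:ℝ),
    (∀ s ∈ Ioc 0 ε, 0 ≤ (v * conj (A s - A 0)).re ∧ (κ * v * conj (A s - A 0)).re < 0) ∧
    ((∀ s ∈ Ioc 0 ε, 0 ≤ (v * conj (B s - B 0)).re ∧ (κ * v * conj (B s - B 0)).re = 0) ∨
    ∃ m₁ m₂ : ℝ, 0 ≤ m₂ ∧ r * (m₁ - m₂) ≤ 1 ∧ ∀ s ∈ Ioc 0 ε,
      0 ≤ (κ * v * conj (B s - B 0)).re ∧
      m₂ * (κ * v * conj (B s - B 0)).re ≤ (v * conj (B s - B 0)).re ∧
      (v * conj (B s - B 0)).re ≤ m₁ * (κ * v * conj (B s - B 0)).re)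

lemma T_eq (w z : ℂ) : T w z = (w * conj z).re := by simp [T]

lemma nrm_cont {c : ℝ → ℂ} {p L : ℂ} (hc : ContinuousOn c (Icc 0 1)) (hL : L ≠ 0) (h0 : c 0 = p)
    (h1 : c 1 = p + L) : Continuous (nrm c p L) := by
  have h2 : Continuous (fun t : ℝ => (c (projIcc (0:ℝ) 1 zero_le_one t) - p) / L) := by
    have : Continuous (fun t : ℝ => c (projIcc (0:ℝ) 1 zero_le_one t)) :=
      hc.comp_continuous (continuous_subtype_val.comp continuous_projIcc)
        (fun t => (projIcc (0:ℝ) 1 zero_le_one t).2)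
    exact (this.sub continuous_const).div_const _
  have h3 : nrm c p L = fun t : ℝ => (c (projIcc (0:ℝ) 1 zero_le_one t) - p) / L
      + ((t - max 0 (min t 1) : ℝ) : ℂ) := by
    funext t
    unfold nrm
    split_ifs with g1 g2
    · rw [projIcc_of_le_left _ g1]
      simp only [h0, sub_self, zero_div, zero_add]
      rw [min_eq_left (by linarith), max_eq_left g1, sub_zero]
    · rw [projIcc_of_right_le _ g2]
      simp only [h1, add_sub_cancel_left, div_self hL]
      rw [min_eq_right g2, max_eq_right zero_le_one]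
      push_cast; ring
    · push Not at g1 g2
      rw [projIcc_of_mem _ ⟨g1.le, g2.le⟩, min_eq_left g2.le, max_eq_right g1.le, sub_self]
      simp
  rw [h3]
  apply h2.add
  fun_prop

lemma nrm_left {c : ℝ → ℂ} {p L : ℂ} {t : ℝ} (ht : t ≤ 0) : nrm c p L t = t := by
  unfold nrm; rw [if_pos ht]

lemma nrm_right {c : ℝ → ℂ} {p L : ℂ} {t : ℝ} (ht : 1 ≤ t) : nrm c p L t = t := by
  unfold nrm; rw [if_neg (by linarith), if_pos ht]

variable {A B : ℝ → ℂ} {r : ℝ}

lemma endp_left {L : ℂ} (hL : L ≠ 0) (h0 : A 0 = B 0) (hA1 : A 1 = A 0 + L) (hB1 : B 1 = A 0 + L)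
    (E : StK A B L r Complex.I) : EndP (nrm A (A 0) L) (nrm B (A 0) L) r := by
  obtain ⟨v, hv, hvd, ε, hε, hα, hβ⟩ := E
  have hcL : conj L ≠ 0 := (map_ne_zero _).2 hL
  have eT : ∀ w z : ℂ, T (w * conj L) (z / L) = (w * conj z).re := by
    intro w z
    rw [T_eq, map_div₀]
    congr 1
    field_simp
  have hε' : 0 < min ε 1 := lt_min hε zero_lt_one
  have mA : ∀ s ∈ Ioc 0 (min ε 1), nrm A (A 0) L s = (A s - A 0) / L := fun s hs =>
    nrm_mid hL rfl hA1 ⟨hs.1.le, hs.2.trans (min_le_right _ _)⟩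
  have mB : ∀ s ∈ Ioc 0 (min ε 1), nrm B (A 0) L s = (B s - B 0) / L := fun s hs => by
    rw [nrm_mid hL h0.symm hB1 ⟨hs.1.le, hs.2.trans (min_le_right _ _)⟩, h0]
  have ms : ∀ s ∈ Ioc 0 (min ε 1), s ∈ Ioc 0 ε := fun s hs => ⟨hs.1, hs.2.trans (min_le_left _ _)⟩
  refine ⟨v * conj L, mul_ne_zero hv hcL, hvd, min ε 1, hε', ?_, ?_⟩
  · intro s hs
    rw [mA s hs, ← mul_assoc, eT, eT]
    exact hα s (ms s hs)
  · rcases hβ with hβ | ⟨m₁, m₂, hm₂, hm, hβ⟩
    · left
      intro s hs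
      rw [mB s hs, ← mul_assoc, eT, eT]
      exact hβ s (ms s hs)
    · right
      refine ⟨m₁, m₂, hm₂, hm, ?_⟩
      intro s hs
      rw [mB s hs, ← mul_assoc, eT, eT]
      exact hβ s (ms s hs)

lemma endp_right {L : ℂ} (hL : L ≠ 0) (h0 : A 0 = B 0) (hA1 : A 1 = A 0 + L) (hB1 : B 1 = A 0 + L)
    (E : StK (fun s => A (1 - s)) (fun s => B (1 - s)) (-L) r (-Complex.I)) :
    EndP (rfl' (nrm A (A 0) L)) (rfl' (nrm B (A 0) L)) r := by
  obtain ⟨v, hv, hvd, ε, hε, hα, hβ⟩ := E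
  simp only [sub_zero] at hα hβ
  have hcv : conj v ≠ 0 := (map_ne_zero _).2 hv
  have eT : ∀ w z : ℂ, T (-(conj w * L)) (-conj (z / L)) = (w * conj z).re := by
    intro w z
    rw [T_eq, map_neg, Complex.conj_conj]
    rw [show -(conj w * L) * -(z / L) = conj (w * conj z) by simp; field_simp, Complex.conj_re]
  have eT' : ∀ w z : ℂ, T (Complex.I * -(conj w * L)) (-conj (z / L)) =
      (-Complex.I * w * conj z).re := by
    intro w z
    rw [← eT]
    congr 1
    simp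
    ring
  have hε' : 0 < min ε 1 := lt_min hε zero_lt_one
  have mA : ∀ s ∈ Ioc 0 (min ε 1), rfl' (nrm A (A 0) L) s = -conj ((A (1 - s) - A 1) / L) := by
    intro s hs
    have hs1 := hs.2.trans (min_le_right _ _)
    unfold rfl'
    rw [nrm_mid hL rfl hA1 ⟨by linarith, by linarith [hs.1]⟩, hA1]
    rw [show (A (1 - s) - (A 0 + L)) / L = (A (1 - s) - A 0) / L - 1 by field_simp; ring, map_sub,
      map_one]
    ring
  have mB : ∀ s ∈ Ioc 0 (min ε 1), rfl' (nrm B (A 0) L) s = -conj ((B (1 - s) - B 1) / L) := by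
    intro s hs
    have hs1 := hs.2.trans (min_le_right _ _)
    unfold rfl'
    rw [nrm_mid hL h0.symm hB1 ⟨by linarith, by linarith [hs.1]⟩, hB1]
    rw [show (B (1 - s) - (A 0 + L)) / L = (B (1 - s) - A 0) / L - 1 by field_simp; ring, map_sub,
      map_one]
    ring
  have ms : ∀ s ∈ Ioc 0 (min ε 1), s ∈ Ioc 0 ε := fun s hs => ⟨hs.1, hs.2.trans (min_le_left _ _)⟩
  refine ⟨-(conj v * L), neg_ne_zero.2 (mul_ne_zero hcv hL), ?_, min ε 1, hε', ?_, ?_⟩
  · rw [← Complex.conj_re]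
    simpa using hvd
  · intro s hs
    rw [mA s hs, eT, eT']
    exact hα s (ms s hs)
  · rcases hβ with hβ | ⟨m₁, m₂, hm₂, hm, hβ⟩
    · left
      intro s hs
      rw [mB s hs, eT, eT']
      exact hβ s (ms s hs)
    · right
      refine ⟨m₁, m₂, hm₂, hm, ?_⟩
      intro s hs
      rw [mB s hs, eT, eT']
      exact hβ s (ms s hs)

lemma StK.cj {d κ : ℂ} (E : StK A B d r κ) :
    StK (fun t => conj (A t)) (fun t => conj (B t)) (conj d) r (conj κ) := by
  obtain ⟨v, hv, hvd, ε, hε, hα, hβ⟩ := E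
  have e1 : ∀ w z z' : ℂ, (conj w * conj (conj z - conj z')).re = (w * conj (z - z')).re := by
    intro w z z'
    rw [← map_sub, ← map_mul, Complex.conj_re]
  have e2 : ∀ w z z' : ℂ, (conj κ * conj w * conj (conj z - conj z')).re =
      (κ * w * conj (z - z')).re := by
    intro w z z'
    rw [← map_sub, ← map_mul, ← map_mul, Complex.conj_re]
  refine ⟨conj v, (map_ne_zero _).2 hv, ?_, ε, hε, ?_, ?_⟩
  · rw [← map_mul, Complex.conj_re]; exact hvd
  · intro s hs
    rw [e1, e2]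
    exact hα s hs
  · rcases hβ with hβ | ⟨m₁, m₂, hm₂, hm, hβ⟩
    · left
      intro s hs
      rw [e1, e2]
      exact hβ s hs
    · right
      refine ⟨m₁, m₂, hm₂, hm, ?_⟩
      intro s hs
      rw [e1, e2]
      exact hβ s hs

lemma Conf.cj {a b : ℝ → ℂ} {F : ℂ → ℝ} (C : Conf a b F) :
    Conf (fun t => conj (a t)) (fun t => conj (b t)) (fun z => -F (conj z)) where
  la := ⟨by have := C.la.cont; fun_prop, fun t ht => by rw [C.la.left t ht, Complex.conj_ofReal],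
    fun t ht => by rw [C.la.right t ht, Complex.conj_ofReal],
    fun t ht => by simpa using C.la.re0 t ht, fun t ht => by simpa using C.la.re1 t ht⟩
  lb := ⟨by have := C.lb.cont; fun_prop, fun t ht => by rw [C.lb.left t ht, Complex.conj_ofReal],
    fun t ht => by rw [C.lb.right t ht, Complex.conj_ofReal],
    fun t ht => by simpa using C.lb.re0 t ht, fun t ht => by simpa using C.lb.re1 t ht⟩
  dis s s' h := C.dis s s' ((starRingEnd ℂ).injective h)
  hp s hs s' hs' := by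
    have := C.hp s hs s' hs'
    simp [T] at this ⊢
    exact this
  hq s hs s' hs' := by
    have := C.hq s hs s' hs'
    simp [T] at this ⊢
    exact this
  Fc := by
    have := C.Fc
    exact (this.comp (by fun_prop)).neg
  Fz z := by
    rw [neg_eq_zero, C.Fz]
    constructor
    · rintro ⟨t, ht⟩
      exact ⟨t, by simp [ht]⟩
    · rintro ⟨t, ht⟩
      exact ⟨t, by rw [← ht]; simp⟩
  Fp z hz hi := by
    rw [neg_pos]
    apply C.Fn
    · simpa using hz
    · simpa using hi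
  Fn z hz hi := by
    rw [neg_lt_zero]
    apply C.Fp
    · simpa using hz
    · simpa using hi

lemma nrm_cj {c : ℝ → ℂ} {p L : ℂ} (t : ℝ) :
    nrm (fun t => conj (c t)) (conj p) (conj L) t = conj (nrm c p L t) := by
  unfold nrm
  split_ifs <;> simp

/-- **Two arcs, the first condition with `κ = i`.** -/
theorem wild_I (hA : ContinuousOn A (Icc 0 1)) (hB : ContinuousOn B (Icc 0 1))
    (h0 : A 0 = B 0) (h1 : A 1 = B 1) (hinjA : InjOn A (Icc 0 1))
    (hinj : ∀ s ∈ Icc (0:ℝ) 1, ∀ s' ∈ Icc (0:ℝ) 1, A s = B s' → s = s' ∧ (s = 0 ∨ s = 1))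
    (hp : ∀ s ∈ Icc (0:ℝ) 1, ∀ t ∈ Icc (0:ℝ) 1, 0 ≤ ((A s - A 0) * conj (B t - A 0)).re)
    (hq : ∀ s ∈ Icc (0:ℝ) 1, ∀ t ∈ Icc (0:ℝ) 1, 0 ≤ ((A s - A 1) * conj (B t - A 1)).re)
    (hr : 0 < r) (ep : StK A B (A 1 - A 0) r Complex.I) {κ' : ℂ}
    (hκ' : κ' = Complex.I ∨ κ' = -Complex.I)
    (eq : StK (fun s => A (1 - s)) (fun s => B (1 - s)) (A 0 - A 1) r κ') :
    ∃ z w : ℂ, w ≠ 0 ∧ z ∈ A '' Icc 0 1 ∧ z + w ∈ A '' Icc 0 1 ∧
      z + w + r * Complex.I * w ∈ B '' Icc 0 1 ∧ z + r * Complex.I * w ∈ B '' Icc 0 1 := by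
  have i0 : (0:ℝ) ∈ Icc (0:ℝ) 1 := ⟨le_rfl, zero_le_one⟩
  have i1 : (1:ℝ) ∈ Icc (0:ℝ) 1 := ⟨zero_le_one, le_rfl⟩
  have hne : A 0 ≠ A 1 := fun h => zero_ne_one (hinjA i0 i1 h)
  set p := A 0 with hpd
  set L := A 1 - A 0 with hLd
  have hL : L ≠ 0 := sub_ne_zero.2 hne.symm
  have hA1 : A 1 = p + L := by rw [hLd]; ring
  have hB1 : B 1 = p + L := by rw [← h1, hA1]
  set a := nrm A p L with ha
  set b := nrm B p L with hb
  have eA : ∀ s ∈ Icc (0:ℝ) 1, a s = (A s - p) / L := fun s hs => nrm_mid hL rfl hA1 hs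
  have eB : ∀ s ∈ Icc (0:ℝ) 1, b s = (B s - p) / L :=
    fun s hs => nrm_mid hL h0.symm hB1 hs
  have hT : ∀ z z' : ℂ, T (z / L) (z' / L) = (z * conj z').re / Complex.normSq L := by
    intro z z'
    rw [T_eq, map_div₀, div_mul_div_comm, Complex.mul_conj L, Complex.div_ofReal_re]
  have hLp : 0 < Complex.normSq L := Complex.normSq_pos.2 hL
  have al : ∀ t : ℝ, t ≤ 0 → a t = t := fun t ht => nrm_left ht
  have ar : ∀ t : ℝ, 1 ≤ t → a t = t := fun t ht => nrm_right ht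
  have bl : ∀ t : ℝ, t ≤ 0 → b t = t := fun t ht => nrm_left ht
  have br : ∀ t : ℝ, 1 ≤ t → b t = t := fun t ht => nrm_right ht
  have hp' : ∀ s ∈ Icc (0:ℝ) 1, ∀ s' ∈ Icc (0:ℝ) 1, 0 ≤ T (a s) (b s') := by
    intro s hs s' hs'
    rw [eA s hs, eB s' hs', hT]
    exact div_nonneg (hp s hs s' hs') hLp.le
  have hq' : ∀ s ∈ Icc (0:ℝ) 1, ∀ s' ∈ Icc (0:ℝ) 1, 0 ≤ T (a s - 1) (b s' - 1) := by
    intro s hs s' hs'
    rw [eA s hs, eB s' hs']
    have f1 : (A s - p) / L - 1 = (A s - A 1) / L := by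
      rw [hA1]; field_simp; ring
    have f2 : (B s' - p) / L - 1 = (B s' - A 1) / L := by
      rw [hA1]; field_simp; ring
    rw [f1, f2, hT]
    exact div_nonneg (hq s hs s' hs') hLp.le
  have la : Lin a := by
    refine ⟨nrm_cont hA hL rfl hA1, al, ar, ?_, ?_⟩
    · intro s hs
      have := hp' s hs 1 i1
      rw [br 1 le_rfl] at this
      simpa [T] using this
    · intro s hs
      have := hq' s hs 0 i0
      rw [bl 0 le_rfl] at this
      simpa [T] using this
  have lb : Lin b := by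
    refine ⟨nrm_cont hB hL h0.symm hB1, bl, br, ?_, ?_⟩
    · intro s hs
      have := hp' 1 i1 s hs
      rw [ar 1 le_rfl] at this
      simpa [T] using this
    · intro s hs
      have := hq' 0 i0 s hs
      rw [al 0 le_rfl] at this
      simpa [T] using this
  have inja : Function.Injective a := by
    intro s t h
    by_cases hs : s ∈ Icc (0:ℝ) 1
    · by_cases ht : t ∈ Icc (0:ℝ) 1
      · rw [eA s hs, eA t ht, div_left_inj' hL, sub_left_inj] at h
        exact hinjA hs ht h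
      · exfalso
        rw [out la ht] at h
        have h3 := la.re0 s hs
        have h4 := la.re1 s hs
        rw [h, Complex.ofReal_re] at h3 h4
        exact ht ⟨h3, h4⟩
    · by_cases ht : t ∈ Icc (0:ℝ) 1
      · exfalso
        rw [out la hs] at h
        have h3 := la.re0 t ht
        have h4 := la.re1 t ht
        rw [← h, Complex.ofReal_re] at h3 h4
        exact hs ⟨h3, h4⟩
      · rw [out la hs, out la ht] at h
        exact_mod_cast h
  have dis : ∀ s s' : ℝ, a s = b s' → s = s' ∧ (s ≤ 0 ∨ 1 ≤ s) := by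
    intro s s' h
    by_cases hs : s ∈ Icc (0:ℝ) 1
    · by_cases hs' : s' ∈ Icc (0:ℝ) 1
      · rw [eA s hs, eB s' hs', div_left_inj' hL, sub_left_inj] at h
        obtain ⟨h1, h2⟩ := hinj s hs s' hs' h
        refine ⟨h1, ?_⟩
        rcases h2 with h2 | h2
        · exact Or.inl h2.le
        · exact Or.inr h2.ge
      · exfalso
        rw [out lb hs'] at h
        have h1 := la.re0 s hs
        have h2 := la.re1 s hs
        rw [h, Complex.ofReal_re] at h1 h2
        exact hs' ⟨h1, h2⟩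
    · by_cases hs' : s' ∈ Icc (0:ℝ) 1
      · exfalso
        rw [out la hs] at h
        have h1 := lb.re0 s' hs'
        have h2 := lb.re1 s' hs'
        rw [← h, Complex.ofReal_re] at h1 h2
        exact hs ⟨h1, h2⟩
      · rw [out la hs, out lb hs'] at h
        refine ⟨by exact_mod_cast h, ?_⟩
        rw [mem_Icc, not_and_or] at hs
        push Not at hs
        exact hs.imp le_of_lt le_of_lt
  obtain ⟨F, Fc, Fz, Fp, Fn⟩ := Side.exists_side lb
  have C : Conf a b F := ⟨la, lb, dis, hp', hq', Fc, Fz, Fp, Fn⟩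
  have Ep : EndP a b r := endp_left hL h0 hA1 hB1 ep
  have Eq : EndP (rfl' a) (rfl' b) r := by
    rcases hκ' with h | h
    · exfalso
      rw [h] at eq
      have eq2 := eq.cj
      rw [show conj (A 0 - A 1) = -conj L by rw [hLd, ← map_neg]; congr 1; ring, Complex.conj_I]
        at eq2
      have E3 := endp_right (A := fun t => conj (A t)) (B := fun t => conj (B t))
        (L := conj L) ((map_ne_zero _).2 hL) (congrArg conj h0)
        (by simp only [hA1]; rw [map_add]) (by simp only [hB1]; rw [map_add]) eq2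
      have e4 : (nrm (fun t => conj (A t)) (conj (A 0)) (conj L)) = fun t => conj (a t) := by
        funext t; exact nrm_cj t
      have e5 : (nrm (fun t => conj (B t)) (conj (A 0)) (conj L)) = fun t => conj (b t) := by
        funext t; exact nrm_cj t
      rw [e4, e5] at E3
      have h6 := (corner (Conf.refl (Conf.cj C)) hr E3).1 (1 / 2) ⟨by norm_num, by norm_num⟩
      have h7 := (corner C hr Ep).1 (1 / 2) ⟨by norm_num, by norm_num⟩
      have e8 : conj (1 - conj (rfl' (fun t => conj (a t)) (1 / 2))) = a (1 / 2) := by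
        unfold rfl'
        rw [show (1 - 1 / 2 : ℝ) = 1 / 2 by norm_num]
        simp
      simp only [e8] at h6
      linarith
    · rw [h] at eq
      apply endp_right hL h0 hA1 hB1
      rw [show -L = A 0 - A 1 by rw [hLd]; ring]
      exact eq
  obtain ⟨s₁, hs₁, s₂, hs₂, s₃, hs₃, s₄, hs₄, w, hw, g1, g2, g3⟩ := norm_thm C inja hr Ep Eq
  rw [eA s₁ hs₁] at g1 g2 g3
  rw [eA s₂ hs₂] at g1
  rw [eB s₃ hs₃] at g2
  rw [eB s₄ hs₄] at g3
  refine ⟨A s₁, w * L, mul_ne_zero hw hL, ⟨s₁, hs₁, rfl⟩, ⟨s₂, hs₂, ?_⟩, ⟨s₃, hs₃, ?_⟩,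
    ⟨s₄, hs₄, ?_⟩⟩
  · field_simp at g1
    linear_combination g1
  · field_simp at g2
    linear_combination g2
  · field_simp at g3
    linear_combination g3

/-- **Two arcs.** -/
theorem wild_arcs (hA : ContinuousOn A (Icc 0 1)) (hB : ContinuousOn B (Icc 0 1))
    (h0 : A 0 = B 0) (h1 : A 1 = B 1) (hinjA : InjOn A (Icc 0 1))
    (hinj : ∀ s ∈ Icc (0:ℝ) 1, ∀ s' ∈ Icc (0:ℝ) 1, A s = B s' → s = s' ∧ (s = 0 ∨ s = 1))
    (hp : ∀ s ∈ Icc (0:ℝ) 1, ∀ t ∈ Icc (0:ℝ) 1, 0 ≤ ((A s - A 0) * conj (B t - A 0)).re)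
    (hq : ∀ s ∈ Icc (0:ℝ) 1, ∀ t ∈ Icc (0:ℝ) 1, 0 ≤ ((A s - A 1) * conj (B t - A 1)).re)
    (hr : 0 < r) {κ κ' : ℂ} (hκ : κ = Complex.I ∨ κ = -Complex.I)
    (hκ' : κ' = Complex.I ∨ κ' = -Complex.I) (ep : StK A B (A 1 - A 0) r κ)
    (eq : StK (fun s => A (1 - s)) (fun s => B (1 - s)) (A 0 - A 1) r κ') :
    ∃ z w : ℂ, w ≠ 0 ∧ z ∈ A '' Icc 0 1 ∧ z + w ∈ A '' Icc 0 1 ∧
      z + w + r * κ * w ∈ B '' Icc 0 1 ∧ z + r * κ * w ∈ B '' Icc 0 1 := by
  rcases hκ with h | h
  · rw [h] at ep ⊢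
    exact wild_I hA hB h0 h1 hinjA hinj hp hq hr ep hκ' eq
  · rw [h] at ep
    have ep2 := ep.cj
    have eq2 := eq.cj
    have hc : ∀ z w z' w' : ℂ, ((conj z - conj w) * conj (conj z' - conj w')).re =
        ((z - w) * conj (z' - w')).re := by
      intro z w z' w'
      rw [← map_sub, ← map_sub, ← map_mul, Complex.conj_re]
    obtain ⟨z, w, hw, ⟨s₁, hs₁, g₁⟩, ⟨s₂, hs₂, g₂⟩, ⟨s₃, hs₃, g₃⟩, ⟨s₄, hs₄, g₄⟩⟩ :=
      wild_I (A := fun t => conj (A t)) (B := fun t => conj (B t)) (r := r) (κ' := conj κ')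
        (Complex.continuous_conj.comp_continuousOn hA)
        (Complex.continuous_conj.comp_continuousOn hB) (by simp only [h0]) (by simp only [h1])
        (fun s hs t ht h => hinjA hs ht ((starRingEnd ℂ).injective h))
        (fun s hs s' hs' h => hinj s hs s' hs' ((starRingEnd ℂ).injective h))
        (fun s hs t ht => by rw [hc]; exact hp s hs t ht)
        (fun s hs t ht => by rw [hc]; exact hq s hs t ht) hr
        (by
          rw [map_sub, map_neg, Complex.conj_I, neg_neg] at ep2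
          exact ep2)
        (by
          rcases hκ' with h | h
          · right; rw [h, Complex.conj_I]
          · left; rw [h, map_neg, Complex.conj_I, neg_neg])
        (by
          rw [map_sub] at eq2
          exact eq2)
    refine ⟨conj z, conj w, (map_ne_zero _).2 hw, ⟨s₁, hs₁, ?_⟩, ⟨s₂, hs₂, ?_⟩, ⟨s₃, hs₃, ?_⟩,
      ⟨s₄, hs₄, ?_⟩⟩
    · rw [← g₁]; simp
    · rw [← map_add, ← g₂]; simp
    · rw [h]
      have : conj z + conj w + r * -Complex.I * conj w = conj (z + w + r * Complex.I * w) := by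
        simp
      rw [this, ← g₃]; simp
    · rw [h]
      have : conj z + r * -Complex.I * conj w = conj (z + r * Complex.I * w) := by
        simp
      rw [this, ← g₄]; simp

end Pool.Agent.J4H19.WildArcs
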