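import Mathlib
import Pool.Agent.J4H19.WildArcs
import Pool.Agent.J4H19.Diag3

/-! The theorem for two arcs, at each end point one of which is coarsely monotone. -/

set_option autoImplicit false

open Set Filter Topology

namespace Pool.Agent.J4H19.QArcs

open Pool.Agent.J4H19.Arcs (T)
open Pool.Agent.J4H19.Side (Lin)
open Pool.Agent.J4H19.Ends
open Pool.Agent.J4H19.CornerQ
open Pool.Agent.J4H19.Diag
open Pool.Agent.J4H19.Diag2
open Pool.Agent.J4H19.Diag3
open Pool.Agent.J4H19.Wild (rfl' out Conf.refl)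
open Pool.Agent.J4H19.WildArcs (T_eq nrm_cont nrm_left nrm_right nrm_cj)
open Pool.Agent.J4H19.Tails (nrm nrm_mid)
open scoped ComplexConjugate

/-- The condition at the common initial point of the arcs `A` and `B`; `B` is the coarsely monotone
one. -/
def StQ (A B : ℝ → ℂ) (d : ℂ) (r : ℝ) (κ : ℂ) : Prop :=
  ∃ v : ℂ, v ≠ 0 ∧ 0 ≤ (v * conj d).re ∧ ∃ ε > (0:ℝ),
    (∀ s ∈ Ioc 0 ε, 0 ≤ (v * conj (A s - A 0)).re ∧ (κ * v * conj (A s - A 0)).re < 0) ∧
    (∀ s ∈ Ioc 0 ε, 0 ≤ (v * conj (B s - B 0)).re ∧ 0 ≤ (κ * v * conj (B s - B 0)).re) ∧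
    ∀ s ∈ Ioc 0 ε, ∀ t ∈ Ioc 0 ε,
      (κ * v * conj (B s - B 0)).re < (κ * v * conj (B t - B 0)).re →
      r * ((v * conj (B s - B 0)).re - (v * conj (B t - B 0)).re) ≤ (κ * v * conj (B s - B 0)).re

variable {A B : ℝ → ℂ} {r : ℝ}

lemma endq_left {L : ℂ} (hL : L ≠ 0) (h0 : A 0 = B 0) (hA1 : A 1 = A 0 + L) (hB1 : B 1 = A 0 + L)
    (E : StQ A B L r Complex.I) : EndQ (nrm A (A 0) L) (nrm B (A 0) L) r := by
  obtain ⟨v, hv, hvd, ε, hε, hα, hβ, hN⟩ := E
  have hcL : conj L ≠ 0 := (map_ne_zero _).2 hL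
  have eT : ∀ w z : ℂ, T (w * conj L) (z / L) = (w * conj z).re := by
    intro w z
    rw [T_eq, map_div₀]
    congr 1
    field_simp
  have hε' : 0 < min ε 1 := lt_min hε zero_lt_one
  have mA : ∀ s ∈ Ioc 0 (min ε 1), nrm A (A 0) L s = (A s - A 0) / L := fun s hs =>
    nrm_mid hL rfl hA1 ⟨hs.1.le, hs.2.trans (min_le_right _ _)⟩
  have mB : ∀ s ∈ Ioc 0 (min ε 1), nrm B (A 0) L s = (B s - B 0) / L := fun s hs => by
    rw [nrm_mid hL h0.symm hB1 ⟨hs.1.le, hs.2.trans (min_le_right _ _)⟩, h0]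
  have ms : ∀ s ∈ Ioc 0 (min ε 1), s ∈ Ioc 0 ε := fun s hs => ⟨hs.1, hs.2.trans (min_le_left _ _)⟩
  refine ⟨v * conj L, mul_ne_zero hv hcL, hvd, min ε 1, hε', ?_, ?_, ?_⟩
  · intro s hs
    rw [mA s hs, ← mul_assoc, eT, eT]
    exact hα s (ms s hs)
  · intro s hs
    rw [mB s hs, ← mul_assoc, eT, eT]
    exact hβ s (ms s hs)
  · intro s hs t ht
    rw [mB s hs, mB t ht, ← mul_assoc, eT, eT, eT, eT]
    exact hN s (ms s hs) t (ms t ht)

lemma endq_right {L : ℂ} (hL : L ≠ 0) (h0 : A 0 = B 0) (hA1 : A 1 = A 0 + L) (hB1 : B 1 = A 0 + L)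
    (E : StQ (fun s => A (1 - s)) (fun s => B (1 - s)) (-L) r (-Complex.I)) :
    EndQ (rfl' (nrm A (A 0) L)) (rfl' (nrm B (A 0) L)) r := by
  obtain ⟨v, hv, hvd, ε, hε, hα, hβ, hN⟩ := E
  simp only [sub_zero] at hα hβ hN
  have hcv : conj v ≠ 0 := (map_ne_zero _).2 hv
  have eT : ∀ w z : ℂ, T (-(conj w * L)) (-conj (z / L)) = (w * conj z).re := by
    intro w z
    rw [T_eq, map_neg, Complex.conj_conj]
    rw [show -(conj w * L) * -(z / L) = conj (w * conj z) by simp; field_simp, Complex.conj_re]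
  have eT' : ∀ w z : ℂ, T (Complex.I * -(conj w * L)) (-conj (z / L)) =
      (-Complex.I * w * conj z).re := by
    intro w z
    rw [← eT]
    congr 1
    simp
    ring
  have hε' : 0 < min ε 1 := lt_min hε zero_lt_one
  have mA : ∀ s ∈ Ioc 0 (min ε 1), rfl' (nrm A (A 0) L) s = -conj ((A (1 - s) - A 1) / L) := by
    intro s hs
    have hs1 := hs.2.trans (min_le_right _ _)
    unfold rfl'
    rw [nrm_mid hL rfl hA1 ⟨by linarith, by linarith [hs.1]⟩, hA1]
    rw [show (A (1 - s) - (A 0 + L)) / L = (A (1 - s) - A 0) / L - 1 by field_simp; ring, map_sub,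
      map_one]
    ring
  have mB : ∀ s ∈ Ioc 0 (min ε 1), rfl' (nrm B (A 0) L) s = -conj ((B (1 - s) - B 1) / L) := by
    intro s hs
    have hs1 := hs.2.trans (min_le_right _ _)
    unfold rfl'
    rw [nrm_mid hL h0.symm hB1 ⟨by linarith, by linarith [hs.1]⟩, hB1]
    rw [show (B (1 - s) - (A 0 + L)) / L = (B (1 - s) - A 0) / L - 1 by field_simp; ring, map_sub,
      map_one]
    ring
  have ms : ∀ s ∈ Ioc 0 (min ε 1), s ∈ Ioc 0 ε := fun s hs => ⟨hs.1, hs.2.trans (min_le_left _ _)⟩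
  refine ⟨-(conj v * L), neg_ne_zero.2 (mul_ne_zero hcv hL), ?_, min ε 1, hε', ?_, ?_, ?_⟩
  · rw [← Complex.conj_re]
    simpa using hvd
  · intro s hs
    rw [mA s hs, eT, eT']
    exact hα s (ms s hs)
  · intro s hs
    rw [mB s hs, eT, eT']
    exact hβ s (ms s hs)
  · intro s hs t ht
    rw [mB s hs, mB t ht, eT, eT', eT, eT']
    exact hN s (ms s hs) t (ms t ht)

lemma StQ.cj {d κ : ℂ} (E : StQ A B d r κ) :
    StQ (fun t => conj (A t)) (fun t => conj (B t)) (conj d) r (conj κ) := by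
  obtain ⟨v, hv, hvd, ε, hε, hα, hβ, hN⟩ := E
  have e1 : ∀ w z z' : ℂ, (conj w * conj (conj z - conj z')).re = (w * conj (z - z')).re := by
    intro w z z'
    rw [← map_sub, ← map_mul, Complex.conj_re]
  have e2 : ∀ w z z' : ℂ, (conj κ * conj w * conj (conj z - conj z')).re =
      (κ * w * conj (z - z')).re := by
    intro w z z'
    rw [← map_sub, ← map_mul, ← map_mul, Complex.conj_re]
  refine ⟨conj v, (map_ne_zero _).2 hv, ?_, ε, hε, ?_, ?_, ?_⟩
  · rw [← map_mul, Complex.conj_re]; exact hvd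
  · intro s hs
    rw [e1, e2]
    exact hα s hs
  · intro s hs
    rw [e1, e2]
    exact hβ s hs
  · intro s hs t ht
    rw [e1, e2, e1, e2]
    exact hN s hs t ht

lemma conj_nrm {c : ℝ → ℂ} {p L : ℂ} :
    nrm (fun t => conj (c t)) (conj p) (conj L) = fun t => conj (nrm c p L t) := by
  funext t; exact nrm_cj t

/-- **Two arcs, the first condition with `κ = i`.** -/
theorem arcs_I (hA : ContinuousOn A (Icc 0 1)) (hB : ContinuousOn B (Icc 0 1))
    (h0 : A 0 = B 0) (h1 : A 1 = B 1) (hinjA : InjOn A (Icc 0 1)) (hinjB : InjOn B (Icc 0 1))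
    (hinj : ∀ s ∈ Icc (0:ℝ) 1, ∀ s' ∈ Icc (0:ℝ) 1, A s = B s' → s = s' ∧ (s = 0 ∨ s = 1))
    (hp : ∀ s ∈ Icc (0:ℝ) 1, ∀ t ∈ Icc (0:ℝ) 1, 0 ≤ ((A s - A 0) * conj (B t - A 0)).re)
    (hq : ∀ s ∈ Icc (0:ℝ) 1, ∀ t ∈ Icc (0:ℝ) 1, 0 ≤ ((A s - A 1) * conj (B t - A 1)).re)
    (hr : 0 < r)
    (ep : StQ A B (A 1 - A 0) r Complex.I ∨ StQ B A (A 1 - A 0) r (-Complex.I)) {κ' : ℂ}
    (hκ' : κ' = Complex.I ∨ κ' = -Complex.I)
    (eq : StQ (fun s => A (1 - s)) (fun s => B (1 - s)) (A 0 - A 1) r κ' ∨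
      StQ (fun s => B (1 - s)) (fun s => A (1 - s)) (A 0 - A 1) r (-κ')) :
    ∃ z w : ℂ, w ≠ 0 ∧ z ∈ A '' Icc 0 1 ∧ z + w ∈ A '' Icc 0 1 ∧
      z + w + r * Complex.I * w ∈ B '' Icc 0 1 ∧ z + r * Complex.I * w ∈ B '' Icc 0 1 := by
  have i0 : (0:ℝ) ∈ Icc (0:ℝ) 1 := ⟨le_rfl, zero_le_one⟩
  have i1 : (1:ℝ) ∈ Icc (0:ℝ) 1 := ⟨zero_le_one, le_rfl⟩
  have hne : A 0 ≠ A 1 := fun h => zero_ne_one (hinjA i0 i1 h)
  obtain ⟨L, hLd⟩ : ∃ L, L = A 1 - A 0 := ⟨_, rfl⟩
  have hL : L ≠ 0 := by rw [hLd]; exact sub_ne_zero.2 hne.symm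
  have hLm : A 0 - A 1 = -L := by rw [hLd]; ring
  rw [← hLd] at ep
  rw [hLm] at eq
  have hA1 : A 1 = A 0 + L := by rw [hLd]; ring
  have hB1 : B 1 = A 0 + L := by rw [← h1, hA1]
  have hA1' : A 1 = B 0 + L := by rw [← h0, hA1]
  have hB1' : B 1 = B 0 + L := by rw [← h0, hB1]
  obtain ⟨a, ha⟩ : ∃ a, a = nrm A (A 0) L := ⟨_, rfl⟩
  obtain ⟨b, hb⟩ : ∃ b, b = nrm B (A 0) L := ⟨_, rfl⟩
  have eA : ∀ s ∈ Icc (0:ℝ) 1, a s = (A s - A 0) / L := fun s hs => by
    rw [ha]; exact nrm_mid hL rfl hA1 hs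
  have eB : ∀ s ∈ Icc (0:ℝ) 1, b s = (B s - A 0) / L :=
    fun s hs => by rw [hb]; exact nrm_mid hL h0.symm hB1 hs
  have hT : ∀ z z' : ℂ, T (z / L) (z' / L) = (z * conj z').re / Complex.normSq L := by
    intro z z'
    rw [T_eq, map_div₀, div_mul_div_comm, Complex.mul_conj L, Complex.div_ofReal_re]
  have hLp : 0 < Complex.normSq L := Complex.normSq_pos.2 hL
  have al : ∀ t : ℝ, t ≤ 0 → a t = t := fun t ht => by rw [ha]; exact nrm_left ht
  have ar : ∀ t : ℝ, 1 ≤ t → a t = t := fun t ht => by rw [ha]; exact nrm_right ht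
  have bl : ∀ t : ℝ, t ≤ 0 → b t = t := fun t ht => by rw [hb]; exact nrm_left ht
  have br : ∀ t : ℝ, 1 ≤ t → b t = t := fun t ht => by rw [hb]; exact nrm_right ht
  have hp' : ∀ s ∈ Icc (0:ℝ) 1, ∀ s' ∈ Icc (0:ℝ) 1, 0 ≤ T (a s) (b s') := by
    intro s hs s' hs'
    rw [eA s hs, eB s' hs', hT]
    exact div_nonneg (hp s hs s' hs') hLp.le
  have hq' : ∀ s ∈ Icc (0:ℝ) 1, ∀ s' ∈ Icc (0:ℝ) 1, 0 ≤ T (a s - 1) (b s' - 1) := by
    intro s hs s' hs'
    rw [eA s hs, eB s' hs']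
    have f1 : (A s - A 0) / L - 1 = (A s - A 1) / L := by
      rw [hA1]; field_simp; ring
    have f2 : (B s' - A 0) / L - 1 = (B s' - A 1) / L := by
      rw [hA1]; field_simp; ring
    rw [f1, f2, hT]
    exact div_nonneg (hq s hs s' hs') hLp.le
  have la : Lin a := by
    refine ⟨by rw [ha]; exact nrm_cont hA hL rfl hA1, al, ar, ?_, ?_⟩
    · intro s hs
      have := hp' s hs 1 i1
      rw [br 1 le_rfl] at this
      simpa [T] using this
    · intro s hs
      have := hq' s hs 0 i0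
      rw [bl 0 le_rfl] at this
      simpa [T] using this
  have lb : Lin b := by
    refine ⟨by rw [hb]; exact nrm_cont hB hL h0.symm hB1, bl, br, ?_, ?_⟩
    · intro s hs
      have := hp' 1 i1 s hs
      rw [ar 1 le_rfl] at this
      simpa [T] using this
    · intro s hs
      have := hq' 0 i0 s hs
      rw [al 0 le_rfl] at this
      simpa [T] using this
  have injc : ∀ (a A : ℝ → ℂ) (p : ℂ), Lin a → (∀ s ∈ Icc (0:ℝ) 1, a s = (A s - p) / L) →
      InjOn A (Icc 0 1) → Function.Injective a := by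
    intro a A p la eA hinjA s t h
    by_cases hs : s ∈ Icc (0:ℝ) 1
    · by_cases ht : t ∈ Icc (0:ℝ) 1
      · rw [eA s hs, eA t ht, div_left_inj' hL, sub_left_inj] at h
        exact hinjA hs ht h
      · exfalso
        rw [out la ht] at h
        have h3 := la.re0 s hs
        have h4 := la.re1 s hs
        rw [h, Complex.ofReal_re] at h3 h4
        exact ht ⟨h3, h4⟩
    · by_cases ht : t ∈ Icc (0:ℝ) 1
      · exfalso
        rw [out la hs] at h
        have h3 := la.re0 t ht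
        have h4 := la.re1 t ht
        rw [← h, Complex.ofReal_re] at h3 h4
        exact hs ⟨h3, h4⟩
      · rw [out la hs, out la ht] at h
        exact_mod_cast h
  have inja : Function.Injective a := injc a A (A 0) la eA hinjA
  have injb : Function.Injective b := injc b B (A 0) lb eB hinjB
  have dis : ∀ s s' : ℝ, a s = b s' → s = s' ∧ (s ≤ 0 ∨ 1 ≤ s) := by
    intro s s' h
    by_cases hs : s ∈ Icc (0:ℝ) 1
    · by_cases hs' : s' ∈ Icc (0:ℝ) 1
      · rw [eA s hs, eB s' hs', div_left_inj' hL, sub_left_inj] at h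
        obtain ⟨h1, h2⟩ := hinj s hs s' hs' h
        refine ⟨h1, ?_⟩
        rcases h2 with h2 | h2
        · exact Or.inl h2.le
        · exact Or.inr h2.ge
      · exfalso
        rw [out lb hs'] at h
        have h1 := la.re0 s hs
        have h2 := la.re1 s hs
        rw [h, Complex.ofReal_re] at h1 h2
        exact hs' ⟨h1, h2⟩
    · by_cases hs' : s' ∈ Icc (0:ℝ) 1
      · exfalso
        rw [out la hs] at h
        have h1 := lb.re0 s' hs'
        have h2 := lb.re1 s' hs'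
        rw [← h, Complex.ofReal_re] at h1 h2
        exact hs ⟨h1, h2⟩
      · rw [out la hs, out lb hs'] at h
        refine ⟨by exact_mod_cast h, ?_⟩
        rw [mem_Icc, not_and_or] at hs
        push Not at hs
        exact hs.imp le_of_lt le_of_lt
  obtain ⟨f, fc, fz, fp, fn⟩ := Side.exists_side la
  obtain ⟨g, gc, gz, gp, gn⟩ := Side.exists_side lb
  have C : Cf a b f g := ⟨⟨la, fc, fz, fp, fn⟩, ⟨lb, gc, gz, gp, gn⟩, dis, hp', hq'⟩
  -- the conditions at the end points, in normalised form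
  have hcL : conj L ≠ 0 := (map_ne_zero _).2 hL
  have c1 : conj (A 1) = conj (A 0) + conj L := by rw [← map_add, ← hA1]
  have c2 : conj (B 1) = conj (A 0) + conj L := by rw [← map_add, ← hB1]
  have c1' : conj (A 1) = conj (B 0) + conj L := by rw [← map_add, ← hA1']
  have c2' : conj (B 1) = conj (B 0) + conj L := by rw [← map_add, ← hB1']
  have ea : nrm (fun t => conj (A t)) (conj (A 0)) (conj L) = fun t => conj (a t) := by
    rw [conj_nrm, ha]
  have eb : nrm (fun t => conj (B t)) (conj (A 0)) (conj L) = fun t => conj (b t) := by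
    rw [conj_nrm, hb]
  have ea' : nrm (fun t => conj (A t)) (conj (B 0)) (conj L) = fun t => conj (a t) := by
    rw [conj_nrm, ha, h0]
  have eb' : nrm (fun t => conj (B t)) (conj (B 0)) (conj L) = fun t => conj (b t) := by
    rw [conj_nrm, hb, h0]
  have Ep : EndQ a b r ∨ EndQ (fun t => conj (b t)) (fun t => conj (a t)) r := by
    rcases ep with ep | ep
    · left
      rw [ha, hb]
      exact endq_left hL h0 hA1 hB1 ep
    · right
      have ep2 := ep.cj
      rw [map_neg, Complex.conj_I, neg_neg] at ep2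
      have := endq_left (A := fun t => conj (B t)) (B := fun t => conj (A t)) hcL
        (by simp only [h0]) c2' c1' ep2
      rwa [ea', eb'] at this
  have sp : (∀ s ∈ Ioo (0:ℝ) 1, g (a s) < 0) ∨ ∀ s ∈ Ioo (0:ℝ) 1, 0 < f (b s) := by
    rcases Ep with h | h
    · exact Or.inl (cornerQ (Cf.conf C) hr h).1
    · right
      have := (cornerQ (Cf.conf (Cf.cj C)) hr h).1
      intro s hs
      have h2 := this s hs
      simp only [Complex.conj_conj] at h2
      linarith
  have Eq : EndQ (rfl' a) (rfl' b) r ∨ EndQ (rot b) (rot a) r := by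
    rcases hκ' with hκ | hκ
    · exfalso
      rw [hκ] at eq
      have sq : (∀ s ∈ Ioo (0:ℝ) 1, 0 < g (a s)) ∨ ∀ s ∈ Ioo (0:ℝ) 1, f (b s) < 0 := by
        rcases eq with eq | eq
        · left
          have eq2 := eq.cj
          rw [map_neg, Complex.conj_I] at eq2
          have h2 := endq_right (A := fun t => conj (A t)) (B := fun t => conj (B t)) hcL
            (by simp only [h0]) c1 c2 eq2
          rw [ea, eb, rfl'_cj, rfl'_cj] at h2
          have C' : Cf b a g f := by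
            refine ⟨C.Sb, C.Sa, ?_, ?_, ?_⟩
            · intro s s' h
              obtain ⟨h3, h4⟩ := C.dis s' s h.symm
              exact ⟨h3.symm, h3 ▸ h4⟩
            · intro s hs s' hs'
              rw [T_symm]
              exact C.hp s' hs' s hs
            · intro s hs s' hs'
              rw [T_symm]
              exact C.hq s' hs' s hs
          have h3 := (cornerQ (Cf.conf (Cf.rot C')) hr h2).1
          intro s hs
          have h4 := h3 (1 - s) ⟨by linarith [hs.2], by linarith [hs.1]⟩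
          simp only [Diag2.rot, sub_sub_cancel] at h4
          linarith
        · right
          have h2 := endq_right (A := B) (B := A) hL h0.symm hB1' hA1' eq
          rw [← h0, ← ha, ← hb] at h2
          have C' : Conf b a f := by
            refine ⟨lb, la, ?_, ?_, ?_, fc, fz, fp, fn⟩
            · intro s s' h
              obtain ⟨h3, h4⟩ := C.dis s' s h.symm
              exact ⟨h3.symm, h3 ▸ h4⟩
            · intro s hs s' hs'
              rw [T_symm]
              exact C.hp s' hs' s hs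
            · intro s hs s' hs'
              rw [T_symm]
              exact C.hq s' hs' s hs
          have h3 := (cornerQ (Conf.refl C') hr h2).1
          intro s hs
          have h4 := h3 (1 - s) ⟨by linarith [hs.2], by linarith [hs.1]⟩
          simpa [rfl'] using h4
      have hm : (1 / 2 : ℝ) ∈ Ioo (0:ℝ) 1 := ⟨by norm_num, by norm_num⟩
      rcases sp with sp | sp
      · rcases sq with sq | sq
        · have := sp _ hm; have := sq _ hm; linarith
        · exact not_neg C ⟨sp, sq⟩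
      · rcases sq with sq | sq
        · exact not_pos C ⟨sq, sp⟩
        · have := sp _ hm; have := sq _ hm; linarith
    · rw [hκ] at eq
      rcases eq with eq | eq
      · left
        rw [ha, hb]
        exact endq_right hL h0 hA1 hB1 eq
      · right
        have eq2 := eq.cj
        rw [map_neg, neg_neg, Complex.conj_I] at eq2
        have := endq_right (A := fun t => conj (B t)) (B := fun t => conj (A t)) hcL
          (by simp only [h0]) c2' c1' eq2
        rwa [ea', eb', rfl'_cj, rfl'_cj] at this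
  obtain ⟨s₁, hs₁, s₂, hs₂, s₃, hs₃, s₄, hs₄, w, hw, g1, g2, g3⟩ := four C inja injb hr Ep Eq
  rw [eA s₁ hs₁] at g1 g2 g3
  rw [eA s₂ hs₂] at g1
  rw [eB s₃ hs₃] at g2
  rw [eB s₄ hs₄] at g3
  refine ⟨A s₁, w * L, mul_ne_zero hw hL, ⟨s₁, hs₁, rfl⟩, ⟨s₂, hs₂, ?_⟩, ⟨s₃, hs₃, ?_⟩,
    ⟨s₄, hs₄, ?_⟩⟩
  · field_simp at g1
    linear_combination g1
  · field_simp at g2
    linear_combination g2
  · field_simp at g3
    linear_combination g3

/-- **Two arcs.** -/
theorem arcs (hA : ContinuousOn A (Icc 0 1)) (hB : ContinuousOn B (Icc 0 1))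
    (h0 : A 0 = B 0) (h1 : A 1 = B 1) (hinjA : InjOn A (Icc 0 1)) (hinjB : InjOn B (Icc 0 1))
    (hinj : ∀ s ∈ Icc (0:ℝ) 1, ∀ s' ∈ Icc (0:ℝ) 1, A s = B s' → s = s' ∧ (s = 0 ∨ s = 1))
    (hp : ∀ s ∈ Icc (0:ℝ) 1, ∀ t ∈ Icc (0:ℝ) 1, 0 ≤ ((A s - A 0) * conj (B t - A 0)).re)
    (hq : ∀ s ∈ Icc (0:ℝ) 1, ∀ t ∈ Icc (0:ℝ) 1, 0 ≤ ((A s - A 1) * conj (B t - A 1)).re)
    (hr : 0 < r) {κ κ' : ℂ} (hκ : κ = Complex.I ∨ κ = -Complex.I)
    (hκ' : κ' = Complex.I ∨ κ' = -Complex.I)
    (ep : StQ A B (A 1 - A 0) r κ ∨ StQ B A (A 1 - A 0) r (-κ))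
    (eq : StQ (fun s => A (1 - s)) (fun s => B (1 - s)) (A 0 - A 1) r κ' ∨
      StQ (fun s => B (1 - s)) (fun s => A (1 - s)) (A 0 - A 1) r (-κ')) :
    ∃ z w : ℂ, w ≠ 0 ∧ z ∈ A '' Icc 0 1 ∧ z + w ∈ A '' Icc 0 1 ∧
      z + w + r * κ * w ∈ B '' Icc 0 1 ∧ z + r * κ * w ∈ B '' Icc 0 1 := by
  rcases hκ with h | h
  · rw [h] at ep ⊢
    exact arcs_I hA hB h0 h1 hinjA hinjB hinj hp hq hr ep hκ' eq
  · rw [h] at ep
    have ep2 := ep.imp StQ.cj StQ.cj
    have eq2 := eq.imp StQ.cj StQ.cj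
    have hc : ∀ z w z' w' : ℂ, ((conj z - conj w) * conj (conj z' - conj w')).re =
        ((z - w) * conj (z' - w')).re := by
      intro z w z' w'
      rw [← map_sub, ← map_sub, ← map_mul, Complex.conj_re]
    obtain ⟨z, w, hw, ⟨s₁, hs₁, g₁⟩, ⟨s₂, hs₂, g₂⟩, ⟨s₃, hs₃, g₃⟩, ⟨s₄, hs₄, g₄⟩⟩ :=
      arcs_I (A := fun t => conj (A t)) (B := fun t => conj (B t)) (r := r) (κ' := conj κ')
        (Complex.continuous_conj.comp_continuousOn hA)
        (Complex.continuous_conj.comp_continuousOn hB) (by simp only [h0]) (by simp only [h1])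
        (fun s hs t ht h => hinjA hs ht ((starRingEnd ℂ).injective h))
        (fun s hs t ht h => hinjB hs ht ((starRingEnd ℂ).injective h))
        (fun s hs s' hs' h => hinj s hs s' hs' ((starRingEnd ℂ).injective h))
        (fun s hs t ht => by rw [hc]; exact hp s hs t ht)
        (fun s hs t ht => by rw [hc]; exact hq s hs t ht) hr
        (by
          rw [map_sub, map_neg, map_neg, map_neg, Complex.conj_I, neg_neg] at ep2
          exact ep2)
        (by
          rcases hκ' with h | h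
          · right; rw [h, Complex.conj_I]
          · left; rw [h, map_neg, Complex.conj_I, neg_neg])
        (by
          rw [map_sub, map_neg] at eq2
          exact eq2)
    refine ⟨conj z, conj w, (map_ne_zero _).2 hw, ⟨s₁, hs₁, ?_⟩, ⟨s₂, hs₂, ?_⟩, ⟨s₃, hs₃, ?_⟩,
      ⟨s₄, hs₄, ?_⟩⟩
    · rw [← g₁]; simp
    · rw [← map_add, ← g₂]; simp
    · rw [h]
      have : conj z + conj w + r * -Complex.I * conj w = conj (z + w + r * Complex.I * w) := by
        simp
      rw [this, ← g₃]; simp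
    · rw [h]
      have : conj z + r * -Complex.I * conj w = conj (z + r * Complex.I * w) := by
        simp
      rw [this, ← g₄]; simp

end Pool.Agent.J4H19.QArcs
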