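import Pool.Agent.H763R2.An.Re

/-! Curves in a strip: corner conditions. -/

set_option autoImplicit false
open Complex Set Topology Metric

namespace Pool.Agent.J4H19.StripA

open Pool.Agent.H763R2.An

variable {c : ℝ → ℂ} {M : ℂ → ℝ} {θ : ℝ → ℝ → ℝ} {g : ℤ} {q : ℝ}

theorem DD_re (c : ℝ → ℂ) (x y : ℝ) : (DD c x y).re = (c x).re + (c x).im - (c y).im := by
  unfold DD; rw [Pool.Agent.H763R2.Sq.Dv_re]; ring
theorem CC_re (c : ℝ → ℂ) (x y : ℝ) : (CC c x y).re = (c y).re + (c x).im - (c y).im := by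
  unfold CC; rw [Pool.Agent.H763R2.Sq.Cv_re]; ring

/-- A point below which, slightly further out, there is no point of the curve, is not inside. -/
theorem low (hM : Continuous M) (hz : ∀ z, M z = 0 → z ∈ range c)
    (out : ∀ z : ℂ, z.im ≤ -1 → M z ≤ 0) {σ : ℝ} (hσ : σ ^ 2 = 1)
    {V : ℂ} {δ : ℝ} (hδ : 0 < δ)
    (h : ∀ w ∈ range c, σ * V.re < σ * w.re → σ * w.re < σ * V.re + δ → V.im ≤ w.im) :
    M V ≤ 0 := by
  by_contra hV
  push Not at hV
  -- a nearby point further out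
  obtain ⟨η, hη0, hηδ, hη⟩ : ∃ η > 0, η < δ ∧ 0 < M (V + ((σ * η : ℝ) : ℂ)) := by
    have h1 : Continuous fun η : ℝ => M (V + ((σ * η : ℝ) : ℂ)) := hM.comp (by fun_prop)
    have h2 : ∀ᶠ η in 𝓝[>] (0:ℝ), 0 < M (V + ((σ * η : ℝ) : ℂ)) := by
      refine (h1.tendsto 0).mono_left nhdsWithin_le_nhds |>.eventually (lt_mem_nhds ?_)
      simpa using hV
    obtain ⟨η, h3, h4, h5⟩ := (h2.and (Ioo_mem_nhdsGT hδ)).exists
    exact ⟨η, h4, h5, h3⟩
  obtain ⟨V', hV'⟩ : ∃ V' : ℂ, V' = V + ((σ * η : ℝ) : ℂ) := ⟨_, rfl⟩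
  rw [← hV'] at hη
  have e1 : σ * V'.re = σ * V.re + η := by
    rw [hV', add_re, ofReal_re]
    linear_combination η * hσ
  have e2 : V'.im = V.im := by rw [hV', add_im, ofReal_im, add_zero]
  have hne : ∀ s : ℝ, 0 ≤ s → M (V' - (s : ℂ) * I) ≠ 0 := by
    intro s hs h0
    have hw := hz _ h0
    have r1 : (V' - (s : ℂ) * I).re = V'.re := by simp
    have r2 : (V' - (s : ℂ) * I).im = V'.im - s := by simp
    have := h _ hw (by rw [r1, e1]; linarith) (by rw [r1, e1]; linarith)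
    rw [r2, e2] at this
    have hs0 : s = 0 := by linarith
    rw [hs0] at h0
    simp only [ofReal_zero, zero_mul, sub_zero] at h0
    linarith
  obtain ⟨S, hS⟩ : ∃ S : ℝ, S = max 0 (V'.im + 1) := ⟨_, rfl⟩
  have hS0 : 0 ≤ S := by rw [hS]; exact le_max_left _ _
  have hS1 : V'.im + 1 ≤ S := by rw [hS]; exact le_max_right _ _
  have hend : M (V' - (S : ℂ) * I) ≤ 0 := out _ (by simp; linarith)
  have hcont : ContinuousOn (fun s : ℝ => M (V' - (s : ℂ) * I)) (Icc 0 S) :=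
    (hM.comp (by fun_prop)).continuousOn
  have h0 : (0:ℝ) ∈ Icc (M (V' - (S : ℂ) * I)) (M (V' - ((0:ℝ) : ℂ) * I)) :=
    ⟨hend, by simpa using hη.le⟩
  obtain ⟨s, hs, hs'⟩ := intermediate_value_Icc' hS0 hcont h0
  exact hne s hs.1 hs'

/-- two steps -/
theorem corner_two (A : Ang c M θ g) {x1 y1 : ℝ} (hx1 : x1 ∈ Ioc 0 q) (hy1 : y1 ∈ Ico q 1)
    (hxy : x1 < y1) (h1 : ∀ x ∈ Icc 0 x1, M (DD c x y1) ≤ 0 ∨ M (CC c x y1) ≤ 0)
    (h2 : ∀ y ∈ Icc y1 1, M (DD c x1 y) ≤ 0 ∨ M (CC c x1 y) ≤ 0) : Corner θ q := by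
  refine ⟨y1, hy1, x1, hx1, ?_⟩
  have s1 := A.Nf_x (y := y1) (x1 := 0) (x2 := x1) (by linarith [hy1.2]) hx1.1.le hxy
    (fun x hx => by
      rintro ⟨a1, a2⟩
      rcases h1 x hx with h | h <;> linarith)
  have s2 := A.Nf_y (x := x1) (y1 := y1) (y2 := 1) hxy hy1.2.le (by linarith [hx1.1])
    (fun y hy => by
      rintro ⟨a1, a2⟩
      rcases h2 y hy with h | h <;> linarith)
  rw [s1, s2]

/-- A chord with end points `z` on the right and `z'` on the left for which one of the further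
vertices is not inside: one of them is below the strip, or the higher one of `z`, `z'` is exposed. -/
def Gd (C : Set ℂ) (z z' : ℂ) : Prop :=
  1 + z.im ≤ z.re - z'.re ∨ 1 + z'.im ≤ z.re - z'.re ∨
    (z'.im ≤ z.im ∧ ∀ w ∈ C, z.re < w.re → w.re < z.re + (1 + z.im) → z.im - z.re ≤ w.im) ∨
    (z.im ≤ z'.im ∧ ∀ w ∈ C, w.re < z'.re → z'.re - (1 + z'.im) < w.re → z'.im + z'.re ≤ w.im)

theorem gd_out (st : ∀ t, |(c t).im| ≤ 1) (hM : Continuous M) (hz : ∀ z, M z = 0 → z ∈ range c)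
    (out : ∀ z : ℂ, z.im ≤ -1 → M z ≤ 0) {x y : ℝ} (hb : 0 ≤ (c x).re) (hb' : (c y).re ≤ 0)
    (h : Gd (range c) (c x) (c y)) : M (DD c x y) ≤ 0 ∨ M (CC c x y) ≤ 0 := by
  rcases h with h | h | ⟨h, hr⟩ | ⟨h, hr⟩
  · left; exact out _ (by rw [DD_im]; linarith)
  · right; exact out _ (by rw [CC_im]; linarith)
  · have h0 := (abs_le.1 (st y)).1
    rcases h0.eq_or_lt with h1 | h1
    · right; exact out _ (by rw [CC_im]; linarith)
    left
    refine low hM hz out (σ := 1) (by norm_num) (δ := 1 + (c y).im) (by linarith) ?_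
    intro w hw k1 k2
    rw [DD_re] at k1 k2
    rw [DD_im]
    have := hr w hw (by linarith) (by linarith)
    linarith
  · have h0 := (abs_le.1 (st x)).1
    rcases h0.eq_or_lt with h1 | h1
    · left; exact out _ (by rw [DD_im]; linarith)
    right
    refine low hM hz out (σ := -1) (by norm_num) (δ := 1 + (c x).im) (by linarith) ?_
    intro w hw k1 k2
    rw [CC_re] at k1 k2
    rw [CC_im]
    have := hr w hw (by linarith) (by linarith)
    linarith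

/-- **Corner, path of chords.** -/
theorem corner_path (A : Ang c M θ g) {x y : ℝ → ℝ} (hx : ContinuousOn x (Icc 0 1))
    (hy : ContinuousOn y (Icc 0 1)) (h1 : ∀ t ∈ Icc (0:ℝ) 1, x t < y t)
    (h2 : ∀ t ∈ Icc (0:ℝ) 1, y t < x t + 1) (x0 : x 0 = 0) (y0 : y 0 ∈ Ico q 1)
    (x1 : x 1 ∈ Ioc 0 q) (y1 : y 1 = 1)
    (h : ∀ t ∈ Icc (0:ℝ) 1, M (DD c (x t) (y t)) ≤ 0 ∨ M (CC c (x t) (y t)) ≤ 0) :
    Corner θ q := by
  refine ⟨y 0, y0, x 1, x1, ?_⟩
  set cl : ℝ → ℝ := fun t => max 0 (min 1 t) with hcl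
  have ccl : Continuous cl := by rw [hcl]; fun_prop
  have hm : ∀ t, cl t ∈ Icc (0:ℝ) 1 := fun t =>
    ⟨le_max_left _ _, max_le zero_le_one (min_le_left _ _)⟩
  have := A.Nf_path (p := fun t => (x (cl t), y (cl t)))
    ((hx.comp_continuous ccl hm).prodMk (hy.comp_continuous ccl hm))
    (fun t => ⟨h1 _ (hm t), h2 _ (hm t)⟩) (fun t => by
      rintro ⟨a1, a2⟩
      rcases h _ (hm t) with h | h <;> linarith) 0 1
  have e0 : cl 0 = 0 := by simp [hcl]
  have e1 : cl 1 = 1 := by simp [hcl]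
  simp only [e0, e1, x0, y1] at this
  exact this

end Pool.Agent.J4H19.StripA
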