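import Pool.Agent.J4H19.StripA

/-! Curves in a strip: the corner at an end point near which one arc is coarsely monotone. -/

set_option autoImplicit false
open Complex Set Topology Metric

namespace Pool.Agent.J4H19.StripA

open Pool.Agent.H763R2.An

variable {c : ℝ → ℂ} {M : ℂ → ℝ} {θ : ℝ → ℝ → ℝ} {g : ℤ} {q : ℝ}

lemma norm_lt {w : ℂ} {x y ε : ℝ} (h1 : |w.re| ≤ x) (h2 : |1 + w.im| ≤ y) (h : x + y < ε) :
    ‖w + I‖ < ε := by
  have := norm_le_abs_re_add_abs_im (w + I)
  simp only [add_re, I_re, add_zero, add_im, I_im] at this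
  rw [add_comm w.im 1] at this
  linarith

lemma re_im_le (w : ℂ) : |w.re| ≤ ‖w + I‖ ∧ |1 + w.im| ≤ ‖w + I‖ := by
  have h1 := abs_re_le_norm (w + I)
  have h2 := abs_im_le_norm (w + I)
  simp only [add_re, I_re, add_zero, add_im, I_im] at h1 h2
  rw [add_comm w.im 1] at h2
  exact ⟨h1, h2⟩

/-- common preparations -/
lemma prep (L : Loop c) (H : Hf c M q) {ε : ℝ} (hε : 0 < ε) :
    ∃ η > 0, η < q ∧ η < 1 - q ∧ ∀ t, |t| ≤ η → ‖c t + I‖ < ε := by
  have q0 := H.q0
  have q1 := H.q1
  have hc := L.cont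
  obtain ⟨d, hd, hd'⟩ := Metric.continuousAt_iff.1 (hc.continuousAt (x := 0)) ε hε
  refine ⟨min (d / 2) (min (q / 2) ((1 - q) / 2)), ?_, ?_, ?_, ?_⟩
  · exact lt_min (by positivity) (lt_min (by positivity) (by linarith))
  · exact ((min_le_right _ _).trans (min_le_left _ _)).trans_lt (by linarith)
  · exact ((min_le_right _ _).trans (min_le_right _ _)).trans_lt (by linarith)
  · intro t ht
    have h1 := hd' (x := t) (by
      rw [dist_zero_right, Real.norm_eq_abs]
      have := ht.trans (min_le_left _ _)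
      linarith)
    rwa [dist_eq_norm, H.P, sub_neg_eq_add] at h1

/-- **Corner, coarsely monotone left arc.** -/
theorem corner_left (L : Loop c) (J : Inj c) (H : Hf c M q) (hM : Continuous M)
    (hz : ∀ z, M z = 0 → z ∈ range c) (A : Ang c M θ g)
    (rp : ∀ t ∈ Ioo 0 q, 0 < (c t).re) (rn : ∀ t ∈ Ioo q 1, (c t).re < 0)
    {ε : ℝ} (hε : 0 < ε)
    (narrow : ∀ z ∈ range c, z ≠ -I → ‖z + I‖ < ε → |z.re| < 1 + z.im)
    (hN : ∀ z ∈ range c, ∀ w ∈ range c, ‖z + I‖ < ε → ‖w + I‖ < ε → w.re < z.re → z.re < 0 →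
      z.im + z.re ≤ w.im) : Corner θ q := by
  have q0 := H.q0
  have q1 := H.q1
  have hc := L.cont
  have hst : ∀ w ∈ range c, 0 ≤ 1 + w.im := by
    rintro _ ⟨t, rfl⟩
    have := (abs_le.1 (H.st t)).1
    linarith
  have e2 : ∀ y, c y = c (y - 1) := fun y => by
    have := L.per (y - 1); rwa [sub_add_cancel] at this
  obtain ⟨η, η0, η1, η2, hη⟩ := prep L H (ε := ε / 8) (by positivity)
  -- the fixed point on the left arc
  obtain ⟨y1, hy1⟩ : ∃ y1, y1 = 1 - η := ⟨_, rfl⟩
  have hy1m : y1 ∈ Ioo q 1 := ⟨by linarith, by linarith⟩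
  have hnear : ∀ y ∈ Icc y1 1, ‖c y + I‖ < ε / 8 := by
    intro y hy
    rw [e2 y]
    exact hη _ (by rw [abs_le]; constructor <;> linarith [hy.1, hy.2])
  have ny1 := hnear y1 ⟨le_rfl, hy1m.2.le⟩
  have hy1re := rn y1 hy1m
  have a1pos : 0 < 1 + (c y1).im := by
    refine (abs_nonneg _).trans_lt (narrow _ (mem_range_self _) ?_ (by linarith))
    intro h
    rw [h] at hy1re
    simp at hy1re
  obtain ⟨η', η'0, η'1, η'2, hη'⟩ := prep L H (ε := min (1 + (c y1).im) (ε / 8))
    (lt_min a1pos (by positivity))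
  obtain ⟨δ, hδ, hδ'⟩ := L.near J.inj0 (η := min η' (1 / 4)) (lt_min η'0 (by norm_num))
    ((min_le_right _ _).trans_lt (by norm_num))
  -- the deepest point of the right arc
  obtain ⟨a₀, ha₀⟩ : ∃ a₀, a₀ = min δ ε / 4 := ⟨_, rfl⟩
  have ha₀0 : 0 < a₀ := by rw [ha₀]; have := lt_min hδ hε; linarith
  have ha₀δ : a₀ ≤ δ / 4 := by rw [ha₀]; have := min_le_left δ ε; linarith
  have ha₀ε : a₀ ≤ ε / 4 := by rw [ha₀]; have := min_le_right δ ε; linarith
  have hK : IsCompact (range c ∩ {z : ℂ | 0 ≤ z.re ∧ z.re ≤ 1 + z.im ∧ 1 + z.im ≤ a₀}) := by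
    refine L.compact.inter_right ?_
    exact (isClosed_le (f := fun _ : ℂ => (0:ℝ)) (g := fun z : ℂ => z.re) (by fun_prop)
      (by fun_prop)).inter ((isClosed_le (f := fun z : ℂ => z.re) (g := fun z : ℂ => 1 + z.im)
      (by fun_prop) (by fun_prop)).inter (isClosed_le (f := fun z : ℂ => 1 + z.im)
      (g := fun _ : ℂ => a₀) (by fun_prop) (by fun_prop)))
  have hKne : (range c ∩ {z : ℂ | 0 ≤ z.re ∧ z.re ≤ 1 + z.im ∧ 1 + z.im ≤ a₀}).Nonempty := by
    refine ⟨-I, ⟨0, H.P⟩, ?_, ?_, ?_⟩ <;> simp [ha₀0.le]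
  obtain ⟨zm, ⟨hzm, b0, b1, b2⟩, hmax⟩ := hK.exists_isMaxOn hKne
    (Complex.continuous_re.continuousOn)
  have hmax' : ∀ w ∈ range c, 0 ≤ w.re → w.re ≤ 1 + w.im → 1 + w.im ≤ a₀ → w.re ≤ zm.re :=
    fun w h1 h2 h3 h4 => hmax ⟨h1, h2, h3, h4⟩
  have hzmre : 0 < zm.re := by
    obtain ⟨η₃, k0, k1, k2, hk⟩ := prep L H (ε := a₀) ha₀0
    have hk3 := hk η₃ (by rw [abs_of_pos k0])
    have hre := rp η₃ ⟨k0, k1⟩
    have hna := narrow _ (mem_range_self η₃) (by
      intro h
      rw [h] at hre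
      simp at hre) (by linarith)
    rw [abs_of_pos hre] at hna
    have := (le_abs_self _).trans (re_im_le (c η₃)).2
    have := hmax' _ (mem_range_self η₃) hre.le hna.le (by linarith)
    linarith
  obtain ⟨t, ht, rfl⟩ := hδ' zm hzm (by
    rw [H.P, sub_neg_eq_add]
    refine norm_lt (x := a₀) (y := a₀) ?_ ?_ (by linarith)
    · rw [abs_of_pos hzmre]; linarith
    · rw [abs_of_nonneg (hst _ hzm)]; exact b2)
  have ht0 : 0 < t := by
    by_contra hcon
    push Not at hcon
    have h1 := H.rn (t + 1) ⟨by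
      have := ht.1
      have := min_le_left η' (1 / 4 : ℝ)
      linarith, by linarith⟩
    rw [L.per] at h1
    linarith
  have htη : t < η' := ht.2.trans_le (min_le_left _ _)
  have htq : t ∈ Ioo 0 q := ⟨ht0, by linarith⟩
  refine corner_two A (x1 := t) (y1 := y1) ⟨ht0, htq.2.le⟩ ⟨hy1m.1.le, hy1m.2⟩
    (htq.2.trans hy1m.1) ?_ ?_
  · intro x hx
    right
    have hb := H.rp x ⟨hx.1, hx.2.trans htq.2.le⟩
    have hxn := hη' x (by rw [abs_of_nonneg hx.1]; linarith [hx.2])
    have hx1 : 1 + (c x).im < 1 + (c y1).im := by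
      have := (le_abs_self _).trans (re_im_le (c x)).2
      have := min_le_left (1 + (c y1).im) (ε / 8)
      linarith
    have hx0 := hst _ (mem_range_self x)
    refine low hM hz H.out (σ := -1) (by norm_num) (δ := ε / 8) (by positivity) ?_
    intro w hw k1 k2
    rw [CC_re] at k1 k2
    rw [CC_im]
    by_contra hcon
    push Not at hcon
    have g1 := re_im_le (c y1)
    have g2 := abs_le.1 (g1.1.trans ny1.le)
    have g3 := abs_le.1 (g1.2.trans ny1.le)
    have g4 := hst w hw
    have hwn : ‖w + I‖ < ε := by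
      refine norm_lt (x := 3 * (ε / 8)) (y := ε / 8) ?_ ?_ (by linarith)
      · rw [abs_le]; constructor <;> linarith
      · rw [abs_of_nonneg g4]; linarith
    have := hN _ (mem_range_self y1) w hw (by linarith) hwn (by linarith) hy1re
    linarith
  · intro y hy
    have hyn := hnear y hy
    have g1 := re_im_le (c y)
    have g2 := abs_le.1 (g1.1.trans hyn.le)
    have g3 := abs_le.1 (g1.2.trans hyn.le)
    have hb' := H.rn y ⟨by linarith [hy.1, hy1m.1], hy.2⟩
    have g5 := hst _ (mem_range_self y)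
    rcases le_or_gt (c y).im (c t).im with h | h
    · left
      refine low hM hz H.out (σ := 1) (by norm_num) (δ := ε / 8) (by positivity) ?_
      intro w hw k1 k2
      rw [DD_re] at k1 k2
      rw [DD_im]
      by_contra hcon
      push Not at hcon
      have g4 := hst w hw
      have hwre : 0 < w.re := by linarith
      have hwn : ‖w + I‖ < ε := by
        refine norm_lt (x := 2 * a₀ + ε / 8) (y := a₀) ?_ ?_ (by linarith)
        · rw [abs_le]; constructor <;> linarith
        · rw [abs_of_nonneg g4]; linarith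
      have hna := narrow w hw (by
        rintro rfl
        simp at hwre) hwn
      rw [abs_of_pos hwre] at hna
      have := hmax' w hw hwre.le hna.le (by linarith)
      linarith
    · right
      have hy1' : y < 1 := by
        refine lt_of_le_of_ne hy.2 fun h1 => ?_
        rw [h1, H.P1] at h
        have := hst _ (mem_range_self t)
        simp at h
        linarith
      have hyre := rn y ⟨by linarith [hy.1, hy1m.1], hy1'⟩
      refine low hM hz H.out (σ := -1) (by norm_num) (δ := ε / 8) (by positivity) ?_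
      intro w hw k1 k2
      rw [CC_re] at k1 k2
      rw [CC_im]
      by_contra hcon
      push Not at hcon
      have g4 := hst w hw
      have g6 := hst _ hzm
      have hwn : ‖w + I‖ < ε := by
        refine norm_lt (x := 3 * (ε / 8)) (y := ε / 8) ?_ ?_ (by linarith)
        · rw [abs_le]; constructor <;> linarith
        · rw [abs_of_nonneg g4]; linarith
      have := hN _ (mem_range_self y) w hw (by linarith) hwn (by linarith) hyre
      linarith

/-- **Corner, coarsely monotone right arc.** -/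
theorem corner_right (L : Loop c) (J : Inj c) (H : Hf c M q) (hM : Continuous M)
    (hz : ∀ z, M z = 0 → z ∈ range c) (A : Ang c M θ g)
    (rp : ∀ t ∈ Ioo 0 q, 0 < (c t).re) (rn : ∀ t ∈ Ioo q 1, (c t).re < 0)
    {ε : ℝ} (hε : 0 < ε)
    (narrow : ∀ z ∈ range c, z ≠ -I → ‖z + I‖ < ε → |z.re| < 1 + z.im)
    (hN : ∀ z ∈ range c, ∀ w ∈ range c, ‖z + I‖ < ε → ‖w + I‖ < ε → 0 < z.re → z.re < w.re →
      z.im - z.re ≤ w.im) : Corner θ q := by
  have q0 := H.q0
  have q1 := H.q1
  have hc := L.cont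
  have hst : ∀ w ∈ range c, 0 ≤ 1 + w.im := by
    rintro _ ⟨t, rfl⟩
    have := (abs_le.1 (H.st t)).1
    linarith
  have e2 : ∀ y, c y = c (y - 1) := fun y => by
    have := L.per (y - 1); rwa [sub_add_cancel] at this
  obtain ⟨η, η0, η1, η2, hη⟩ := prep L H (ε := ε / 8) (by positivity)
  -- the fixed point on the right arc
  have hx1m : η ∈ Ioo 0 q := ⟨η0, η1⟩
  have hnear : ∀ x ∈ Icc 0 η, ‖c x + I‖ < ε / 8 := by
    intro x hx
    exact hη _ (by rw [abs_of_nonneg hx.1]; exact hx.2)
  have nx1 := hnear η ⟨η0.le, le_rfl⟩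
  have hx1re := rp η hx1m
  have a1pos : 0 < 1 + (c η).im := by
    refine (abs_nonneg _).trans_lt (narrow _ (mem_range_self _) ?_ (by linarith))
    intro h
    rw [h] at hx1re
    simp at hx1re
  obtain ⟨η', η'0, η'1, η'2, hη'⟩ := prep L H (ε := min (1 + (c η).im) (ε / 8))
    (lt_min a1pos (by positivity))
  obtain ⟨δ, hδ, hδ'⟩ := L.near J.inj0 (η := min η' (1 / 4)) (lt_min η'0 (by norm_num))
    ((min_le_right _ _).trans_lt (by norm_num))
  -- the highest point of the left arc
  obtain ⟨a₀, ha₀⟩ : ∃ a₀, a₀ = min δ ε / 4 := ⟨_, rfl⟩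
  have ha₀0 : 0 < a₀ := by rw [ha₀]; have := lt_min hδ hε; linarith
  have ha₀δ : a₀ ≤ δ / 4 := by rw [ha₀]; have := min_le_left δ ε; linarith
  have ha₀ε : a₀ ≤ ε / 4 := by rw [ha₀]; have := min_le_right δ ε; linarith
  have hK : IsCompact (range c ∩ {z : ℂ | z.re ≤ 0 ∧ -z.re ≤ 1 + z.im ∧ 1 + z.im ≤ a₀}) := by
    refine L.compact.inter_right ?_
    exact (isClosed_le (f := fun z : ℂ => z.re) (g := fun _ : ℂ => (0:ℝ)) (by fun_prop)
      (by fun_prop)).inter ((isClosed_le (f := fun z : ℂ => -z.re) (g := fun z : ℂ => 1 + z.im)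
      (by fun_prop) (by fun_prop)).inter (isClosed_le (f := fun z : ℂ => 1 + z.im)
      (g := fun _ : ℂ => a₀) (by fun_prop) (by fun_prop)))
  have hKne : (range c ∩ {z : ℂ | z.re ≤ 0 ∧ -z.re ≤ 1 + z.im ∧ 1 + z.im ≤ a₀}).Nonempty := by
    refine ⟨-I, ⟨0, H.P⟩, ?_, ?_, ?_⟩ <;> simp [ha₀0.le]
  obtain ⟨zm, ⟨hzm, b0, b1, b2⟩, hmin⟩ := hK.exists_isMinOn hKne
    (Complex.continuous_re.continuousOn)
  have hmin' : ∀ w ∈ range c, w.re ≤ 0 → -w.re ≤ 1 + w.im → 1 + w.im ≤ a₀ → zm.re ≤ w.re :=
    fun w h1 h2 h3 h4 => hmin ⟨h1, h2, h3, h4⟩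
  have hzmre : zm.re < 0 := by
    obtain ⟨η₃, k0, k1, k2, hk⟩ := prep L H (ε := a₀) ha₀0
    have hk3 := hk (1 - η₃ - 1) (by rw [show 1 - η₃ - 1 = -η₃ by ring, abs_neg, abs_of_pos k0])
    rw [← e2] at hk3
    have hre := rn (1 - η₃) ⟨by linarith, by linarith⟩
    have hna := narrow _ (mem_range_self (1 - η₃)) (by
      intro h
      rw [h] at hre
      simp at hre) (by linarith)
    rw [abs_of_neg hre] at hna
    have := (le_abs_self _).trans (re_im_le (c (1 - η₃))).2
    have := hmin' _ (mem_range_self (1 - η₃)) hre.le hna.le (by linarith)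
    linarith
  obtain ⟨t', ht', rfl⟩ := hδ' zm hzm (by
    rw [H.P, sub_neg_eq_add]
    refine norm_lt (x := a₀) (y := a₀) ?_ ?_ (by linarith)
    · rw [abs_of_neg hzmre]; linarith
    · rw [abs_of_nonneg (hst _ hzm)]; exact b2)
  have ht0 : t' < 0 := by
    by_contra hcon
    push Not at hcon
    have h1 := H.rp t' ⟨hcon, by
      have := ht'.2
      have := min_le_left η' (1 / 4 : ℝ)
      linarith⟩
    linarith
  have htη : -η' < t' := by
    have := ht'.1
    have := min_le_left η' (1 / 4 : ℝ)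
    linarith
  obtain ⟨t, ht⟩ : ∃ t, t = t' + 1 := ⟨_, rfl⟩
  have ect : c t' = c t := by rw [ht, L.per]
  rw [ect] at hzm b0 b1 b2 hmin' hzmre
  have htq : t ∈ Ioo q 1 := ⟨by linarith, by linarith⟩
  refine corner_two A (x1 := η) (y1 := t) ⟨η0, η1.le⟩ ⟨htq.1.le, htq.2⟩
    (η1.trans htq.1) ?_ ?_
  · intro x hx
    have hxn := hnear x hx
    have g1 := re_im_le (c x)
    have g2 := abs_le.1 (g1.1.trans hxn.le)
    have g3 := abs_le.1 (g1.2.trans hxn.le)
    have hb := H.rp x ⟨hx.1, by linarith [hx.2]⟩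
    have g5 := hst _ (mem_range_self x)
    rcases le_or_gt (c x).im (c t).im with h | h
    · right
      refine low hM hz H.out (σ := -1) (by norm_num) (δ := ε / 8) (by positivity) ?_
      intro w hw k1 k2
      rw [CC_re] at k1 k2
      rw [CC_im]
      by_contra hcon
      push Not at hcon
      have g4 := hst w hw
      have hwre : w.re < 0 := by linarith
      have hwn : ‖w + I‖ < ε := by
        refine norm_lt (x := 2 * a₀ + ε / 8) (y := a₀) ?_ ?_ (by linarith)
        · rw [abs_le]; constructor <;> linarith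
        · rw [abs_of_nonneg g4]; linarith
      have hna := narrow w hw (by
        rintro rfl
        simp at hwre) hwn
      rw [abs_of_neg hwre] at hna
      have := hmin' w hw hwre.le hna.le (by linarith)
      linarith
    · left
      have hx0' : 0 < x := by
        refine lt_of_le_of_ne hx.1 fun h1 => ?_
        rw [← h1, H.P] at h
        have := hst _ (mem_range_self t)
        simp at h
        linarith
      have hxre := rp x ⟨hx0', by linarith [hx.2]⟩
      refine low hM hz H.out (σ := 1) (by norm_num) (δ := ε / 8) (by positivity) ?_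
      intro w hw k1 k2
      rw [DD_re] at k1 k2
      rw [DD_im]
      by_contra hcon
      push Not at hcon
      have g4 := hst w hw
      have g6 := hst _ hzm
      have hwn : ‖w + I‖ < ε := by
        refine norm_lt (x := 3 * (ε / 8)) (y := ε / 8) ?_ ?_ (by linarith)
        · rw [abs_le]; constructor <;> linarith
        · rw [abs_of_nonneg g4]; linarith
      have := hN _ (mem_range_self x) w hw (by linarith) hwn hxre (by linarith)
      linarith
  · intro y hy
    left
    have hb' := H.rn y ⟨by linarith [hy.1, htq.1], hy.2⟩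
    have hyn := hη' (y - 1) (by rw [abs_le]; constructor <;> linarith [hy.1, hy.2])
    rw [← e2] at hyn
    have hy1 : 1 + (c y).im < 1 + (c η).im := by
      have := (le_abs_self _).trans (re_im_le (c y)).2
      have := min_le_left (1 + (c η).im) (ε / 8)
      linarith
    have hy0 := hst _ (mem_range_self y)
    refine low hM hz H.out (σ := 1) (by norm_num) (δ := ε / 8) (by positivity) ?_
    intro w hw k1 k2
    rw [DD_re] at k1 k2
    rw [DD_im]
    by_contra hcon
    push Not at hcon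
    have g1 := re_im_le (c η)
    have g2 := abs_le.1 (g1.1.trans nx1.le)
    have g3 := abs_le.1 (g1.2.trans nx1.le)
    have g4 := hst w hw
    have hwn : ‖w + I‖ < ε := by
      refine norm_lt (x := 3 * (ε / 8)) (y := ε / 8) ?_ ?_ (by linarith)
      · rw [abs_le]; constructor <;> linarith
      · rw [abs_of_nonneg g4]; linarith
    have := hN _ (mem_range_self η) w hw (by linarith) hwn hx1re (by linarith)
    linarith

end Pool.Agent.J4H19.StripA
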