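import Pool.Agent.J4H19.StripB
import Pool.Agent.J4H19.LipR

/-! Curves in a strip: the corner at an end point near which both arcs are graphs of Lipschitz
functions. -/

set_option autoImplicit false
open Complex Set Topology Metric

namespace Pool.Agent.J4H19.StripA

open Pool.Agent.H763R2.An

variable {c : ℝ → ℂ} {M : ℂ → ℝ} {θ : ℝ → ℝ → ℝ} {g : ℤ} {q : ℝ}

/-- A point further out than the curve at the same height is not inside. -/
theorem up (hM : Continuous M) (hz : ∀ z, M z = 0 → z ∈ range c)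
    (out : ∀ z : ℂ, z.im ≤ -1 → M z ≤ 0) (hst : ∀ w ∈ range c, 0 ≤ 1 + w.im)
    {ε : ℝ} (hε : 0 < ε)
    (narrow : ∀ z ∈ range c, z ≠ -I → ‖z + I‖ < ε → |z.re| < 1 + z.im)
    {σ : ℝ} (hσ : σ = 1 ∨ σ = -1)
    {V : ℂ} (hV : 0 < σ * V.re) (hVX : 1 + V.im < ε / 4) (hVY : σ * V.re < ε / 4)
    (h : ∀ w ∈ range c, w.im = V.im → σ * V.re ≤ σ * w.re → ‖w + I‖ < ε → False) : M V ≤ 0 := by
  have hσ2 : σ ^ 2 = 1 := by rcases hσ with h | h <;> rw [h] <;> norm_num
  have habs : ∀ x : ℝ, 0 < σ * x → |x| = σ * x := by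
    intro x hx
    rcases hσ with h | h
    · rw [h, one_mul] at hx ⊢; exact abs_of_pos hx
    · rw [h, neg_one_mul] at hx ⊢; exact abs_of_neg (by linarith)
  rcases le_or_gt V.im (-1) with h1 | h1
  · exact out V h1
  by_contra hMV
  push Not at hMV
  obtain ⟨R, hR⟩ : ∃ R, R = max (σ * V.re) (1 + V.im) := ⟨_, rfl⟩
  have hR1 : σ * V.re ≤ R := by rw [hR]; exact le_max_left _ _
  have hR2 : 1 + V.im ≤ R := by rw [hR]; exact le_max_right _ _
  have hR3 : R < ε / 4 := by rw [hR]; exact max_lt hVY hVX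
  obtain ⟨V', hV'⟩ : ∃ V' : ℂ, V' = V + ((σ * (R - σ * V.re) : ℝ) : ℂ) := ⟨_, rfl⟩
  have e1 : σ * V'.re = R := by
    rw [hV', add_re, ofReal_re]
    linear_combination (R - σ * V.re) * hσ2
  have e2 : V'.im = V.im := by rw [hV', add_im, ofReal_im, add_zero]
  have hMV' : M V' ≤ 0 := by
    refine low hM hz out hσ2 (δ := ε / 4) (by positivity) ?_
    intro w hw k1 k2
    by_contra hcon
    push Not at hcon
    rw [e1] at k1 k2
    rw [e2] at hcon
    have g1 := hst w hw
    have hwp : 0 < σ * w.re := by linarith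
    have hwa := habs _ hwp
    have hwn : ‖w + I‖ < ε := by
      refine norm_lt (x := ε / 2) (y := ε / 4) ?_ ?_ (by linarith)
      · rw [hwa]; linarith
      · rw [abs_of_nonneg g1]; linarith
    have := narrow w hw (by
      rintro rfl
      simp at hwp) hwn
    rw [hwa] at this
    linarith
  have hcont : ContinuousOn (fun r : ℝ => M (V + ((σ * r : ℝ) : ℂ))) (Icc 0 (R - σ * V.re)) :=
    (hM.comp (by fun_prop)).continuousOn
  obtain ⟨r, hr, hr'⟩ := intermediate_value_Icc' (by linarith) hcont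
    (show (0:ℝ) ∈ Icc (M (V + ((σ * (R - σ * V.re) : ℝ) : ℂ))) (M (V + ((σ * 0 : ℝ) : ℂ))) from
      ⟨by rw [← hV']; exact hMV', by simpa using hMV.le⟩)
  have hw := hz _ hr'
  have r1 : σ * (V + ((σ * r : ℝ) : ℂ)).re = σ * V.re + r := by
    rw [add_re, ofReal_re]
    linear_combination r * hσ2
  have r2 : (V + ((σ * r : ℝ) : ℂ)).im = V.im := by rw [add_im, ofReal_im, add_zero]
  refine h _ hw r2 (by rw [r1]; linarith [hr.1]) ?_
  refine norm_lt (x := ε / 4) (y := ε / 4) ?_ ?_ (by linarith)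
  · rw [habs _ (by rw [r1]; linarith [hr.1]), r1]; linarith [hr.2]
  · rw [r2, abs_of_pos (by linarith)]; exact hVX.le

/-- the function whose graph is an arc near `-i` -/
theorem exists_fn (hc : Continuous c) (P : c 0 = -I) {ε η L' σ : ℝ} (hσ : σ = 1 ∨ σ = -1)
    (hL' : 0 ≤ L') (hη : 0 < η) (hst : ∀ w ∈ range c, 0 ≤ 1 + w.im)
    (hnear : ∀ t, |t| ≤ η → ‖c t + I‖ < ε) (hinj : ∀ s ∈ Icc 0 η, ∀ t ∈ Icc 0 η, c s = c t → s = t)
    (hpos : ∀ t ∈ Ioc 0 η, 0 < σ * (c t).re)
    (hf : ∀ z ∈ range c, ∀ w ∈ range c, ‖z + I‖ < ε → ‖w + I‖ < ε → 0 ≤ σ * z.re →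
      0 ≤ σ * w.re → |z.re - w.re| ≤ L' * |z.im - w.im|) :
    0 < 1 + (c η).im ∧ MonotoneOn (fun t => 1 + (c t).im) (Icc 0 η) ∧
    ∀ x₀, 0 < x₀ → x₀ ≤ 1 + (c η).im → ∃ f : ℝ → ℝ, (∀ x y, |f x - f y| ≤ L' * |x - y|) ∧
      (∀ x ≤ 0, f x = 0) ∧ (∀ x, 0 < x → 0 < f x) ∧
      (∀ w ∈ range c, ‖w + I‖ < ε → 0 ≤ σ * w.re → 1 + w.im ≤ x₀ → σ * w.re = f (1 + w.im)) ∧
      ∀ x ∈ Ioc 0 x₀, ∃ t ∈ Ioc 0 η, 1 + (c t).im = x := by
  have hpos' : ∀ t ∈ Icc 0 η, 0 ≤ σ * (c t).re := by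
    intro t ht
    rcases ht.1.eq_or_lt with h | h
    · rw [← h, P]; simp
    · exact (hpos t ⟨h, ht.2⟩).le
  have hn : ∀ t ∈ Icc 0 η, ‖c t + I‖ < ε := fun t ht => hnear t (by
    rw [abs_of_nonneg ht.1]; exact ht.2)
  have hinj' : InjOn (fun t => 1 + (c t).im) (Icc 0 η) := by
    intro s hs t ht h
    simp only [add_right_inj] at h
    have h1 := hf _ (mem_range_self s) _ (mem_range_self t) (hn s hs) (hn t ht) (hpos' s hs)
      (hpos' t ht)
    rw [h, sub_self, abs_zero, mul_zero] at h1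
    have h2 : (c s).re = (c t).re := by
      have := abs_nonpos_iff.1 h1
      linarith
    exact hinj s hs t ht (Complex.ext h2 h)
  have hcon : ContinuousOn (fun t => 1 + (c t).im) (Icc 0 η) := by fun_prop
  have h0 : 1 + (c 0).im = 0 := by rw [P]; simp
  have i0 : (0:ℝ) ∈ Icc 0 η := ⟨le_rfl, hη.le⟩
  have i1 : η ∈ Icc 0 η := ⟨hη.le, le_rfl⟩
  have hηpos : 0 < 1 + (c η).im := by
    refine lt_of_le_of_ne (hst _ (mem_range_self _)) fun h => ?_
    have := hinj' i0 i1 (by simp only [h0]; exact h)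
    linarith
  have hmono : StrictMonoOn (fun t => 1 + (c t).im) (Icc 0 η) :=
    hcon.strictMonoOn_of_injOn_Icc hη.le (by simp only [h0]; exact hηpos.le) hinj'
  refine ⟨hηpos, hmono.monotoneOn, ?_⟩
  intro x₀ hx₀ hx₀'
  have kk : ∀ x : ℝ, ∃ t ∈ Icc 0 η, 1 + (c t).im = max (min x x₀) 0 := by
    intro x
    have h1 : max (min x x₀) 0 ∈ Icc ((fun t => 1 + (c t).im) 0) ((fun t => 1 + (c t).im) η) := by
      simp only [h0]
      exact ⟨le_max_right _ _, max_le ((min_le_right _ _).trans hx₀') hηpos.le⟩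
    exact intermediate_value_Icc hη.le hcon h1
  choose τ hτ hτ' using kk
  have hσ2 : σ * σ = 1 := by rcases hσ with h | h <;> rw [h] <;> norm_num
  have hσa : |σ| = 1 := by rcases hσ with h | h <;> rw [h] <;> simp
  have key : ∀ w ∈ range c, ‖w + I‖ < ε → 0 ≤ σ * w.re → ∀ x, 1 + w.im = max (min x x₀) 0 →
      w.re = (c (τ x)).re := by
    intro w hw h1 h2 x h3
    have h4 := hf w hw _ (mem_range_self (τ x)) h1 (hn _ (hτ x)) h2 (hpos' _ (hτ x))
    have h5 : w.im - (c (τ x)).im = 0 := by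
      have := hτ' x
      linarith
    rw [h5, abs_zero, mul_zero] at h4
    have := abs_nonpos_iff.1 h4
    linarith
  refine ⟨fun x => σ * (c (τ x)).re, ?_, ?_, ?_, ?_, ?_⟩
  · intro x y
    have h4 := hf _ (mem_range_self (τ x)) _ (mem_range_self (τ y)) (hn _ (hτ x)) (hn _ (hτ y))
      (hpos' _ (hτ x)) (hpos' _ (hτ y))
    have h5 : (c (τ x)).im - (c (τ y)).im = max (min x x₀) 0 - max (min y x₀) 0 := by
      have := hτ' x
      have := hτ' y
      linarith
    have h6 : |max (min x x₀) 0 - max (min y x₀) 0| ≤ |x - y| := by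
      refine (abs_max_sub_max_le_abs _ _ _).trans ?_
      refine (abs_min_sub_min_le_max _ _ _ _).trans ?_
      rw [sub_self, abs_zero]
      exact max_le le_rfl (abs_nonneg _)
    rw [h5] at h4
    rw [← mul_sub, abs_mul, hσa, one_mul]
    exact h4.trans (mul_le_mul_of_nonneg_left h6 hL')
  · intro x hx
    have h1 := key _ (mem_range_self 0) (hn 0 i0) (hpos' 0 i0) x (by
      rw [h0, min_eq_left (hx.trans hx₀.le), max_eq_right hx])
    simp only
    rw [← h1, P]; simp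
  · intro x hx
    have h1 : 0 < max (min x x₀) 0 := lt_max_of_lt_left (lt_min hx hx₀)
    have h2 : 0 < τ x := by
      refine lt_of_le_of_ne (hτ x).1 fun h => ?_
      have h3 := hτ' x
      rw [← h, h0] at h3
      linarith
    exact hpos _ ⟨h2, (hτ x).2⟩
  · intro w hw h1 h2 h3
    simp only
    rw [key w hw h1 h2 (1 + w.im) (by rw [min_eq_left h3, max_eq_left (hst w hw)])]
  · intro x hx
    have h1 := hτ' x
    rw [min_eq_left hx.2, max_eq_left hx.1.le] at h1
    refine ⟨τ x, ⟨lt_of_le_of_ne (hτ x).1 fun h => ?_, (hτ x).2⟩, h1⟩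
    rw [← h, h0] at h1
    linarith [hx.1]

/-- **Corner, two Lipschitz graphs.** -/
theorem corner_lip (L : Loop c) (J : Inj c) (H : Hf c M q) (hM : Continuous M)
    (hz : ∀ z, M z = 0 → z ∈ range c) (A : Ang c M θ g)
    (rp : ∀ t ∈ Ioo 0 q, 0 < (c t).re) (rn : ∀ t ∈ Ioo q 1, (c t).re < 0)
    {ε L₁ L₂ : ℝ} (hε : 0 < ε) (h10 : 0 ≤ L₁) (h20 : 0 ≤ L₂) (hL : L₁ + L₂ < 1)
    (hf : ∀ z ∈ range c, ∀ w ∈ range c, ‖z + I‖ < ε → ‖w + I‖ < ε → 0 ≤ z.re → 0 ≤ w.re →
      |z.re - w.re| ≤ L₁ * |z.im - w.im|)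
    (hg : ∀ z ∈ range c, ∀ w ∈ range c, ‖z + I‖ < ε → ‖w + I‖ < ε → z.re ≤ 0 → w.re ≤ 0 →
      |z.re - w.re| ≤ L₂ * |z.im - w.im|) : Corner θ q := by
  have q0 := H.q0
  have q1 := H.q1
  have hc := L.cont
  have hst : ∀ w ∈ range c, 0 ≤ 1 + w.im := by
    rintro _ ⟨t, rfl⟩
    have := (abs_le.1 (H.st t)).1
    linarith
  have hmI : -I ∈ range c := ⟨0, H.P⟩
  have hnI : ‖-I + I‖ < ε := by simpa using hε
  have narrow : ∀ z ∈ range c, z ≠ -I → ‖z + I‖ < ε → |z.re| < 1 + z.im := by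
    intro z hzc hne hn
    have h1 : |z.re| ≤ max L₁ L₂ * (1 + z.im) := by
      rcases le_total 0 z.re with h | h
      · have := hf z hzc _ hmI hn hnI h (by simp)
        rw [neg_re, I_re, neg_zero, sub_zero, neg_im, I_im, sub_neg_eq_add, add_comm z.im,
          abs_of_nonneg (hst z hzc)] at this
        exact this.trans (mul_le_mul_of_nonneg_right (le_max_left _ _) (hst z hzc))
      · have := hg z hzc _ hmI hn hnI h (by simp)
        rw [neg_re, I_re, neg_zero, sub_zero, neg_im, I_im, sub_neg_eq_add, add_comm z.im,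
          abs_of_nonneg (hst z hzc)] at this
        exact this.trans (mul_le_mul_of_nonneg_right (le_max_right _ _) (hst z hzc))
    have h2 : max L₁ L₂ < 1 := max_lt (by linarith) (by linarith)
    have h3 : 0 < 1 + z.im := by
      refine lt_of_le_of_ne (hst z hzc) fun h => hne ?_
      rw [← h, mul_zero] at h1
      have := abs_nonpos_iff.1 h1
      apply Complex.ext
      · simp [this]
      · simp; linarith
    nlinarith
  obtain ⟨η, η0, η1, η2, hη⟩ := prep L H hε
  obtain ⟨a1, a2, a3⟩ := exists_fn (c := c) hc H.P (ε := ε) (η := η) (L' := L₁) (σ := 1)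
    (Or.inl rfl) h10 η0 hst hη
    (by
      intro s hs t ht h
      rcases lt_trichotomy s t with h1 | h1 | h1
      · exact absurd h (J s t h1 (by linarith [hs.1, ht.2]))
      · exact h1
      · exact absurd h.symm (J t s h1 (by linarith [ht.1, hs.2])))
    (by
      intro t ht
      rw [one_mul]
      exact rp t ⟨ht.1, by linarith [ht.2]⟩)
    (by simpa only [one_mul] using hf)
  have e2 : ∀ y, c y = c (y - 1) := fun y => by
    have := L.per (y - 1); rwa [sub_add_cancel] at this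
  have hr : range (fun t => c (-t)) = range c := range_rev
  obtain ⟨b1, b2, b3⟩ := exists_fn (c := fun t => c (-t)) (by fun_prop) (by simp only [neg_zero, H.P])
    (ε := ε) (η := η) (L' := L₂) (σ := -1) (Or.inr rfl) h20 η0 (by rw [hr]; exact hst)
    (by
      intro t ht
      exact hη _ (by rw [abs_neg]; exact ht))
    (by
      intro s hs t ht h
      rcases lt_trichotomy s t with h1 | h1 | h1
      · exact absurd h.symm (J (-t) (-s) (by linarith) (by linarith [hs.1, ht.2]))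
      · exact h1
      · exact absurd h (J (-s) (-t) (by linarith) (by linarith [ht.1, hs.2])))
    (by
      intro t ht
      have h1 := rn (-t + 1) ⟨by linarith [ht.2], by linarith [ht.1]⟩
      rw [L.per] at h1
      linarith)
    (by
      rw [hr]
      intro z hz w hw h1 h2 h3 h4
      exact hg z hz w hw h1 h2 (by linarith) (by linarith))
  obtain ⟨x₀, hx₀⟩ : ∃ x₀, x₀ = min (1 + (c η).im) (1 + (c (-η)).im) := ⟨_, rfl⟩
  have hx₀0 : 0 < x₀ := by rw [hx₀]; exact lt_min a1 b1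
  obtain ⟨f, f1, f2, f3, f4, f5⟩ := a3 x₀ hx₀0 (by rw [hx₀]; exact min_le_left _ _)
  obtain ⟨g', g1, g2, g3, g4, g5⟩ := b3 x₀ hx₀0 (by rw [hx₀]; exact min_le_right _ _)
  rw [hr] at g4
  obtain ⟨ε', hε'⟩ : ∃ ε', ε' = min x₀ (ε / 16) := ⟨_, rfl⟩
  have hε'0 : 0 < ε' := by rw [hε']; exact lt_min hx₀0 (by positivity)
  have hε'1 : ε' ≤ x₀ := by rw [hε']; exact min_le_left _ _
  have hε'2 : ε' ≤ ε / 16 := by rw [hε']; exact min_le_right _ _
  obtain ⟨s, hs, t, ht, k1, k2⟩ := LipR.exists_pt h10 h20 hL f1 g1 f2 g2 f3 g3 hε'0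
  obtain ⟨x1, hx1, ex1⟩ := f5 s ⟨hs.1, by linarith [hs.2]⟩
  obtain ⟨y', hy', ey'⟩ := g5 t ⟨ht.1, by linarith [ht.2]⟩
  have fn : ∀ x, 0 ≤ f x := fun x => by
    rcases le_or_gt x 0 with h | h
    · rw [f2 x h]
    · exact (f3 x h).le
  have gn : ∀ x, 0 ≤ g' x := fun x => by
    rcases le_or_gt x 0 with h | h
    · rw [g2 x h]
    · exact (g3 x h).le
  have fL : ∀ x, 0 ≤ x → f x ≤ x := fun x hx => by
    have := (abs_le.1 (f1 x 0)).2
    rw [f2 0 le_rfl, sub_zero, sub_zero, abs_of_nonneg hx] at this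
    nlinarith
  have gL : ∀ x, 0 ≤ x → g' x ≤ x := fun x hx => by
    have := (abs_le.1 (g1 x 0)).2
    rw [g2 0 le_rfl, sub_zero, sub_zero, abs_of_nonneg hx] at this
    nlinarith
  -- points of the two arcs
  have pa : ∀ x ∈ Icc 0 η, (c x).re = f (1 + (c x).im) ∨ x₀ < 1 + (c x).im := by
    intro x hx
    rcases le_or_gt (1 + (c x).im) x₀ with h | h
    · left
      have := f4 _ (mem_range_self x) (hη x (by rw [abs_of_nonneg hx.1]; exact hx.2)) (by
        rw [one_mul]; exact H.rp x ⟨hx.1, by linarith [hx.2]⟩) h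
      rwa [one_mul] at this
    · exact Or.inr h
  have pb : ∀ y ∈ Icc 0 η, -(c (-y)).re = g' (1 + (c (-y)).im) ∨ x₀ < 1 + (c (-y)).im := by
    intro y hy
    rcases le_or_gt (1 + (c (-y)).im) x₀ with h | h
    · left
      have h1 := H.rn (-y + 1) ⟨by linarith [hy.2], by linarith [hy.1]⟩
      rw [L.per] at h1
      have := g4 _ (mem_range_self (-y)) (hη _ (by rw [abs_neg, abs_of_nonneg hy.1]; exact hy.2))
        (by linarith) h
      rwa [neg_one_mul] at this
    · exact Or.inr h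
  have hx1re : (c x1).re = f s := by
    rcases pa x1 ⟨hx1.1.le, hx1.2⟩ with h | h
    · rw [h, ex1]
    · linarith [hs.2]
  have hy1c : c (1 - y') = c (-y') := by rw [e2]; congr 1; ring
  have hy1re : (c (1 - y')).re = -g' t := by
    rcases pb y' ⟨hy'.1.le, hy'.2⟩ with h | h
    · rw [hy1c]
      rw [ey'] at h
      linarith
    · linarith [ht.2]
  have hy1im : 1 + (c (1 - y')).im = t := by rw [hy1c, ey']
  have hLL : L₁ * L₂ ≤ 1 := by nlinarith
  refine corner_two A (x1 := x1) (y1 := 1 - y') ⟨hx1.1, by linarith [hx1.2]⟩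
    ⟨by linarith [hy'.2], by linarith [hy'.1]⟩ (by linarith [hx1.2, hy'.2]) ?_ ?_
  · intro x hx
    right
    have hxI : x ∈ Icc 0 η := ⟨hx.1, hx.2.trans hx1.2⟩
    have hmx := a2 hxI ⟨hx1.1.le, hx1.2⟩ hx.2
    simp only at hmx
    rw [ex1] at hmx
    have hs'0 := hst _ (mem_range_self x)
    have hxre : (c x).re = f (1 + (c x).im) := by
      rcases pa x hxI with h | h
      · exact h
      · linarith [hs.2]
    obtain ⟨s', hs'⟩ : ∃ s', s' = 1 + (c x).im := ⟨_, rfl⟩
    rw [← hs'] at hmx hs'0 hxre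
    have g0t := gn t
    have gLt := gL t ht.1.le
    have gx2 := gn (t - (f s + g' t))
    have v1 : (CC c x (1 - y')).re = -g' t - (t - s') := by
      rw [CC_re, hy1re, hs', ← hy1im]; ring
    have v2 : 1 + (CC c x (1 - y')).im = t - (f s' + g' t) := by
      rw [CC_im, hy1re, hxre, ← hy1im]; ring
    refine up hM hz H.out hst hε narrow (σ := -1) (Or.inr rfl) ?_ ?_ ?_ ?_
    · rw [v1]; linarith
    · rw [v2]; linarith [fn s', ht.2]
    · rw [v1]; linarith [ht.2]
    · intro w hw h1 h2 h3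
      rw [v1] at h2
      have h4 := hst w hw
      have h5 : 1 + w.im = t - (f s' + g' t) := by rw [h1, v2]
      have h6 := g4 w hw h3 (by linarith) (by rw [h5]; linarith [fn s', ht.2])
      rw [h5] at h6
      have h7 := (abs_le.1 (g1 (t - (f s' + g' t)) (t - (f s + g' t)))).2
      have h8 := f1 s s'
      have h9 : |t - (f s' + g' t) - (t - (f s + g' t))| = |f s - f s'| := by
        congr 1; ring
      rw [h9] at h7
      rw [abs_of_nonneg (by linarith : 0 ≤ s - s')] at h8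
      have h10' : L₂ * |f s - f s'| ≤ L₂ * (L₁ * (s - s')) := mul_le_mul_of_nonneg_left h8 h20
      have h11 : L₁ * L₂ * (s - s') ≤ 1 * (s - s') :=
        mul_le_mul_of_nonneg_right hLL (by linarith)
      linarith
  · intro y hy
    left
    obtain ⟨r, hr⟩ : ∃ r, r = 1 - y := ⟨_, rfl⟩
    have hrI : r ∈ Icc 0 η := ⟨by linarith [hy.2], by linarith [hy.1, hy'.2]⟩
    have hyr : c y = c (-r) := by rw [e2, hr]; congr 1; ring
    have hmy := b2 hrI ⟨hy'.1.le, hy'.2⟩ (by linarith [hy.1])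
    simp only at hmy
    rw [ey'] at hmy
    have ht'0 := hst _ (mem_range_self (-r))
    have hyre : (c y).re = -g' (1 + (c (-r)).im) := by
      rw [hyr]
      rcases pb r hrI with h | h
      · linarith
      · linarith [ht.2]
    obtain ⟨t', ht'⟩ : ∃ t', t' = 1 + (c (-r)).im := ⟨_, rfl⟩
    rw [← ht'] at hmy ht'0 hyre
    have f0s := fn s
    have fLs := fL s hs.1.le
    have fx1 := fn (s - (f s + g' t))
    have v1 : (DD c x1 y).re = f s + (s - t') := by
      rw [DD_re, hx1re, ht', ← ex1, hyr]; ring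
    have v2 : 1 + (DD c x1 y).im = s - (f s + g' t') := by
      rw [DD_im, hx1re, hyre]; linarith
    refine up hM hz H.out hst hε narrow (σ := 1) (Or.inl rfl) ?_ ?_ ?_ ?_
    · rw [v1]; linarith
    · rw [v2]; linarith [gn t', hs.2]
    · rw [v1]; linarith [hs.2]
    · intro w hw h1 h2 h3
      rw [v1] at h2
      have h4 := hst w hw
      have h5 : 1 + w.im = s - (f s + g' t') := by rw [h1, v2]
      have h6 := f4 w hw h3 (by linarith) (by rw [h5]; linarith [gn t', hs.2])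
      rw [h5] at h6
      have h7 := (abs_le.1 (f1 (s - (f s + g' t')) (s - (f s + g' t)))).2
      have h8 := g1 t t'
      have h9 : |s - (f s + g' t') - (s - (f s + g' t))| = |g' t - g' t'| := by
        congr 1; ring
      rw [h9] at h7
      rw [abs_of_nonneg (by linarith : 0 ≤ t - t')] at h8
      have h10' : L₁ * |g' t - g' t'| ≤ L₁ * (L₂ * (t - t')) := mul_le_mul_of_nonneg_left h8 h10
      have h11 : L₁ * L₂ * (t - t') ≤ 1 * (t - t') :=
        mul_le_mul_of_nonneg_right hLL (by linarith)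
      linarith

end Pool.Agent.J4H19.StripA
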