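import Pool.Agent.J4H19.StripB
import Pool.Agent.J4H19.StripD

/-! Curves in a strip: the theorem. -/

set_option autoImplicit false
open Complex Set Topology Metric

namespace Pool.Agent.J4H19.StripA

open Pool.Agent.H763R2.An
open Pool.Agent.H763R2.Dm (NoSq)

variable {c : ℝ → ℂ} {M : ℂ → ℝ} {θ : ℝ → ℝ → ℝ} {g : ℤ} {q : ℝ}

/-- the condition at the lower point -/
def CondS (c : ℝ → ℂ) (q : ℝ) : Prop :=
  (∀ ε > 0, ∃ z ∈ range c, z ≠ -I ∧ ‖z + I‖ < ε ∧ 1 + z.im ≤ |z.re|) ∨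
  (∃ ε > 0, ∀ z ∈ range c, ∀ w ∈ range c, ‖z + I‖ < ε → ‖w + I‖ < ε → w.re < z.re → z.re < 0 →
      z.re - (1 + z.im) < w.re → z.im + z.re ≤ w.im) ∨
  (∃ ε > 0, ∀ z ∈ range c, ∀ w ∈ range c, ‖z + I‖ < ε → ‖w + I‖ < ε → 0 < z.re → z.re < w.re →
      w.re < z.re + (1 + z.im) → z.im - z.re ≤ w.im) ∨
  (∃ x y : ℝ → ℝ, ContinuousOn x (Icc 0 1) ∧ ContinuousOn y (Icc 0 1) ∧ x 0 = 0 ∧ y 1 = 1 ∧
    ∀ t ∈ Icc (0:ℝ) 1, x t ∈ Icc 0 q ∧ y t ∈ Icc q 1 ∧ x t < y t ∧ y t < x t + 1 ∧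
      Gd (range c) (c (x t)) (c (y t))) ∨
  ∃ ε > 0, ∃ L₁ ≥ 0, ∃ L₂ ≥ 0, L₁ + L₂ < 1 ∧
    (∀ z ∈ range c, ∀ w ∈ range c, ‖z + I‖ < ε → ‖w + I‖ < ε → 0 ≤ z.re → 0 ≤ w.re →
      |z.re - w.re| ≤ L₁ * |z.im - w.im|) ∧
    ∀ z ∈ range c, ∀ w ∈ range c, ‖z + I‖ < ε → ‖w + I‖ < ε → z.re ≤ 0 → w.re ≤ 0 →
      |z.re - w.re| ≤ L₂ * |z.im - w.im|

theorem corner_star (L : Loop c) (J : Inj c) (H : Hf c M q) (hM : Continuous M)
    (hz : ∀ z, M z = 0 → z ∈ range c) (A : Ang c M θ g)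
    (rp : ∀ t ∈ Ioo 0 q, 0 < (c t).re) (rn : ∀ t ∈ Ioo q 1, (c t).re < 0) (K : CondS c q) :
    Corner θ q := by
  by_cases hW : ∀ ε > 0, ∃ z ∈ range c, z ≠ -I ∧ ‖z + I‖ < ε ∧ 1 + z.im ≤ |z.re|
  · exact corner_of_cond L J H A rp rn (Or.inl hW)
  have hnar : ∃ ε > 0, ∀ z ∈ range c, z ≠ -I → ‖z + I‖ < ε → |z.re| < 1 + z.im := by
    by_contra hcon
    apply hW
    intro ε hε
    by_contra h2
    apply hcon
    refine ⟨ε, hε, fun z hz h3 h4 => ?_⟩
    by_contra h5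
    exact h2 ⟨z, hz, h3, h4, not_lt.1 h5⟩
  obtain ⟨ε', hε', narrow⟩ := hnar
  rcases K with K | ⟨ε, hε, hN⟩ | ⟨ε, hε, hN⟩ | ⟨x, y, cx, cy, x0, y1, h⟩ |
    ⟨ε, hε, L₁, h10, L₂, h20, hL, hf, hg⟩
  · exact absurd K hW
  · refine corner_left L J H hM hz A rp rn (lt_min hε hε')
      (fun z hz h1 h2 => narrow z hz h1 (h2.trans_le (min_le_right _ _)))
      (fun z hz w hw h1 h2 h3 h4 => ?_)
    rcases lt_or_ge (z.re - (1 + z.im)) w.re with h5 | h5
    · exact hN z hz w hw (h1.trans_le (min_le_left _ _)) (h2.trans_le (min_le_left _ _)) h3 h4 h5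
    · have hw0 := h3.trans h4
      have := narrow w hw (by rintro rfl; simp at hw0) (h2.trans_le (min_le_right _ _))
      rw [abs_of_neg hw0] at this
      linarith
  · refine corner_right L J H hM hz A rp rn (lt_min hε hε')
      (fun z hz h1 h2 => narrow z hz h1 (h2.trans_le (min_le_right _ _)))
      (fun z hz w hw h1 h2 h3 h4 => ?_)
    rcases lt_or_ge w.re (z.re + (1 + z.im)) with h5 | h5
    · exact hN z hz w hw (h1.trans_le (min_le_left _ _)) (h2.trans_le (min_le_left _ _)) h3 h4 h5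
    · have hw0 := h3.trans h4
      have := narrow w hw (by rintro rfl; simp at hw0) (h2.trans_le (min_le_right _ _))
      rw [abs_of_pos hw0] at this
      linarith
  · have i0 : (0:ℝ) ∈ Icc (0:ℝ) 1 := ⟨le_rfl, zero_le_one⟩
    have i1 : (1:ℝ) ∈ Icc (0:ℝ) 1 := ⟨zero_le_one, le_rfl⟩
    refine corner_path A cx cy (fun t ht => (h t ht).2.2.1) (fun t ht => (h t ht).2.2.2.1) x0
      ⟨(h 0 i0).2.1.1, ?_⟩ ⟨?_, (h 1 i1).1.2⟩ y1 fun t ht => ?_
    · have := (h 0 i0).2.2.2.1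
      rw [x0] at this
      linarith
    · have := (h 1 i1).2.2.2.1
      rw [y1] at this
      linarith
    · obtain ⟨g1, g2, -, -, g3⟩ := h t ht
      exact gd_out H.st hM hz H.out (H.rp _ g1) (H.rn _ g2) g3
  · exact corner_lip L J H hM hz A rp rn hε h10 h20 hL hf hg

theorem strip_zero (L : Loop c) (J : Inj c) (q0 : 0 < q) (q1 : q < 1) (P : c 0 = -I)
    (Q : c q = I) (st : ∀ t, |(c t).im| ≤ 1) (rp : ∀ t ∈ Ioo 0 q, 0 < (c t).re)
    (rn : ∀ t ∈ Ioo q 1, (c t).re < 0) (hM : Continuous M) (hz : ∀ z, M z = 0 → z ∈ range c)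
    (hM1 : ∀ z : ℂ, z.im ≤ -1 → M z ≤ 0)
    (hM2 : ∀ z : ℂ, 1 ≤ z.im → M z ≤ 0) (A : Ang c M θ g) (KP : CondS c q)
    (KQ : CondS (fun t => - c (t + q)) (1 - q)) : g = 0 := by
  have P1 : c 1 = -I := by have := L.per 0; rwa [zero_add, P] at this
  have rp' : ∀ t ∈ Icc 0 q, 0 ≤ (c t).re := by
    intro t ht
    rcases lt_or_eq_of_le ht.1 with h | h
    · rcases lt_or_eq_of_le ht.2 with h' | h'
      · exact (rp t ⟨h, h'⟩).le
      · rw [h', Q]; simp
    · rw [← h, P]; simp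
  have rn' : ∀ t ∈ Icc q 1, (c t).re ≤ 0 := by
    intro t ht
    rcases lt_or_eq_of_le ht.1 with h | h
    · rcases lt_or_eq_of_le ht.2 with h' | h'
      · exact (rn t ⟨h, h'⟩).le
      · rw [h', P1]; simp
    · rw [← h, Q]; simp
  have H1 : Hf c M q := ⟨q0, q1, P, P1, st, rp', rn', hM1⟩
  have T1 := H1.turn A (corner_star L J H1 hM hz A rp rn KP)
  have A2 := (A.shift q).rot
  have L2 := (L.shift q).negc
  have J2 : Inj (fun t => - c (t + q)) := fun x y h1 h2 h =>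
    (J.shift q) x y h1 h2 (neg_injective h)
  have H2 : Hf (fun t => - c (t + q)) (fun z => M (-z)) (1 - q) := by
    refine ⟨by linarith, by linarith, ?_, ?_, ?_, ?_, ?_, ?_⟩
    · simp only [zero_add, Q]
    · have := L.per q
      rw [add_comm, Q] at this
      simp only [this]
    · intro t; rw [neg_im, abs_neg]; exact st _
    · intro t ht
      have := rn' (t + q) ⟨by linarith [ht.1], by linarith [ht.2]⟩
      rw [neg_re]; linarith
    · intro t ht
      have := rp' (t + q - 1) ⟨by linarith [ht.1], by linarith [ht.2]⟩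
      have e := L.per (t + q - 1)
      rw [sub_add_cancel] at e
      rw [neg_re, e]; linarith
    · intro z hz
      exact hM2 _ (by rw [neg_im]; linarith)
  have hrange : range (fun t => - c (t + q)) = {z | -z ∈ range c} := by
    ext z
    simp only [mem_range, mem_ofPred_eq]
    constructor
    · rintro ⟨t, rfl⟩; exact ⟨t + q, by ring⟩
    · rintro ⟨t, ht⟩; exact ⟨t - q, by rw [sub_add_cancel, ht, neg_neg]⟩
  have T2 := H2.turn A2 (corner_star L2 J2 H2 (hM.comp continuous_neg) (fun z h => by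
      rw [hrange]
      exact hz _ h) A2 (fun t ht => by
      have := rn (t + q) ⟨by linarith [ht.1], by linarith [ht.2]⟩
      rw [neg_re]; linarith) (fun t ht => by
      have := rp (t + q - 1) ⟨by linarith [ht.1], by linarith [ht.2]⟩
      have e := L.per (t + q - 1)
      rw [sub_add_cancel] at e
      rw [neg_re, e]; linarith) KQ)
  have T2' : Nf θ q 1 = Nf θ (0 + 1) (q + 1) := by
    have e1 : Nf (fun x y => θ (x + q) (y + q)) 0 (1 - q) = Nf θ q 1 := by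
      unfold Nf; simp only [zero_add, sub_add_cancel]
    have e2 : Nf (fun x y => θ (x + q) (y + q)) (1 - q) 1 = Nf θ (0 + 1) (q + 1) := by
      unfold Nf; simp only [zero_add, sub_add_cancel]; rw [add_comm 1 q]
    rw [← e1, ← e2]; exact T2
  rw [A.Nf_per q0 (by linarith)] at T2'
  linarith

/-- **The theorem for normalised curves.** -/
theorem strip_main (L : Loop c) (J : Inj c) (q0 : 0 < q) (q1 : q < 1) (P : c 0 = -I)
    (Q : c q = I) (st : ∀ t, |(c t).im| ≤ 1) (rp : ∀ t ∈ Ioo 0 q, 0 < (c t).re)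
    (rn : ∀ t ∈ Ioo q 1, (c t).re < 0) (KP : CondS c q)
    (KQ : CondS (fun t => - c (t + q)) (1 - q)) : ¬ NoSq (range c) := by
  intro nosq
  obtain ⟨θ, g, A, ho⟩ := exists_odd L J nosq
  have hg := strip_zero L J q0 q1 P Q st rp rn (mgc_sg L).cont
    (fun z h => (mgc_sg L).zero L |>.1 h)
    (fun z hz => mgc_bot L (fun t => (abs_le.1 (st t)).1) hz)
    (fun z hz => mgc_top L (fun t => (abs_le.1 (st t)).2) hz) A KP KQ
  rw [hg] at ho
  exact absurd ho (by decide)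

/-- The condition in terms of the two coordinates `x`, `y` (up to a factor) of the points of the two
arcs; the first arc has the parameters `s > 0`, the second one the parameters `-t < 0`. -/
def EndC (x y : ℝ → ℝ) (a b : ℝ) : Prop :=
  (∃ ε > 0, ∀ s ∈ Ioo 0 ε, ∀ t ∈ Icc 0 a, y s < y t → y t < y s + x s → x s - y s ≤ x t) ∨
  (∃ ε > 0, ∀ s ∈ Ioo 0 ε, ∀ t ∈ Icc 0 b, y (-s) < y (-t) → y (-t) < y (-s) + x (-s) →
    x (-s) - y (-s) ≤ x (-t)) ∨
  (∀ ε > 0, ∃ s ∈ Ioo 0 ε, x s ≤ y s ∨ x (-s) ≤ y (-s)) ∨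
  (∃ s t : ℝ → ℝ, ContinuousOn s (Icc 0 1) ∧ ContinuousOn t (Icc 0 1) ∧ s 0 = 0 ∧ t 1 = 0 ∧
    ∀ τ ∈ Icc (0:ℝ) 1, s τ ∈ Icc 0 a ∧ t τ ∈ Icc 0 b ∧ 0 < s τ + t τ ∧ s τ + t τ < 1 ∧
    (min (x (s τ)) (x (-t τ)) ≤ y (s τ) + y (-t τ) ∨
      (x (-t τ) ≤ x (s τ) ∧ ∀ s' ∈ Icc 0 a, y (s τ) < y s' → y s' < y (s τ) + x (s τ) →
        x (s τ) - y (s τ) ≤ x s') ∨
      (x (s τ) ≤ x (-t τ) ∧ ∀ t' ∈ Icc 0 b, y (-t τ) < y (-t') →
        y (-t') < y (-t τ) + x (-t τ) → x (-t τ) - y (-t τ) ≤ x (-t')))) ∨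
  ∃ ε > 0, ∃ L₁ ≥ 0, ∃ L₂ ≥ 0, L₁ + L₂ < 1 ∧
    (∀ s ∈ Icc 0 ε, ∀ t ∈ Icc 0 ε, |y s - y t| ≤ L₁ * |x s - x t|) ∧
    ∀ s ∈ Icc 0 ε, ∀ t ∈ Icc 0 ε, |y (-s) - y (-t)| ≤ L₂ * |x (-s) - x (-t)|

theorem conds_of (L : Loop c) (J : Inj c) (q0 : 0 < q) (q1 : q < 1) (P : c 0 = -I) (Q : c q = I)
    (rp : ∀ t ∈ Ioo 0 q, 0 < (c t).re) (rn : ∀ t ∈ Ioo q 1, (c t).re < 0) {x y : ℝ → ℝ}
    (hx : ∀ t, 1 + (c t).im = 2 * x t) (hy : ∀ t, |(c t).re| = 2 * y t)
    (E : EndC x y q (1 - q)) : CondS c q := by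
  have P1 : c 1 = -I := by have := L.per 0; rwa [zero_add, P] at this
  have rp' : ∀ t ∈ Icc 0 q, 0 ≤ (c t).re := by
    intro t ht
    rcases lt_or_eq_of_le ht.1 with h | h
    · rcases lt_or_eq_of_le ht.2 with h' | h'
      · exact (rp t ⟨h, h'⟩).le
      · rw [h', Q]; simp
    · rw [← h, P]; simp
  have rn' : ∀ t ∈ Icc q 1, (c t).re ≤ 0 := by
    intro t ht
    rcases lt_or_eq_of_le ht.1 with h | h
    · rcases lt_or_eq_of_le ht.2 with h' | h'
      · exact (rn t ⟨h, h'⟩).le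
      · rw [h', P1]; simp
    · rw [← h, Q]; simp
  have e2 : ∀ y, c y = c (y - 1) := fun y => by
    have := L.per (y - 1); rwa [sub_add_cancel] at this
  have yp : ∀ t ∈ Icc 0 q, (c t).re = 2 * y t := fun t ht => by
    rw [← hy, abs_of_nonneg (rp' t ht)]
  have yn : ∀ t ∈ Icc q 1, (c t).re = -(2 * y (t - 1)) := fun t ht => by
    have := rn' t ht
    rw [e2] at this ⊢
    rw [← hy, abs_of_nonpos this, neg_neg]
  have xn : ∀ t, 1 + (c t).im = 2 * x (t - 1) := fun t => by rw [e2, hx]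
  have near : ∀ ε > 0, ∃ δ > 0, (∀ z ∈ range c, ‖z + I‖ < δ → 0 < z.re →
      ∃ t ∈ Ioo 0 ε, c t = z) ∧ ∀ z ∈ range c, ‖z + I‖ < δ → z.re < 0 →
      ∃ t ∈ Ioo 0 ε, c (-t) = z := by
    intro ε hε
    obtain ⟨η, hη0, hη1, hη2, hη3, hη4⟩ : ∃ η > 0, η ≤ ε ∧ η < 1 / 2 ∧ η < q ∧ η < 1 - q := by
      refine ⟨min ε (min (1 / 4) (min (q / 2) ((1 - q) / 2))), ?_, min_le_left _ _, ?_, ?_, ?_⟩
      · exact lt_min hε (lt_min (by norm_num) (lt_min (by linarith) (by linarith)))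
      · exact ((min_le_right _ _).trans (min_le_left _ _)).trans_lt (by norm_num)
      · exact ((min_le_right _ _).trans ((min_le_right _ _).trans (min_le_left _ _))).trans_lt
          (by linarith)
      · exact ((min_le_right _ _).trans ((min_le_right _ _).trans (min_le_right _ _))).trans_lt
          (by linarith)
    obtain ⟨δ, hδ, hδ'⟩ := L.near J.inj0 hη0 hη2
    refine ⟨δ, hδ, ?_, ?_⟩
    · intro z hz hn hre
      obtain ⟨t, ht, rfl⟩ := hδ' z hz (by rw [P, sub_neg_eq_add]; exact hn)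
      refine ⟨t, ⟨?_, by linarith [ht.2]⟩, rfl⟩
      by_contra hcon
      push Not at hcon
      have := rn' (t + 1) ⟨by linarith [ht.1], by linarith⟩
      rw [L.per] at this
      linarith
    · intro z hz hn hre
      obtain ⟨t, ht, rfl⟩ := hδ' z hz (by rw [P, sub_neg_eq_add]; exact hn)
      refine ⟨-t, ⟨?_, by linarith [ht.1]⟩, by rw [neg_neg]⟩
      by_contra hcon
      push Not at hcon
      have := rp' t ⟨by linarith, by linarith [ht.2]⟩
      linarith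
  rcases E with ⟨ε, hε, h⟩ | ⟨ε, hε, h⟩ | h | ⟨s, t, cs, ct, s0, t1, h1⟩ |
    ⟨ε, hε, L₁, h10, L₂, h20, hL, hf, hg⟩
  · right; right; left
    obtain ⟨δ, hδ, n1, -⟩ := near (min ε q) (lt_min hε q0)
    refine ⟨δ, hδ, ?_⟩
    intro z hz w hw hzn hwn hz0 hzw hb
    obtain ⟨s, hs, rfl⟩ := n1 z hz hzn hz0
    obtain ⟨t, ht, rfl⟩ := n1 w hw hwn (hz0.trans hzw)
    have hs' : s < ε ∧ s < q := ⟨hs.2.trans_le (min_le_left _ _), hs.2.trans_le (min_le_right _ _)⟩
    have ht' : t < ε ∧ t < q := ⟨ht.2.trans_le (min_le_left _ _), ht.2.trans_le (min_le_right _ _)⟩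
    have k1 := yp s ⟨hs.1.le, hs'.2.le⟩
    have k2 := yp t ⟨ht.1.le, ht'.2.le⟩
    have k3 := hx s
    have k4 := hx t
    have := h s ⟨hs.1, hs'.1⟩ t ⟨ht.1.le, ht'.2.le⟩ (by linarith) (by linarith)
    linarith
  · right; left
    obtain ⟨δ, hδ, -, n1⟩ := near (min ε (1 - q)) (lt_min hε (by linarith))
    refine ⟨δ, hδ, ?_⟩
    intro z hz w hw hzn hwn hzw hz0 hb
    obtain ⟨s, hs, rfl⟩ := n1 z hz hzn hz0
    obtain ⟨t, ht, rfl⟩ := n1 w hw hwn (hzw.trans hz0)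
    have hs' : s < ε ∧ s < 1 - q :=
      ⟨hs.2.trans_le (min_le_left _ _), hs.2.trans_le (min_le_right _ _)⟩
    have ht' : t < ε ∧ t < 1 - q :=
      ⟨ht.2.trans_le (min_le_left _ _), ht.2.trans_le (min_le_right _ _)⟩
    have k1 := hy (-s)
    have k2 := hy (-t)
    rw [abs_of_neg hz0] at k1
    rw [abs_of_neg (hzw.trans hz0)] at k2
    have k3 := hx (-s)
    have k4 := hx (-t)
    have := h s ⟨hs.1, hs'.1⟩ t ⟨ht.1.le, ht'.2.le⟩ (by linarith) (by linarith)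
    linarith
  · left
    intro ε hε
    obtain ⟨d, hd, hd'⟩ := Metric.continuousAt_iff.1 (L.cont.continuousAt (x := 0)) ε hε
    obtain ⟨s, hs, h3⟩ := h (min d 1) (lt_min hd one_pos)
    have hs' : s < d ∧ s < 1 := ⟨hs.2.trans_le (min_le_left _ _), hs.2.trans_le (min_le_right _ _)⟩
    rcases h3 with h3 | h3
    · refine ⟨c s, mem_range_self _, ?_, ?_, ?_⟩
      · rw [← P]; exact J.inj0 s hs.1 hs'.2
      · have := hd' (x := s) (by rw [dist_zero_right, Real.norm_eq_abs, abs_of_pos hs.1]; exact hs'.1)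
        rwa [dist_eq_norm, P, sub_neg_eq_add] at this
      · rw [hx, hy]; linarith
    · refine ⟨c (-s), mem_range_self _, ?_, ?_, ?_⟩
      · have := J (-s) 0 (by linarith [hs.1]) (by linarith [hs'.2])
        rwa [P] at this
      · have := hd' (x := -s) (by
          rw [dist_zero_right, Real.norm_eq_abs, abs_neg, abs_of_pos hs.1]; exact hs'.1)
        rwa [dist_eq_norm, P, sub_neg_eq_add] at this
      · rw [hx, hy]; linarith
  · right; right; right; left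
    refine ⟨s, fun τ => 1 - t τ, cs, continuousOn_const.sub ct, s0, by simp only [t1, sub_zero],
      fun τ hτ => ?_⟩
    obtain ⟨i1, i3, g1, g2, h1⟩ := h1 τ hτ
    show s τ ∈ Icc 0 q ∧ (1 - t τ) ∈ Icc q 1 ∧ s τ < 1 - t τ ∧ 1 - t τ < s τ + 1 ∧
      Gd (range c) (c (s τ)) (c (1 - t τ))
    generalize s τ = s at *
    generalize t τ = t at *
    have i2 : 1 - t ∈ Icc q 1 := ⟨by linarith [i3.2], by linarith [i3.1]⟩
    refine ⟨i1, i2, by linarith, by linarith, ?_⟩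
    have k1 := yp _ i1
    have k2 := yn _ i2
    have k3 := xn (1 - t)
    have k4 := hx s
    rw [show 1 - t - 1 = -t by ring] at k2 k3
    rcases h1 with h3 | ⟨h3, h4⟩ | ⟨h3, h4⟩
    · rcases min_le_iff.1 h3 with h3 | h3
      · left; linarith
      · right; left; linarith
    · right; right; left
      refine ⟨by linarith, ?_⟩
      intro w hw g1 g2
      obtain ⟨τ, hτ, rfl⟩ := L.par01 hw
      rcases le_or_gt τ q with h5 | h5
      · have k7 := hx τ
        have k8 := yp τ ⟨hτ.1, h5⟩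
        have := h4 τ ⟨hτ.1, h5⟩ (by linarith) (by linarith)
        linarith
      · have := rn' τ ⟨h5.le, hτ.2.le⟩
        have := rp' s i1
        linarith
    · right; right; right
      refine ⟨by linarith, ?_⟩
      intro w hw g1 g2
      obtain ⟨τ, hτ, rfl⟩ := L.par01 hw
      rcases le_or_gt τ q with h5 | h5
      · have := rp' τ ⟨hτ.1, h5⟩
        have := rn' (1 - t) i2
        linarith
      · have k7 := xn τ
        have k8 := yn τ ⟨h5.le, hτ.2.le⟩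
        have := h4 (1 - τ) ⟨by linarith [hτ.2], by linarith⟩
        rw [show -(1 - τ) = τ - 1 by ring] at this
        have := this (by linarith) (by linarith)
        linarith

  · right; right; right; right
    have near' : ∀ ε > 0, ∃ δ > 0, (∀ z ∈ range c, ‖z + I‖ < δ → 0 ≤ z.re →
        ∃ t ∈ Icc 0 ε, c t = z ∧ t ≤ q) ∧ ∀ z ∈ range c, ‖z + I‖ < δ → z.re ≤ 0 →
        ∃ t ∈ Icc 0 ε, c (-t) = z ∧ t ≤ 1 - q := by
      intro ε hε
      obtain ⟨η, hη0, hη1, hη2, hη3, hη4⟩ : ∃ η > 0, η ≤ ε ∧ η < 1 / 2 ∧ η < q ∧ η < 1 - q := by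
        refine ⟨min ε (min (1 / 4) (min (q / 2) ((1 - q) / 2))), ?_, min_le_left _ _, ?_, ?_, ?_⟩
        · exact lt_min hε (lt_min (by norm_num) (lt_min (by linarith) (by linarith)))
        · exact ((min_le_right _ _).trans (min_le_left _ _)).trans_lt (by norm_num)
        · exact ((min_le_right _ _).trans ((min_le_right _ _).trans (min_le_left _ _))).trans_lt
            (by linarith)
        · exact ((min_le_right _ _).trans ((min_le_right _ _).trans (min_le_right _ _))).trans_lt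
            (by linarith)
      obtain ⟨δ, hδ, hδ'⟩ := L.near J.inj0 hη0 hη2
      refine ⟨δ, hδ, ?_, ?_⟩
      · intro z hz hn hre
        obtain ⟨t, ht, rfl⟩ := hδ' z hz (by rw [P, sub_neg_eq_add]; exact hn)
        refine ⟨t, ⟨?_, by linarith [ht.2]⟩, rfl, by linarith [ht.2]⟩
        by_contra hcon
        push Not at hcon
        have := rn (t + 1) ⟨by linarith [ht.1], by linarith⟩
        rw [L.per] at this
        linarith
      · intro z hz hn hre
        obtain ⟨t, ht, rfl⟩ := hδ' z hz (by rw [P, sub_neg_eq_add]; exact hn)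
        refine ⟨-t, ⟨?_, by linarith [ht.1]⟩, by rw [neg_neg], by linarith [ht.1]⟩
        by_contra hcon
        push Not at hcon
        have := rp t ⟨by linarith, by linarith [ht.2]⟩
        linarith
    obtain ⟨δ, hδ, n1, n2⟩ := near' ε hε
    refine ⟨δ, hδ, L₁, h10, L₂, h20, hL, ?_, ?_⟩
    · intro z hz w hw h1 h2 h3 h4
      obtain ⟨s, hs, rfl, hsq⟩ := n1 z hz h1 h3
      obtain ⟨t, ht, rfl, htq⟩ := n1 w hw h2 h4
      have k1 := yp s ⟨hs.1, hsq⟩
      have k2 := yp t ⟨ht.1, htq⟩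
      have k3 := hx s
      have k4 := hx t
      have := hf s hs t ht
      rw [k1, k2, show 2 * y s - 2 * y t = 2 * (y s - y t) by ring,
        show (c s).im - (c t).im = 2 * (x s - x t) by linarith, abs_mul, abs_mul,
        abs_of_pos (by norm_num : (0:ℝ) < 2)]
      linarith
    · intro z hz w hw h1 h2 h3 h4
      obtain ⟨s, hs, rfl, hsq⟩ := n2 z hz h1 h3
      obtain ⟨t, ht, rfl, htq⟩ := n2 w hw h2 h4
      have k1 := hy (-s)
      have k2 := hy (-t)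
      rw [abs_of_nonpos h3] at k1
      rw [abs_of_nonpos h4] at k2
      have k3 := hx (-s)
      have k4 := hx (-t)
      have := hg s hs t ht
      rw [show (c (-s)).re - (c (-t)).re = -(2 * (y (-s) - y (-t))) by linarith,
        show (c (-s)).im - (c (-t)).im = 2 * (x (-s) - x (-t)) by linarith, abs_neg, abs_mul,
        abs_mul, abs_of_pos (by norm_num : (0:ℝ) < 2)]
      linarith

end Pool.Agent.J4H19.StripA
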